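import Mathlib

/-! D'Angelo's conjecture project: basic definitions. -/

open scoped ContDiff Topology BigOperators
open Finset

namespace DAng

/-! ### words: the head of the list is the letter acting first (innermost).
`true` = `L`, `false` = `L̄`. -/
abbrev Wd := List Bool

/-- conjugate word -/
def cj (w : Wd) : Wd := w.map (!·)

section words
variable {A : Type*}

/-- removal of the innermost letter -/
def D (a : Bool) (f : Wd → A) : Wd → A := fun w => f (a :: w)
def DU (a : Bool) (P : Wd → Wd → A) : Wd → Wd → A := fun u v => P (a :: u) v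
def DV (a : Bool) (P : Wd → Wd → A) : Wd → Wd → A := fun u v => P u (a :: v)

/-- sum of `P u v` over all ways to split `w` in two complementary subwords `u`, `v` -/
def unsh [Add A] : (Wd → Wd → A) → Wd → A
  | P, [] => P [] []
  | P, a :: w => unsh (DU a P) w + unsh (DV a P) w

/-- sum of `f w` over the shuffles `w` of `u` and `v` -/
def shf [Add A] : (Wd → A) → Wd → Wd → A
  | f, [], v => f v
  | f, a :: u, [] => f (a :: u)
  | f, a :: u, b :: v => shf (D a f) u (b :: v) + shf (D b f) (a :: u) v
termination_by _ u v => u.length + v.length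

/-- convolution product: `(f * g)(w) = ∑_{w = v ++ u} f u * g v` -/
def nmul [Mul A] [Add A] : (Wd → A) → (Wd → A) → Wd → A
  | f, g, [] => f [] * g []
  | f, g, a :: w => f (a :: w) * g [] + nmul f (D a g) w

/-- sum over all words of length `n` -/
def sumW [Add A] : ℕ → (Wd → A) → A
  | 0, F => F []
  | n + 1, F => sumW n (D true F) + sumW n (D false F)

/-- sum over all pairs of words of total length `k` -/
def sumP [AddCommMonoid A] (k : ℕ) (F : Wd → Wd → A) : A :=
  ∑ i ∈ range (k + 1), sumW i (fun u => sumW (k - i) (fun v => F u v))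

/-- iterated commutators `[X_k, [X_{k-1}, ... [X_2, X_1]]]` (`k :: ... :: [1]`) acting in the first
variable -/
def brU [AddGroup A] : Wd → (Wd → Wd → A) → (Wd → Wd → A)
  | [], _ => fun _ _ => 0
  | [a], P => DU a P
  | b :: a :: w, P => fun u v => DU b (brU (a :: w) P) u v - brU (a :: w) (DU b P) u v

/-- iterated commutators acting in the second variable -/
def brV [AddGroup A] : Wd → (Wd → Wd → A) → (Wd → Wd → A)
  | [], _ => fun _ _ => 0
  | [a], P => DV a P
  | b :: a :: w, P => fun u v => DV b (brV (a :: w) P) u v - brV (a :: w) (DV b P) u v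

/-- characters of the shuffle algebra, up to level `k` -/
def IsChar [Semiring A] (k : ℕ) (φ : Wd → A) : Prop :=
  φ [] = 1 ∧ ∀ u v : Wd, u.length + v.length ≤ k → shf φ u v = φ u * φ v

/-- `φ`-derivations, up to level `k` -/
def IsDer [Semiring A] (k : ℕ) (φ ψ : Wd → A) : Prop :=
  ∀ u v : Wd, u.length + v.length ≤ k → shf ψ u v = ψ u * φ v + φ u * ψ v

end words

/-- the properties of the homogeneous leading part of the (complexified) defining function -/
structure HomR (k : ℕ) (R : Wd → Wd → ℂ) : Prop where
  homog : ∀ u v, u.length + v.length ≠ k → R u v = 0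
  herm : ∀ u v, R (cj v) (cj u) = (starRingEnd ℂ) (R u v)
  crU : ∀ u v, R (false :: u) v = 0
  crV : ∀ u v, R u (true :: v) = 0
  diag : ∀ w, unsh R w = 0
  pos : ∀ φ ψ : Wd → ℂ, IsChar k φ → IsDer k φ ψ →
    0 ≤ (sumP k fun u v => R u v * ψ u * (starRingEnd ℂ) (ψ (cj v))).re

/-! ### analysis -/

abbrev E (d : ℕ) := Fin d → ℝ
abbrev CF (d : ℕ) := E d → ℂ
/-- complex vector fields -/
abbrev CVF (d : ℕ) := E d → Fin d → ℂ

/-- smooth near `p` -/
def Sm {d : ℕ} {F : Type*} [NormedAddCommGroup F] [NormedSpace ℝ F] (p : E d) (f : E d → F) : Prop :=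
  ∀ᶠ x in 𝓝 p, ContDiffAt ℝ ∞ f x

/-- partial derivative -/
noncomputable def pd {d : ℕ} (i : Fin d) (f : CF d) : CF d := fun x => fderiv ℝ f x (Pi.single i 1)

/-- derivative of a function along a complex vector field -/
noncomputable def act {d : ℕ} (X : CVF d) (f : CF d) : CF d := fun x => ∑ i, X x i * pd i f x

/-- Lie bracket -/
noncomputable def lieBr {d : ℕ} (X Y : CVF d) : CVF d :=
  fun x i => act X (fun y => Y y i) x - act Y (fun y => X y i) x

noncomputable def cjVF {d : ℕ} (X : CVF d) : CVF d := fun x i => (starRingEnd ℂ) (X x i)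

/-- value of a real one form on a complex vector field -/
noncomputable def pair {d : ℕ} (η : E d → Fin d → ℝ) (X : CVF d) : CF d := fun x => ∑ i, (η x i : ℂ) * X x i

/-- `L` or `L̄` -/
noncomputable def LX {d : ℕ} (L : CVF d) : Bool → CVF d
  | true => L
  | false => cjVF L

/-- iterated brackets -/
noncomputable def brVF {d : ℕ} (L : CVF d) : Wd → CVF d
  | [] => 0
  | [a] => LX L a
  | b :: a :: w => lieBr (LX L b) (brVF L (a :: w))

/-- iterated derivatives along `L`, `L̄`; the head acts first -/
noncomputable def op {d : ℕ} (L : CVF d) : Wd → CF d → CF d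
  | [], f => f
  | a :: w, f => op L w (act (LX L a) f)

/-- `f` vanishes to order at least `m` at `p` -/
def Van {d : ℕ} (p : E d) : ℕ → CF d → Prop
  | 0, f => Sm p f
  | m + 1, f => Sm p f ∧ f p = 0 ∧ ∀ i, Van p m (pd i f)

end DAng
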