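import Pool.Agent.DAng.Words

open scoped BigOperators
open Finset

namespace DAng

/-- abstract Riemann-Hilbert data: `Pl = 𝕜[T] → Λ = 𝕜[T,T⁻¹]` -/
structure RH (Pl Λ 𝕜 : Type*) [CommRing Pl] [CommRing Λ] [CommRing 𝕜] where
  bar : Λ →+* Λ
  ι : Pl →+* Λ
  ev : Λ →+* 𝕜
  cc : 𝕜 →+* 𝕜
  Pi : Λ → Pl
  bar_bar : ∀ f, bar (bar f) = f
  ev_bar : ∀ f, ev (bar f) = cc (ev f)
  ev_Pi : ∀ f, ev (ι (Pi f)) = 0
  Pi_add : ∀ f, ev f = 0 → ι (Pi f) + bar (ι (Pi (bar f))) = f
  Pi_neg : ∀ f, Pi (-f) = - Pi f
  uniq : ∀ a b, ι a = bar (ι b) → ev (ι a) = 0 → a = 0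

variable {Pl Λ 𝕜 : Type*} [CommRing Pl] [CommRing Λ] [CommRing 𝕜] [Algebra ℚ Λ]

namespace RH
variable (S : RH Pl Λ 𝕜)

/-- the exponential `exp(z̄ y)` -/
noncomputable def E (z : Pl) : Wd → Λ := Ex (fun a => if a then 0 else S.bar (S.ι z))

/-- `q = A * exp(z̄ y)` -/
noncomputable def q (z : Pl) (A : Wd → Pl) : Wd → Λ := nmul (fun w => S.ι (A w)) (S.E z)

/-- Bishop discs up to level `n` -/
structure IsDisc (n : ℕ) (z : Pl) (A : Wd → Pl) : Prop where
  nil : A [] = 1
  ev : ∀ w, w ≠ [] → w.length ≤ n → S.ev (S.ι (A w)) = 0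
  real : ∀ w, w.length ≤ n → S.bar (S.q z A (cj w)) = S.q z A w

variable {S}

lemma E_true (z : Pl) (w : Wd) : S.E z (true :: w) = 0 := by
  simp [E, Ex]

lemma E_nil (z : Pl) : S.E z [] = 1 := Ex_nil _

lemma ev_E {z : Pl} (hz : S.ev (S.ι z) = 0) {w : Wd} (hw : w ≠ []) : S.ev (S.E z w) = 0 := by
  obtain ⟨a, w, rfl⟩ := List.exists_cons_of_ne_nil hw
  have h0 : S.ev (S.bar (S.ι z)) = 0 := by rw [S.ev_bar, hz, map_zero]
  cases a <;> simp [E, Ex, h0]

lemma q_nil {n : ℕ} {z : Pl} {A : Wd → Pl} (h : S.IsDisc n z A) : S.q z A [] = 1 := by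
  simp [q, h.nil, E_nil]

lemma q_cons (z : Pl) (A : Wd → Pl) (a : Bool) (w : Wd) :
    S.q z A (a :: w) = S.ι (A (a :: w)) + nmul (fun w => S.ι (A w)) (D a (S.E z)) w := by
  rw [q, nmul_cons, E_nil, mul_one]

lemma ev_nmul (f g : Wd → Λ) (w : Wd) :
    S.ev (nmul f g w) = nmul (fun w => S.ev (f w)) (fun w => S.ev (g w)) w := by
  induction w generalizing g with
  | nil => simp
  | cons a w ih => rw [nmul_cons, map_add, map_mul, ih, nmul_cons]; rfl

lemma nmul_zero_right' {A : Type*} [CommRing A] (f g : Wd → A) (w : Wd) (h : ∀ u, g u = 0) :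
    nmul f g w = 0 := by
  have : g = fun _ => 0 * (1 : A) := by funext u; rw [h u]; ring
  rw [this, nmul_smul_right (g := fun _ => (1 : A))]; ring

/-- existence -/
theorem exists_disc (S : RH Pl Λ 𝕜) (n : ℕ) (z : Pl) (hz : S.ev (S.ι z) = 0) :
    ∃ A : Wd → Pl, S.IsDisc n z A := by
  induction n with
  | zero =>
    refine ⟨fun _ => 1, rfl, fun w hw h => ?_, fun w h => ?_⟩
    · exact absurd (List.length_eq_zero_iff.1 (by omega)) hw
    · have : w = [] := List.length_eq_zero_iff.1 (by omega)
      subst this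
      simp [q, E_nil]
  | succ n ih =>
    obtain ⟨A, hA⟩ := ih
    classical
    -- correction term
    let τ : Wd → Λ := fun w => match w with
      | [] => 0
      | a :: w => nmul (fun w => S.ι (A w)) (D a (S.E z)) w
    let κ : Wd → Λ := fun w => S.bar (τ (cj w)) - τ w
    let B : Wd → Pl := fun w => if w.length ≤ n then A w else S.Pi (κ w)
    have hB : ∀ w : Wd, w.length ≤ n → B w = A w := fun w hw => by simp [B, hw]
    have hB2 : ∀ w : Wd, w.length = n + 1 → B w = S.Pi (κ w) := fun w hw => by simp [B, hw]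
    have hq1 : ∀ w : Wd, w.length ≤ n → S.q z B w = S.q z A w := by
      intro w hw
      exact nmul_congr (fun u hu => by rw [hB u (by omega)]) (fun _ _ => rfl)
    have hq2 : ∀ w : Wd, w.length = n + 1 → S.q z B w = S.ι (S.Pi (κ w)) + τ w := by
      intro w hw
      cases w with
      | nil => simp at hw
      | cons a w =>
        rw [q_cons, hB2 _ hw]
        congr 1
        exact nmul_congr (fun u hu => by
          rw [hB u (by simp only [List.length_cons] at hw; omega)]) (fun _ _ => rfl)
    have evτ : ∀ w, S.ev (τ w) = 0 := by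
      intro w
      cases w with
      | nil => simp [τ]
      | cons a w =>
        show S.ev (nmul (fun w => S.ι (A w)) (D a (S.E z)) w) = 0
        rw [ev_nmul]
        exact nmul_zero_right' _ _ _ fun u => ev_E hz (by simp)
    have evκ : ∀ w, S.ev (κ w) = 0 := by
      intro w
      simp only [κ, map_sub, S.ev_bar, evτ, map_zero, sub_zero]
    have barκ : ∀ w, κ (cj w) = - S.bar (κ w) := by
      intro w
      simp only [κ, cj_cj, map_sub, S.bar_bar]; ring
    refine ⟨B, ?_, ?_, ?_⟩
    · rw [hB [] (by simp)]; exact hA.nil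
    · intro w hw hl
      by_cases h : w.length ≤ n
      · rw [hB w h]; exact hA.ev w hw h
      · rw [hB2 w (by omega)]; exact S.ev_Pi _
    · intro w hl
      by_cases h : w.length ≤ n
      · rw [hq1 _ (by simpa using h), hq1 w h]; exact hA.real w h
      · have hl' : w.length = n + 1 := by omega
        rw [hq2 _ (by simpa using hl'), hq2 w hl']
        have h1 := S.Pi_add (κ w) (evκ w)
        rw [barκ, S.Pi_neg, map_neg, map_add, map_neg]
        have h2 : S.bar (τ (cj w)) = κ w + τ w := by simp only [κ]; ring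
        rw [h2]
        linear_combination -h1

/-- linear uniqueness: a series with values in `Pl`, evaluating to `0`, such that `A * E` is real,
vanishes -/
theorem uniq_lin {n : ℕ} {z : Pl} {A : Wd → Pl}
    (hev : ∀ w, w.length ≤ n → S.ev (S.ι (A w)) = 0)
    (hre : ∀ w, w.length ≤ n → S.bar (S.q z A (cj w)) = S.q z A w) :
    ∀ w, w.length ≤ n → A w = 0 := by
  suffices H : ∀ m, m ≤ n → ∀ w : Wd, w.length = m → A w = 0 from
    fun w hw => H _ hw w rfl
  intro m
  induction m using Nat.strong_induction_on with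
  | _ m ih =>
    intro hm w hw
    have hq : ∀ w : Wd, w.length = m → S.q z A w = S.ι (A w) := by
      intro w hw
      have : S.q z A w = S.ι (A w) * S.E z [] :=
        nmul_of_small fun u hu => by
          rw [ih u.length (by omega) (by omega) u rfl, map_zero]
      rw [this, E_nil, mul_one]
    have h1 := hre w (by omega)
    rw [hq w hw, hq _ (by simpa using hw)] at h1
    exact S.uniq (A w) (A (cj w)) h1.symm (hev w (by omega))

theorem IsDisc.unique {n : ℕ} {z : Pl} {A B : Wd → Pl} (hA : S.IsDisc n z A) (hB : S.IsDisc n z B) :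
    ∀ w, w.length ≤ n → A w = B w := by
  intro w hw
  have := uniq_lin (S := S) (n := n) (z := z) (A := fun w => A w - B w) ?_ ?_ w hw
  · exact sub_eq_zero.1 this
  · intro w hw
    by_cases h : w = []
    · subst h; simp [hA.nil, hB.nil]
    · simp [hA.ev w h hw, hB.ev w h hw]
  · intro w hw
    have e : ∀ w, S.q z (fun w => A w - B w) w = S.q z A w - S.q z B w := by
      intro w
      simp only [q, map_sub, nmul_sub_left]
    rw [e, e, map_sub, hA.real w hw, hB.real w hw]

lemma ι_shf (f : Wd → Pl) (u v : Wd) : S.ι (shf f u v) = shf (fun w => S.ι (f w)) u v :=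
  (shf_map S.ι.toAddMonoidHom f u v).symm

/-- discs are characters -/
theorem IsDisc.isChar {n : ℕ} {z : Pl} {A : Wd → Pl} (hA : S.IsDisc n z A) : IsChar n A := by
  refine ⟨hA.nil, ?_⟩
  have hE : ∀ u v, shf (S.E z) u v = S.E z u * S.E z v := Ex_shf _
  suffices H : ∀ m, m ≤ n → ∀ u v : Wd, u.length + v.length = m → shf A u v = A u * A v from
    fun u v h => H _ h u v rfl
  intro m
  induction m using Nat.strong_induction_on with
  | _ m ih =>
    intro hm u v huv
    -- the defect
    let Δ : Wd → Wd → Pl := fun u v => shf A u v - A u * A v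
    have hΔ0 : ∀ u v : Wd, u.length + v.length < m → Δ u v = 0 := by
      intro u v h
      simp only [Δ, ih _ h (by omega) u v rfl, sub_self]
    have hq : ∀ u v : Wd, u.length + v.length = m →
        shf (S.q z A) u v - S.q z A u * S.q z A v = S.ι (Δ u v) := by
      intro u v h
      rw [q, shf_nmul, ← pmul_tensor]
      have e : shf (S.E z) = fun u v => S.E z u * S.E z v := by funext u v; exact hE u v
      rw [e, ← pmul_sub_left]
      have e2 : (fun u v => shf (fun w => S.ι (A w)) u v - S.ι (A u) * S.ι (A v)) =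
          fun u v => S.ι (Δ u v) := by
        funext u v
        simp only [Δ, map_sub, map_mul, ι_shf]
      rw [e2, pmul_of_small]
      · simp [E_nil]
      · intro u' v' h'
        rw [hΔ0 u' v' (by omega), map_zero]
    have hreal : ∀ u v : Wd, u.length + v.length = m →
        S.bar (shf (S.q z A) (cj u) (cj v) - S.q z A (cj u) * S.q z A (cj v)) =
        shf (S.q z A) u v - S.q z A u * S.q z A v := by
      intro u v h
      rw [map_sub, map_mul, hA.real u (by omega), hA.real v (by omega)]
      congr 1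
      rw [← shf_cj]
      have := shf_map S.bar.toAddMonoidHom (fun w => S.q z A (cj w)) u v
      have e : S.bar (shf (fun w => S.q z A (cj w)) u v) =
          shf (fun w => S.bar (S.q z A (cj w))) u v := this.symm
      rw [e]
      exact shf_congr fun w hw => hA.real w (by omega)
    have h1 := hreal u v huv
    rw [hq u v huv, hq (cj u) (cj v) (by simpa using huv)] at h1
    have hev : S.ev (S.ι (Δ u v)) = 0 := by
      by_cases h0 : m = 0
      · have hu : u = [] := List.length_eq_zero_iff.1 (by omega)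
        have hv : v = [] := List.length_eq_zero_iff.1 (by omega)
        subst hu; subst hv
        simp [Δ, hA.nil]
      · simp only [Δ, map_sub, map_mul, ι_shf]
        have e1 : S.ev (shf (fun w => S.ι (A w)) u v) = 0 := by
          have h2 := shf_map S.ev.toAddMonoidHom (fun w => S.ι (A w)) u v
          have h3 : S.ev (shf (fun w => S.ι (A w)) u v) = shf (fun w => S.ev (S.ι (A w))) u v :=
            h2.symm
          rw [h3]
          have h4 : shf (fun w => S.ev (S.ι (A w))) u v = shf (fun _ => (0 : 𝕜) * 1) u v :=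
            shf_congr fun w hw => by
              rw [hA.ev w (by rintro rfl; simp at hw; omega) (by omega)]; ring
          rw [h4, shf_smul]; ring
        have e2 : S.ev (S.ι (A u)) * S.ev (S.ι (A v)) = 0 := by
          by_cases hu : u = []
          · have hv : v ≠ [] := by rintro rfl; subst hu; simp at huv; omega
            rw [hA.ev v hv (by omega), mul_zero]
          · rw [hA.ev u hu (by omega), zero_mul]
        rw [e1, e2, sub_zero]
    have := S.uniq (Δ u v) (Δ (cj u) (cj v)) h1.symm hev
    exact sub_eq_zero.1 this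

/-- `q` is a character as well -/
theorem IsDisc.q_isChar {n : ℕ} {z : Pl} {A : Wd → Pl} (hA : S.IsDisc n z A) :
    IsChar n (S.q z A) := by
  have h1 : IsChar n (fun w => S.ι (A w)) := by
    refine ⟨by simp [hA.nil], fun u v h => ?_⟩
    rw [← ι_shf, hA.isChar.2 u v h, map_mul]
  exact h1.nmul (Ex_isChar n _)

end RH

end DAng
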