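import Pool.Agent.DAng.Base

open scoped ContDiff Topology BigOperators
open Finset Asymptotics

namespace DAng


/-- one variable version of `brU` -/
def dswBr : Wd → (Wd → ℂ) → Wd → ℂ
  | [], _, _ => 0
  | [a], F, u => F (a :: u)
  | b :: a :: w, F, u => dswBr (a :: w) F (b :: u) - dswBr (a :: w) (D b F) u

theorem dsw_brU_eq : ∀ (w : Wd) (P : Wd → Wd → ℂ) (u v : Wd),
    brU w P u v = dswBr w (fun x => P x v) u
  | [], _, _, _ => rfl
  | [_], _, _, _ => rfl
  | b :: a :: w, P, u, v => by
    change brU (a :: w) P (b :: u) v - brU (a :: w) (DU b P) u v = _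
    rw [dsw_brU_eq (a :: w) P (b :: u) v, dsw_brU_eq (a :: w) (DU b P) u v]
    rfl

theorem dsw_unsh_add (P Q : Wd → Wd → ℂ) (w : Wd) :
    unsh (fun u v => P u v + Q u v) w = unsh P w + unsh Q w := by
  induction w generalizing P Q with
  | nil => rfl
  | cons a w ih =>
    change unsh (fun u v => DU a P u v + DU a Q u v) w
      + unsh (fun u v => DV a P u v + DV a Q u v) w = _
    rw [ih, ih]
    change _ = (unsh (DU a P) w + unsh (DV a P) w) + (unsh (DU a Q) w + unsh (DV a Q) w)
    ring

theorem dsw_unsh_zero (w : Wd) : unsh (fun _ _ => (0:ℂ)) w = 0 := by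
  induction w with
  | nil => rfl
  | cons a w ih =>
    change unsh (fun _ _ => (0:ℂ)) w + unsh (fun _ _ => (0:ℂ)) w = 0
    rw [ih, add_zero]

/-- the pairing concentrated on `v = []` -/
def dswE (G : Wd → ℂ) : Wd → Wd → ℂ
  | u, [] => G u
  | _, _ :: _ => 0

theorem dsw_unsh_E (G : Wd → ℂ) (w : Wd) : unsh (dswE G) w = G w := by
  induction w generalizing G with
  | nil => rfl
  | cons a w ih =>
    change unsh (DU a (dswE G)) w + unsh (DV a (dswE G)) w = _
    have h1 : DU a (dswE G) = dswE (D a G) := by
      funext u v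
      cases v <;> rfl
    have h2 : DV a (dswE G) = fun _ _ => (0:ℂ) := by
      funext u v
      rfl
    rw [h1, h2, ih, dsw_unsh_zero, add_zero]
    rfl

/-- the Dynkin kernel -/
def dswQ (F : Wd → ℂ) (u v : Wd) : ℂ := (-1) ^ (v.length + 1) * dswBr v F u

theorem dsw_identity (F : Wd → ℂ) (w : Wd) : unsh (dswQ F) w = (w.length : ℂ) * F w := by
  induction w generalizing F with
  | nil => simp [unsh, dswQ, dswBr]
  | cons b w ih =>
    change unsh (DU b (dswQ F)) w + unsh (DV b (dswQ F)) w = _
    rw [← dsw_unsh_add]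
    have h1 : (fun u v => DU b (dswQ F) u v + DV b (dswQ F) u v) =
        fun u v => dswQ (D b F) u v + dswE (D b F) u v := by
      funext u v
      cases v with
      | nil =>
        change (-1) ^ (0 + 1) * (0:ℂ) + (-1) ^ (1 + 1) * F (b :: u) =
          (-1) ^ (0 + 1) * (0:ℂ) + F (b :: u)
        ring
      | cons a v =>
        change (-1) ^ (v.length + 1 + 1) * dswBr (a :: v) F (b :: u) +
          (-1) ^ (v.length + 1 + 1 + 1) *
            (dswBr (a :: v) F (b :: u) - dswBr (a :: v) (D b F) u) =
          (-1) ^ (v.length + 1 + 1) * dswBr (a :: v) (D b F) u + 0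
        ring
    rw [h1, dsw_unsh_add, ih, dsw_unsh_E]
    change _ = (((w.length + 1 : ℕ)) : ℂ) * F (b :: w)
    push_cast
    change (w.length : ℂ) * F (b :: w) + F (b :: w) = _
    ring

theorem dsw_sumW_add (n : ℕ) (F G : Wd → ℂ) :
    sumW n (fun w => F w + G w) = sumW n F + sumW n G := by
  induction n generalizing F G with
  | zero => rfl
  | succ n ih =>
    change sumW n (fun w => D true F w + D true G w) + sumW n (fun w => D false F w + D false G w)
      = (sumW n (D true F) + sumW n (D false F)) + (sumW n (D true G) + sumW n (D false G))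
    rw [ih, ih]; ring

theorem dsw_sumW_zero (n : ℕ) : sumW n (fun _ => (0:ℂ)) = 0 := by
  induction n with
  | zero => rfl
  | succ n ih =>
    change sumW n (fun _ => (0:ℂ)) + sumW n (fun _ => (0:ℂ)) = 0
    rw [ih, add_zero]

theorem dsw_sumW_congr (n : ℕ) (F G : Wd → ℂ) (h : ∀ w, w.length = n → F w = G w) :
    sumW n F = sumW n G := by
  induction n generalizing F G with
  | zero => exact h [] rfl
  | succ n ih =>
    change sumW n (D true F) + sumW n (D false F) = sumW n (D true G) + sumW n (D false G)
    rw [ih (D true F) (D true G) (fun w hw => h _ (by simp [hw])),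
      ih (D false F) (D false G) (fun w hw => h _ (by simp [hw]))]

theorem dsw_sumW_mul (n : ℕ) (c : ℂ) (F : Wd → ℂ) :
    sumW n (fun w => c * F w) = c * sumW n F := by
  induction n generalizing F with
  | zero => rfl
  | succ n ih =>
    change sumW n (fun w => c * D true F w) + sumW n (fun w => c * D false F w) =
      c * (sumW n (D true F) + sumW n (D false F))
    rw [ih, ih]; ring

theorem dsw_shf_nil (f : Wd → ℂ) (u : Wd) : shf f u [] = f u := by
  cases u <;> simp [shf]

/-- part of the pairs whose first word is nonempty -/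
def dswG1 (a : Wd → ℂ) (Q : Wd → Wd → ℂ) : Wd → Wd → ℂ
  | [], _ => 0
  | b :: u, v => shf (D b a) u v * Q (b :: u) v

def dswG2 (a : Wd → ℂ) (Q : Wd → Wd → ℂ) : Wd → Wd → ℂ
  | _, [] => 0
  | u, c :: v => shf (D c a) u v * Q u (c :: v)

theorem dsw_split (a : Wd → ℂ) (Q : Wd → Wd → ℂ) (u v : Wd) (h : 0 < u.length + v.length) :
    shf a u v * Q u v = dswG1 a Q u v + dswG2 a Q u v := by
  cases u with
  | nil =>
    cases v with
    | nil => simp at h
    | cons c v =>
      simp [dswG1, dswG2, shf, D]
  | cons b u =>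
    cases v with
    | nil =>
      simp [dswG1, dswG2, dsw_shf_nil, D]
    | cons c v =>
      simp only [dswG1, dswG2]
      rw [shf]
      ring

theorem dsw_dual (k : ℕ) (a : Wd → ℂ) (Q : Wd → Wd → ℂ) :
    sumW k (fun w => a w * unsh Q w) = sumP k (fun u v => shf a u v * Q u v) := by
  induction k generalizing a Q with
  | zero => simp [sumW, sumP, unsh, shf]
  | succ k ih =>
    have hL : sumW (k + 1) (fun w => a w * unsh Q w) =
        (sumP k (fun u v => shf (D true a) u v * DU true Q u v) +
          sumP k (fun u v => shf (D false a) u v * DU false Q u v)) +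
        (sumP k (fun u v => shf (D true a) u v * DV true Q u v) +
          sumP k (fun u v => shf (D false a) u v * DV false Q u v)) := by
      rw [← ih, ← ih, ← ih, ← ih]
      change sumW k (fun w => D true a w * (unsh (DU true Q) w + unsh (DV true Q) w)) +
        sumW k (fun w => D false a w * (unsh (DU false Q) w + unsh (DV false Q) w)) = _
      have e : ∀ b : Bool, (fun w => D b a w * (unsh (DU b Q) w + unsh (DV b Q) w)) =
          fun w => D b a w * unsh (DU b Q) w + D b a w * unsh (DV b Q) w := by
        intro b; funext w; ring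
      rw [e, e, dsw_sumW_add, dsw_sumW_add]; ring
    rw [hL]
    have hsplit : sumP (k + 1) (fun u v => shf a u v * Q u v) =
        sumP (k + 1) (dswG1 a Q) + sumP (k + 1) (dswG2 a Q) := by
      unfold sumP
      rw [← Finset.sum_add_distrib]
      refine Finset.sum_congr rfl ?_
      intro i hi
      rw [Finset.mem_range] at hi
      rw [← dsw_sumW_add]
      refine dsw_sumW_congr _ _ _ ?_
      intro u hu
      rw [← dsw_sumW_add]
      refine dsw_sumW_congr _ _ _ ?_
      intro v hv
      exact dsw_split a Q u v (by omega)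
    rw [hsplit]
    congr 1
    · unfold sumP
      rw [← Finset.sum_add_distrib, Finset.sum_range_succ' _ (k + 1)]
      have h0 : sumW 0 (fun u => sumW (k + 1 - 0) (fun v => dswG1 a Q u v)) = 0 := by
        change sumW (k + 1) (fun _ => (0:ℂ)) = 0
        exact dsw_sumW_zero _
      rw [h0, add_zero]
      refine Finset.sum_congr rfl ?_
      intro i hi
      rw [Nat.add_sub_add_right]
      rfl
    · unfold sumP
      rw [← Finset.sum_add_distrib, Finset.sum_range_succ _ (k + 1)]
      have h0 : sumW (k + 1) (fun u => sumW (k + 1 - (k + 1)) (fun v => dswG2 a Q u v)) = 0 := by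
        rw [Nat.sub_self]
        change sumW (k + 1) (fun _ => (0:ℂ)) = 0
        exact dsw_sumW_zero _
      rw [h0, add_zero]
      refine Finset.sum_congr rfl ?_
      intro i hi
      rw [Finset.mem_range] at hi
      have e : k + 1 - i = (k - i) + 1 := by omega
      rw [e, ← dsw_sumW_add]
      rfl


/-- Dynkin-Specht-Wever, dual form -/
theorem dsw (k : ℕ) (hk : 1 ≤ k) (a : Wd → ℂ) (ha0 : a [] = 0)
    (ha : ∀ u v : Wd, u ≠ [] → v ≠ [] → u.length + v.length = k → shf a u v = 0)
    (R : Wd → Wd → ℂ) (hR : ∀ w : Wd, w.length = k → brU w R [] [] = 0) :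
    sumW k (fun w => a w * R w []) = 0 := by
  set F : Wd → ℂ := fun w => R w [] with hF
  have h1 : sumW k (fun w => a w * unsh (dswQ F) w) = (k : ℂ) * sumW k (fun w => a w * F w) := by
    rw [← dsw_sumW_mul]
    refine dsw_sumW_congr _ _ _ ?_
    intro w hw
    rw [dsw_identity, hw]; ring
  have h2 : sumP k (fun u v => shf a u v * dswQ F u v) = 0 := by
    unfold sumP
    refine Finset.sum_eq_zero ?_
    intro i hi
    rw [Finset.mem_range] at hi
    rw [← dsw_sumW_zero i]
    refine dsw_sumW_congr _ _ _ ?_
    intro u hu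
    rw [← dsw_sumW_zero (k - i)]
    refine dsw_sumW_congr _ _ _ ?_
    intro v hv
    by_cases hu0 : u = []
    · subst hu0
      have hv' : v.length = k := by
        simp at hu; omega
      have h3 := hR v hv'
      rw [dsw_brU_eq] at h3
      simp only [dswQ]
      change _ * ((-1) ^ (v.length + 1) * dswBr v (fun x => R x []) []) = 0
      rw [h3]; ring
    · by_cases hv0 : v = []
      · subst hv0
        simp [dswQ, dswBr]
      · change shf a u v * dswQ F u v = 0
        rw [ha u v hu0 hv0 (by omega), zero_mul]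
  rw [dsw_dual, h2] at h1
  have hk0 : (k : ℂ) ≠ 0 := by
    exact_mod_cast (by omega : k ≠ 0)
  exact (mul_eq_zero.mp h1.symm).resolve_left hk0


end DAng
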