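import Pool.Agent.DAng.Base

open scoped ContDiff Topology BigOperators
open Finset Asymptotics

namespace DAng


theorem hopfx_circle_inf : Set.Infinite {z : ℂ | ‖z‖ = 1} := by
  have h : Set.InjOn (fun t : ℝ => Complex.exp (t * Complex.I)) (Set.Ioo 0 1) := by
    intro x hx y hy hxy
    simp only at hxy
    rw [Complex.exp_eq_exp_iff_exists_int] at hxy
    obtain ⟨n, hn⟩ := hxy
    have h1 : (x : ℂ) = y + n * (2 * Real.pi) := by
      have : (x : ℂ) * Complex.I = (y + n * (2 * Real.pi)) * Complex.I := by rw [hn]; ring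
      exact mul_right_cancel₀ Complex.I_ne_zero this
    have h2 : x = y + n * (2 * Real.pi) := by exact_mod_cast h1
    have hpi := Real.pi_gt_three
    obtain hn0 | hn0 | hn0 : n = 0 ∨ 1 ≤ n ∨ n ≤ -1 := by omega
    · simp [hn0] at h2; exact h2
    · have : (1 : ℝ) ≤ n := by exact_mod_cast hn0
      have := hx.2; have := hy.1; nlinarith
    · have : (n : ℝ) ≤ -1 := by exact_mod_cast hn0
      have := hx.1; have := hy.2; nlinarith
  refine Set.infinite_of_injOn_mapsTo h ?_ (Set.Ioo_infinite (by norm_num))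
  intro t _
  simp [Complex.norm_exp_ofReal_mul_I]

theorem hopfx_poly (p : Polynomial ℂ) (h : ∀ z : ℂ, ‖z‖ = 1 → p.eval z = 0) : p = 0 :=
  Polynomial.eq_zero_of_infinite_isRoot p (hopfx_circle_inf.mono (fun z hz => h z hz))

/-- Poisson average of monomials -/
theorem hopfx_avg (ρ : ℝ) (h0 : 0 < ρ) (h1 : ρ < 1) (m : ℕ) :
    Real.circleAverage (fun z => poissonKernel 0 (ρ : ℂ) z • z ^ m) 0 1 = (ρ : ℂ) ^ m := by
  have hd : DiffContOnCl ℂ (fun z : ℂ => z ^ m) (Metric.ball 0 1) :=
    (Differentiable.diffContOnCl (by fun_prop))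
  have hw : (ρ : ℂ) ∈ Metric.ball (0 : ℂ) 1 := by
    simp [abs_of_pos h0, h1]
  exact hd.circleAverage_poissonKernel_smul hw

theorem hopfx_pk_cont (ρ : ℝ) (h0 : 0 < ρ) (h1 : ρ < 1) :
    ContinuousOn (poissonKernel 0 (ρ : ℂ)) (Metric.sphere 0 1) := by
  unfold poissonKernel
  apply ContinuousOn.div (by fun_prop) (by fun_prop)
  intro z hz
  have hz' : ‖z‖ = 1 := by simpa using hz
  have : z - 0 - ((ρ : ℂ) - 0) ≠ 0 := by
    intro h
    have h2 : z = ρ := by simpa [sub_eq_zero] using h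
    rw [h2] at hz'
    simp [abs_of_pos h0] at hz'
    linarith
  positivity

theorem hopfx_pk_pos (ρ : ℝ) (h0 : 0 < ρ) (h1 : ρ < 1) (z : ℂ) (hz : ‖z‖ = 1) :
    0 < poissonKernel 0 (ρ : ℂ) z := by
  unfold poissonKernel
  have : z - 0 - ((ρ : ℂ) - 0) ≠ 0 := by
    intro h
    have h2 : z = ρ := by simpa [sub_eq_zero] using h
    rw [h2] at hz
    simp [abs_of_pos h0] at hz
    linarith
  have h3 : 0 < ‖z - 0 - ((ρ : ℂ) - 0)‖ := norm_pos_iff.2 this
  apply div_pos _ (by positivity)
  simp [hz, abs_of_pos h0]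
  nlinarith

theorem hopfx_avg_conj (ρ : ℝ) (h0 : 0 < ρ) (h1 : ρ < 1) (m : ℕ) :
    Real.circleAverage (fun z => poissonKernel 0 (ρ : ℂ) z • (starRingEnd ℂ) z ^ m) 0 1 = (ρ : ℂ) ^ m := by
  have hci : CircleIntegrable (fun z => poissonKernel 0 (ρ : ℂ) z • z ^ m) 0 1 := by
    apply ContinuousOn.circleIntegrable (by norm_num)
    exact (hopfx_pk_cont ρ h0 h1).smul (by fun_prop)
  have h := (Complex.conjCLE.toContinuousLinearMap).circleAverage_comp_comm hci
  rw [hopfx_avg ρ h0 h1 m] at h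
  have e : (⇑Complex.conjCLE.toContinuousLinearMap ∘ fun z => poissonKernel 0 (ρ : ℂ) z • z ^ m) =
    (fun z => poissonKernel 0 (ρ : ℂ) z • (starRingEnd ℂ) z ^ m) := by
    funext z
    simp
  rw [e] at h
  rw [h]
  simp

theorem hopfx_avg_mon (ρ : ℝ) (h0 : 0 < ρ) (h1 : ρ < 1) (a b : ℕ) :
    Real.circleAverage (fun z => poissonKernel 0 (ρ : ℂ) z • (z ^ a * (starRingEnd ℂ) z ^ b)) 0 1 =
      (ρ : ℂ) ^ (max a b - min a b) := by
  rcases le_total b a with h | h
  · rw [max_eq_left h, min_eq_right h, ← hopfx_avg ρ h0 h1 (a - b)]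
    apply Real.circleAverage_congr_sphere
    intro z hz
    have hz' : ‖z‖ = 1 := by simpa using hz
    have hzz : z * (starRingEnd ℂ) z = 1 := by
      rw [Complex.mul_conj]; simp [Complex.normSq_eq_norm_sq, hz']
    have e : z ^ a * (starRingEnd ℂ) z ^ b = z ^ (a - b) := by
      conv_lhs => rw [← Nat.sub_add_cancel h, pow_add, mul_assoc, ← mul_pow, hzz, one_pow, mul_one]
    simp only [e]
  · rw [max_eq_right h, min_eq_left h, ← hopfx_avg_conj ρ h0 h1 (b - a)]
    apply Real.circleAverage_congr_sphere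
    intro z hz
    have hz' : ‖z‖ = 1 := by simpa using hz
    have hzz : z * (starRingEnd ℂ) z = 1 := by
      rw [Complex.mul_conj]; simp [Complex.normSq_eq_norm_sq, hz']
    have e : z ^ a * (starRingEnd ℂ) z ^ b = (starRingEnd ℂ) z ^ (b - a) := by
      have hb : b = a + (b - a) := by omega
      conv_lhs => rw [hb, pow_add, ← mul_assoc, ← mul_pow, hzz, one_pow, one_mul]
    simp only [e]

theorem hopfx_avg_sum (ρ : ℝ) (h0 : 0 < ρ) (h1 : ρ < 1) (M : ℕ) (d : ℕ → ℕ → ℂ) (e : ℕ → ℕ) :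
    Real.circleAverage (fun z => poissonKernel 0 (ρ : ℂ) z •
      (∑ a ∈ range M, ∑ b ∈ range M, d a b * (z ^ e a * (starRingEnd ℂ) z ^ e b))) 0 1 =
      ∑ a ∈ range M, ∑ b ∈ range M, d a b * (ρ : ℂ) ^ (max (e a) (e b) - min (e a) (e b)) := by
  have hint : ∀ a b, CircleIntegrable (fun z => d a b • (poissonKernel 0 (ρ : ℂ) z •
      (z ^ e a * (starRingEnd ℂ) z ^ e b))) 0 1 := by
    intro a b
    apply ContinuousOn.circleIntegrable (by norm_num)
    have := (((hopfx_pk_cont ρ h0 h1).smul (g := fun z : ℂ => z ^ e a * (starRingEnd ℂ) z ^ e b)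
      (by fun_prop)).const_smul (d a b))
    exact this
  have e1 : (fun z => poissonKernel 0 (ρ : ℂ) z •
      (∑ a ∈ range M, ∑ b ∈ range M, d a b * (z ^ e a * (starRingEnd ℂ) z ^ e b))) =
      (fun z => ∑ a ∈ range M, ∑ b ∈ range M, d a b • (poissonKernel 0 (ρ : ℂ) z •
      (z ^ e a * (starRingEnd ℂ) z ^ e b))) := by
    funext z
    simp only [Finset.smul_sum, smul_eq_mul, Complex.real_smul]
    refine Finset.sum_congr rfl fun a _ => Finset.sum_congr rfl fun b _ => ?_
    ring
  rw [e1, Real.circleAverage_fun_sum]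
  · refine Finset.sum_congr rfl fun a _ => ?_
    rw [Real.circleAverage_fun_sum]
    · refine Finset.sum_congr rfl fun b _ => ?_
      rw [Real.circleAverage_fun_smul, hopfx_avg_mon ρ h0 h1]
      simp
    · intro b _
      exact hint a b
  · intro a _
    have := CircleIntegrable.fun_sum (range M) (fun b (_ : b ∈ range M) => hint a b)
    exact this

theorem hopfx_avg_pos (g : ℂ → ℝ) (hg : ContinuousOn g (Metric.sphere 0 1))
    (hpos : ∀ z, ‖z‖ = 1 → 0 ≤ g z) :
    0 ≤ Real.circleAverage g 0 1 ∧ (Real.circleAverage g 0 1 = 0 → ∀ z, ‖z‖ = 1 → g z = 0) := by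
  have hcont : Continuous (fun θ : ℝ => g (circleMap 0 1 θ)) := by
    have : ContinuousOn (fun θ : ℝ => g (circleMap 0 1 θ)) Set.univ :=
      hg.comp (continuous_circleMap 0 1).continuousOn (by intro θ _; simp)
    exact continuousOn_univ.1 this
  have hn : ∀ θ : ℝ, ‖circleMap 0 1 θ‖ = 1 := by intro θ; simp
  rw [Real.circleAverage_def]
  have h2 : (0 : ℝ) < 2 * Real.pi := by positivity
  have hnn : 0 ≤ ∫ θ in (0 : ℝ)..2 * Real.pi, g (circleMap 0 1 θ) :=
    intervalIntegral.integral_nonneg h2.le (fun θ _ => hpos _ (hn θ))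
  refine ⟨by positivity, fun h0 z hz => ?_⟩
  by_contra hne
  have hgt : 0 < g z := lt_of_le_of_ne (hpos z hz) (Ne.symm hne)
  obtain ⟨θ, hθ, hzθ⟩ : ∃ θ ∈ Set.Ioc (0:ℝ) (2 * Real.pi), circleMap 0 1 θ = z := by
    have hsurj := image_circleMap_Ioc 0 1
    have hz2 : z ∈ Metric.sphere (0 : ℂ) |(1 : ℝ)| := by simpa using hz
    rw [← hsurj] at hz2
    exact hz2
  have : 0 < ∫ θ in (0 : ℝ)..2 * Real.pi, g (circleMap 0 1 θ) := by
    apply intervalIntegral.integral_pos h2 hcont.continuousOn (fun x _ => hpos _ (hn x))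
    exact ⟨θ, ⟨hθ.1.le, hθ.2⟩, by rw [hzθ]; exact hgt⟩
  have h3 : (2 * Real.pi)⁻¹ • ∫ θ in (0 : ℝ)..2 * Real.pi, g (circleMap 0 1 θ) > 0 := by
    rw [smul_eq_mul]; positivity
  linarith

/-- uniqueness of coefficients -/
theorem hopfx_unique (M : ℕ) (d : ℕ → ℕ → ℂ)
    (h : ∀ ζ : ℂ, 0 < ‖ζ‖ → ‖ζ‖ < 1 → ∑ a ∈ range M, ∑ b ∈ range M, d a b * (ζ ^ a * (starRingEnd ℂ) ζ ^ b) = 0) :
    ∀ a < M, ∀ b < M, d a b = 0 := by
  intro a0 ha0 b0 hb0
  -- fix z on the circle
  have key : ∀ z : ℂ, ‖z‖ = 1 → ∀ k, ∑ a ∈ range M, ∑ b ∈ range M,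
      (if a + b = k then d a b * (z ^ a * (starRingEnd ℂ) z ^ b) else 0) = 0 := by
    intro z hz k
    set P : Polynomial ℂ := ∑ a ∈ range M, ∑ b ∈ range M,
      Polynomial.monomial (a + b) (d a b * (z ^ a * (starRingEnd ℂ) z ^ b)) with hP
    have hP0 : P = 0 := by
      apply Polynomial.eq_zero_of_infinite_isRoot
      have hinf : Set.Infinite ((fun t : ℝ => (t : ℂ)) '' Set.Ioo (0 : ℝ) 1) :=
        (Set.Ioo_infinite (by norm_num)).image (Complex.ofReal_injective.injOn)
      refine hinf.mono ?_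
      rintro _ ⟨t, ht, rfl⟩
      have hh := h ((t : ℂ) * z) (by rw [norm_mul, hz]; simp [abs_of_pos ht.1, ht.1])
        (by rw [norm_mul, hz]; simp [abs_of_pos ht.1, ht.2])
      show P.eval (t : ℂ) = 0
      rw [hP, Polynomial.eval_finsetSum]
      simp_rw [Polynomial.eval_finsetSum, Polynomial.eval_monomial]
      rw [← hh]
      refine Finset.sum_congr rfl fun a _ => Finset.sum_congr rfl fun b _ => ?_
      rw [map_mul, Complex.conj_ofReal, mul_pow, mul_pow, pow_add]
      ring
    have := congrArg (fun p => Polynomial.coeff p k) hP0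
    simp only [hP, Polynomial.finsetSum_coeff, Polynomial.coeff_monomial, Polynomial.coeff_zero] at this
    exact this
  -- now polynomial in z^2
  set Q : Polynomial ℂ := ∑ a ∈ range M, ∑ b ∈ range M,
    (if a + b = a0 + b0 then Polynomial.monomial (2 * a) (d a b) else 0) with hQ
  have hQ0 : Q = 0 := by
    apply hopfx_poly
    intro z hz
    have hk := key z hz (a0 + b0)
    have hzz : z * (starRingEnd ℂ) z = 1 := by
      rw [Complex.mul_conj]; simp [Complex.normSq_eq_norm_sq, hz]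
    have e : Q.eval z = z ^ (a0 + b0) * ∑ a ∈ range M, ∑ b ∈ range M,
      (if a + b = a0 + b0 then d a b * (z ^ a * (starRingEnd ℂ) z ^ b) else 0) := by
      rw [hQ, Polynomial.eval_finsetSum, Finset.mul_sum]
      refine Finset.sum_congr rfl fun a _ => ?_
      rw [Polynomial.eval_finsetSum, Finset.mul_sum]
      refine Finset.sum_congr rfl fun b _ => ?_
      split_ifs with hab
      · rw [Polynomial.eval_monomial, ← hab, pow_add, two_mul, pow_add]
        have : z ^ b * (starRingEnd ℂ) z ^ b = 1 := by rw [← mul_pow, hzz, one_pow]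
        linear_combination (-d a b * z ^ a * z ^ a) * this
      · simp
    rw [e, hk, mul_zero]
  have := congrArg (fun p => Polynomial.coeff p (2 * a0)) hQ0
  simp only [hQ, Polynomial.finsetSum_coeff, Polynomial.coeff_zero] at this
  rw [Finset.sum_eq_single a0, Finset.sum_eq_single b0] at this
  · simpa using this
  · intro b _ hb
    rw [if_neg (by omega)]; simp
  · intro hb; exact absurd (Finset.mem_range.2 hb0) hb
  · intro a _ ha
    apply Finset.sum_eq_zero
    intro b _
    split_ifs with hab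
    · rw [Polynomial.coeff_monomial, if_neg (by omega)]
    · simp
  · intro hb; exact absurd (Finset.mem_range.2 ha0) hb


/-- Hopf lemma for real polynomials vanishing on the circle -/
theorem hopf (M : ℕ) (c : ℕ → ℕ → ℂ) (herm : ∀ a b, c b a = (starRingEnd ℂ) (c a b))
    (h1 : ∀ ζ : ℂ, ‖ζ‖ = 1 →
      ∑ a ∈ range M, ∑ b ∈ range M, c a b * ζ ^ a * (starRingEnd ℂ) ζ ^ b = 0)
    (h2 : ∀ ζ : ℂ, ‖ζ‖ < 1 → 0 ≤ (∑ a ∈ range M, ∑ b ∈ range M,
      (a : ℂ) * b * c a b * ζ ^ (a - 1) * (starRingEnd ℂ) ζ ^ (b - 1)).re)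
    (h3 : ∑ a ∈ range M, ∑ b ∈ range M, ((a : ℂ) + b) * c a b = 0) :
    ∀ a < M, ∀ b < M, c a b = 0 := by
  -- Step A
  have hA : ∀ j, ∑ a ∈ range M, ∑ b ∈ range M, (if M + a - b = j then c a b else 0) = 0 := by
    intro j
    set P : Polynomial ℂ := ∑ a ∈ range M, ∑ b ∈ range M,
      Polynomial.monomial (M + a - b) (c a b) with hP
    have hP0 : P = 0 := by
      apply hopfx_poly
      intro z hz
      have hzz : z * (starRingEnd ℂ) z = 1 := by
        rw [Complex.mul_conj]; simp [Complex.normSq_eq_norm_sq, hz]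
      have e : P.eval z = z ^ M * ∑ a ∈ range M, ∑ b ∈ range M,
          c a b * z ^ a * (starRingEnd ℂ) z ^ b := by
        rw [hP, Polynomial.eval_finsetSum, Finset.mul_sum]
        refine Finset.sum_congr rfl fun a _ => ?_
        rw [Polynomial.eval_finsetSum, Finset.mul_sum]
        refine Finset.sum_congr rfl fun b hb => ?_
        have hb' := Finset.mem_range.1 hb
        rw [Polynomial.eval_monomial]
        have h4 : z ^ (M + a) = z ^ (M + a - b) * z ^ b := by
          rw [← pow_add]; congr 1; omega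
        have h5 : z ^ b * (starRingEnd ℂ) z ^ b = 1 := by rw [← mul_pow, hzz, one_pow]
        have h6 : z ^ M * z ^ a = z ^ (M + a - b) * z ^ b := by rw [← pow_add, h4]
        linear_combination (-c a b * (starRingEnd ℂ) z ^ b) * h6 - c a b * z ^ (M + a - b) * h5
      rw [e, h1 z hz, mul_zero]
    have := congrArg (fun p => Polynomial.coeff p j) hP0
    simp only [hP, Polynomial.finsetSum_coeff, Polynomial.coeff_monomial, Polynomial.coeff_zero] at this
    exact this
  have hA2 : ∑ a ∈ range M, ∑ b ∈ range M, ((max a b - min a b : ℕ) : ℂ) * c a b = 0 := by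
    have h7 : ∑ j ∈ range (2 * M), ((max j M - min j M : ℕ) : ℂ) *
        ∑ a ∈ range M, ∑ b ∈ range M, (if M + a - b = j then c a b else 0) = 0 := by
      apply Finset.sum_eq_zero
      intro j _
      rw [hA j, mul_zero]
    rw [← h7]
    simp_rw [Finset.mul_sum]
    symm
    rw [Finset.sum_comm]
    refine Finset.sum_congr rfl fun a ha => ?_
    rw [Finset.sum_comm]
    refine Finset.sum_congr rfl fun b hb => ?_
    have ha' := Finset.mem_range.1 ha
    have hb' := Finset.mem_range.1 hb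
    rw [Finset.sum_eq_single (M + a - b)]
    · rw [if_pos rfl]
      congr 2
      omega
    · intro j _ hj
      rw [if_neg (Ne.symm hj), mul_zero]
    · intro hj
      exfalso; apply hj; rw [Finset.mem_range]; omega
  -- Step B
  set T : ℝ → ℂ := fun x => ∑ a ∈ range M, ∑ b ∈ range M,
    (a : ℂ) * b * c a b * (x : ℂ) ^ (2 * max (a - 1) (b - 1)) with hT
  set S : ℂ → ℂ := fun ζ => ∑ a ∈ range M, ∑ b ∈ range M,
      (a : ℂ) * b * c a b * ζ ^ (a - 1) * (starRingEnd ℂ) ζ ^ (b - 1) with hS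
  have hB : ∀ x : ℝ, 0 < x → x < 1 → 0 ≤ (T x).re ∧
      ((T x).re = 0 → ∀ z : ℂ, ‖z‖ = 1 → (S (x * z)).re = 0) := by
    intro x hx0 hx1
    have hsum := hopfx_avg_sum x hx0 hx1 M
      (fun a b => (a : ℂ) * b * c a b * (x : ℂ) ^ ((a - 1) + (b - 1))) (fun a => a - 1)
    have e1 : ∑ a ∈ range M, ∑ b ∈ range M, (a : ℂ) * b * c a b * (x : ℂ) ^ ((a - 1) + (b - 1)) *
        (x : ℂ) ^ (max (a - 1) (b - 1) - min (a - 1) (b - 1)) = T x := by
      rw [hT]
      refine Finset.sum_congr rfl fun a _ => Finset.sum_congr rfl fun b _ => ?_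
      rw [mul_assoc, ← pow_add]
      congr 2
      omega
    rw [e1] at hsum
    have e2 : ∀ z : ℂ, (∑ a ∈ range M, ∑ b ∈ range M, (a : ℂ) * b * c a b *
        (x : ℂ) ^ ((a - 1) + (b - 1)) * (z ^ (a - 1) * (starRingEnd ℂ) z ^ (b - 1))) = S (x * z) := by
      intro z
      rw [hS]
      refine Finset.sum_congr rfl fun a _ => Finset.sum_congr rfl fun b _ => ?_
      rw [map_mul, Complex.conj_ofReal, mul_pow, mul_pow, pow_add]
      ring
    simp_rw [e2] at hsum
    have hScont : Continuous (fun z : ℂ => S (x * z)) := by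
      rw [hS]
      fun_prop
    have hci : CircleIntegrable (fun z => poissonKernel 0 (x : ℂ) z • S (x * z)) 0 1 := by
      apply ContinuousOn.circleIntegrable (by norm_num)
      exact (hopfx_pk_cont x hx0 hx1).smul hScont.continuousOn
    have h8 := Complex.reCLM.circleAverage_comp_comm hci
    rw [hsum] at h8
    have e3 : (⇑Complex.reCLM ∘ fun z => poissonKernel 0 (x : ℂ) z • S (x * z)) =
        (fun z => poissonKernel 0 (x : ℂ) z * (S (x * z)).re) := by
      funext z
      simp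
    rw [e3] at h8
    have h9 := hopfx_avg_pos (fun z => poissonKernel 0 (x : ℂ) z * (S (x * z)).re)
      ((hopfx_pk_cont x hx0 hx1).mul (Complex.continuous_re.comp hScont).continuousOn)
      (by
        intro z hz
        apply mul_nonneg (hopfx_pk_pos x hx0 hx1 z hz).le
        apply h2
        rw [norm_mul, hz]; simp [abs_of_pos hx0, hx1])
    rw [h8] at h9
    refine ⟨h9.1, fun h0 z hz => ?_⟩
    have h10 := h9.2 h0 z hz
    rcases mul_eq_zero.1 h10 with h11 | h11
    · exact absurd h11 (hopfx_pk_pos x hx0 hx1 z hz).ne'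
    · exact h11
  -- Step C
  set Φ : ℝ → ℝ := fun x => ∑ a ∈ range M, ∑ b ∈ range M,
    2 * (min a b : ℕ) * (c a b).re * x ^ (2 * max a b) with hΦ
  have hd : ∀ x : ℝ, HasDerivAt Φ (4 * x * (T x).re) x := by
    intro x
    have e4 : 4 * x * (T x).re = ∑ a ∈ range M, ∑ b ∈ range M,
        2 * (min a b : ℕ) * (c a b).re * (((2 * max a b : ℕ) : ℝ) * x ^ (2 * max a b - 1)) := by
      rw [hT]
      simp only [Complex.re_sum, Finset.mul_sum]
      refine Finset.sum_congr rfl fun a _ => Finset.sum_congr rfl fun b _ => ?_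
      have e5 : ((a : ℂ) * b * c a b * (x : ℂ) ^ (2 * max (a - 1) (b - 1))).re =
          a * b * (c a b).re * x ^ (2 * max (a - 1) (b - 1)) := by
        have : ((a : ℂ) * b * c a b * (x : ℂ) ^ (2 * max (a - 1) (b - 1))) =
          ((a * b * x ^ (2 * max (a - 1) (b - 1)) : ℝ) : ℂ) * c a b := by push_cast; ring
        rw [this, Complex.re_ofReal_mul]; ring
      rw [e5]
      rcases Nat.eq_zero_or_pos a with ha | ha
      · simp [ha]
      rcases Nat.eq_zero_or_pos b with hb | hb
      · simp [hb]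
      have e6 : 2 * max a b - 1 = 2 * max (a - 1) (b - 1) + 1 := by omega
      have e7 : ((min a b : ℕ) : ℝ) * ((max a b : ℕ) : ℝ) = a * b := by
        rw [← Nat.cast_mul, min_mul_max, Nat.cast_mul]
      rw [e6, pow_succ, Nat.cast_mul]
      linear_combination (-(4 * (c a b).re * x ^ (2 * max (a - 1) (b - 1)) * x)) * e7
    rw [e4, hΦ]
    apply HasDerivAt.fun_sum
    intro a _
    apply HasDerivAt.fun_sum
    intro b _
    apply HasDerivAt.const_mul
    exact hasDerivAt_pow _ _
  have hΦ0 : Φ 0 = 0 := by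
    rw [hΦ]
    apply Finset.sum_eq_zero
    intro a _
    apply Finset.sum_eq_zero
    intro b _
    rcases Nat.eq_zero_or_pos (max a b) with h | h
    · have : min a b = 0 := by omega
      simp [this]
    · rw [zero_pow (by omega), mul_zero]
  have hΦ1 : Φ 1 = 0 := by
    have h12 : (∑ a ∈ range M, ∑ b ∈ range M, ((a : ℂ) + b) * c a b) -
      ∑ a ∈ range M, ∑ b ∈ range M, ((max a b - min a b : ℕ) : ℂ) * c a b = 0 := by
      rw [h3, hA2, sub_zero]
    have h13 : ((Φ 1 : ℝ) : ℂ) = ((((∑ a ∈ range M, ∑ b ∈ range M, ((a : ℂ) + b) * c a b) -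
      ∑ a ∈ range M, ∑ b ∈ range M, ((max a b - min a b : ℕ) : ℂ) * c a b).re : ℝ) : ℂ) := by
      congr 1
      rw [← Finset.sum_sub_distrib, Complex.re_sum, hΦ]
      refine Finset.sum_congr rfl fun a _ => ?_
      rw [← Finset.sum_sub_distrib, Complex.re_sum]
      refine Finset.sum_congr rfl fun b _ => ?_
      have e8 : (((a : ℂ) + b) * c a b - ((max a b - min a b : ℕ) : ℂ) * c a b) =
        ((2 * (min a b : ℕ) : ℝ) : ℂ) * c a b := by
        rw [Nat.cast_sub (min_le_max)]
        have e9 : ((a : ℂ) + b) = ((max a b : ℕ) : ℂ) + ((min a b : ℕ) : ℂ) := by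
          rw [← Nat.cast_add, ← Nat.cast_add, max_add_min]
        rw [e9, Complex.ofReal_mul, Complex.ofReal_ofNat, Complex.ofReal_natCast]; ring
      rw [e8, Complex.re_ofReal_mul]; ring
    rw [h12] at h13
    simpa using h13
  have hmono : MonotoneOn Φ (Set.Icc 0 1) := by
    apply monotoneOn_of_deriv_nonneg (convex_Icc 0 1)
    · exact fun x _ => (hd x).continuousAt.continuousWithinAt
    · exact fun x _ => (hd x).differentiableAt.differentiableWithinAt
    · intro x hx
      rw [interior_Icc] at hx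
      rw [(hd x).deriv]
      have := (hB x hx.1 hx.2).1
      have := hx.1
      positivity
  have hzero : ∀ x ∈ Set.Icc (0 : ℝ) 1, Φ x = 0 := by
    intro x hx
    have h14 := hmono (Set.left_mem_Icc.2 zero_le_one) hx hx.1
    have h15 := hmono hx (Set.right_mem_Icc.2 zero_le_one) hx.2
    linarith
  have hTz : ∀ x : ℝ, 0 < x → x < 1 → (T x).re = 0 := by
    intro x hx0 hx1
    have h16 : Φ =ᶠ[𝓝 x] fun _ => 0 := by
      filter_upwards [Icc_mem_nhds hx0 hx1] with y hy
      exact hzero y hy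
    have h17 : HasDerivAt Φ 0 x := (hasDerivAt_const x (0 : ℝ)).congr_of_eventuallyEq h16
    have h18 := (hd x).unique h17
    have h19 : 4 * x ≠ 0 := by positivity
    rcases mul_eq_zero.1 h18 with h | h
    · exact absurd h h19
    · exact h
  -- Step D
  have hSim : ∀ ζ, (S ζ).im = 0 := by
    intro ζ
    have : (starRingEnd ℂ) (S ζ) = S ζ := by
      rw [hS]
      simp only [map_sum, map_mul, map_pow, Complex.conj_conj, map_natCast]
      rw [Finset.sum_comm]
      refine Finset.sum_congr rfl fun b _ => Finset.sum_congr rfl fun a _ => ?_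
      rw [← herm a b]
      ring
    exact Complex.conj_eq_iff_im.1 this
  have hSz : ∀ ζ : ℂ, 0 < ‖ζ‖ → ‖ζ‖ < 1 → S ζ = 0 := by
    intro ζ hz0 hz1
    have h20 := (hB ‖ζ‖ hz0 hz1).2 (hTz ‖ζ‖ hz0 hz1) (ζ / ‖ζ‖) (by
      rw [norm_div]; simp [hz0.ne'])
    have h21 : (‖ζ‖ : ℂ) * (ζ / ‖ζ‖) = ζ := by
      have : (‖ζ‖ : ℂ) ≠ 0 := by exact_mod_cast hz0.ne'
      field_simp
    rw [h21] at h20
    exact Complex.ext h20 (hSim ζ)
  have hU := hopfx_unique M (fun a b => (a : ℂ) * b * c a b) (by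
    intro ζ hz0 hz1
    have h22 : ∑ a ∈ range M, ∑ b ∈ range M, (a : ℂ) * b * c a b *
        (ζ ^ a * (starRingEnd ℂ) ζ ^ b) = ζ * (starRingEnd ℂ) ζ * S ζ := by
      rw [hS, Finset.mul_sum]
      refine Finset.sum_congr rfl fun a _ => ?_
      rw [Finset.mul_sum]
      refine Finset.sum_congr rfl fun b _ => ?_
      rcases Nat.eq_zero_or_pos a with ha | ha
      · simp [ha]
      rcases Nat.eq_zero_or_pos b with hb | hb
      · simp [hb]
      have h23 : ζ ^ a = ζ * ζ ^ (a - 1) := by rw [← pow_succ']; congr 1; omega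
      have h24 : (starRingEnd ℂ) ζ ^ b = (starRingEnd ℂ) ζ * (starRingEnd ℂ) ζ ^ (b - 1) := by
        rw [← pow_succ']; congr 1; omega
      rw [h23, h24]; ring
    rw [h22, hSz ζ hz0 hz1, mul_zero])
  have hpos : ∀ a < M, ∀ b < M, 0 < a → 0 < b → c a b = 0 := by
    intro a ha b hb ha0 hb0
    have h25 := hU a ha b hb
    rcases mul_eq_zero.1 h25 with h | h
    · rcases mul_eq_zero.1 h with h | h
      · exact absurd (by exact_mod_cast h) ha0.ne'
      · exact absurd (by exact_mod_cast h) hb0.ne'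
    · exact h
  have hcol : ∀ a < M, c a 0 = 0 := by
    intro a0 ha0
    have h26 := hA (M + a0)
    rw [Finset.sum_eq_single a0, Finset.sum_eq_single 0] at h26
    · simpa using h26
    · intro b hb hb0
      have := Finset.mem_range.1 hb
      rw [if_neg (by omega)]
    · intro h; exact absurd (Finset.mem_range.2 (by omega)) h
    · intro a ha hne
      have ha' := Finset.mem_range.1 ha
      apply Finset.sum_eq_zero
      intro b hb
      have hb' := Finset.mem_range.1 hb
      split_ifs with h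
      · exact hpos a ha' b hb' (by omega) (by omega)
      · rfl
    · intro h; exact absurd (Finset.mem_range.2 ha0) h
  intro a ha b hb
  rcases Nat.eq_zero_or_pos b with hb0 | hb0
  · rw [hb0]; exact hcol a ha
  rcases Nat.eq_zero_or_pos a with ha0 | ha0
  · rw [ha0, herm b 0, hcol b hb, map_zero]
  exact hpos a ha b hb ha0 hb0



end DAng
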