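import Pool.Agent.DAng.Var

open scoped ContDiff Topology BigOperators
open Finset Asymptotics
open scoped Polynomial LaurentPolynomial

namespace DAng


section FV
open scoped Polynomial LaurentPolynomial

/-! ### `C0` and `C1` -/

lemma C0_coeff (f : (ℂ[X])[T;T⁻¹]) (n : ℤ) : (C0 f).coeff n = (f.coeff n).eval 0 := by
  simp [C0]

lemma C1_coeff (f : (ℂ[X])[T;T⁻¹]) (n : ℤ) : (C1 f).coeff n = (f.coeff n).coeff 1 := by
  simp [C1]

lemma C1_add (f g : (ℂ[X])[T;T⁻¹]) : C1 (f + g) = C1 f + C1 g := by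
  ext n; simp [C1_coeff]

lemma C1_zero : C1 0 = 0 := by
  ext n; simp [C1_coeff]

lemma C1_sub (f g : (ℂ[X])[T;T⁻¹]) : C1 (f - g) = C1 f - C1 g := by
  ext n; simp [C1_coeff]

lemma C0_CT (a : ℂ[X]) (m : ℤ) : C0 (LaurentPolynomial.C a * LaurentPolynomial.T m) =
    LaurentPolynomial.C (a.eval 0) * LaurentPolynomial.T m := by
  ext n
  rw [C0_coeff, coeff_CT, coeff_CT]
  split_ifs <;> simp

lemma C1_CT (a : ℂ[X]) (m : ℤ) : C1 (LaurentPolynomial.C a * LaurentPolynomial.T m) =
    LaurentPolynomial.C (a.coeff 1) * LaurentPolynomial.T m := by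
  ext n
  rw [C1_coeff, coeff_CT, coeff_CT]
  split_ifs <;> simp

lemma C1_mul (f g : (ℂ[X])[T;T⁻¹]) : C1 (f * g) = C1 f * C0 g + C0 f * C1 g := by
  induction f using LaurentPolynomial.induction_on' with
  | add p q hp hq => 
    rw [add_mul, C1_add, hp, hq, C1_add, map_add]; ring
  | C_mul_T n a =>
    induction g using LaurentPolynomial.induction_on' with
    | add p q hp hq => 
      rw [mul_add, C1_add, hp, hq, C1_add, map_add]; ring
    | C_mul_T m b =>
      have e : (LaurentPolynomial.C a * LaurentPolynomial.T n) *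
          (LaurentPolynomial.C b * LaurentPolynomial.T m) =
          LaurentPolynomial.C (a * b) * LaurentPolynomial.T (n + m) := by
        rw [map_mul, LaurentPolynomial.T_add]; ring
      rw [e, C1_CT, C1_CT, C1_CT, C0_CT, C0_CT, Polynomial.mul_coeff_one,
        Polynomial.coeff_zero_eq_eval_zero, Polynomial.coeff_zero_eq_eval_zero,
        LaurentPolynomial.T_add]
      simp only [map_add, map_mul]
      ring

lemma C0_bar (f : (ℂ[X])[T;T⁻¹]) : C0 (lbar ct f) = lbar (starRingEnd ℂ) (C0 f) := by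
  ext n
  rw [C0_coeff, lbar_coeff, lbar_coeff, C0_coeff, ← Polynomial.coeff_zero_eq_eval_zero,
    ← Polynomial.coeff_zero_eq_eval_zero]
  simp [ct]

lemma C1_bar (f : (ℂ[X])[T;T⁻¹]) : C1 (lbar ct f) = lbar (starRingEnd ℂ) (C1 f) := by
  ext n
  rw [C1_coeff, lbar_coeff, lbar_coeff, C1_coeff]
  simp [ct]

lemma C0_iota (p : ℂ[X][X]) : C0 (Polynomial.toLaurent p) =
    Polynomial.toLaurent (p.map (Polynomial.evalRingHom 0)) := by
  ext n
  rw [C0_coeff]
  rcases lt_or_ge n 0 with h | h
  · rw [toLaurent_coeff_neg _ h, toLaurent_coeff_neg _ h]; simp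
  · obtain ⟨m, rfl⟩ := Int.eq_ofNat_of_zero_le h
    rw [toLaurent_coeff_nat, toLaurent_coeff_nat]; simp

/-- coefficientwise first order part -/
noncomputable def P1 (p : ℂ[X][X]) : ℂ[X] := LaurentPolynomial.trunc (C1 (Polynomial.toLaurent p))

lemma iota_P1 (p : ℂ[X][X]) : Polynomial.toLaurent (P1 p) = C1 (Polynomial.toLaurent p) := by
  ext n
  rw [C1_coeff]
  rcases lt_or_ge n 0 with h | h
  · rw [toLaurent_coeff_neg _ h, toLaurent_coeff_neg _ h]; simp
  · obtain ⟨m, rfl⟩ := Int.eq_ofNat_of_zero_le h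
    rw [toLaurent_coeff_nat, toLaurent_coeff_nat, P1, trunc_coeff, C1_coeff, toLaurent_coeff_nat]

lemma ev_C0 (f : (ℂ[X])[T;T⁻¹]) : lev 1 (C0 f) = (lev 1 f).eval 0 := by
  induction f using LaurentPolynomial.induction_on' with
  | add p q hp hq => simp only [map_add, hp, hq, Polynomial.eval_add]
  | C_mul_T m a =>
    rw [C0_CT]
    simp [lev]

lemma ev_C1 (f : (ℂ[X])[T;T⁻¹]) : lev 1 (C1 f) = (lev 1 f).coeff 1 := by
  induction f using LaurentPolynomial.induction_on' with
  | add p q hp hq => simp only [C1_add, map_add, hp, hq, Polynomial.coeff_add]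
  | C_mul_T m a =>
    rw [C1_CT]
    simp [lev]

/-! ### `nmul` -/

lemma C0_nmul (F G : Wd → (ℂ[X])[T;T⁻¹]) (w : Wd) :
    C0 (nmul F G w) = nmul (fun u => C0 (F u)) (fun u => C0 (G u)) w := by
  induction w generalizing G with
  | nil => simp
  | cons a w ih => rw [nmul_cons, nmul_cons, map_add, map_mul, ih]; rfl

lemma C1_nmul (F G : Wd → (ℂ[X])[T;T⁻¹]) (w : Wd) :
    C1 (nmul F G w) = nmul (fun u => C1 (F u)) (fun u => C0 (G u)) w +
      nmul (fun u => C0 (F u)) (fun u => C1 (G u)) w := by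
  induction w generalizing G with
  | nil => simp [C1_mul]
  | cons a w ih =>
    rw [nmul_cons, nmul_cons, nmul_cons, C1_add, C1_mul, ih]
    have e1 : (fun u => C0 (D a G u)) = D a (fun u => C0 (G u)) := rfl
    have e2 : (fun u => C1 (D a G u)) = D a (fun u => C1 (G u)) := rfl
    rw [e1, e2]; ring

lemma bar_nmul {A B : Type*} [CommRing A] [CommRing B] (b : A →+* B) (F G : Wd → A) (w : Wd) :
    b (nmul F G w) = nmul (fun u => b (F u)) (fun u => b (G u)) w := by
  induction w generalizing G with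
  | nil => simp
  | cons a w ih => rw [nmul_cons, nmul_cons, map_add, map_mul, ih]; rfl

lemma nmul_cj {A : Type*} [CommRing A] (F G : Wd → A) (w : Wd) :
    nmul F G (cj w) = nmul (fun u => F (cj u)) (fun u => G (cj u)) w := by
  induction w generalizing G with
  | nil => simp
  | cons a w ih =>
    rw [cj_cons, nmul_cons, nmul_cons, ih]; rfl

lemma lett_cj {A : Type*} [CommRing A] (a : Bool) (w : Wd) :
    (lett a (cj w) : A) = lett (!a) w := by
  match w with
  | [] => rfl
  | [b] => cases a <;> cases b <;> rfl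
  | b :: c :: w => rfl

end FV

section FV2
open scoped Polynomial LaurentPolynomial

section gen
variable {A : Type*} [CommRing A]

lemma map_lett {B : Type*} [CommRing B] (b : A →+* B) (a : Bool) (w : Wd) :
    b (lett a w) = lett a w := by
  match w with
  | [] => simp
  | [c] => simp only [lett]; split_ifs <;> simp
  | c :: d :: w => simp [lett]

lemma map_one1 {B : Type*} [CommRing B] (b : A →+* B) (w : Wd) :
    b (one1 w) = one1 w := by
  match w with
  | [] => simp
  | c :: w => simp

lemma nmul_lett_concat (g : Wd → A) (a b : Bool) (w : Wd) :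
    nmul (lett a) g (w ++ [b]) = if a = b then g w else 0 := by
  induction w generalizing g with
  | nil => 
    rw [List.nil_append, nmul_cons, nmul_nil, lett_nil, zero_mul, add_zero]
    simp [lett]
  | cons c w ih =>
    rw [List.cons_append, nmul_cons, ih]
    have : (lett a (c :: (w ++ [b])) : A) = 0 := by
      cases w <;> rfl
    rw [this]; simp

lemma word_cases (w : Wd) : true ∈ w ∨ w = List.replicate w.length false := by
  by_cases h : true ∈ w
  · exact Or.inl h
  · refine Or.inr (List.eq_replicate_iff.2 ⟨rfl, fun b hb => ?_⟩)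
    cases b with
    | true => exact absurd hb h
    | false => rfl

lemma nmul_vanish {F G : Wd → A} (hF : ∀ w, true ∈ w → F w = 0) (hG : ∀ w, true ∈ w → G w = 0)
    {w : Wd} (hw : true ∈ w) : nmul F G w = 0 := by
  induction w generalizing G with
  | nil => simp at hw
  | cons a w ih =>
    rw [nmul_cons, hF _ hw, zero_mul, zero_add]
    cases a with
    | true =>
      exact RH.nmul_zero_right' _ _ _ fun u => hG _ (by simp)
    | false =>
      refine ih (fun u hu => hG _ (by simp [hu])) ?_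
      simpa using hw

lemma nmul_replicate (F G : Wd → A) (m : ℕ) :
    nmul F G (List.replicate m false) =
      ∑ i ∈ range (m + 1), F (List.replicate (m - i) false) * G (List.replicate i false) := by
  induction m generalizing G with
  | zero => simp
  | succ m ih =>
    rw [List.replicate_succ, nmul_cons, ih, Finset.sum_range_succ' _ (m + 1)]
    simp only [D_apply, ← List.replicate_succ]
    rw [add_comm]
    congr 1
    refine Finset.sum_congr rfl fun i hi => ?_
    congr 3
    omega

end gen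

section expo
variable {A : Type*} [CommRing A] [Algebra ℚ A]

/-- exponential series in `y` -/
noncomputable def ee (x : A) : Wd → A := Ex (fun a => if a then 0 else x)

lemma ee_true (x : A) {w : Wd} (hw : true ∈ w) : ee x w = 0 := by
  rw [ee, Ex]
  have : ((w.map (fun a => if a then (0:A) else x)).prod) = 0 := by
    apply List.prod_eq_zero
    simp only [List.mem_map]
    exact ⟨true, hw, by simp⟩
  rw [this, mul_zero]

lemma ee_rep (x : A) (m : ℕ) : ee x (List.replicate m false) =
    algebraMap ℚ A (1 / (m.factorial : ℚ)) * x ^ m := by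
  rw [ee, Ex]; simp

@[simp] lemma ee_nil (x : A) : ee x [] = 1 := Ex_nil _

lemma ee_zero (w : Wd) : ee (0 : A) w = one1 w := by
  cases w with
  | nil => simp
  | cons a w => simp [ee, Ex]

lemma nmul_ee (x y : A) (w : Wd) : nmul (ee x) (ee y) w = ee (x + y) w := by
  rcases word_cases w with h | h
  · rw [nmul_vanish (fun _ => ee_true x) (fun _ => ee_true y) h, ee_true _ h]
  · rw [h]
    generalize w.length = m
    rw [nmul_replicate, ee_rep, add_comm x y, add_pow, Finset.mul_sum]
    refine Finset.sum_congr rfl fun i hi => ?_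
    have hi' : i ≤ m := by simpa [Nat.lt_succ_iff] using hi
    rw [ee_rep, ee_rep]
    have : algebraMap ℚ A (1 / ((m - i).factorial : ℚ)) * algebraMap ℚ A (1 / (i.factorial : ℚ)) =
        algebraMap ℚ A (1 / (m.factorial : ℚ)) * (m.choose i : A) := by
      have h1 : (m.choose i : A) = algebraMap ℚ A (m.choose i : ℚ) := by simp
      rw [h1, ← map_mul, ← map_mul]
      congr 1
      have h2 := Nat.choose_mul_factorial_mul_factorial hi'
      have h3 : ((m.choose i : ℚ)) * i.factorial * (m - i).factorial = m.factorial := by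
        exact_mod_cast h2
      have f1 : (i.factorial : ℚ) ≠ 0 := by positivity
      have f2 : ((m-i).factorial : ℚ) ≠ 0 := by positivity
      have f3 : (m.factorial : ℚ) ≠ 0 := by positivity
      field_simp
      linarith
    calc _ = (algebraMap ℚ A (1 / ((m - i).factorial : ℚ)) * algebraMap ℚ A (1 / (i.factorial : ℚ)))
        * (x ^ (m - i) * y ^ i) := by ring
      _ = _ := by rw [this]; ring

lemma nmul_ee_neg (x : A) (w : Wd) : nmul (ee (-x)) (ee x) w = one1 w := by
  rw [nmul_ee, neg_add_cancel, ee_zero]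

lemma lett_false_vanish {w : Wd} (hw : true ∈ w) : (lett false w : A) = 0 := by
  match w with
  | [] => rfl
  | [b] => 
    cases b with
    | true => simp [lett]
    | false => simp at hw
  | b :: c :: w => rfl

lemma ee_comm (x : A) (w : Wd) : nmul (ee x) (lett false) w = nmul (lett false) (ee x) w := by
  rcases word_cases w with h | h
  · rw [nmul_vanish (fun _ => ee_true x) (fun _ => lett_false_vanish) h,
      nmul_vanish (fun _ => lett_false_vanish) (fun _ => ee_true x) h]
  · rw [h]
    generalize w.length = m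
    cases m with
    | zero => simp
    | succ m =>
      have e : nmul (lett false) (ee x) (List.replicate (m + 1) false) =
          ee x (List.replicate m false) := by
        rw [List.replicate_succ', nmul_lett_concat]; simp
      rw [e, List.replicate_succ, nmul_lett]; simp

end expo

lemma SC_E (z : ℂ[X]) : SC.E z = ee (SC.bar (SC.ι z)) := rfl
lemma ST_E (z : ℂ[X][X]) : ST.E z = ee (ST.bar (ST.ι z)) := rfl

lemma C0_ee (x : (ℂ[X])[T;T⁻¹]) (w : Wd) : C0 (ee x w) = ee (C0 x) w := by
  rw [ee, Ex, map_mul, map_list_prod, ee, Ex, RingHom.map_rat_algebraMap]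
  congr 2
  rw [List.map_map]
  congr 1
  funext a
  cases a <;> simp

lemma C1_rat (c : ℚ) (f : (ℂ[X])[T;T⁻¹]) :
    C1 (algebraMap ℚ _ c * f) = algebraMap ℚ _ c * C1 f := by
  have h0 : C1 (algebraMap ℚ (ℂ[X])[T;T⁻¹] c) = 0 := by
    have : algebraMap ℚ (ℂ[X])[T;T⁻¹] c = LaurentPolynomial.C (Polynomial.C (c : ℂ)) *
        LaurentPolynomial.T 0 := by
      simp
    rw [this, C1_CT]
    simp [Polynomial.coeff_C]
  rw [C1_mul, h0, zero_mul, zero_add, RingHom.map_rat_algebraMap]

lemma C1_pow (x : (ℂ[X])[T;T⁻¹]) (m : ℕ) : C1 (x ^ (m + 1)) = (m + 1 : ℂ[T;T⁻¹]) * C0 x ^ m * C1 x := by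
  induction m with
  | zero => simp
  | succ m ih =>
    rw [pow_succ, C1_mul, ih]
    push_cast
    rw [map_pow]; ring

lemma C1_one : C1 1 = 0 := by
  have : (1 : (ℂ[X])[T;T⁻¹]) = LaurentPolynomial.C 1 * LaurentPolynomial.T 0 := by simp
  rw [this, C1_CT]
  simp [Polynomial.coeff_one]

lemma C1_ee (x : (ℂ[X])[T;T⁻¹]) (w : Wd) :
    C1 (ee x w) = C1 x * nmul (lett false) (ee (C0 x)) w := by
  rcases word_cases w with h | h
  · rw [nmul_vanish (fun _ => lett_false_vanish) (fun _ => ee_true _) h, ee_true _ h, C1_zero,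
      mul_zero]
  · rw [h]
    generalize w.length = m
    cases m with
    | zero => simp [C1_one]
    | succ m =>
      have e : nmul (lett false) (ee (C0 x)) (List.replicate (m + 1) false) =
          ee (C0 x) (List.replicate m false) := by
        rw [List.replicate_succ', nmul_lett_concat]; simp
      rw [e, ee_rep, ee_rep, C1_rat, C1_pow]
      have : algebraMap ℚ ℂ[T;T⁻¹] (1 / ((m + 1).factorial : ℚ)) * (m + 1 : ℂ[T;T⁻¹]) =
          algebraMap ℚ ℂ[T;T⁻¹] (1 / (m.factorial : ℚ)) := by
        have h1 : (m + 1 : ℂ[T;T⁻¹]) = algebraMap ℚ _ (m + 1 : ℚ) := by simp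
        rw [h1, ← map_mul]
        congr 1
        rw [Nat.factorial_succ]
        push_cast
        have f1 : (m.factorial : ℚ) ≠ 0 := by positivity
        have f2 : (m + 1 : ℚ) ≠ 0 := by positivity
        field_simp
      calc _ = (algebraMap ℚ ℂ[T;T⁻¹] (1 / ((m + 1).factorial : ℚ)) * (m + 1 : ℂ[T;T⁻¹])) *
          (C0 x ^ m * C1 x) := by ring
        _ = _ := by rw [this]; ring

/-! ### `zt` -/
lemma zt_map (z0 : ℂ[X]) (σ : ℂ) (n : ℕ) : (zt z0 σ n).map (Polynomial.evalRingHom 0) = z0 := by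
  rw [zt, Polynomial.map_add, Polynomial.map_mul, Polynomial.map_C, Polynomial.map_map]
  have : (Polynomial.evalRingHom (0:ℂ)).comp Polynomial.C = RingHom.id ℂ := by
    ext a; simp
  rw [this]
  simp

lemma zt_C1 (z0 : ℂ[X]) (σ : ℂ) (n : ℕ) : C1 (Polynomial.toLaurent (zt z0 σ n)) =
    LaurentPolynomial.C σ * LaurentPolynomial.T (n : ℤ) - LaurentPolynomial.C σ * LaurentPolynomial.T 0 := by
  have e : Polynomial.toLaurent (zt z0 σ n) = Polynomial.toLaurent (z0.map Polynomial.C) +
      (LaurentPolynomial.C (Polynomial.C σ * Polynomial.X) * LaurentPolynomial.T (n : ℤ) -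
       LaurentPolynomial.C (Polynomial.C σ * Polynomial.X) * LaurentPolynomial.T 0) := by
    rw [zt, map_add, map_mul, map_sub]
    simp only [Polynomial.toLaurent_C, map_pow, Polynomial.toLaurent_X, map_one, LaurentPolynomial.T_zero]
    rw [LaurentPolynomial.T_pow]
    simp; ring
  have h0 : C1 (Polynomial.toLaurent (z0.map (Polynomial.C : ℂ →+* ℂ[X]))) = 0 := by
    ext m
    rw [C1_coeff]
    rcases lt_or_ge m 0 with h | h
    · rw [toLaurent_coeff_neg _ h]; simp
    · obtain ⟨m, rfl⟩ := Int.eq_ofNat_of_zero_le h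
      rw [toLaurent_coeff_nat]; simp [Polynomial.coeff_C]
  rw [e, C1_add, C1_sub, C1_CT, C1_CT, h0]
  simp

/-- the shift of `z̄` -/
noncomputable def dl (σ : ℂ) (n : ℕ) : ℂ[T;T⁻¹] :=
  LaurentPolynomial.C ((starRingEnd ℂ) σ) * LaurentPolynomial.T (-(n : ℤ)) -
    LaurentPolynomial.C ((starRingEnd ℂ) σ)

lemma bar_zt_C1 (z0 : ℂ[X]) (σ : ℂ) (n : ℕ) : C1 (ST.bar (ST.ι (zt z0 σ n))) = dl σ n := by
  show C1 (lbar ct (Polynomial.toLaurent (zt z0 σ n))) = _
  rw [C1_bar, zt_C1, map_sub, lbar_CT, lbar_CT, dl]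
  simp

lemma bar_zt_C0 (z0 : ℂ[X]) (σ : ℂ) (n : ℕ) : C0 (ST.bar (ST.ι (zt z0 σ n))) = SC.bar (SC.ι z0) := by
  show C0 (lbar ct (Polynomial.toLaurent (zt z0 σ n))) = _
  rw [C0_bar, C0_iota, zt_map]; rfl

lemma exists_n0 (k : ℕ) (G : Wd → ℂ[T;T⁻¹]) : ∃ n0 : ℕ, ∀ n ≥ n0, ∀ w : Wd, w.length ≤ k →
    ∃ p : ℂ[X], Polynomial.toLaurent p = LaurentPolynomial.T (n : ℤ) * G w := by
  have one : ∀ f : ℂ[T;T⁻¹], ∃ n0 : ℕ, ∀ n ≥ n0, ∃ p : ℂ[X], Polynomial.toLaurent p =
      LaurentPolynomial.T (n : ℤ) * f := by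
    intro f
    obtain ⟨n0, p, hp⟩ := LaurentPolynomial.exists_T_pow f
    refine ⟨n0, fun n hn => ⟨Polynomial.X ^ (n - n0) * p, ?_⟩⟩
    rw [map_mul, hp, map_pow, Polynomial.toLaurent_X, LaurentPolynomial.T_pow]
    have : (n : ℤ) = ((n - n0 : ℕ) * (1 : ℤ)) + n0 := by omega
    rw [this, LaurentPolynomial.T_add]
    ring
  induction k generalizing G with
  | zero =>
    obtain ⟨n0, h⟩ := one (G [])
    refine ⟨n0, fun n hn w hw => ?_⟩
    have : w = [] := List.length_eq_zero_iff.1 (by omega)
    subst this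
    exact h n hn
  | succ k ih =>
    obtain ⟨n0, h⟩ := one (G [])
    obtain ⟨n1, h1⟩ := ih (D true G)
    obtain ⟨n2, h2⟩ := ih (D false G)
    refine ⟨n0 + n1 + n2, fun n hn w hw => ?_⟩
    match w with
    | [] => exact h n (by omega)
    | true :: w => exact h1 n (by omega) w (by simpa using hw)
    | false :: w => exact h2 n (by omega) w (by simpa using hw)

end FV2


open scoped Polynomial LaurentPolynomial in
/-- V1 -/
theorem first_variation (k : ℕ) (z0 : ℂ[X]) (hz0 : z0.eval 1 = 0) (A0 : Wd → ℂ[X])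
    (hA0 : SC.IsDisc k z0 A0) : ∃ n0 : ℕ, ∀ n ≥ n0, ∀ σ : ℂ, ∀ A : Wd → ℂ[X][X],
      ST.IsDisc k (zt z0 σ n) A → ∀ w : Wd, w.length ≤ k →
        C0 (ST.q (zt z0 σ n) A w) = SC.q z0 A0 w ∧
        C1 (ST.q (zt z0 σ n) A w) = q1 (SC.q z0 A0) σ n w := by
  set zb0 : ℂ[T;T⁻¹] := SC.bar (SC.ι z0) with hzb0
  set q0 : Wd → ℂ[T;T⁻¹] := SC.q z0 A0 with hq0
  have hq0e : q0 = nmul (fun w => Polynomial.toLaurent (A0 w)) (ee zb0) := by
    funext w; rfl
  set G : Wd → ℂ[T;T⁻¹] := nmul (nmul q0 (lett true)) (ee (-zb0)) with hG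
  obtain ⟨n0, hn0⟩ := exists_n0 k G
  refine ⟨n0, fun n hn σ A hA => ?_⟩
  choose! p hp using hn0 n hn
  -- basic facts about `ev`
  have hevz : lev 1 zb0 = 0 := by
    have : lev 1 zb0 = (starRingEnd ℂ) (lev 1 (Polynomial.toLaurent z0)) := SC.ev_bar _
    rw [this, lev_toLaurent]; simp [hz0]
  have hev_ee : ∀ x : ℂ[T;T⁻¹], lev 1 x = 0 → ∀ w, lev 1 (ee x w) = one1 w := by
    intro x hx w
    cases w with
    | nil => simp
    | cons a w =>
      rw [ee, Ex, map_mul]
      cases a <;> simp [hx]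
  have hevA : ∀ w : Wd, w.length ≤ k → lev 1 (Polynomial.toLaurent (A0 w)) = one1 w := by
    intro w hw
    cases w with
    | nil => rw [hA0.nil]; simp
    | cons a w => exact hA0.ev _ (by simp) hw
  have hevq : ∀ w : Wd, w.length ≤ k → lev 1 (q0 w) = one1 w := by
    intro w hw
    rw [hq0e, bar_nmul]
    have : nmul (fun u => lev 1 (Polynomial.toLaurent (A0 u))) (fun u => lev 1 (ee zb0 u)) w =
        nmul one1 one1 w :=
      nmul_congr (fun u hu => hevA u (by omega)) (fun u _ => hev_ee _ hevz u)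
    rw [this, nmul_one]
  -- first order
  set D0 : Wd → ℂ[X] := fun w => (A w).map (Polynomial.evalRingHom 0) with hD0
  have hC0q : ∀ w, C0 (ST.q (zt z0 σ n) A w) = SC.q z0 D0 w := by
    intro w
    have e : C0 (ST.q (zt z0 σ n) A w) = nmul (fun u => C0 (Polynomial.toLaurent (A u)))
        (fun u => C0 (ee (ST.bar (ST.ι (zt z0 σ n))) u)) w := C0_nmul _ _ w
    rw [e]
    refine nmul_congr (fun u _ => ?_) (fun u _ => ?_)
    · rw [C0_iota]; rfl
    · rw [C0_ee, bar_zt_C0]; rfl
  have hD0disc : SC.IsDisc k z0 D0 := by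
    refine ⟨?_, ?_, ?_⟩
    · simp [hD0, hA.nil]
    · intro w hw hl
      show lev 1 (Polynomial.toLaurent (D0 w)) = 0
      have h1 : lev 1 (Polynomial.toLaurent (A w)) = 0 := hA.ev w hw hl
      rw [hD0, ← C0_iota, ev_C0, h1]; simp
    · intro w hl
      rw [← hC0q, ← hC0q]
      have h1 : lbar ct (ST.q (zt z0 σ n) A (cj w)) = ST.q (zt z0 σ n) A w := hA.real w hl
      show lbar (starRingEnd ℂ) _ = _
      rw [← C0_bar, h1]
  have hDA : ∀ w : Wd, w.length ≤ k → D0 w = A0 w := RH.IsDisc.unique hD0disc hA0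
  have first : ∀ w : Wd, w.length ≤ k → C0 (ST.q (zt z0 σ n) A w) = q0 w := by
    intro w hw
    rw [hC0q]
    exact nmul_congr (fun u hu => by rw [hDA u (by omega)]) (fun _ _ => rfl)
  -- second claim
  set N : Wd → ℂ[T;T⁻¹] := nmul (fun u => Polynomial.toLaurent (A0 u))
    (nmul (lett false) (ee zb0)) with hN
  have hC1q : ∀ w : Wd, w.length ≤ k → C1 (ST.q (zt z0 σ n) A w) =
      nmul (fun u => Polynomial.toLaurent (P1 (A u))) (ee zb0) w + dl σ n * N w := by
    intro w hw
    have e : C1 (ST.q (zt z0 σ n) A w) = nmul (fun u => C1 (Polynomial.toLaurent (A u)))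
        (fun u => C0 (ee (ST.bar (ST.ι (zt z0 σ n))) u)) w +
        nmul (fun u => C0 (Polynomial.toLaurent (A u)))
        (fun u => C1 (ee (ST.bar (ST.ι (zt z0 σ n))) u)) w := C1_nmul _ _ w
    rw [e]
    congr 1
    · refine nmul_congr (fun u _ => ?_) (fun u _ => ?_)
      · rw [iota_P1]
      · rw [C0_ee, bar_zt_C0]
    · rw [hN, ← nmul_smul_right]
      refine nmul_congr (fun u hu => ?_) (fun u _ => ?_)
      · rw [C0_iota]
        have := hDA u (by omega)
        rw [← this]
      · rw [C1_ee, bar_zt_C1, bar_zt_C0]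
  -- the candidate
  set σb : ℂ := (starRingEnd ℂ) σ with hσb
  set B' : Wd → ℂ[X] := fun w => Polynomial.C σ * p w + Polynomial.C σb * nmul A0 (lett false) w -
    (Polynomial.C σ * nmul (lett true) A0 w + Polynomial.C σb * nmul (lett false) A0 w) with hB'
  set H : Wd → ℂ[T;T⁻¹] := fun w => (LaurentPolynomial.C σ * LaurentPolynomial.T (n : ℤ)) * G w +
    LaurentPolynomial.C σb * nmul (fun u => Polynomial.toLaurent (A0 u)) (lett false) w -
    (LaurentPolynomial.C σ * nmul (lett true) (fun u => Polynomial.toLaurent (A0 u)) w +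
      LaurentPolynomial.C σb * nmul (lett false) (fun u => Polynomial.toLaurent (A0 u)) w) with hH
  have hBH : ∀ w : Wd, w.length ≤ k → Polynomial.toLaurent (B' w) = H w := by
    intro w hw
    simp only [hB', hH, map_sub, map_add, map_mul, Polynomial.toLaurent_C, bar_nmul, map_lett,
      hp w hw]
    ring
  have hinv : nmul (ee (-zb0)) (ee zb0) = one1 := by
    funext w; exact nmul_ee_neg _ w
  have hcomm : nmul (lett false) (ee zb0) = nmul (ee zb0) (lett false) := by
    funext w; exact (ee_comm _ w).symm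
  have hq1 : ∀ w, nmul H (ee zb0) w + dl σ n * N w = q1 q0 σ n w := by
    intro w
    have e1 : nmul G (ee zb0) w = nmul q0 (lett true) w := by
      rw [hG, nmul_assoc, hinv, nmul_one]
    have e2 : nmul (nmul (fun u => Polynomial.toLaurent (A0 u)) (lett false)) (ee zb0) w =
        nmul q0 (lett false) w := by
      rw [nmul_assoc, hcomm, ← nmul_assoc, hq0e]
    have e3 : ∀ a, nmul (nmul (lett a) (fun u => Polynomial.toLaurent (A0 u))) (ee zb0) w =
        nmul (lett a) q0 w := by
      intro a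
      rw [nmul_assoc, hq0e]
    have e4 : N w = nmul q0 (lett false) w := by
      rw [hN, hcomm, ← nmul_assoc, hq0e]
    rw [hH, nmul_sub_left, nmul_add_left, nmul_add_left, nmul_smul_left, nmul_smul_left,
      nmul_smul_left, nmul_smul_left, e1, e2, e3, e3, e4, q1, dl]
    ring
  have hq1real : ∀ w : Wd, w.length ≤ k →
      lbar (starRingEnd ℂ) (q1 q0 σ n (cj w)) = q1 q0 σ n w := by
    intro w hw
    have hq0r : ∀ u : Wd, u.length ≤ k → lbar (starRingEnd ℂ) (q0 (cj u)) = q0 u :=
      fun u hu => hA0.real u hu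
    have e1 : ∀ a, lbar (starRingEnd ℂ) (nmul q0 (lett a) (cj w)) = nmul q0 (lett (!a)) w := by
      intro a
      rw [nmul_cj, bar_nmul]
      refine nmul_congr (fun u hu => hq0r u (by omega)) (fun u _ => ?_)
      rw [lett_cj, map_lett]
    have e2 : ∀ a, lbar (starRingEnd ℂ) (nmul (lett a) q0 (cj w)) = nmul (lett (!a)) q0 w := by
      intro a
      rw [nmul_cj, bar_nmul]
      refine nmul_congr (fun u _ => ?_) (fun u hu => hq0r u (by omega))
      rw [lett_cj, map_lett]
    have hC : ∀ a : ℂ, lbar (starRingEnd ℂ) (LaurentPolynomial.C a) =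
        LaurentPolynomial.C ((starRingEnd ℂ) a) := by
      intro a
      have := lbar_CT (starRingEnd ℂ) a 0
      simpa using this
    rw [q1, q1, map_sub, map_add, map_add, map_mul, map_mul (lbar _) _ (nmul q0 (lett false) _),
      map_mul (lbar _) _ (nmul (lett true) q0 _), map_mul (lbar _) _ (nmul (lett false) q0 _),
      lbar_CT, lbar_CT, hC, hC, e1, e1, e2, e2]
    simp only [Complex.conj_conj, neg_neg, Bool.not_true, Bool.not_false]
    ring
  have hC1real : ∀ w : Wd, w.length ≤ k →
      lbar (starRingEnd ℂ) (C1 (ST.q (zt z0 σ n) A (cj w))) = C1 (ST.q (zt z0 σ n) A w) := by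
    intro w hw
    have h1 : lbar ct (ST.q (zt z0 σ n) A (cj w)) = ST.q (zt z0 σ n) A w := hA.real w hw
    rw [← C1_bar, h1]
  have hdiff : ∀ w : Wd, w.length ≤ k → SC.q z0 (fun u => P1 (A u) - B' u) w =
      C1 (ST.q (zt z0 σ n) A w) - q1 q0 σ n w := by
    intro w hw
    have e : SC.q z0 (fun u => P1 (A u) - B' u) w =
        nmul (fun u => Polynomial.toLaurent (P1 (A u)) - H u) (ee zb0) w := by
      refine nmul_congr (fun u hu => ?_) (fun _ _ => rfl)
      show Polynomial.toLaurent (P1 (A u) - B' u) = _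
      rw [map_sub, hBH u (by omega)]
    rw [e, nmul_sub_left, hC1q w hw, ← hq1]; ring
  have hevH : ∀ w : Wd, w.length ≤ k → lev 1 (Polynomial.toLaurent (B' w)) = 0 := by
    intro w hw
    rw [hBH w hw]
    have eG : lev 1 (G w) = lett true w := by
      rw [hG, bar_nmul]
      have : nmul (fun u => lev 1 (nmul q0 (lett true) u)) (fun u => lev 1 (ee (-zb0) u)) w =
          nmul (lett true) one1 w := by
        refine nmul_congr (fun u hu => ?_) (fun u _ => hev_ee _ (by rw [map_neg, hevz, neg_zero]) u)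
        rw [bar_nmul]
        have : nmul (fun u => lev 1 (q0 u)) (fun u => lev 1 (lett true u)) u =
            nmul one1 (lett true) u :=
          nmul_congr (fun v hv => hevq v (by omega)) (fun v _ => map_lett _ _ _)
        rw [this, one_nmul]
      rw [this, nmul_one]
    have e1 : ∀ a, lev 1 (nmul (fun u => Polynomial.toLaurent (A0 u)) (lett a) w) = lett a w := by
      intro a
      rw [bar_nmul]
      have : nmul (fun u => lev 1 (Polynomial.toLaurent (A0 u))) (fun u => lev 1 (lett a u)) w =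
          nmul one1 (lett a) w :=
        nmul_congr (fun v hv => hevA v (by omega)) (fun v _ => map_lett _ _ _)
      rw [this, one_nmul]
    have e2 : ∀ a, lev 1 (nmul (lett a) (fun u => Polynomial.toLaurent (A0 u)) w) = lett a w := by
      intro a
      rw [bar_nmul]
      have : nmul (fun u => lev 1 (lett a u)) (fun u => lev 1 (Polynomial.toLaurent (A0 u))) w =
          nmul (lett a) one1 w :=
        nmul_congr (fun v _ => map_lett _ _ _) (fun v hv => hevA v (by omega))
      rw [this, nmul_one]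
    have hC : ∀ a : ℂ, lev 1 (LaurentPolynomial.C a) = a := by
      intro a; simp [lev]
    have hT : lev (1 : ℂˣ) (LaurentPolynomial.T (n : ℤ) : ℂ[T;T⁻¹]) = 1 := by
      simp [lev]
    simp only [hH, map_sub, map_add, map_mul, eG, e1, e2, hC, hT]
    ring
  have hevP : ∀ w : Wd, w.length ≤ k → lev 1 (Polynomial.toLaurent (P1 (A w))) = 0 := by
    intro w hw
    rw [iota_P1, ev_C1]
    by_cases h : w = []
    · subst h; rw [hA.nil]; simp [Polynomial.coeff_one]
    · have h1 : lev 1 (Polynomial.toLaurent (A w)) = 0 := hA.ev w h hw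
      rw [h1]; simp
  have hzero : ∀ w : Wd, w.length ≤ k → P1 (A w) - B' w = 0 := by
    refine RH.uniq_lin (S := SC) (n := k) (z := z0) (A := fun w => P1 (A w) - B' w) ?_ ?_
    · intro w hw
      show lev 1 (Polynomial.toLaurent (P1 (A w) - B' w)) = 0
      rw [map_sub, map_sub, hevP w hw, hevH w hw, sub_zero]
    · intro w hw
      rw [hdiff w hw, hdiff (cj w) (by simpa using hw)]
      show lbar (starRingEnd ℂ) _ = _
      rw [map_sub, hC1real w hw, hq1real w hw]
  intro w hw
  refine ⟨first w hw, ?_⟩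
  have h1 := hdiff w hw
  have h2 : SC.q z0 (fun u => P1 (A u) - B' u) w = 0 := by
    have e : SC.q z0 (fun u => P1 (A u) - B' u) w = nmul (fun _ => 0) (ee zb0) w := by
      refine nmul_congr (fun u hu => ?_) (fun _ _ => rfl)
      show SC.ι (P1 (A u) - B' u) = 0
      rw [hzero u (by omega), map_zero]
    rw [e, nmul_zero_left]
  rw [h2] at h1
  exact (sub_eq_zero.1 h1.symm)




end DAng
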