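import Pool.Agent.DAng.Var
import Pool.Agent.DAng.V1

open scoped ContDiff Topology BigOperators
open Finset Asymptotics
open scoped Polynomial LaurentPolynomial

namespace DAng



section ks_words
variable {A B : Type*} [CommRing A] [CommRing B]

lemma ks_sumW_congr {n : ℕ} {F G : Wd → A} (h : ∀ w : Wd, w.length = n → F w = G w) :
    sumW n F = sumW n G := by
  induction n generalizing F G with
  | zero => exact h [] rfl
  | succ n ih =>
    show sumW n (D true F) + sumW n (D false F) = sumW n (D true G) + sumW n (D false G)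
    rw [ih (F := D true F) (G := D true G) (fun w hw => h (true :: w) (by simp [hw])),
      ih (F := D false F) (G := D false G) (fun w hw => h (false :: w) (by simp [hw]))]

lemma ks_sumW_add (n : ℕ) (F G : Wd → A) :
    sumW n (fun w => F w + G w) = sumW n F + sumW n G := by
  induction n generalizing F G with
  | zero => rfl
  | succ n ih =>
    show sumW n (fun w => D true F w + D true G w) + sumW n (fun w => D false F w + D false G w) =
      (sumW n (D true F) + sumW n (D false F)) + (sumW n (D true G) + sumW n (D false G))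
    rw [ih, ih]; ring

lemma ks_sumW_mul (n : ℕ) (c : A) (F : Wd → A) : sumW n (fun w => c * F w) = c * sumW n F := by
  induction n generalizing F with
  | zero => rfl
  | succ n ih =>
    show sumW n (fun w => c * D true F w) + sumW n (fun w => c * D false F w) =
      c * (sumW n (D true F) + sumW n (D false F))
    rw [ih, ih]; ring

lemma ks_sumW_map (φ : A →+ B) (n : ℕ) (F : Wd → A) : φ (sumW n F) = sumW n (fun w => φ (F w)) := by
  induction n generalizing F with
  | zero => rfl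
  | succ n ih =>
    show φ (sumW n (D true F) + sumW n (D false F)) =
      sumW n (fun w => φ (D true F w)) + sumW n (fun w => φ (D false F w))
    rw [map_add, ih, ih]

lemma ks_sumW_zero (n : ℕ) : sumW n (fun _ : Wd => (0 : A)) = 0 := by
  have := ks_sumW_mul n (0 : A) (fun _ => 0)
  simpa using this

lemma ks_sumP_congr {k : ℕ} {F G : Wd → Wd → A}
    (h : ∀ u v : Wd, u.length + v.length = k → F u v = G u v) : sumP k F = sumP k G := by
  unfold sumP
  refine Finset.sum_congr rfl fun i hi => ?_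
  rw [Finset.mem_range] at hi
  exact ks_sumW_congr fun u hu => ks_sumW_congr fun v hv => h u v (by omega)

lemma ks_sumP_add (k : ℕ) (F G : Wd → Wd → A) :
    sumP k (fun u v => F u v + G u v) = sumP k F + sumP k G := by
  unfold sumP
  rw [← Finset.sum_add_distrib]
  refine Finset.sum_congr rfl fun i _ => ?_
  rw [← ks_sumW_add]
  congr 1
  funext u
  exact ks_sumW_add _ _ _

lemma ks_sumP_mul (k : ℕ) (c : A) (F : Wd → Wd → A) :
    sumP k (fun u v => c * F u v) = c * sumP k F := by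
  unfold sumP
  rw [Finset.mul_sum]
  refine Finset.sum_congr rfl fun i _ => ?_
  rw [← ks_sumW_mul]
  congr 1
  funext u
  exact ks_sumW_mul _ _ _

lemma ks_sumP_map (φ : A →+ B) (k : ℕ) (F : Wd → Wd → A) :
    φ (sumP k F) = sumP k (fun u v => φ (F u v)) := by
  unfold sumP
  rw [map_sum]
  refine Finset.sum_congr rfl fun i _ => ?_
  rw [ks_sumW_map]
  congr 1
  funext u
  exact ks_sumW_map _ _ _

lemma ks_sumP_U (m : ℕ) (G : Wd → Wd → A) (h : ∀ v, G [] v = 0) :
    sumP (m + 1) G = sumP m (fun u v => G (true :: u) v) + sumP m (fun u v => G (false :: u) v) := by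
  unfold sumP
  rw [Finset.sum_range_succ', ← Finset.sum_add_distrib]
  have h0 : sumW 0 (fun u => sumW (m + 1 - 0) (fun v => G u v)) = 0 := by
    show sumW (m + 1) (fun v => G [] v) = 0
    simp only [h]
    exact ks_sumW_zero _
  rw [h0, add_zero]
  refine Finset.sum_congr rfl fun i hi => ?_
  have e : m + 1 - (i + 1) = m - i := by omega
  rw [e]
  rfl

lemma ks_sumP_V (m : ℕ) (G : Wd → Wd → A) (h : ∀ u, G u [] = 0) :
    sumP (m + 1) G = sumP m (fun u v => G u (true :: v)) + sumP m (fun u v => G u (false :: v)) := by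
  unfold sumP
  rw [Finset.sum_range_succ, ← Finset.sum_add_distrib]
  have h0 : sumW (m + 1) (fun u => sumW (m + 1 - (m + 1)) (fun v => G u v)) = 0 := by
    rw [Nat.sub_self]
    show sumW (m + 1) (fun u => G u []) = 0
    simp only [h]
    exact ks_sumW_zero _
  rw [h0, add_zero]
  refine Finset.sum_congr rfl fun i hi => ?_
  rw [Finset.mem_range] at hi
  have e : m + 1 - i = (m - i) + 1 := by omega
  rw [e, ← ks_sumW_add]
  rfl

lemma ks_nmul_map (φ : A →+* B) (f g : Wd → A) (w : Wd) :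
    φ (nmul f g w) = nmul (fun w => φ (f w)) (fun w => φ (g w)) w := by
  induction w generalizing g with
  | nil => simp
  | cons a w ih => rw [nmul_cons, map_add, map_mul, ih, nmul_cons]; rfl

lemma ks_Ex_map [Algebra ℚ A] [Algebra ℚ B] (φ : A →+* B) (ξ : Bool → A) (w : Wd) :
    φ (Ex ξ w) = Ex (fun a => φ (ξ a)) w := by
  unfold Ex
  rw [map_mul, RingHom.map_rat_algebraMap, map_list_prod, List.map_map]
  rfl

end ks_words

section ks_spec
open scoped Polynomial LaurentPolynomial

/-- specialisation of Laurent polynomials at `t` -/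
noncomputable def ksSp (t : ℝ) : (ℂ[X])[T;T⁻¹] →+* ℂ[T;T⁻¹] :=
  AddMonoidAlgebra.mapRingHom ℤ (Polynomial.evalRingHom (t : ℂ))

/-- specialisation of polynomials at `t` -/
noncomputable def kssp (t : ℝ) : ℂ[X][X] →+* ℂ[X] :=
  Polynomial.mapRingHom (Polynomial.evalRingHom (t : ℂ))

lemma ksSp_coeff (t : ℝ) (f : (ℂ[X])[T;T⁻¹]) (n : ℤ) :
    (ksSp t f).coeff n = (f.coeff n).eval (t : ℂ) := by
  simp [ksSp]

lemma ksSp_CT (t : ℝ) (a : ℂ[X]) (n : ℤ) :
    ksSp t (LaurentPolynomial.C a * LaurentPolynomial.T n) =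
      LaurentPolynomial.C (a.eval (t : ℂ)) * LaurentPolynomial.T n := by
  ext k
  rw [ksSp_coeff, coeff_CT, coeff_CT]
  split_ifs <;> simp

lemma ksSp_toLaurent (t : ℝ) (p : ℂ[X][X]) :
    ksSp t (Polynomial.toLaurent p) = Polynomial.toLaurent (kssp t p) := by
  ext k
  rw [ksSp_coeff]
  rcases lt_or_ge k 0 with hk | hk
  · rw [toLaurent_coeff_neg _ hk, toLaurent_coeff_neg _ hk]; simp
  · obtain ⟨m, rfl⟩ := Int.eq_ofNat_of_zero_le hk
    rw [toLaurent_coeff_nat, toLaurent_coeff_nat]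
    simp [kssp, Polynomial.coeff_map]

lemma ks_eval_ct (t : ℝ) (a : ℂ[X]) : (ct a).eval (t : ℂ) = (starRingEnd ℂ) (a.eval (t : ℂ)) := by
  unfold ct
  rw [Polynomial.coe_mapRingHom, Polynomial.eval_map, Polynomial.eval₂_eq_sum_range,
    Polynomial.eval_eq_sum_range, map_sum]
  refine Finset.sum_congr rfl fun i _ => ?_
  rw [map_mul, map_pow, Complex.conj_ofReal]

lemma ksSp_lbar (t : ℝ) (f : (ℂ[X])[T;T⁻¹]) :
    lbar (starRingEnd ℂ) (ksSp t f) = ksSp t (lbar ct f) := by
  ext k
  rw [lbar_coeff, ksSp_coeff, ksSp_coeff, lbar_coeff, ks_eval_ct]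

lemma ks_units_zpow (x : ℂˣ) (n : ℤ) :
    (((Units.map (Polynomial.C : ℂ →+* ℂ[X]).toMonoidHom x) ^ n : (ℂ[X])ˣ) : ℂ[X]) =
      Polynomial.C ((x ^ n : ℂˣ) : ℂ) := by
  rw [← map_zpow, Units.coe_map]
  rfl

lemma ks_lev_Sp (t : ℝ) (x : ℂˣ) (f : (ℂ[X])[T;T⁻¹]) :
    lev x (ksSp t f) =
      (lev (Units.map (Polynomial.C : ℂ →+* ℂ[X]).toMonoidHom x) f).eval (t : ℂ) := by
  induction f using LaurentPolynomial.induction_on' with
  | add p q hp hq => rw [map_add, map_add, hp, hq, map_add, Polynomial.eval_add]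
  | C_mul_T n a =>
    rw [ksSp_CT]
    simp only [lev, map_mul, LaurentPolynomial.eval₂_C, LaurentPolynomial.eval₂_T,
      RingHom.id_apply, Polynomial.eval_mul]
    rw [ks_units_zpow, Polynomial.eval_C]

lemma ks_lev_coeff0 (x : ℂˣ) (f : (ℂ[X])[T;T⁻¹]) :
    (lev (Units.map (Polynomial.C : ℂ →+* ℂ[X]).toMonoidHom x) f).coeff 0 = lev x (C0 f) := by
  have h := ks_lev_Sp 0 x f
  have e : ksSp 0 f = C0 f := by
    ext k
    rw [ksSp_coeff]
    simp [C0]
  rw [e] at h
  rw [h, Polynomial.coeff_zero_eq_eval_zero]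
  simp

lemma ks_C1_CT (a : ℂ[X]) (n : ℤ) :
    C1 (LaurentPolynomial.C a * LaurentPolynomial.T n) =
      LaurentPolynomial.C (a.coeff 1) * LaurentPolynomial.T n := by
  ext k
  rw [coeff_CT]
  have : (C1 (LaurentPolynomial.C a * LaurentPolynomial.T n)).coeff k =
      ((LaurentPolynomial.C a * LaurentPolynomial.T n : (ℂ[X])[T;T⁻¹]).coeff k).coeff 1 := by
    simp [C1]
  rw [this, coeff_CT]
  split_ifs <;> simp

lemma ks_C1_add (f g : (ℂ[X])[T;T⁻¹]) : C1 (f + g) = C1 f + C1 g := by
  ext k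
  simp [C1]

lemma ks_lev_coeff1 (x : ℂˣ) (f : (ℂ[X])[T;T⁻¹]) :
    (lev (Units.map (Polynomial.C : ℂ →+* ℂ[X]).toMonoidHom x) f).coeff 1 = lev x (C1 f) := by
  induction f using LaurentPolynomial.induction_on' with
  | add p q hp hq => rw [map_add, Polynomial.coeff_add, hp, hq, ks_C1_add, map_add]
  | C_mul_T n a =>
    rw [ks_C1_CT]
    simp only [lev, map_mul, LaurentPolynomial.eval₂_C, LaurentPolynomial.eval₂_T,
      RingHom.id_apply]
    rw [ks_units_zpow, Polynomial.coeff_mul_C]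

/-- specialisation of `q` -/
lemma ks_q_spec (t : ℝ) (z : ℂ[X][X]) (A : Wd → ℂ[X][X]) (w : Wd) :
    ksSp t (ST.q z A w) = SC.q (kssp t z) (fun w => kssp t (A w)) w := by
  unfold RH.q
  rw [ks_nmul_map]
  congr 1
  · funext w
    exact ksSp_toLaurent t (A w)
  · funext w
    unfold RH.E
    rw [ks_Ex_map]
    congr 1
    funext a
    split_ifs
    · exact map_zero _
    · show ksSp t (lbar ct (Polynomial.toLaurent z)) =
        lbar (starRingEnd ℂ) (Polynomial.toLaurent (kssp t z))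
      rw [← ksSp_lbar, ksSp_toLaurent]

lemma ks_disc_spec (t : ℝ) (k : ℕ) (z : ℂ[X][X]) (A : Wd → ℂ[X][X]) (h : ST.IsDisc k z A) :
    SC.IsDisc k (kssp t z) (fun w => kssp t (A w)) := by
  refine ⟨?_, ?_, ?_⟩
  · rw [h.nil, map_one]
  · intro w hw hl
    have h1 := h.ev w hw hl
    show lev 1 (Polynomial.toLaurent (kssp t (A w))) = 0
    rw [← ksSp_toLaurent, ks_lev_Sp, map_one]
    have h2 : lev 1 (Polynomial.toLaurent (A w)) = 0 := h1
    rw [h2, Polynomial.eval_zero]
  · intro w hl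
    rw [← ks_q_spec, ← ks_q_spec]
    have h1 := h.real w hl
    show lbar (starRingEnd ℂ) (ksSp t (ST.q z A (cj w))) = _
    rw [ksSp_lbar]
    have h2 : lbar ct (ST.q z A (cj w)) = ST.q z A w := h1
    rw [h2]

/-- the algebraic relation for all `n` and `σ` -/
lemma ks_relation (k m : ℕ) (hm : m + 1 ≤ k) (P : Wd → Wd → ℂ) (h : Kill k (m + 1) P)
    (z0 : ℂ[X]) (A0 : Wd → ℂ[X]) (hz0 : z0.eval 1 = 0) (hA0 : SC.IsDisc k z0 A0)
    (x y : ℂˣ) (hx : (x : ℂ) = 2) (hy : (y : ℂ) = 3) :
    ∃ n0 : ℕ, ∀ n ≥ n0, ∀ σ : ℂ,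
      sumP (m + 1) (fun u v => P u v *
        (lev x (SC.q z0 A0 u) * lev y (q1 (SC.q z0 A0) σ n v) +
          lev x (q1 (SC.q z0 A0) σ n u) * lev y (SC.q z0 A0 v))) = 0 := by
  obtain ⟨n0, hn0⟩ := first_variation k z0 hz0 A0 hA0
  refine ⟨n0, fun n hn σ => ?_⟩
  have hz1 : (zt z0 σ n).eval 1 = 0 := by
    unfold zt
    have : (Polynomial.map Polynomial.C z0).eval (1 : ℂ[X]) = Polynomial.C (z0.eval 1) := by
      rw [Polynomial.eval_map, ← Polynomial.C_1, Polynomial.eval₂_at_apply]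
    rw [Polynomial.eval_add, this, hz0]
    simp
  obtain ⟨A, hA⟩ := RH.exists_disc ST k (zt z0 σ n) (by
    show lev 1 (Polynomial.toLaurent (zt z0 σ n)) = 0
    rw [lev_toLaurent]
    exact hz1)
  have hfv := hn0 n hn σ A hA
  set X2 := Units.map (Polynomial.C : ℂ →+* ℂ[X]).toMonoidHom x with hX2
  set X3 := Units.map (Polynomial.C : ℂ →+* ℂ[X]).toMonoidHom y with hX3
  let F : ℂ[X] := sumP (m + 1) (fun u v => Polynomial.C (P u v) *
    lev X2 (ST.q (zt z0 σ n) A u) * lev X3 (ST.q (zt z0 σ n) A v))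
  have hF : F = 0 := by
    apply Polynomial.eq_zero_of_infinite_isRoot
    have hinf : (Set.range (fun t : ℝ => (t : ℂ))).Infinite :=
      Set.infinite_range_of_injective Complex.ofReal_injective
    refine hinf.mono ?_
    rintro _ ⟨t, rfl⟩
    show F.eval (t : ℂ) = 0
    have h1 := ks_sumP_map (Polynomial.evalRingHom (t : ℂ)).toAddMonoidHom (m + 1)
      (fun u v => Polynomial.C (P u v) *
        lev X2 (ST.q (zt z0 σ n) A u) * lev X3 (ST.q (zt z0 σ n) A v))
    have h2 : F.eval (t : ℂ) = sumP (m + 1) (fun u v => P u v *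
        lev x (SC.q (kssp t (zt z0 σ n)) (fun w => kssp t (A w)) u) *
        lev y (SC.q (kssp t (zt z0 σ n)) (fun w => kssp t (A w)) v)) := by
      refine Eq.trans h1 ?_
      refine ks_sumP_congr fun u v _ => ?_
      rw [← ks_q_spec, ← ks_q_spec, ks_lev_Sp, ks_lev_Sp]
      show ((Polynomial.C (P u v) * lev X2 (ST.q (zt z0 σ n) A u) *
        lev X3 (ST.q (zt z0 σ n) A v))).eval (t : ℂ) = _
      rw [Polynomial.eval_mul, Polynomial.eval_mul, Polynomial.eval_C]
    rw [h2]
    refine h _ _ ?_ (ks_disc_spec t k _ A hA) x y hx hy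
    have h3 : (kssp t (zt z0 σ n)).eval 1 = ((zt z0 σ n).eval 1).eval (t : ℂ) := by
      unfold kssp
      rw [Polynomial.coe_mapRingHom, Polynomial.eval_map]
      have := Polynomial.eval₂_at_apply (p := zt z0 σ n) (Polynomial.evalRingHom (t : ℂ)) 1
      simpa using this
    rw [h3, hz1, Polynomial.eval_zero]
  have hc : F.coeff 1 = 0 := by rw [hF, Polynomial.coeff_zero]
  have h1 := ks_sumP_map (Polynomial.lcoeff ℂ 1).toAddMonoidHom (m + 1)
      (fun u v => Polynomial.C (P u v) *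
        lev X2 (ST.q (zt z0 σ n) A u) * lev X3 (ST.q (zt z0 σ n) A v))
  have h2 : F.coeff 1 = sumP (m + 1) (fun u v => P u v *
        (lev x (SC.q z0 A0 u) * lev y (q1 (SC.q z0 A0) σ n v) +
          lev x (q1 (SC.q z0 A0) σ n u) * lev y (SC.q z0 A0 v))) := by
    refine Eq.trans h1 ?_
    refine ks_sumP_congr fun u v huv => ?_
    show (Polynomial.C (P u v) * lev X2 (ST.q (zt z0 σ n) A u) *
        lev X3 (ST.q (zt z0 σ n) A v)).coeff 1 = _
    rw [mul_assoc, Polynomial.coeff_C_mul, Polynomial.mul_coeff_one, ks_lev_coeff0, ks_lev_coeff0,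
      ks_lev_coeff1, ks_lev_coeff1, (hfv u (by omega)).1, (hfv u (by omega)).2,
      (hfv v (by omega)).1, (hfv v (by omega)).2]
  rw [← h2, hc]

lemma ks_lev_q1 (x : ℂˣ) (q : Wd → ℂ[T;T⁻¹]) (σ : ℂ) (n : ℕ) (w : Wd) :
    lev x (q1 q σ n w) = σ * (x : ℂ) ^ n * lev x (nmul q (lett true) w)
      + (starRingEnd ℂ) σ * ((x : ℂ) ^ n)⁻¹ * lev x (nmul q (lett false) w)
      - (σ * lev x (nmul (lett true) q w) + (starRingEnd ℂ) σ * lev x (nmul (lett false) q w)) := by
  unfold q1
  have hC : ∀ a : ℂ, lev x (LaurentPolynomial.C a) = a := by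
    intro a; simp [lev]
  have hT : lev x (LaurentPolynomial.T (n : ℤ)) = (x : ℂ) ^ n := by
    simp [lev]
  have hT' : lev x (LaurentPolynomial.T (-(n : ℤ))) = ((x : ℂ) ^ n)⁻¹ := by
    simp [lev]
  rw [map_sub, map_add, map_add, map_mul, map_mul, map_mul, map_mul, map_mul, map_mul, hC, hC, hT, hT']

lemma ks_U (m : ℕ) (P : Wd → Wd → ℂ) (q : Wd → ℂ[T;T⁻¹]) (x : ℂˣ) (g : Wd → ℂ) (a : Bool) :
    sumP (m + 1) (fun u v => P u v * (lev x (nmul q (lett a) u) * g v)) =
      sumP m (fun u v => DU a P u v * lev x (q u) * g v) := by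
  rw [ks_sumP_U]
  · cases a
    · have h1 : sumP m (fun u v => P (true :: u) v * (lev x (nmul q (lett false) (true :: u)) * g v))
          = 0 := by
        have : (fun u v => P (true :: u) v * (lev x (nmul q (lett false) (true :: u)) * g v))
            = fun (_ _ : Wd) => (0 : ℂ) * 0 := by
          funext u v
          rw [nmul_lett]; simp
        rw [this, ks_sumP_mul, zero_mul]
      rw [h1, zero_add]
      refine ks_sumP_congr fun u v _ => ?_
      rw [nmul_lett]
      simp only [if_true, DU_apply]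
      ring
    · have h1 : sumP m (fun u v => P (false :: u) v * (lev x (nmul q (lett true) (false :: u)) * g v))
          = 0 := by
        have : (fun u v => P (false :: u) v * (lev x (nmul q (lett true) (false :: u)) * g v))
            = fun (_ _ : Wd) => (0 : ℂ) * 0 := by
          funext u v
          rw [nmul_lett]; simp
        rw [this, ks_sumP_mul, zero_mul]
      rw [h1, add_zero]
      refine ks_sumP_congr fun u v _ => ?_
      rw [nmul_lett]
      simp only [if_true, DU_apply]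
      ring
  · intro v
    rw [nmul_lett]; simp

lemma ks_V (m : ℕ) (P : Wd → Wd → ℂ) (q : Wd → ℂ[T;T⁻¹]) (y : ℂˣ) (f : Wd → ℂ) (a : Bool) :
    sumP (m + 1) (fun u v => P u v * (f u * lev y (nmul q (lett a) v))) =
      sumP m (fun u v => DV a P u v * f u * lev y (q v)) := by
  rw [ks_sumP_V]
  · cases a
    · have h1 : sumP m (fun u v => P u (true :: v) * (f u * lev y (nmul q (lett false) (true :: v))))
          = 0 := by
        have : (fun u v => P u (true :: v) * (f u * lev y (nmul q (lett false) (true :: v))))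
            = fun (_ _ : Wd) => (0 : ℂ) * 0 := by
          funext u v
          rw [nmul_lett]; simp
        rw [this, ks_sumP_mul, zero_mul]
      rw [h1, zero_add]
      refine ks_sumP_congr fun u v _ => ?_
      rw [nmul_lett]
      simp only [if_true, DV_apply]
      ring
    · have h1 : sumP m (fun u v => P u (false :: v) * (f u * lev y (nmul q (lett true) (false :: v))))
          = 0 := by
        have : (fun u v => P u (false :: v) * (f u * lev y (nmul q (lett true) (false :: v))))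
            = fun (_ _ : Wd) => (0 : ℂ) * 0 := by
          funext u v
          rw [nmul_lett]; simp
        rw [this, ks_sumP_mul, zero_mul]
      rw [h1, add_zero]
      refine ks_sumP_congr fun u v _ => ?_
      rw [nmul_lett]
      simp only [if_true, DV_apply]
      ring
  · intro u
    rw [nmul_lett]; simp

lemma ks_solve1 (a b e : ℂ) (n0 : ℕ) (h : ∀ n ≥ n0, (2 : ℂ) ^ n * a + 3 ^ n * b - e = 0) :
    a = 0 ∧ b = 0 := by
  have h0 := h n0 le_rfl
  have h1 := h (n0 + 1) (by omega)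
  have h2 := h (n0 + 2) (by omega)
  rw [pow_succ, pow_succ] at h1
  rw [pow_add, pow_add] at h2
  have hb : (3 : ℂ) ^ n0 * b = 0 := by linear_combination (h2 - 3 * h1 + 2 * h0) / 2
  have ha : (2 : ℂ) ^ n0 * a = 0 := by linear_combination h1 - h0 - 2 * hb
  constructor
  · exact (mul_eq_zero.1 ha).resolve_left (pow_ne_zero _ (by norm_num))
  · exact (mul_eq_zero.1 hb).resolve_left (pow_ne_zero _ (by norm_num))

lemma ks_solve2 (a b e : ℂ) (n0 : ℕ)
    (h : ∀ n ≥ n0, ((2 : ℂ) ^ n)⁻¹ * a + ((3 : ℂ) ^ n)⁻¹ * b - e = 0) :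
    a = 0 ∧ b = 0 := by
  have h0 := h n0 le_rfl
  have h1 := h (n0 + 1) (by omega)
  have h2 := h (n0 + 2) (by omega)
  rw [pow_succ, pow_succ, mul_inv, mul_inv] at h1
  rw [pow_add, pow_add, mul_inv, mul_inv] at h2
  have hb : ((3 : ℂ) ^ n0)⁻¹ * b = 0 := by
    linear_combination 9 * (h2 - (3 / 2) * h1 + (1 / 2) * h0)
  have ha : ((2 : ℂ) ^ n0)⁻¹ * a = 0 := by linear_combination -2 * (h1 - h0) - (4 / 3) * hb
  constructor
  · exact (mul_eq_zero.1 ha).resolve_left (inv_ne_zero (pow_ne_zero _ (by norm_num)))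
  · exact (mul_eq_zero.1 hb).resolve_left (inv_ne_zero (pow_ne_zero _ (by norm_num)))

/-- V2 -/
theorem kill_step (k m : ℕ) (hm : m + 1 ≤ k) (P : Wd → Wd → ℂ) (h : Kill k (m + 1) P) (a : Bool) :
    Kill k m (DU a P) ∧ Kill k m (DV a P) := by
  suffices H : ∀ (z : ℂ[X]) (A : Wd → ℂ[X]), z.eval 1 = 0 → SC.IsDisc k z A →
      ∀ (x y : ℂˣ), (x : ℂ) = 2 → (y : ℂ) = 3 →
      (∀ a, sumP m (fun u v => DU a P u v * lev x (SC.q z A u) * lev y (SC.q z A v)) = 0) ∧
      (∀ a, sumP m (fun u v => DV a P u v * lev x (SC.q z A u) * lev y (SC.q z A v)) = 0) from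
    ⟨fun z A hz hA x y hx hy => (H z A hz hA x y hx hy).1 a,
      fun z A hz hA x y hx hy => (H z A hz hA x y hx hy).2 a⟩
  intro z A hz hA x y hx hy
  obtain ⟨n0, hrel⟩ := ks_relation k m hm P h z A hz hA x y hx hy
  set q := SC.q z A with hq
  set f : Wd → ℂ := fun u => lev x (q u) with hf
  set g : Wd → ℂ := fun v => lev y (q v) with hg
  let ea : Bool → ℂ := fun a => sumP (m + 1) (fun u v => P u v * (lev x (nmul (lett a) q u) * g v))
  let eb : Bool → ℂ := fun a => sumP (m + 1) (fun u v => P u v * (f u * lev y (nmul (lett a) q v)))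
  let aa : Bool → ℂ := fun a => sumP m (fun u v => DU a P u v * lev x (q u) * g v)
  let bb : Bool → ℂ := fun a => sumP m (fun u v => DV a P u v * f u * lev y (q v))
  have key : ∀ n ≥ n0, ∀ σ : ℂ,
      σ * 2 ^ n * aa true + (starRingEnd ℂ) σ * ((2 : ℂ) ^ n)⁻¹ * aa false
      + σ * 3 ^ n * bb true + (starRingEnd ℂ) σ * ((3 : ℂ) ^ n)⁻¹ * bb false
      - (σ * (ea true + eb true) + (starRingEnd ℂ) σ * (ea false + eb false)) = 0 := by
    intro n hn σ
    have h1 := hrel n hn σ
    rw [← h1]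
    have e1 : ∀ a, aa a = sumP (m + 1) (fun u v => P u v * (lev x (nmul q (lett a) u) * g v)) :=
      fun a => (ks_U m P q x g a).symm
    have e2 : ∀ a, bb a = sumP (m + 1) (fun u v => P u v * (f u * lev y (nmul q (lett a) v))) :=
      fun a => (ks_V m P q y f a).symm
    rw [e1, e1, e2, e2]
    simp only [ea, eb]
    simp only [mul_add, sub_eq_add_neg, neg_add, ← neg_mul]
    simp only [← ks_sumP_mul, ← ks_sumP_add]
    refine ks_sumP_congr fun u v _ => ?_
    rw [ks_lev_q1, ks_lev_q1, hx, hy]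
    simp only [hf, hg]
    ring
  have kA : ∀ n ≥ n0, (2 : ℂ) ^ n * aa true + 3 ^ n * bb true - (ea true + eb true) = 0 := by
    intro n hn
    have k1 := key n hn 1
    have k2 := key n hn Complex.I
    rw [map_one] at k1
    rw [Complex.conj_I] at k2
    have hI : Complex.I * Complex.I = -1 := Complex.I_mul_I
    linear_combination (1 / 2) * k1 - (Complex.I / 2) * k2 + (1 / 2) * (
      (2 : ℂ) ^ n * aa true + 3 ^ n * bb true - (ea true + eb true)
      - (((2 : ℂ) ^ n)⁻¹ * aa false + ((3 : ℂ) ^ n)⁻¹ * bb false - (ea false + eb false))) * hI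
  have kB : ∀ n ≥ n0, ((2 : ℂ) ^ n)⁻¹ * aa false + ((3 : ℂ) ^ n)⁻¹ * bb false
      - (ea false + eb false) = 0 := by
    intro n hn
    have k1 := key n hn 1
    have k2 := kA n hn
    rw [map_one] at k1
    linear_combination k1 - k2
  obtain ⟨s1, s2⟩ := ks_solve1 _ _ _ n0 kA
  obtain ⟨s3, s4⟩ := ks_solve2 _ _ _ n0 kB
  constructor
  · intro a
    cases a
    · exact s3
    · exact s1
  · intro a
    cases a
    · exact s4
    · exact s2

end ks_spec


end DAng
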