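import Pool.Agent.DAng.Var
import Pool.Agent.DAng.Hopf
import Pool.Agent.DAng.Dsw
import Pool.Agent.DAng.V2

open scoped BigOperators Polynomial LaurentPolynomial
open Finset

namespace DAng

section sums
variable {A : Type*} [CommRing A]

lemma sumW_congr' : ∀ (n : ℕ) {F G : Wd → A}, (∀ w : Wd, w.length = n → F w = G w) →
    sumW n F = sumW n G
  | 0, _, _, h => h [] rfl
  | n + 1, F, G, h => by
    show sumW n (D true F) + sumW n (D false F) = sumW n (D true G) + sumW n (D false G)
    rw [sumW_congr' n (F := D true F) (G := D true G) (fun w hw => h (true :: w) (by simp [hw])),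
      sumW_congr' n (F := D false F) (G := D false G) (fun w hw => h (false :: w) (by simp [hw]))]

lemma sumW_add' : ∀ (n : ℕ) (F G : Wd → A), sumW n (fun w => F w + G w) = sumW n F + sumW n G
  | 0, _, _ => rfl
  | n + 1, F, G => by
    show sumW n (fun w => D true F w + D true G w) + sumW n (fun w => D false F w + D false G w) = _
    rw [sumW_add' n, sumW_add' n]
    show _ = (sumW n (D true F) + sumW n (D false F)) + (sumW n (D true G) + sumW n (D false G))
    ring

lemma sumW_zero' : ∀ (n : ℕ), sumW n (fun _ => (0 : A)) = 0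
  | 0 => rfl
  | n + 1 => by
    show sumW n (fun _ => (0 : A)) + sumW n (fun _ => (0 : A)) = 0
    rw [sumW_zero' n]; simp

lemma sumW_map' {B : Type*} [CommRing B] (f : A →+ B) : ∀ (n : ℕ) (F : Wd → A),
    sumW n (fun w => f (F w)) = f (sumW n F)
  | 0, _ => rfl
  | n + 1, F => by
    show sumW n (fun w => f (D true F w)) + sumW n (fun w => f (D false F w)) = _
    rw [sumW_map' f n, sumW_map' f n, ← map_add]; rfl

lemma sumW_cj : ∀ (n : ℕ) (F : Wd → A), sumW n (fun w => F (cj w)) = sumW n F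
  | 0, _ => rfl
  | n + 1, F => by
    show sumW n (fun w => D false F (cj w)) + sumW n (fun w => D true F (cj w)) = 
      sumW n (D true F) + sumW n (D false F)
    rw [sumW_cj n, sumW_cj n]; ring

lemma sumW_mul_left : ∀ (n : ℕ) (c : A) (F : Wd → A), sumW n (fun w => c * F w) = c * sumW n F
  | 0, _, _ => rfl
  | n + 1, c, F => by
    show sumW n (fun w => c * D true F w) + sumW n (fun w => c * D false F w) = 
      c * (sumW n (D true F) + sumW n (D false F))
    rw [sumW_mul_left n, sumW_mul_left n]; ring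

lemma sumW_sumW_comm : ∀ (n m : ℕ) (F : Wd → Wd → A),
    sumW n (fun u => sumW m (fun v => F u v)) = sumW m (fun v => sumW n (fun u => F u v))
  | 0, _, _ => rfl
  | n + 1, m, F => by
    show sumW n (fun u => sumW m (fun v => F (true :: u) v)) +
      sumW n (fun u => sumW m (fun v => F (false :: u) v)) = _
    rw [sumW_sumW_comm n m, sumW_sumW_comm n m, ← sumW_add']; rfl

lemma sumP_congr' (k : ℕ) {F G : Wd → Wd → A}
    (h : ∀ u v : Wd, u.length + v.length = k → F u v = G u v) : sumP k F = sumP k G := by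
  unfold sumP
  refine Finset.sum_congr rfl fun i hi => ?_
  have hi' : i ≤ k := by simpa [Nat.lt_succ_iff] using hi
  refine sumW_congr' i fun u hu => sumW_congr' (k - i) fun v hv => h u v (by omega)

lemma sumP_add' (k : ℕ) (F G : Wd → Wd → A) :
    sumP k (fun u v => F u v + G u v) = sumP k F + sumP k G := by
  unfold sumP
  rw [← Finset.sum_add_distrib]
  refine Finset.sum_congr rfl fun i _ => ?_
  rw [← sumW_add']
  refine sumW_congr' i fun u _ => sumW_add' _ _ _

lemma sumP_map' {B : Type*} [CommRing B] (f : A →+ B) (k : ℕ) (F : Wd → Wd → A) :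
    sumP k (fun u v => f (F u v)) = f (sumP k F) := by
  unfold sumP
  rw [map_sum]
  refine Finset.sum_congr rfl fun i _ => ?_
  rw [← sumW_map' f]
  refine sumW_congr' i fun u _ => sumW_map' f _ _

lemma sumP_mul_left (k : ℕ) (c : A) (F : Wd → Wd → A) :
    sumP k (fun u v => c * F u v) = c * sumP k F := by
  unfold sumP
  rw [Finset.mul_sum]
  refine Finset.sum_congr rfl fun i _ => ?_
  rw [← sumW_mul_left]
  refine sumW_congr' i fun u _ => sumW_mul_left _ _ _

lemma sumP_zero' (k : ℕ) : sumP k (fun _ _ => (0 : A)) = 0 := by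
  unfold sumP
  refine Finset.sum_eq_zero fun i _ => ?_
  rw [sumW_congr' i (G := fun _ => (0 : A)) (fun u _ => sumW_zero' _), sumW_zero']

lemma sumP_sum {ι : Type*} (s : Finset ι) (k : ℕ) (F : ι → Wd → Wd → A) :
    sumP k (fun u v => ∑ i ∈ s, F i u v) = ∑ i ∈ s, sumP k (F i) := by
  classical
  induction s using Finset.induction_on with
  | empty => simp [sumP_zero']
  | insert a s ha ih =>
    rw [Finset.sum_insert ha, ← ih, ← sumP_add']
    exact sumP_congr' k fun u v _ => by rw [Finset.sum_insert ha]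

/-- reindexing `(u,v) ↦ (cj v, cj u)` -/
lemma sumP_cj (k : ℕ) (F : Wd → Wd → A) : sumP k (fun u v => F (cj v) (cj u)) = sumP k F := by
  unfold sumP
  rw [← Finset.sum_range_reflect]
  refine Finset.sum_congr rfl fun i hi => ?_
  have hi' : i ≤ k := by simpa [Nat.lt_succ_iff] using hi
  have e1 : k + 1 - 1 - i = k - i := by omega
  have e2 : k - (k - i) = i := by omega
  rw [e1, e2, sumW_sumW_comm]
  rw [sumW_cj i (fun v' => sumW (k - i) (fun u => F v' (cj u)))]
  exact sumW_congr' i fun u _ => sumW_cj _ _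

end sums

/-- duality between shuffle and unshuffle -/
lemma sumP_shf (k : ℕ) (P : Wd → Wd → ℂ) (g : Wd → ℂ) :
    sumP k (fun u v => P u v * shf g u v) = sumW k (fun w => unsh P w * g w) := by
  have h := dsw_dual k g P
  have e1 : sumP k (fun u v => P u v * shf g u v) = sumP k (fun u v => shf g u v * P u v) :=
    sumP_congr' k fun u v _ => mul_comm _ _
  have e2 : sumW k (fun w => unsh P w * g w) = sumW k (fun w => g w * unsh P w) :=
    sumW_congr' k fun w _ => mul_comm _ _
  rw [e1, e2, h]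

/-- only `|v| = 0` contributes -/
lemma sumP_right_nil (k : ℕ) (F : Wd → Wd → ℂ) (h : ∀ u v : Wd, v ≠ [] → F u v = 0) :
    sumP k F = sumW k (fun u => F u []) := by
  unfold sumP
  rw [Finset.sum_eq_single k]
  · rw [Nat.sub_self]; rfl
  · intro i hi hik
    have hi' : i ≤ k := by simpa [Nat.lt_succ_iff] using hi
    have : ∀ u : Wd, sumW (k - i) (fun v => F u v) = 0 := by
      intro u
      rw [sumW_congr' (k - i) (G := fun _ => (0 : ℂ)) (fun v hv => h u v (by
        rintro rfl; simp at hv; omega)), sumW_zero']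
    rw [sumW_congr' i (G := fun _ => (0 : ℂ)) (fun u _ => this u), sumW_zero']
  · intro h; simp at h

section disc
variable {k : ℕ} {R : Wd → Wd → ℂ} {z : ℂ[X]} {A : Wd → ℂ[X]}

lemma SC_real (hA : SC.IsDisc k z A) {w : Wd} (hw : w.length ≤ k) :
    lbar (starRingEnd ℂ) (SC.q z A (cj w)) = SC.q z A w := hA.real w hw

lemma q_true (z : ℂ[X]) (A : Wd → ℂ[X]) (w : Wd) :
    SC.q z A (true :: w) = Polynomial.toLaurent (A (true :: w)) := by
  rw [RH.q_cons]
  have : D true (SC.E z) = fun _ => 0 := by funext v; exact RH.E_true z v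
  rw [this]
  have h0 : nmul (fun w => SC.ι (A w)) (fun _ => (0 : ℂ[T;T⁻¹])) w = 0 :=
    RH.nmul_zero_right' _ _ _ fun _ => rfl
  rw [h0, add_zero]; rfl

/-- replace the disc by its boundary values -/
lemma R_q (h : HomR k R) (hA : SC.IsDisc k z A) (x y : ℂˣ) :
    sumP k (fun u v => R u v * lev x (SC.q z A u) * lev y (SC.q z A v)) =
    sumP k (fun u v => R u v * lev x (Polynomial.toLaurent (A u)) *
      lev y (lbar (starRingEnd ℂ) (Polynomial.toLaurent (A (cj v))))) := by
  refine sumP_congr' k fun u v huv => ?_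
  have e1 : R u v * lev x (SC.q z A u) = R u v * lev x (Polynomial.toLaurent (A u)) := by
    match u with
    | [] => rw [RH.q_nil hA, hA.nil]; simp
    | true :: u => rw [q_true]
    | false :: u => rw [h.crU]; simp
  have e2 : R u v * lev y (SC.q z A v) =
      R u v * lev y (lbar (starRingEnd ℂ) (Polynomial.toLaurent (A (cj v)))) := by
    match v with
    | [] => rw [RH.q_nil hA, cj_nil, hA.nil]; simp
    | false :: v =>
      rw [← SC_real hA (w := false :: v) (by simp only [List.length_cons] at huv ⊢; omega)]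
      rw [cj_cons, Bool.not_false, q_true]
    | true :: v => rw [h.crV]; simp
  calc R u v * lev x (SC.q z A u) * lev y (SC.q z A v)
      = (R u v * lev x (SC.q z A u)) * lev y (SC.q z A v) := rfl
    _ = lev x (Polynomial.toLaurent (A u)) * (R u v * lev y (SC.q z A v)) := by rw [e1]; ring
    _ = _ := by rw [e2]; ring

lemma lev_bar_circle {ζ : ℂˣ} (hζ : ‖(ζ : ℂ)‖ = 1) (f : ℂ[T;T⁻¹]) :
    lev ζ (lbar (starRingEnd ℂ) f) = (starRingEnd ℂ) (lev ζ f) := by
  have hinv : ((ζ⁻¹ : ℂˣ) : ℂ) = (starRingEnd ℂ) (ζ : ℂ) := by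
    rw [Units.val_inv_eq_inv_val, Complex.inv_def, Complex.normSq_eq_norm_sq, hζ]; simp
  induction f using LaurentPolynomial.induction_on' with
  | add p q hp hq => simp only [map_add, hp, hq]
  | C_mul_T m a =>
    rw [lbar_CT]
    simp only [lev, map_mul, LaurentPolynomial.eval₂_C, LaurentPolynomial.eval₂_T, RingHom.id_apply]
    congr 1
    rw [zpow_neg, ← inv_zpow, Units.val_zpow_eq_zpow_val, Units.val_zpow_eq_zpow_val, hinv, map_zpow₀]

lemma lev_poly (x : ℂˣ) (p : ℂ[X]) {M : ℕ} (hM : p.natDegree < M) :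
    lev x (Polynomial.toLaurent p) = ∑ a ∈ range M, p.coeff a * (x : ℂ) ^ a := by
  rw [lev_toLaurent, Polynomial.eval_eq_sum_range' hM]

/-- the real analytic function vanishes on the circle -/
lemma vanish_circle (h : HomR k R) (hA : SC.IsDisc k z A) (ζ : ℂˣ) :
    sumP k (fun u v => R u v * lev ζ (SC.q z A u) * lev ζ (SC.q z A v)) = 0 := by
  have hc := hA.q_isChar
  have e : sumP k (fun u v => R u v * lev ζ (SC.q z A u) * lev ζ (SC.q z A v)) =
      sumP k (fun u v => R u v * shf (fun w => lev ζ (SC.q z A w)) u v) := by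
    refine sumP_congr' k fun u v huv => ?_
    rw [mul_assoc, ← map_mul, ← hc.2 u v (by omega)]
    congr 1
    exact (shf_map (lev ζ).toAddMonoidHom _ u v).symm
  rw [e, sumP_shf]
  rw [sumW_congr' k (G := fun _ => (0 : ℂ)) (fun w _ => by rw [h.diag]; ring), sumW_zero']

/-- key step: every disc annihilates `R` -/
theorem disc_kill (hk : 1 ≤ k) (h : HomR k R) (hB : ∀ w : Wd, w.length = k → brU w R [] [] = 0)
    (_hz : z.eval 1 = 0) (hA : SC.IsDisc k z A) (x y : ℂˣ) :
    sumP k (fun u v => R u v * lev x (SC.q z A u) * lev y (SC.q z A v)) = 0 := by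
  classical
  -- degree bound
  obtain ⟨M, hM⟩ : ∃ M : ℕ, ∀ w : Wd, w.length ≤ k → (A w).natDegree < M := by
    have hfin : Set.Finite {w : Wd | w.length ≤ k} := List.finite_length_le Bool k
    obtain ⟨M, hM⟩ := (hfin.image (fun w => (A w).natDegree)).bddAbove
    exact ⟨M + 1, fun w hw => Nat.lt_succ_of_le (hM (Set.mem_image_of_mem _ hw))⟩
  let c : ℕ → ℕ → ℂ := fun a b => sumP k (fun u v => R u v * (A u).coeff a *
    (starRingEnd ℂ) ((A (cj v)).coeff b))
  have herm : ∀ a b, c b a = (starRingEnd ℂ) (c a b) := by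
    intro a b
    have e : (starRingEnd ℂ) (c a b) = sumP k (fun u v => (starRingEnd ℂ) (R u v * (A u).coeff a *
        (starRingEnd ℂ) ((A (cj v)).coeff b))) :=
      (sumP_map' (starRingEnd ℂ).toAddMonoidHom k _).symm
    rw [e, ← sumP_cj]
    refine sumP_congr' k fun u v _ => ?_
    simp only [map_mul, Complex.conj_conj, cj_cj]
    rw [← h.herm (cj v) (cj u)]
    simp only [cj_cj]; ring
  have hgen : ∀ (α β : ℕ → ℂ), ∑ a ∈ range M, ∑ b ∈ range M, c a b * α a * β b =
      sumP k (fun u v => R u v * (∑ a ∈ range M, (A u).coeff a * α a) *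
        (∑ b ∈ range M, (starRingEnd ℂ) ((A (cj v)).coeff b) * β b)) := by
    intro α β
    have e : ∀ u v : Wd, R u v * (∑ a ∈ range M, (A u).coeff a * α a) *
        (∑ b ∈ range M, (starRingEnd ℂ) ((A (cj v)).coeff b) * β b) =
        ∑ a ∈ range M, ∑ b ∈ range M, (α a * β b) * (R u v * (A u).coeff a *
          (starRingEnd ℂ) ((A (cj v)).coeff b)) := by
      intro u v
      rw [mul_assoc, Finset.sum_mul_sum, Finset.mul_sum]
      refine Finset.sum_congr rfl fun a _ => ?_
      rw [Finset.mul_sum]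
      exact Finset.sum_congr rfl fun b _ => by ring
    rw [sumP_congr' k (fun u v _ => e u v), sumP_sum]
    refine Finset.sum_congr rfl fun a _ => ?_
    rw [sumP_sum]
    refine Finset.sum_congr rfl fun b _ => ?_
    rw [sumP_mul_left]
    show c a b * α a * β b = α a * β b * c a b
    ring
  have hAζ : ∀ (w : Wd) (ζ : ℂ), w.length ≤ k →
      ∑ a ∈ range M, (A w).coeff a * ζ ^ a = (A w).eval ζ := by
    intro w ζ hw; rw [Polynomial.eval_eq_sum_range' (hM w hw)]
  have hAd : ∀ (w : Wd) (ζ : ℂ), w.length ≤ k →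
      ∑ a ∈ range M, (A w).coeff a * ((a : ℂ) * ζ ^ (a - 1)) = (A w).derivative.eval ζ := by
    intro w ζ hw
    rw [Polynomial.derivative_eval, Polynomial.sum_over_range' _ (by simp) M (hM w hw)]
    exact Finset.sum_congr rfl fun a _ => by ring
  have hconj : ∀ (w : Wd) (ζ : ℂ), w.length ≤ k →
      ∑ b ∈ range M, (starRingEnd ℂ) ((A w).coeff b) * (starRingEnd ℂ) ζ ^ b =
        (starRingEnd ℂ) ((A w).eval ζ) := by
    intro w ζ hw
    rw [← hAζ w ζ hw, map_sum]
    exact Finset.sum_congr rfl fun b _ => by simp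
  have hconjd : ∀ (w : Wd) (ζ : ℂ), w.length ≤ k →
      ∑ b ∈ range M, (starRingEnd ℂ) ((A w).coeff b) * ((b : ℂ) * (starRingEnd ℂ) ζ ^ (b - 1)) =
        (starRingEnd ℂ) ((A w).derivative.eval ζ) := by
    intro w ζ hw
    rw [← hAd w ζ hw, map_sum]
    exact Finset.sum_congr rfl fun b _ => by simp
  -- (h1)
  have h1 : ∀ ζ : ℂ, ‖ζ‖ = 1 →
      ∑ a ∈ range M, ∑ b ∈ range M, c a b * ζ ^ a * (starRingEnd ℂ) ζ ^ b = 0 := by
    intro ζ hζ
    have hζ0 : ζ ≠ 0 := by rintro rfl; simp at hζ
    have := vanish_circle h hA (Units.mk0 ζ hζ0)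
    rw [R_q h hA] at this
    rw [hgen (fun a => ζ ^ a) (fun b => (starRingEnd ℂ) ζ ^ b), ← this]
    refine sumP_congr' k fun u v huv => ?_
    rw [hAζ u ζ (by omega), hconj (cj v) ζ (by simp; omega), lev_bar_circle (by simpa using hζ),
      lev_toLaurent, lev_toLaurent]
    rfl
  -- (h2)
  have h2 : ∀ ζ : ℂ, ‖ζ‖ < 1 → 0 ≤ (∑ a ∈ range M, ∑ b ∈ range M,
      (a : ℂ) * b * c a b * ζ ^ (a - 1) * (starRingEnd ℂ) ζ ^ (b - 1)).re := by
    intro ζ _
    have e : ∑ a ∈ range M, ∑ b ∈ range M,
        (a : ℂ) * b * c a b * ζ ^ (a - 1) * (starRingEnd ℂ) ζ ^ (b - 1) =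
        ∑ a ∈ range M, ∑ b ∈ range M, c a b * ((a : ℂ) * ζ ^ (a - 1)) *
          ((b : ℂ) * (starRingEnd ℂ) ζ ^ (b - 1)) :=
      Finset.sum_congr rfl fun a _ => Finset.sum_congr rfl fun b _ => by ring
    rw [e, hgen]
    have hAc := hA.isChar
    have hpos := h.pos (fun w => (A w).eval ζ) (fun w => (A w).derivative.eval ζ) ?_ ?_
    · refine hpos.trans_eq ?_
      congr 1
      refine sumP_congr' k fun u v huv => ?_
      rw [hAd u ζ (by omega), hconjd (cj v) ζ (by simp; omega)]
    · refine ⟨by simp [hA.nil], fun u v huv => ?_⟩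
      have := shf_map (Polynomial.evalRingHom ζ).toAddMonoidHom A u v
      have e3 : shf (fun w => (A w).eval ζ) u v = (shf A u v).eval ζ := this
      rw [e3, hAc.2 u v huv, Polynomial.eval_mul]
    · intro u v huv
      have := shf_map ((Polynomial.evalRingHom ζ).toAddMonoidHom.comp
        (Polynomial.derivative (R := ℂ)).toAddMonoidHom) A u v
      have e3 : shf (fun w => (A w).derivative.eval ζ) u v = (shf A u v).derivative.eval ζ := this
      rw [e3, hAc.2 u v huv, Polynomial.derivative_mul, Polynomial.eval_add, Polynomial.eval_mul,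
        Polynomial.eval_mul]
  -- (h3)
  have hA1 : ∀ w : Wd, w ≠ [] → w.length ≤ k → (A w).eval 1 = 0 := by
    intro w hw hl
    have := hA.ev w hw hl
    have e : SC.ev (SC.ι (A w)) = (A w).eval 1 := lev_toLaurent 1 (A w)
    rwa [e] at this
  have hsum0 : sumW k (fun w => (A w).derivative.eval 1 * R w []) = 0 := by
    refine dsw k hk (fun w => (A w).derivative.eval 1) ?_ ?_ R hB
    · simp [hA.nil]
    · intro u v hu hv huv
      have := shf_map ((Polynomial.evalRingHom (1 : ℂ)).toAddMonoidHom.comp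
        (Polynomial.derivative (R := ℂ)).toAddMonoidHom) A u v
      have e3 : shf (fun w => (A w).derivative.eval 1) u v = (shf A u v).derivative.eval 1 := this
      rw [e3, hA.isChar.2 u v (by omega), Polynomial.derivative_mul, Polynomial.eval_add,
        Polynomial.eval_mul, Polynomial.eval_mul, hA1 u hu (by omega), hA1 v hv (by omega)]
      ring
  have h3 : ∑ a ∈ range M, ∑ b ∈ range M, ((a : ℂ) + b) * c a b = 0 := by
    have e : ∑ a ∈ range M, ∑ b ∈ range M, ((a : ℂ) + b) * c a b =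
        ∑ a ∈ range M, ∑ b ∈ range M, c a b * ((a : ℂ) * (1 : ℂ) ^ (a - 1)) * ((starRingEnd ℂ) 1 ^ b) +
        ∑ a ∈ range M, ∑ b ∈ range M, c a b * ((1 : ℂ) ^ a) * ((b : ℂ) * (starRingEnd ℂ) 1 ^ (b - 1)) := by
      rw [← Finset.sum_add_distrib]
      refine Finset.sum_congr rfl fun a _ => ?_
      rw [← Finset.sum_add_distrib]
      exact Finset.sum_congr rfl fun b _ => by simp; ring
    rw [e, hgen, hgen]
    have p1 : sumP k (fun u v => R u v * (∑ a ∈ range M, (A u).coeff a * ((a : ℂ) * (1 : ℂ) ^ (a - 1))) *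
        (∑ b ∈ range M, (starRingEnd ℂ) ((A (cj v)).coeff b) * ((starRingEnd ℂ) 1 ^ b))) = 0 := by
      have e1 : sumP k (fun u v => R u v * (∑ a ∈ range M, (A u).coeff a * ((a : ℂ) * (1 : ℂ) ^ (a - 1))) *
        (∑ b ∈ range M, (starRingEnd ℂ) ((A (cj v)).coeff b) * ((starRingEnd ℂ) 1 ^ b))) =
        sumP k (fun u v => if v = [] then (A u).derivative.eval 1 * R u [] else 0) := by
        refine sumP_congr' k fun u v huv => ?_
        rw [hAd u 1 (by omega), hconj (cj v) 1 (by simp; omega)]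
        by_cases hv : v = []
        · subst hv; rw [if_pos rfl, cj_nil, hA.nil]; simp; ring
        · rw [if_neg hv, hA1 (cj v) (by rwa [Ne, cj_eq_nil]) (by simp; omega)]; simp
      rw [e1, sumP_right_nil]
      · simpa using hsum0
      · intro u v hv; simp [hv]
    have p2 : sumP k (fun u v => R u v * (∑ a ∈ range M, (A u).coeff a * ((1 : ℂ) ^ a)) *
        (∑ b ∈ range M, (starRingEnd ℂ) ((A (cj v)).coeff b) * ((b : ℂ) * (starRingEnd ℂ) 1 ^ (b - 1))))
        = (starRingEnd ℂ) (sumP k (fun u v => R u v * (∑ a ∈ range M, (A u).coeff a * ((a : ℂ) * (1 : ℂ) ^ (a - 1))) *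
        (∑ b ∈ range M, (starRingEnd ℂ) ((A (cj v)).coeff b) * ((starRingEnd ℂ) 1 ^ b)))) := by
      rw [← sumP_cj]
      have e2 := sumP_map' (starRingEnd ℂ).toAddMonoidHom k (fun u v => R u v * (∑ a ∈ range M, (A u).coeff a * ((a : ℂ) * (1 : ℂ) ^ (a - 1))) *
        (∑ b ∈ range M, (starRingEnd ℂ) ((A (cj v)).coeff b) * ((starRingEnd ℂ) 1 ^ b)))
      refine Eq.trans ?_ e2
      refine sumP_congr' k fun u v huv => ?_
      show _ = (starRingEnd ℂ) _
      simp only [map_mul, map_sum, Complex.conj_conj, cj_cj]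
      rw [← h.herm u v]
      simp
      ring
    rw [p1, p2, p1]; simp
  have hc0 := hopf M c herm h1 h2 h3
  -- conclusion
  rw [R_q h hA]
  have e := hgen (fun a => (x : ℂ) ^ a) (fun b => ((y : ℂ)⁻¹) ^ b)
  have e0 : ∑ a ∈ range M, ∑ b ∈ range M, c a b * (x : ℂ) ^ a * ((y : ℂ)⁻¹) ^ b = 0 :=
    Finset.sum_eq_zero fun a ha => Finset.sum_eq_zero fun b hb => by
      rw [hc0 a (by simpa using ha) b (by simpa using hb)]; ring
  rw [e0] at e
  rw [e]
  refine sumP_congr' k fun u v huv => ?_
  rw [hAζ u x (by omega), lev_toLaurent]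
  congr 1
  -- lev y (bar p)
  have : ∀ (p : ℂ[X]), p.natDegree < M → lev y (lbar (starRingEnd ℂ) (Polynomial.toLaurent p)) =
      ∑ b ∈ range M, (starRingEnd ℂ) (p.coeff b) * ((y : ℂ)⁻¹) ^ b := by
    intro p hp
    conv_lhs => rw [p.as_sum_range_C_mul_X_pow' hp]
    rw [map_sum, map_sum, map_sum]
    refine Finset.sum_congr rfl fun b _ => ?_
    rw [Polynomial.toLaurent_C_mul_X_pow, lbar_CT]
    simp [lev, zpow_neg]
  exact this _ (hM _ (by simp; omega))

end disc


lemma kill_zero {k : ℕ} {P : Wd → Wd → ℂ} (h : Kill k 0 P) : P [] [] = 0 := by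
  obtain ⟨A, hA⟩ := RH.exists_disc SC k 0 (by simp)
  have h2 : (2 : ℂ) ≠ 0 := by norm_num
  have h3 : (3 : ℂ) ≠ 0 := by norm_num
  have := h 0 A (by simp) hA (Units.mk0 2 h2) (Units.mk0 3 h3) rfl rfl
  have e : sumP 0 (fun u v => P u v * lev (Units.mk0 2 h2) (SC.q 0 A u) *
      lev (Units.mk0 3 h3) (SC.q 0 A v)) = P [] [] * lev (Units.mk0 2 h2) (SC.q 0 A []) *
      lev (Units.mk0 3 h3) (SC.q 0 A []) := by
    simp [sumP, sumW]
  rw [e, RH.q_nil hA] at this
  simpa using this

lemma kill_all {k : ℕ} : ∀ (m : ℕ), m ≤ k → ∀ P : Wd → Wd → ℂ, Kill k m P →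
    ∀ u v : Wd, u.length + v.length = m → P u v = 0
  | 0, _, P, h, u, v, huv => by
    have hu : u = [] := List.length_eq_zero_iff.1 (by omega)
    have hv : v = [] := List.length_eq_zero_iff.1 (by omega)
    subst hu; subst hv
    exact kill_zero h
  | m + 1, hm, P, h, u, v, huv => by
    match u, v with
    | a :: u, v =>
      exact kill_all m (by omega) (DU a P) (kill_step k m hm P h a).1 u v
        (by simp only [List.length_cons] at huv; omega)
    | [], b :: v =>
      exact kill_all m (by omega) (DV b P) (kill_step k m hm P h b).2 [] v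
        (by simp only [List.length_cons] at huv ⊢; omega)
    | [], [] => simp at huv

theorem core3 (k : ℕ) (hk : 1 ≤ k) (R : Wd → Wd → ℂ) (h : HomR k R)
    (hB : ∀ w : Wd, w.length = k → brU w R [] [] = 0) : ∀ u v, R u v = 0 := by
  intro u v
  by_cases huv : u.length + v.length = k
  · exact kill_all k le_rfl R (fun z A hz hA x y _ _ => disc_kill hk h hB hz hA x y) u v huv
  · exact h.homog u v huv

end DAng
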