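import Pool.Agent.DAng.Words

open scoped ContDiff Topology BigOperators
open Finset Asymptotics

namespace DAng


section c4sums
variable {A : Type*} [CommRing A]

lemma c4_sumW_zero (n : ℕ) : sumW n (fun _ => (0 : A)) = 0 := by
  induction n with
  | zero => rfl
  | succ n ih =>
    have e : ∀ a, D a (fun _ : Wd => (0 : A)) = fun _ => 0 := fun a => rfl
    rw [sumW, e, e, ih, add_zero]

lemma c4_sumW_add (n : ℕ) (F G : Wd → A) :
    sumW n (fun w => F w + G w) = sumW n F + sumW n G := by
  induction n generalizing F G with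
  | zero => rfl
  | succ n ih =>
    have e : ∀ a, D a (fun w : Wd => F w + G w) = fun w => D a F w + D a G w := fun a => rfl
    rw [sumW, sumW, sumW, e, e, ih, ih]; ring

lemma c4_sumW_mul (n : ℕ) (c : A) (F : Wd → A) :
    sumW n (fun w => c * F w) = c * sumW n F := by
  induction n generalizing F with
  | zero => rfl
  | succ n ih =>
    have e : ∀ a, D a (fun w : Wd => c * F w) = fun w => c * D a F w := fun a => rfl
    rw [sumW, sumW, e, e, ih, ih]; ring

lemma c4_sumW_congr {n : ℕ} {F G : Wd → A} (h : ∀ w : Wd, w.length = n → F w = G w) :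
    sumW n F = sumW n G := by
  induction n generalizing F G with
  | zero => exact h [] rfl
  | succ n ih =>
    rw [sumW, sumW, ih (F := D true F) (G := D true G), ih (F := D false F) (G := D false G)]
    · intro w hw; exact h _ (by simp [hw])
    · intro w hw; exact h _ (by simp [hw])

lemma c4_sumW_cj (n : ℕ) (F : Wd → A) : sumW n (fun w => F (cj w)) = sumW n F := by
  induction n generalizing F with
  | zero => rfl
  | succ n ih =>
    have e : ∀ a, D a (fun w : Wd => F (cj w)) = fun w => (D (!a) F) (cj w) := fun a => rfl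
    rw [sumW, sumW, e, e, ih, ih, add_comm]; rfl

lemma c4_sumW_map {B : Type*} [CommRing B] (φ : A →+ B) (n : ℕ) (F : Wd → A) :
    sumW n (fun w => φ (F w)) = φ (sumW n F) := by
  induction n generalizing F with
  | zero => rfl
  | succ n ih =>
    have e : ∀ a, D a (fun w : Wd => φ (F w)) = fun w => φ (D a F w) := fun a => rfl
    rw [sumW, sumW, e, e, ih, ih, map_add]

lemma c4_sumP_congr {k : ℕ} {F G : Wd → Wd → A}
    (h : ∀ u v : Wd, u.length + v.length = k → F u v = G u v) : sumP k F = sumP k G := by
  unfold sumP
  refine Finset.sum_congr rfl fun i hi => ?_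
  rw [Finset.mem_range] at hi
  exact c4_sumW_congr fun u hu => c4_sumW_congr fun v hv => h u v (by omega)

lemma c4_sumP_add (k : ℕ) (F G : Wd → Wd → A) :
    sumP k (fun u v => F u v + G u v) = sumP k F + sumP k G := by
  unfold sumP
  rw [← Finset.sum_add_distrib]
  refine Finset.sum_congr rfl fun i _ => ?_
  rw [← c4_sumW_add]
  exact c4_sumW_congr fun u _ => c4_sumW_add _ _ _

lemma c4_sumP_mul (k : ℕ) (c : A) (F : Wd → Wd → A) :
    sumP k (fun u v => c * F u v) = c * sumP k F := by
  unfold sumP
  rw [Finset.mul_sum]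
  refine Finset.sum_congr rfl fun i _ => ?_
  rw [← c4_sumW_mul]
  exact c4_sumW_congr fun u _ => c4_sumW_mul _ _ _

lemma c4_sumP_zero (k : ℕ) : sumP k (fun _ _ => (0 : A)) = 0 := by
  have := c4_sumP_mul k (0 : A) (fun _ _ => (0 : A))
  simpa using this

lemma c4_sumP_sub (k : ℕ) (F G : Wd → Wd → A) :
    sumP k (fun u v => F u v - G u v) = sumP k F - sumP k G := by
  have e : (fun u v => F u v - G u v) = fun u v => F u v + (-1) * G u v := by
    funext u v; ring
  rw [e, c4_sumP_add, c4_sumP_mul]; ring

lemma c4_sumP_succU {m : ℕ} {F : Wd → Wd → A} (h : ∀ v, F [] v = 0) :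
    sumP (m + 1) F = sumP m (DU true F) + sumP m (DU false F) := by
  unfold sumP
  rw [Finset.sum_range_succ', ← Finset.sum_add_distrib]
  have h0 : sumW 0 (fun u => sumW (m + 1 - 0) (fun v => F u v)) = 0 := by
    show sumW (m + 1 - 0) (fun v => F [] v) = 0
    rw [← c4_sumW_zero (A := A) (m + 1 - 0)]
    exact c4_sumW_congr fun v _ => h v
  rw [h0, add_zero]
  refine Finset.sum_congr rfl fun i _ => ?_
  have e : m + 1 - (i + 1) = m - i := by omega
  rw [e]; rfl

lemma c4_sumP_succV {m : ℕ} {F : Wd → Wd → A} (h : ∀ u, F u [] = 0) :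
    sumP (m + 1) F = sumP m (DV true F) + sumP m (DV false F) := by
  unfold sumP
  rw [Finset.sum_range_succ, ← Finset.sum_add_distrib]
  have h0 : sumW (m + 1) (fun u => sumW (m + 1 - (m + 1)) (fun v => F u v)) = 0 := by
    rw [← c4_sumW_zero (A := A) (m + 1)]
    refine c4_sumW_congr fun u _ => ?_
    have e : m + 1 - (m + 1) = 0 := by omega
    rw [e]; exact h u
  rw [h0, add_zero]
  refine Finset.sum_congr rfl fun i hi => ?_
  rw [Finset.mem_range] at hi
  rw [← c4_sumW_add]
  refine c4_sumW_congr fun u _ => ?_
  have e : m + 1 - i = (m - i) + 1 := by omega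
  rw [e]; rfl

/-- duality of shuffles and unshuffles -/
lemma c4_dual (m : ℕ) (G : Wd → Wd → A) (g : Wd → A) :
    sumP m (fun u v => G u v * shf g u v) = sumW m (fun w => g w * unsh G w) := by
  induction m generalizing G g with
  | zero =>
    simp [sumP, sumW, unsh, mul_comm]
  | succ m ih =>
    -- split
    let F1 : Wd → Wd → A := fun u v => match u with
      | [] => 0
      | a :: u' => G (a :: u') v * shf (D a g) u' v
    let F2 : Wd → Wd → A := fun u v => match v with
      | [] => 0
      | b :: v' => G u (b :: v') * shf (D b g) u v'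
    have e : sumP (m + 1) (fun u v => G u v * shf g u v) =
        sumP (m + 1) (fun u v => F1 u v + F2 u v) := by
      refine c4_sumP_congr fun u v huv => ?_
      match u, v with
      | [], [] => simp at huv
      | [], b :: v => simp [F1, F2]
      | a :: u, [] => simp [F1, F2]
      | a :: u, b :: v =>
        simp only [F1, F2]
        rw [shf_cons_cons]; ring
    rw [e, c4_sumP_add, c4_sumP_succU (F := F1) (fun v => rfl),
      c4_sumP_succV (F := F2) (fun u => rfl)]
    have e1 : ∀ a, sumP m (DU a F1) = sumW m (fun w => D a g w * unsh (DU a G) w) :=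
      fun a => ih (DU a G) (D a g)
    have e2 : ∀ a, sumP m (DV a F2) = sumW m (fun w => D a g w * unsh (DV a G) w) :=
      fun a => ih (DV a G) (D a g)
    rw [e1, e1, e2, e2, sumW]
    have e3 : ∀ a, D a (fun w => g w * unsh G w) =
        fun w => D a g w * unsh (DU a G) w + D a g w * unsh (DV a G) w := by
      intro a; funext w
      show g (a :: w) * (unsh (DU a G) w + unsh (DV a G) w) = _
      rw [mul_add]; rfl
    rw [e3, e3, c4_sumW_add, c4_sumW_add]; ring

/-! ### brackets -/

/-- the coefficients of the iterated bracket -/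
def Bc : Wd → Wd → A
  | [] => fun _ => 0
  | [a] => lett a
  | b :: a :: w => fun x => nmul (lett b) (Bc (a :: w)) x - nmul (Bc (a :: w)) (lett b) x

lemma Bc_cons {b : Bool} {w : Wd} (hw : w ≠ []) :
    (Bc (b :: w) : Wd → A) = fun x => nmul (lett b) (Bc w) x - nmul (Bc w) (lett b) x := by
  cases w with
  | nil => exact absurd rfl hw
  | cons a w => rfl

lemma brU_cons {b : Bool} {w : Wd} (hw : w ≠ []) (P : Wd → Wd → A) :
    brU (b :: w) P = fun u v => DU b (brU w P) u v - brU w (DU b P) u v := by
  cases w with
  | nil => exact absurd rfl hw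
  | cons a w => rfl

lemma brV_cons {b : Bool} {w : Wd} (hw : w ≠ []) (P : Wd → Wd → A) :
    brV (b :: w) P = fun u v => DV b (brV w P) u v - brV w (DV b P) u v := by
  cases w with
  | nil => exact absurd rfl hw
  | cons a w => rfl

/-- the iterated bracket acting on functions -/
def brF : Wd → (Wd → A) → (Wd → A)
  | [], _ => fun _ => 0
  | [a], P => D a P
  | b :: a :: w, P => fun u => D b (brF (a :: w) P) u - brF (a :: w) (D b P) u

lemma brF_cons {b : Bool} {w : Wd} (hw : w ≠ []) (P : Wd → A) :
    brF (b :: w) P = fun u => D b (brF w P) u - brF w (D b P) u := by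
  cases w with
  | nil => exact absurd rfl hw
  | cons a w => rfl

/-- induction on nonempty words -/
lemma ne_induction {motive : Wd → Prop} (h1 : ∀ a, motive [a])
    (h2 : ∀ b w, w ≠ [] → motive w → motive (b :: w)) : ∀ w : Wd, w ≠ [] → motive w := by
  intro w
  induction w with
  | nil => intro h; exact absurd rfl h
  | cons a w ih =>
    intro _
    by_cases hw : w = []
    · subst hw; exact h1 a
    · exact h2 a w hw (ih hw)

lemma c4_adjV1 (m : ℕ) (G : Wd → Wd → A) (f g : Wd → A) (a : Bool) :
    sumP (m + 1) (fun u v => G u v * f u * nmul g (lett a) v) =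
      sumP m (fun u v => DV a G u v * f u * g v) := by
  rw [c4_sumP_succV (fun u => by simp)]
  have e : ∀ c, DV c (fun u v => G u v * f u * nmul g (lett a) v) =
      fun u v => G u (c :: v) * f u * (if a = c then g v else 0) := by
    intro c; funext u v
    simp only [DV_apply, nmul_lett]
  rw [e, e]
  cases a
  · have : sumP m (fun u v => G u (true :: v) * f u * (if false = true then g v else 0)) = 0 := by
      exact (c4_sumP_congr (G := fun _ _ => (0 : A)) fun u v _ => by simp).trans
        (c4_sumP_zero (A := A) m)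
    rw [this, zero_add]
    exact c4_sumP_congr fun u v _ => by simp
  · have : sumP m (fun u v => G u (false :: v) * f u * (if true = false then g v else 0)) = 0 := by
      exact (c4_sumP_congr (G := fun _ _ => (0 : A)) fun u v _ => by simp).trans
        (c4_sumP_zero (A := A) m)
    rw [this, add_zero]
    exact c4_sumP_congr fun u v _ => by simp

lemma c4_adjU1 (m : ℕ) (G : Wd → Wd → A) (f g : Wd → A) (a : Bool) :
    sumP (m + 1) (fun u v => G u v * nmul g (lett a) u * f v) =
      sumP m (fun u v => DU a G u v * g u * f v) := by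
  rw [c4_sumP_succU (fun u => by simp)]
  have e : ∀ c, DU c (fun u v => G u v * nmul g (lett a) u * f v) =
      fun u v => G (c :: u) v * (if a = c then g u else 0) * f v := by
    intro c; funext u v
    simp only [DU_apply, nmul_lett]
  rw [e, e]
  cases a
  · have : sumP m (fun u v => G (true :: u) v * (if false = true then g u else 0) * f v) = 0 := by
      exact (c4_sumP_congr (G := fun _ _ => (0 : A)) fun u v _ => by simp).trans
        (c4_sumP_zero (A := A) m)
    rw [this, zero_add]
    exact c4_sumP_congr fun u v _ => by simp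
  · have : sumP m (fun u v => G (false :: u) v * (if true = false then g u else 0) * f v) = 0 := by
      exact (c4_sumP_congr (G := fun _ _ => (0 : A)) fun u v _ => by simp).trans
        (c4_sumP_zero (A := A) m)
    rw [this, add_zero]
    exact c4_sumP_congr fun u v _ => by simp

lemma c4_adjV (b : Wd) (hb : b ≠ []) : ∀ (m : ℕ) (G : Wd → Wd → A) (f g : Wd → A),
    sumP (m + b.length) (fun u v => G u v * f u * nmul g (Bc b) v) =
      sumP m (fun u v => brV b G u v * f u * g v) := by
  refine ne_induction (motive := fun b => ∀ (m : ℕ) (G : Wd → Wd → A) (f g : Wd → A),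
    sumP (m + b.length) (fun u v => G u v * f u * nmul g (Bc b) v) =
      sumP m (fun u v => brV b G u v * f u * g v)) ?_ ?_ b hb
  · intro a m G f g
    exact c4_adjV1 m G f g a
  · intro c w hw ih m G f g
    rw [Bc_cons hw, brV_cons hw]
    have e : (fun u v => G u v * f u *
        nmul g (fun x => nmul (lett c) (Bc w) x - nmul (Bc w) (lett c) x) v) =
        fun u v => G u v * f u * nmul (nmul g (lett c)) (Bc w) v -
          G u v * f u * nmul (nmul g (Bc w)) (lett c) v := by
      funext u v
      rw [nmul_sub_right, nmul_assoc, nmul_assoc]; ring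
    rw [e, c4_sumP_sub]
    have e1 : m + (c :: w).length = (m + 1) + w.length := by simp; ring
    have e2 : m + (c :: w).length = (m + w.length) + 1 := by simp; ring
    have k1 : sumP (m + (c :: w).length)
        (fun u v => G u v * f u * nmul (nmul g (lett c)) (Bc w) v) =
        sumP m (fun u v => DV c (brV w G) u v * f u * g v) := by
      rw [e1, ih, c4_adjV1]
    have k2 : sumP (m + (c :: w).length)
        (fun u v => G u v * f u * nmul (nmul g (Bc w)) (lett c) v) =
        sumP m (fun u v => brV w (DV c G) u v * f u * g v) := by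
      rw [e2, c4_adjV1, ih]
    rw [k1, k2, ← c4_sumP_sub]
    exact c4_sumP_congr fun u v _ => by ring

lemma c4_adjU (b : Wd) (hb : b ≠ []) : ∀ (m : ℕ) (G : Wd → Wd → A) (f g : Wd → A),
    sumP (m + b.length) (fun u v => G u v * nmul g (Bc b) u * f v) =
      sumP m (fun u v => brU b G u v * g u * f v) := by
  refine ne_induction (motive := fun b => ∀ (m : ℕ) (G : Wd → Wd → A) (f g : Wd → A),
    sumP (m + b.length) (fun u v => G u v * nmul g (Bc b) u * f v) =
      sumP m (fun u v => brU b G u v * g u * f v)) ?_ ?_ b hb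
  · intro a m G f g
    exact c4_adjU1 m G f g a
  · intro c w hw ih m G f g
    rw [Bc_cons hw, brU_cons hw]
    have e : (fun u v => G u v *
        nmul g (fun x => nmul (lett c) (Bc w) x - nmul (Bc w) (lett c) x) u * f v) =
        fun u v => G u v * nmul (nmul g (lett c)) (Bc w) u * f v -
          G u v * nmul (nmul g (Bc w)) (lett c) u * f v := by
      funext u v
      rw [nmul_sub_right, nmul_assoc, nmul_assoc]; ring
    rw [e, c4_sumP_sub]
    have e1 : m + (c :: w).length = (m + 1) + w.length := by simp; ring
    have e2 : m + (c :: w).length = (m + w.length) + 1 := by simp; ring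
    have k1 : sumP (m + (c :: w).length)
        (fun u v => G u v * nmul (nmul g (lett c)) (Bc w) u * f v) =
        sumP m (fun u v => DU c (brU w G) u v * g u * f v) := by
      rw [e1, ih, c4_adjU1]
    have k2 : sumP (m + (c :: w).length)
        (fun u v => G u v * nmul (nmul g (Bc w)) (lett c) u * f v) =
        sumP m (fun u v => brU w (DU c G) u v * g u * f v) := by
      rw [e2, c4_adjU1, ih]
    rw [k1, k2, ← c4_sumP_sub]
    exact c4_sumP_congr fun u v _ => by ring

/-! ### primitivity -/

lemma shf_one1 (u v : Wd) : shf (one1 : Wd → A) u v = one1 u * one1 v := by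
  refine pair_induction (motive := fun u v => shf (one1 : Wd → A) u v = one1 u * one1 v)
    ?_ ?_ ?_ u v
  · intro v; simp
  · intro a u; simp
  · intro a u b v h1 h2
    have e : ∀ c, D c (one1 : Wd → A) = fun w => 0 * one1 w := by
      intro c; funext w; simp
    rw [shf_cons_cons, e, e, shf_smul, shf_smul]; simp

def Prim (X : Wd → A) : Prop := ∀ u v : Wd, shf X u v = X u * one1 v + one1 u * X v

lemma prim_lett (a : Bool) : Prim (lett a : Wd → A) := by
  intro u v
  match u, v with
  | [], v => simp
  | c :: u, [] => simp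
  | c :: u, d :: v =>
    rw [shf_cons_cons, D_lett, D_lett, shf_smul, shf_smul, shf_one1, shf_one1]; simp

lemma Prim.nil {X : Wd → A} (h : Prim X) : X [] = 0 := by
  have := h [] []
  simp at this
  exact this

lemma pmul_add_right (P Q Q' : Wd → Wd → A) (u v : Wd) :
    pmul P (fun u v => Q u v + Q' u v) u v = pmul P Q u v + pmul P Q' u v := by
  induction u generalizing Q Q' with
  | nil => rw [pmul_nil, pmul_nil, pmul_nil, nmul_add_right]
  | cons a u ih =>
    have e : DU a (fun u v => Q u v + Q' u v) = fun u v => DU a Q u v + DU a Q' u v := rfl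
    rw [pmul_cons, pmul_cons, pmul_cons, nmul_add_right, e, ih]; ring

lemma pmul_add_left (P P' Q : Wd → Wd → A) (u v : Wd) :
    pmul (fun u v => P u v + P' u v) Q u v = pmul P Q u v + pmul P' Q u v := by
  induction u generalizing Q with
  | nil => rw [pmul_nil, pmul_nil, pmul_nil, nmul_add_left]
  | cons a u ih => rw [pmul_cons, pmul_cons, pmul_cons, ih, nmul_add_left]; ring

lemma nmul_one' (f : Wd → A) : nmul f one1 = f := by funext w; exact nmul_one f w
lemma one_nmul' (f : Wd → A) : nmul one1 f = f := by funext w; exact one_nmul f w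

lemma Prim.shf_nmul {X Y : Wd → A} (hX : Prim X) (hY : Prim Y) (u v : Wd) :
    shf (nmul X Y) u v = nmul X Y u * one1 v + Y u * X v + X u * Y v + one1 u * nmul X Y v := by
  have eX : shf X = fun u v => X u * one1 v + one1 u * X v := by funext u v; exact hX u v
  have eY : shf Y = fun u v => Y u * one1 v + one1 u * Y v := by funext u v; exact hY u v
  rw [DAng.shf_nmul, eX, eY, pmul_add_right, pmul_add_left, pmul_add_left, pmul_tensor,
    pmul_tensor, pmul_tensor, pmul_tensor]
  simp only [nmul_one', one_nmul']
  ring

lemma prim_Bc (b : Wd) (hb : b ≠ []) : Prim (Bc b : Wd → A) := by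
  refine ne_induction (motive := fun b => Prim (Bc b : Wd → A)) ?_ ?_ b hb
  · intro a; exact prim_lett a
  · intro c w hw ih
    rw [Bc_cons hw]
    intro u v
    rw [shf_sub, Prim.shf_nmul (prim_lett c) ih, Prim.shf_nmul ih (prim_lett c)]
    ring

lemma pmul_loc {k : ℕ} {P P' : Wd → Wd → A} (Q : Wd → Wd → A)
    (hP : ∀ u v : Wd, u.length + v.length ≤ k → P u v = P' u v) (u v : Wd)
    (huv : u.length + v.length ≤ k) : pmul P Q u v = pmul P' Q u v := by
  induction u generalizing Q with
  | nil =>
    rw [pmul_nil, pmul_nil]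
    exact nmul_congr (fun v' hv => hP [] v' (by simp at huv ⊢; omega))
      (fun v' hv => rfl)
  | cons a u ih =>
    rw [pmul_cons, pmul_cons, ih (DU a Q)]
    · congr 1
      exact nmul_congr (fun v' hv => hP _ _ (by simp only [List.length_cons] at huv ⊢; omega))
        (fun v' hv => rfl)
    · simp only [List.length_cons] at huv; omega

lemma isDer_of_prim {k : ℕ} {g X : Wd → A} (hg : IsChar k g) (hX : Prim X) :
    IsDer k g (nmul g X) := by
  intro u v huv
  have eX : shf X = fun u v => X u * one1 v + one1 u * X v := by funext u v; exact hX u v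
  rw [shf_nmul, pmul_loc (P' := fun u v => g u * g v) _ hg.2 u v huv, eX, pmul_add_right,
    pmul_tensor, pmul_tensor]
  simp only [nmul_one']

/-! ### commutation -/

lemma DV_brU (a : Bool) (b : Wd) (P : Wd → Wd → A) : DV a (brU b P) = brU b (DV a P) := by
  by_cases hb : b = []
  · subst hb; rfl
  revert P
  refine ne_induction (motive := fun b => ∀ P : Wd → Wd → A, DV a (brU b P) = brU b (DV a P))
    ?_ ?_ b hb
  · intro c P; rfl
  · intro c w hw ih P
    rw [brU_cons hw, brU_cons hw]
    funext u v
    have e1 := congrFun (congrFun (ih P) (c :: u)) v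
    have e2 := congrFun (congrFun (ih (DU c P)) u) v
    simp only [DV_apply] at e1 e2
    show brU w P (c :: u) (a :: v) - brU w (DU c P) u (a :: v) = _
    rw [e1, e2]; rfl

lemma DU_brV (a : Bool) (b : Wd) (P : Wd → Wd → A) : DU a (brV b P) = brV b (DU a P) := by
  by_cases hb : b = []
  · subst hb; rfl
  revert P
  refine ne_induction (motive := fun b => ∀ P : Wd → Wd → A, DU a (brV b P) = brV b (DU a P))
    ?_ ?_ b hb
  · intro c P; rfl
  · intro c w hw ih P
    rw [brV_cons hw, brV_cons hw]
    funext u v
    have e1 := congrFun (congrFun (ih P) u) (c :: v)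
    have e2 := congrFun (congrFun (ih (DV c P)) u) v
    simp only [DU_apply] at e1 e2
    show brV w P (a :: u) (c :: v) - brV w (DV c P) (a :: u) v = _
    rw [e1, e2]; rfl

lemma brU_zero (b : Wd) : brU b (fun _ _ => (0 : A)) = fun _ _ => 0 := by
  by_cases hb : b = []
  · subst hb; rfl
  refine ne_induction (motive := fun b => brU b (fun _ _ => (0 : A)) = fun _ _ => 0) ?_ ?_ b hb
  · intro c; rfl
  · intro c w hw ih
    rw [brU_cons hw]
    have e : DU c (fun _ _ => (0 : A)) = fun _ _ => 0 := rfl
    rw [e, ih, e]; simp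

lemma brF_zero (b : Wd) : brF b (fun _ => (0 : A)) = fun _ => 0 := by
  by_cases hb : b = []
  · subst hb; rfl
  refine ne_induction (motive := fun b => brF b (fun _ => (0 : A)) = fun _ => 0) ?_ ?_ b hb
  · intro c; rfl
  · intro c w hw ih
    rw [brF_cons hw]
    have e : D c (fun _ => (0 : A)) = fun _ => 0 := rfl
    rw [e, ih, e]; simp

lemma brF_add (b : Wd) (F G : Wd → A) :
    brF b (fun w => F w + G w) = fun w => brF b F w + brF b G w := by
  by_cases hb : b = []
  · subst hb; funext w; simp [brF]
  revert F G
  refine ne_induction (motive := fun b => ∀ F G : Wd → A,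
    brF b (fun w => F w + G w) = fun w => brF b F w + brF b G w) ?_ ?_ b hb
  · intro c F G; rfl
  · intro c w hw ih F G
    rw [brF_cons hw, brF_cons hw, brF_cons hw]
    have e : D c (fun w => F w + G w) = fun w => D c F w + D c G w := rfl
    rw [e, ih, ih]
    funext u
    simp only [D_apply]; ring

lemma unsh_sub (P Q : Wd → Wd → A) (w : Wd) :
    unsh (fun u v => P u v - Q u v) w = unsh P w - unsh Q w := by
  induction w generalizing P Q with
  | nil => rfl
  | cons a w ih =>
    have e1 : DU a (fun u v => P u v - Q u v) = fun u v => DU a P u v - DU a Q u v := rfl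
    have e2 : DV a (fun u v => P u v - Q u v) = fun u v => DV a P u v - DV a Q u v := rfl
    rw [unsh, unsh, unsh, e1, e2, ih, ih]; ring

lemma unsh_zero (w : Wd) : unsh (fun _ _ => (0 : A)) w = 0 := by
  induction w with
  | nil => rfl
  | cons a w ih =>
    have e1 : DU a (fun _ _ => (0 : A)) = fun _ _ => 0 := rfl
    have e2 : DV a (fun _ _ => (0 : A)) = fun _ _ => 0 := rfl
    rw [unsh, e1, e2, ih, add_zero]

lemma unsh_cons (P : Wd → Wd → A) (a : Bool) (w : Wd) :
    unsh P (a :: w) = unsh (DU a P) w + unsh (DV a P) w := rfl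

lemma unsh_br (b : Wd) (hb : b ≠ []) : ∀ (Q : Wd → Wd → A) (w : Wd),
    unsh (brU b Q) w + unsh (brV b Q) w = brF b (unsh Q) w := by
  refine ne_induction (motive := fun b => ∀ (Q : Wd → Wd → A) (w : Wd),
    unsh (brU b Q) w + unsh (brV b Q) w = brF b (unsh Q) w) ?_ ?_ b hb
  · intro a Q w; rfl
  · intro c b' hb' ih Q w
    rw [brU_cons hb', brV_cons hb', brF_cons hb', unsh_sub, unsh_sub]
    have h1 := ih Q (c :: w)
    rw [unsh_cons, unsh_cons] at h1
    have h2 := ih (DU c Q) w
    have h3 := ih (DV c Q) w
    rw [← DU_brV] at h2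
    rw [← DV_brU] at h3
    have h4 : brF b' (D c (unsh Q)) w = brF b' (unsh (DU c Q)) w + brF b' (unsh (DV c Q)) w := by
      have : D c (unsh Q) = fun w => unsh (DU c Q) w + unsh (DV c Q) w := rfl
      rw [this, brF_add]
    simp only [D_apply]
    rw [h4, ← h1, ← h2, ← h3]
    ring

end c4sums

section c4conj



noncomputable def bar (f : Wd → ℂ) : Wd → ℂ := fun w => (starRingEnd ℂ) (f (cj w))

lemma c4_bar_nmul (f g : Wd → ℂ) : bar (nmul f g) = nmul (bar f) (bar g) := by
  funext w
  induction w generalizing g with
  | nil => simp [bar]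
  | cons a w ih =>
    have e : D a (bar g) = bar (D (!a) g) := by funext v; rfl
    rw [nmul_cons, e, ← ih]
    simp only [bar, cj_cons, nmul_cons, map_add, map_mul, cj_nil]

lemma bar_lett (a : Bool) : bar (lett a) = lett (!a) := by
  funext w
  match w with
  | [] => simp [bar]
  | [b] => cases a <;> cases b <;> simp [bar, lett]
  | b :: c :: w => simp [bar, lett]

lemma bar_sub (f g : Wd → ℂ) : bar (fun w => f w - g w) = fun w => bar f w - bar g w := by
  funext w; simp [bar]

lemma cj_ne {b : Wd} (hb : b ≠ []) : cj b ≠ [] := fun h => hb (cj_eq_nil.1 h)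

lemma bar_Bc (b : Wd) (hb : b ≠ []) : bar (Bc b) = Bc (cj b) := by
  refine ne_induction (motive := fun b => bar (Bc b) = Bc (cj b)) ?_ ?_ b hb
  · intro a; exact bar_lett a
  · intro c w hw ih
    rw [cj_cons, Bc_cons hw, Bc_cons (cj_ne hw), bar_sub, c4_bar_nmul, c4_bar_nmul, bar_lett, ih]

noncomputable def Bar (P : Wd → Wd → ℂ) : Wd → Wd → ℂ := fun u v => (starRingEnd ℂ) (P (cj v) (cj u))

lemma Bar_DU (a : Bool) (P : Wd → Wd → ℂ) : Bar (DU a P) = DV (!a) (Bar P) := by
  funext u v; simp [Bar]
lemma Bar_DV (a : Bool) (P : Wd → Wd → ℂ) : Bar (DV a P) = DU (!a) (Bar P) := by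
  funext u v; simp [Bar]

lemma Bar_brU (b : Wd) (hb : b ≠ []) : ∀ P : Wd → Wd → ℂ, Bar (brU b P) = brV (cj b) (Bar P) := by
  refine ne_induction (motive := fun b => ∀ P : Wd → Wd → ℂ,
    Bar (brU b P) = brV (cj b) (Bar P)) ?_ ?_ b hb
  · intro a P; exact Bar_DU a P
  · intro c w hw ih P
    rw [cj_cons, brU_cons hw, brV_cons (cj_ne hw), ← ih, ← Bar_DU, ← Bar_DU, ← ih]
    funext u v; simp [Bar]

lemma unsh_Bar (P : Wd → Wd → ℂ) (w : Wd) : unsh (Bar P) w = (starRingEnd ℂ) (unsh P (cj w)) := by
  induction w generalizing P with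
  | nil => rfl
  | cons a w ih =>
    have e1 : DU a (Bar P) = Bar (DV (!a) P) := by rw [Bar_DV]; simp
    have e2 : DV a (Bar P) = Bar (DU (!a) P) := by rw [Bar_DU]; simp
    rw [unsh_cons, e1, e2, ih, ih, cj_cons, unsh_cons, map_add, add_comm]

/-! ### separation by real characters -/

def RealChar (k : ℕ) (g : Wd → ℂ) : Prop := IsChar k g ∧ bar g = g

lemma RealChar.nmul {k : ℕ} {f g : Wd → ℂ} (hf : RealChar k f) (hg : RealChar k g) :
    RealChar k (nmul f g) := ⟨hf.1.nmul hg.1, by rw [c4_bar_nmul, hf.2, hg.2]⟩

lemma realChar_Ex (k : ℕ) (ξ : Bool → ℂ) (h : ∀ a, (starRingEnd ℂ) (ξ (!a)) = ξ a) :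
    RealChar k (Ex ξ) := by
  refine ⟨Ex_isChar k ξ, ?_⟩
  funext w
  have key : ∀ w : Wd, (starRingEnd ℂ) (((cj w).map ξ).prod) = (w.map ξ).prod := by
    intro w
    induction w with
    | nil => simp
    | cons a w ih => simp [ih, h]
  simp only [bar, Ex, map_mul, key, cj_length]
  congr 1
  simp

lemma Ex_hasDeriv (ξ : Bool → ℂ) (w : Wd) :
    HasDerivAt (fun t : ℝ => Ex (fun a => (t : ℂ) * ξ a) w)
      (ξ true * lett true w + ξ false * lett false w) 0 := by
  cases w with
  | nil =>
    simp only [Ex_nil, lett_nil, mul_zero, add_zero]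
    exact hasDerivAt_const _ _
  | cons a w =>
    have hid : HasDerivAt (fun t : ℝ => (t : ℂ)) 1 0 := by
      have := (hasDerivAt_id (0 : ℝ)).ofReal_comp
      simpa using this
    have hd : ∀ w : Wd, ∃ d : ℂ,
        HasDerivAt (fun t : ℝ => (w.map (fun a => (t : ℂ) * ξ a)).prod) d 0 := by
      intro w
      induction w with
      | nil => exact ⟨0, by simpa using hasDerivAt_const (0 : ℝ) (1 : ℂ)⟩
      | cons b w ih =>
        obtain ⟨d, hd⟩ := ih
        simp only [List.map_cons, List.prod_cons]
        exact ⟨_, (hid.mul_const (ξ b)).mul hd⟩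
    obtain ⟨d, hd⟩ := hd w
    have h1 := (((hid.mul_const (ξ a)).mul hd).const_mul
      (algebraMap ℚ ℂ (1 / (((a :: w).length.factorial : ℕ) : ℚ))))
    have e : (fun t : ℝ => Ex (fun a => (t : ℂ) * ξ a) (a :: w)) = fun t : ℝ =>
        (algebraMap ℚ ℂ (1 / (((a :: w).length.factorial : ℕ) : ℚ))) *
          (((t : ℂ) * ξ a) * (w.map (fun a => (t : ℂ) * ξ a)).prod) := by
      funext t; simp only [Ex, List.map_cons, List.prod_cons]
    rw [e]
    refine h1.congr_deriv ?_
    cases w with
    | nil => cases a <;> simp [lett]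
    | cons b w => cases a <;> simp [lett]

lemma nmul_hasDeriv (g : Wd → ℂ) (F : ℝ → Wd → ℂ) (F' : Wd → ℂ)
    (h : ∀ w, HasDerivAt (fun t => F t w) (F' w) 0) (w : Wd) :
    HasDerivAt (fun t => nmul g (F t) w) (nmul g F' w) 0 := by
  induction w generalizing F F' with
  | nil => simp only [nmul_nil]; exact (h []).const_mul _
  | cons a w ih =>
    simp only [nmul_cons]
    exact ((h []).const_mul _).add (ih (fun t => D a (F t)) (D a F') (fun w => h (a :: w)))

lemma sumW_hasDeriv (n : ℕ) (F : ℝ → Wd → ℂ) (F' : Wd → ℂ)
    (h : ∀ w, HasDerivAt (fun t => F t w) (F' w) 0) :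
    HasDerivAt (fun t => sumW n (F t)) (sumW n F') 0 := by
  induction n generalizing F F' with
  | zero => exact h []
  | succ n ih =>
    exact (ih (fun t => D true (F t)) (D true F') (fun w => h (true :: w))).add
      (ih (fun t => D false (F t)) (D false F') (fun w => h (false :: w)))

theorem c4_sep (k : ℕ) : ∀ (m : ℕ) (c : Wd → ℂ),
    (∀ g, RealChar k g → sumW m (fun w => g w * c w) = 0) → ∀ w : Wd, w.length = m → c w = 0 := by
  intro m
  induction m with
  | zero =>
    intro c h w hw
    have hw' : w = [] := List.length_eq_zero_iff.1 hw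
    subst hw'
    have := h (Ex (fun _ => 0)) (realChar_Ex k _ (by simp))
    simpa [sumW] using this
  | succ m ih =>
    intro c h
    -- linear coefficient
    have key : ∀ g, RealChar k g → ∀ ξ : Bool → ℂ, (∀ a, (starRingEnd ℂ) (ξ (!a)) = ξ a) →
        ξ true * sumW m (fun w => g w * D true c w) +
          ξ false * sumW m (fun w => g w * D false c w) = 0 := by
      intro g hg ξ hξ
      have h0 : ∀ t : ℝ, sumW (m + 1)
          (fun w => nmul g (Ex (fun a => (t : ℂ) * ξ a)) w * c w) = 0 := by
        intro t
        refine h _ (hg.nmul (realChar_Ex k _ ?_))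
        intro a
        rw [map_mul, hξ, Complex.conj_ofReal]
      have hder := sumW_hasDeriv (m + 1)
        (fun t w => nmul g (Ex (fun a => (t : ℂ) * ξ a)) w * c w)
        (fun w => nmul g (fun w => ξ true * lett true w + ξ false * lett false w) w * c w)
        (fun w => (nmul_hasDeriv g _ _ (Ex_hasDeriv ξ) w).mul_const (c w))
      have hz : (fun t : ℝ => sumW (m + 1)
          (fun w => nmul g (Ex (fun a => (t : ℂ) * ξ a)) w * c w)) = fun _ => 0 := by
        funext t; exact h0 t
      rw [hz] at hder
      have huniq := hder.unique (hasDerivAt_const (0 : ℝ) (0 : ℂ))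
      rw [sumW] at huniq
      have e : ∀ a, D a (fun w => nmul g (fun w => ξ true * lett true w + ξ false * lett false w) w *
          c w) = fun w => ξ a * (g w * D a c w) := by
        intro a
        funext w
        simp only [D_apply]
        rw [nmul_add_right, nmul_smul_right, nmul_smul_right, nmul_lett, nmul_lett]
        cases a <;> simp <;> ring
      rw [e, e, c4_sumW_mul, c4_sumW_mul] at huniq
      exact huniq
    have hT : ∀ g, RealChar k g → sumW m (fun w => g w * D true c w) = 0 ∧
        sumW m (fun w => g w * D false c w) = 0 := by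
      intro g hg
      have h1 := key g hg (fun _ => 1) (by simp)
      have h2 := key g hg (fun a => if a then Complex.I else -Complex.I) (by
        intro a; cases a <;> simp)
      simp only [if_true, one_mul, Bool.false_eq_true, if_false] at h1 h2
      have h3 : sumW m (fun w => g w * D true c w) - sumW m (fun w => g w * D false c w) = 0 := by
        have : Complex.I * (sumW m (fun w => g w * D true c w) -
            sumW m (fun w => g w * D false c w)) = 0 := by
          rw [← h2]; ring
        rcases mul_eq_zero.1 this with h | h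
        · exact absurd h Complex.I_ne_zero
        · exact h
      constructor
      · have : 2 * sumW m (fun w => g w * D true c w) = 0 := by linear_combination h1 + h3
        simpa using this
      · have : 2 * sumW m (fun w => g w * D false c w) = 0 := by linear_combination h1 - h3
        simpa using this
    intro w hw
    match w with
    | [] => simp at hw
    | true :: w =>
      exact ih (D true c) (fun g hg => (hT g hg).1) w (by simpa using hw)
    | false :: w =>
      exact ih (D false c) (fun g hg => (hT g hg).2) w (by simpa using hw)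

/-- homogeneity of brackets -/
lemma brV_homog {k : ℕ} (b : Wd) (hb : b ≠ []) : ∀ (R : Wd → Wd → ℂ) (n : ℕ),
    (∀ u v : Wd, u.length + v.length + n ≠ k → R u v = 0) →
    ∀ u v : Wd, u.length + v.length + (n + b.length) ≠ k → brV b R u v = 0 := by
  refine ne_induction (motive := fun b => ∀ (R : Wd → Wd → ℂ) (n : ℕ),
    (∀ u v : Wd, u.length + v.length + n ≠ k → R u v = 0) →
    ∀ u v : Wd, u.length + v.length + (n + b.length) ≠ k → brV b R u v = 0) ?_ ?_ b hb
  · intro a R n h u v huv
    exact h u (a :: v) (by simp at huv ⊢; omega)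
  · intro c w hw ih R n h u v huv
    rw [brV_cons hw]
    simp only [DV_apply, List.length_cons] at huv ⊢
    rw [ih R n h u (c :: v) (by simp only [List.length_cons]; omega),
      ih (DV c R) (n + 1) (fun u v huv => h u (c :: v) (by simp only [List.length_cons]; omega))
        u v (by omega), sub_zero]

lemma unsh_homog {k : ℕ} (w : Wd) : ∀ (R : Wd → Wd → ℂ) (n : ℕ),
    (∀ u v : Wd, u.length + v.length + n ≠ k → R u v = 0) →
    w.length + n ≠ k → unsh R w = 0 := by
  induction w with
  | nil => intro R n h hw; exact h [] [] (by simpa using hw)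
  | cons a w ih =>
    intro R n h hw
    simp only [List.length_cons] at hw
    rw [unsh_cons, ih (DU a R) (n + 1) (fun u v huv => h (a :: u) v
      (by simp only [List.length_cons]; omega)) (by omega),
      ih (DV a R) (n + 1) (fun u v huv => h u (a :: v)
      (by simp only [List.length_cons]; omega)) (by omega), add_zero]

lemma HomR.bar {k : ℕ} {R : Wd → Wd → ℂ} (h : HomR k R) : Bar R = R := by
  funext u v
  simp only [Bar]
  rw [h.herm, Complex.conj_conj]

/-- the key orthogonality relation -/
theorem c4_star (k : ℕ) (R : Wd → Wd → ℂ) (h : HomR k R)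
    (hL : ∀ w, unsh (DU true (DV false R)) w = 0) (b : Wd) (hb : b ≠ []) (w : Wd) :
    unsh (DV false (brU b R)) w = 0 := by
  have hE : ∀ w, unsh (DU true (brV (cj b) R)) w = (starRingEnd ℂ) (unsh (DV false (brU b R)) (cj w)) := by
    intro w
    have e : DU true (brV (cj b) R) = Bar (DV false (brU b R)) := by
      rw [Bar_DV, Bar_brU b hb, h.bar]; rfl
    rw [e, unsh_Bar]
  have hcb := cj_ne hb
  -- it is enough to show the vanishing of the first one
  suffices H : ∀ w, unsh (DU true (brV (cj b) R)) w = 0 by
    have h1 := hE (cj w)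
    rw [H, cj_cj] at h1
    have := congrArg (starRingEnd ℂ) h1
    simpa using this.symm
  clear w
  intro w
  have hhom : ∀ u v : Wd, u.length + v.length + (1 + b.length) ≠ k →
      DU true (brV (cj b) R) u v = 0 := by
    intro u v huv
    refine brV_homog (k := k) (cj b) hcb R 0 (fun u v huv => h.homog u v (by simpa using huv))
      (true :: u) v ?_
    simp only [List.length_cons, cj_length]; omega
  by_cases hwk : w.length + (1 + b.length) = k
  swap
  · exact unsh_homog w _ (1 + b.length) hhom hwk
  -- main case
  set m := w.length with hm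
  refine c4_sep k m (fun w => unsh (DU true (brV (cj b) R)) w) ?_ w hm.symm
  clear hE
  intro g hg
  set P1 := sumW m (fun w => g w * unsh (DU true (brV (cj b) R)) w) with hP1
  have hblen : 1 ≤ b.length := by
    rcases b with _ | ⟨a, b⟩
    · exact absurd rfl hb
    · simp
  have hgs : ∀ u v : Wd, u.length + v.length ≤ k → g u * g v = shf g u v :=
    fun u v huv => (hg.1.2 u v huv).symm
  -- the values of the form
  have hS1 : sumP k (fun u v => R u v * nmul g (lett true) u * nmul g (Bc (cj b)) v) = P1 := by
    have e : k = (m + 1) + (cj b).length := by simp; omega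
    calc sumP k (fun u v => R u v * nmul g (lett true) u * nmul g (Bc (cj b)) v)
        = sumP ((m + 1) + (cj b).length)
          (fun u v => R u v * nmul g (lett true) u * nmul g (Bc (cj b)) v) := by rw [← e]
      _ = sumP (m + 1) (fun u v => brV (cj b) R u v * nmul g (lett true) u * g v) :=
          c4_adjV (cj b) hcb (m + 1) R (nmul g (lett true)) g
      _ = sumP m (fun u v => DU true (brV (cj b) R) u v * g u * g v) := c4_adjU1 m _ g g true
      _ = sumP m (fun u v => DU true (brV (cj b) R) u v * shf g u v) :=
          c4_sumP_congr fun u v huv => by rw [← hgs u v (by omega)]; ring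
      _ = P1 := c4_dual m _ g
  have hS2 : sumP k (fun u v => R u v * nmul g (Bc b) u * nmul g (lett false) v) = (starRingEnd ℂ) P1 := by
    have e : k = (m + 1) + b.length := by omega
    have e1 : sumP k (fun u v => R u v * nmul g (Bc b) u * nmul g (lett false) v) =
        sumW m (fun w => g w * unsh (DV false (brU b R)) w) := by
      calc sumP k (fun u v => R u v * nmul g (Bc b) u * nmul g (lett false) v)
          = sumP ((m + 1) + b.length)
            (fun u v => R u v * nmul g (Bc b) u * nmul g (lett false) v) := by rw [← e]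
        _ = sumP (m + 1) (fun u v => brU b R u v * g u * nmul g (lett false) v) :=
            c4_adjU b hb (m + 1) R (nmul g (lett false)) g
        _ = sumP m (fun u v => DV false (brU b R) u v * g u * g v) := c4_adjV1 m _ g g false
        _ = sumP m (fun u v => DV false (brU b R) u v * shf g u v) :=
            c4_sumP_congr fun u v huv => by rw [← hgs u v (by omega)]; ring
        _ = _ := c4_dual m _ g
    rw [e1, hP1, ← c4_sumW_cj]
    have e2 := (c4_sumW_map (A := ℂ) (B := ℂ) (starRingEnd ℂ : ℂ →+ ℂ) m
      (fun w => g w * unsh (DU true (brV (cj b) R)) w))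
    refine Eq.trans ?_ e2
    refine c4_sumW_congr fun w _ => ?_
    have e3 : DU true (brV (cj b) R) = Bar (DV false (brU b R)) := by
      rw [Bar_DV, Bar_brU b hb, h.bar]; rfl
    have e4 : g (cj w) = (starRingEnd ℂ) (g w) := by
      have := congrFun hg.2 (cj w)
      simp only [bar, cj_cj] at this
      exact this.symm
    rw [e3, unsh_Bar, e4]
    simp
  have hS0 : sumP k (fun u v => R u v * nmul g (lett true) u * nmul g (lett false) v) = 0 := by
    have e : k = (k - 2) + 1 + 1 := by omega
    calc sumP k (fun u v => R u v * nmul g (lett true) u * nmul g (lett false) v)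
        = sumP ((k - 2) + 1 + 1)
          (fun u v => R u v * nmul g (lett true) u * nmul g (lett false) v) := by rw [← e]
      _ = sumP ((k - 2) + 1) (fun u v => DV false R u v * nmul g (lett true) u * g v) :=
          c4_adjV1 _ _ _ _ _
      _ = sumP (k - 2) (fun u v => DU true (DV false R) u v * g u * g v) := c4_adjU1 _ _ _ _ _
      _ = sumP (k - 2) (fun u v => DU true (DV false R) u v * shf g u v) :=
          c4_sumP_congr fun u v huv => by rw [← hgs u v (by omega)]; ring
      _ = sumW (k - 2) (fun w => g w * unsh (DU true (DV false R)) w) := c4_dual _ _ g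
      _ = sumW (k - 2) (fun _ => 0) := c4_sumW_congr fun w _ => by rw [hL, mul_zero]
      _ = 0 := c4_sumW_zero _
  set C := sumP k (fun u v => R u v * nmul g (Bc b) u * nmul g (Bc (cj b)) v) with hC
  have hpos : ∀ T : ℂ, 0 ≤ (T * P1 + (starRingEnd ℂ) T * (starRingEnd ℂ) P1 + C).re := by
    intro T
    let X : Wd → ℂ := fun w => T * lett true w + Bc b w
    have hX : Prim X := by
      intro u v
      show shf (fun w => T * lett true w + Bc b w) u v = _
      rw [shf_add, shf_smul, prim_lett true u v, prim_Bc b hb u v]
      simp only [X]; ring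
    have h0 := h.pos g (nmul g X) hg.1 (isDer_of_prim hg.1 hX)
    have e : (sumP k fun u v => R u v * nmul g X u * (starRingEnd ℂ) (nmul g X (cj v))) =
        T * P1 + (starRingEnd ℂ) T * (starRingEnd ℂ) P1 + C := by
      have e1 : ∀ v, (starRingEnd ℂ) (nmul g X (cj v)) =
          (starRingEnd ℂ) T * nmul g (lett false) v + nmul g (Bc (cj b)) v := by
        intro v
        have e2 : bar X = fun w => (starRingEnd ℂ) T * lett false w + Bc (cj b) w := by
          rw [← bar_Bc b hb, show (lett false : Wd → ℂ) = bar (lett true) from (bar_lett true).symm]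
          funext w; simp [bar, X]
        have : (starRingEnd ℂ) (nmul g X (cj v)) = bar (nmul g X) v := rfl
        rw [this, c4_bar_nmul, hg.2, e2, nmul_add_right, nmul_smul_right]
      have e2 : ∀ u, nmul g X u = T * nmul g (lett true) u + nmul g (Bc b) u := by
        intro u
        show nmul g (fun w => T * lett true w + Bc b w) u = _
        rw [nmul_add_right, nmul_smul_right]
      have e3 : (sumP k fun u v => R u v * nmul g X u * (starRingEnd ℂ) (nmul g X (cj v))) =
          sumP k fun u v => (((T * (starRingEnd ℂ) T) * (R u v * nmul g (lett true) u * nmul g (lett false) v) +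
            T * (R u v * nmul g (lett true) u * nmul g (Bc (cj b)) v)) +
            (starRingEnd ℂ) T * (R u v * nmul g (Bc b) u * nmul g (lett false) v)) +
            R u v * nmul g (Bc b) u * nmul g (Bc (cj b)) v :=
        c4_sumP_congr fun u v _ => by rw [e1, e2]; ring
      rw [e3, c4_sumP_add, c4_sumP_add, c4_sumP_add, c4_sumP_mul, c4_sumP_mul, c4_sumP_mul,
        hS0, hS1, hS2]
      ring
    rw [e] at h0
    exact h0
  -- conclude
  by_contra hne
  have hn : 0 < Complex.normSq P1 := Complex.normSq_pos.2 hne
  have h1 := hpos (-(((|C.re| + 1) / Complex.normSq P1 : ℝ) : ℂ) * (starRingEnd ℂ) P1)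
  have e : (-(((|C.re| + 1) / Complex.normSq P1 : ℝ) : ℂ) * (starRingEnd ℂ) P1 * P1 +
      (starRingEnd ℂ) (-(((|C.re| + 1) / Complex.normSq P1 : ℝ) : ℂ) * (starRingEnd ℂ) P1) * (starRingEnd ℂ) P1 + C).re =
      -2 * (|C.re| + 1) + C.re := by
    have e1 : (starRingEnd ℂ) P1 * P1 = (Complex.normSq P1 : ℂ) := by
      rw [mul_comm, Complex.mul_conj]
    have e2 : -(((|C.re| + 1) / Complex.normSq P1 : ℝ) : ℂ) * (starRingEnd ℂ) P1 * P1 +
      (starRingEnd ℂ) (-(((|C.re| + 1) / Complex.normSq P1 : ℝ) : ℂ) * (starRingEnd ℂ) P1) * (starRingEnd ℂ) P1 + C =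
      ((-2 * ((|C.re| + 1) / Complex.normSq P1 * Complex.normSq P1) : ℝ) : ℂ) + C := by
      rw [map_mul, map_neg, Complex.conj_ofReal, Complex.conj_conj]
      push_cast
      linear_combination (-2 * (((|C.re| : ℝ) : ℂ) + 1) / (Complex.normSq P1 : ℂ)) * e1
    rw [e2, div_mul_cancel₀ _ hn.ne', Complex.add_re, Complex.ofReal_re]
  rw [e] at h1
  have := le_abs_self C.re
  have := abs_nonneg C.re
  linarith

end c4conj

theorem core4 (k : ℕ) (hk : 1 ≤ k) (R : Wd → Wd → ℂ) (h : HomR k R)
    (hL : ∀ w, unsh (DU true (DV false R)) w = 0) :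
    ∀ w : Wd, w ≠ [] → brU w R [] [] = 0 := by
  have hV : DV true R = fun _ _ => 0 := by funext u v; exact h.crV u v
  have hU : DU false R = fun _ _ => 0 := by funext u v; exact h.crU u v
  have hQ : unsh (DU true R) = fun _ => 0 := by
    funext w
    have := h.diag (true :: w)
    rw [unsh_cons, hV, unsh_zero, add_zero] at this
    exact this
  have key : ∀ b : Wd, b ≠ [] → ∀ w, unsh (brU b R) w = 0 := by
    refine ne_induction ?_ ?_
    · intro a w
      cases a
      · show unsh (DU false R) w = 0
        rw [hU, unsh_zero]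
      · show unsh (DU true R) w = 0
        rw [hQ]
    · intro c b hb ih w
      rw [brU_cons hb, unsh_sub]
      have h1 := ih (c :: w)
      rw [unsh_cons] at h1
      cases c
      · rw [c4_star k R h hL b hb w, add_zero] at h1
        rw [hU, brU_zero, unsh_zero, sub_zero]
        exact h1
      · rw [DV_brU, hV, brU_zero, unsh_zero, add_zero] at h1
        have h2 := unsh_br b hb (DU true R) w
        rw [hQ, brF_zero, ← DU_brV] at h2
        have h3 : unsh (DU true (brV b R)) w = 0 := by
          have e : DU true (brV b R) = Bar (DV false (brU (cj b) R)) := by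
            rw [Bar_DV, Bar_brU (cj b) (cj_ne hb), h.bar, cj_cj]; rfl
          rw [e, unsh_Bar, c4_star k R h hL (cj b) (cj_ne hb), map_zero]
        rw [h3, add_zero] at h2
        have h1' : unsh (fun u v => DU true (brU b R) u v) w = 0 := h1
        rw [h1', h2, sub_zero]
  intro w hw
  exact key w hw []


end DAng
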