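import Pool.Agent.DAng.Van

open scoped ContDiff Topology BigOperators
open Finset Asymptotics

namespace DAng


/-- germ at `p` of a pseudoconvex CR structure of hypersurface type, given by a frame -/
structure LCR (n : ℕ) (p : E (2 * n + 1)) where
  K : Fin n → CVF (2 * n + 1)
  η : E (2 * n + 1) → Fin (2 * n + 1) → ℝ
  smK : ∀ j, Sm p (K j)
  smη : Sm p η
  indep : LinearIndependent ℂ (Sum.elim (fun j => K j p) (fun j => cjVF (K j) p))
  ann : ∀ j, ∀ᶠ x in 𝓝 p, pair η (K j) x = 0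
  ne : η p ≠ 0
  integ : ∀ i j, ∀ᶠ x in 𝓝 p,
    lieBr (K i) (K j) x ∈ Submodule.span ℂ (Set.range fun l => K l x)
  psc : ∀ᶠ x in 𝓝 p, ∀ κ : Fin n → ℂ,
    0 ≤ (Complex.I * ∑ i, ∑ j, κ i * (starRingEnd ℂ) (κ j) *
      pair η (lieBr (K i) (cjVF (K j))) x).re

/-- polynomials in `Z`, `Z̄` -/
abbrev Pol (m : ℕ) := MvPolynomial (Fin m ⊕ Fin m) ℂ

/-- evaluation of a polynomial in `(z, z̄)` -/
noncomputable def peval {m : ℕ} (P : Pol m) (z : Fin m → ℂ) : ℂ :=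
  MvPolynomial.eval (Sum.elim z (fun i => (starRingEnd ℂ) (z i))) P

/-- holomorphic derivative `∂P/∂z_j` -/
noncomputable def dz {m : ℕ} (j : Fin m) (P : Pol m) : Pol m := MvPolynomial.pderiv (Sum.inl j) P
/-- antiholomorphic derivative `∂P/∂z̄_j` -/
noncomputable def dzb {m : ℕ} (j : Fin m) (P : Pol m) : Pol m := MvPolynomial.pderiv (Sum.inr j) P

/-- the polynomial is real valued: `ρ(z,z̄)` is invariant under conjugation -/
def IsHerm {m : ℕ} (P : Pol m) : Prop :=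
  MvPolynomial.rename Sum.swap (MvPolynomial.map (starRingEnd ℂ) P) = P

/-- the pulled back form `∂ρ` evaluated on a vector field -/
noncomputable def theta {d m : ℕ} (Z : Fin m → CF d) (ρ : Pol m) (X : CVF d) : CF d :=
  fun x => ∑ j, peval (dz j ρ) (fun i => Z i x) * act X (Z j) x

/-- embedding data of order `N` -/
structure Emb {n : ℕ} {p : E (2 * n + 1)} (C : LCR n p) (N : ℕ) where
  Z : Fin (n + 1) → CF (2 * n + 1)
  ρ : Pol (n + 1)
  g : CF (2 * n + 1)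
  smZ : ∀ i, Sm p (Z i)
  Z0 : ∀ i, Z i p = 0
  cr : ∀ i j, Van p N (act (cjVF (C.K j)) (Z i))
  /-- `(Z_1,…,Z_n, Re Z_{n+1})` has injective real differential at `p` -/
  coord : ∀ v : Fin (2 * n + 1) → ℝ,
    (∀ i : Fin n, ∑ j, (v j : ℂ) * pd j (Z i.castSucc) p = 0) →
    (∑ j, (v j : ℂ) * pd j (Z (Fin.last n)) p).re = 0 → v = 0
  /-- the matrix `K_a Z_j (p)`, `a, j ≤ n`, is invertible -/
  indepZ : LinearIndependent ℂ (fun a : Fin n => fun j : Fin n => act (C.K a) (Z j.castSucc) p)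
  herm : IsHerm ρ
  van : Van p N (fun x => peval ρ (fun i => Z i x))
  ρlast : (peval (dz (Fin.last n) ρ) 0).im ≠ 0
  smg : Sm p g
  g0 : 0 < (g p / Complex.I).re
  /-- `∂ρ = g η` up to order `N - 1` -/
  theta_eq : ∀ X : CVF (2 * n + 1), Sm p X →
    Van p (N - 1) (fun x => theta Z ρ X x - g x * pair C.η X x)
  /-- the Levi form -/
  levi : ∀ X Y : CVF (2 * n + 1), Sm p X → Sm p Y →
    (∀ᶠ x in 𝓝 p, X x ∈ Submodule.span ℂ (Set.range fun l => C.K l x)) →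
    (∀ᶠ x in 𝓝 p, Y x ∈ Submodule.span ℂ (Set.range fun l => C.K l x)) →
    Van p (N - 2) (fun x => (∑ j, ∑ k, peval (dzb k (dz j ρ)) (fun i => Z i x) *
      act X (Z j) x * (starRingEnd ℂ) (act Y (Z k) x)) - g x * pair C.η (lieBr X (cjVF Y)) x)

/-- complexified defining function on pairs of words -/
noncomputable def Rd {d m : ℕ} (p : E d) (L : CVF d) (Z : Fin m → CF d) (P : Pol m) (u v : Wd) : ℂ :=
  ∑ e ∈ P.support, P.coeff e * op L u (fun x => ∏ i, Z i x ^ e (Sum.inl i)) p *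
    op L v (fun x => ∏ i, (starRingEnd ℂ) (Z i x) ^ e (Sum.inr i)) p

/-- truncated Taylor point: `∑_{j ≤ k} s^j ∑_{|w| = j} (w Z_i)(p) φ(w)` -/
noncomputable def jet {d m : ℕ} (p : E d) (L : CVF d) (Z : Fin m → CF d) (k : ℕ) (φ : Wd → ℂ) (s : ℝ)
    (i : Fin m) : ℂ :=
  ∑ j ∈ range (k + 1), (s : ℂ) ^ j * sumW j (fun w => op L w (Z i) p * φ w)


end DAng
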