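import Pool.Agent.DAng.EmbDefs

open scoped ContDiff Topology BigOperators
open Finset Asymptotics

namespace DAng


/-! helper lemmas for the Levi identity -/

lemma lvi_sm_eval {d : ℕ} {p : E d} {σ : Type*} (W : σ → CF d) (hW : ∀ s, Sm p (W s))
    (P : MvPolynomial σ ℂ) : Sm p (fun x => MvPolynomial.eval (fun s => W s x) P) := by
  induction P using MvPolynomial.induction_on with
  | C a => simpa using Sm.const (p := p) a
  | add P Q hP hQ => simpa using hP.add hQ
  | mul_X P s hP => simpa using hP.mul (hW s)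

lemma lvi_chain0 {d : ℕ} {p : E d} {σ : Type*} [Fintype σ] [DecidableEq σ] (W : σ → CF d)
    (hW : ∀ s, Sm p (W s)) (X : CVF d) (P : MvPolynomial σ ℂ) :
    ∀ᶠ x in 𝓝 p, act X (fun x => MvPolynomial.eval (fun s => W s x) P) x =
      ∑ s, MvPolynomial.eval (fun s => W s x) (MvPolynomial.pderiv s P) * act X (W s) x := by
  induction P using MvPolynomial.induction_on with
  | C a =>
    filter_upwards with x
    simp [act_const]
  | add P Q hP hQ =>
    filter_upwards [hP, hQ, (lvi_sm_eval W hW P).differentiableAt,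
      (lvi_sm_eval W hW Q).differentiableAt] with x h1 h2 h3 h4
    simp only [map_add, add_mul, Finset.sum_add_distrib]
    rw [act_add h3 h4, h1, h2]
  | mul_X P s hP =>
    filter_upwards [hP, (lvi_sm_eval W hW P).differentiableAt, (hW s).differentiableAt]
      with x h1 h3 h4
    simp only [map_mul, MvPolynomial.eval_X]
    rw [act_mul h3 h4, h1]
    have e : ∀ i : σ, MvPolynomial.eval (fun s => W s x)
        (MvPolynomial.pderiv i (P * MvPolynomial.X s)) * act X (W i) x
        = (if i = s then MvPolynomial.eval (fun s => W s x) P * act X (W i) x else 0)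
          + MvPolynomial.eval (fun s => W s x) (MvPolynomial.pderiv i P) * act X (W i) x * W s x := by
      intro i
      rw [Derivation.leibniz, MvPolynomial.pderiv_X]
      by_cases h : i = s
      · subst h
        simp only [Pi.single_eq_same, smul_eq_mul, map_add, map_mul, map_one, MvPolynomial.eval_X,
          if_true]
        ring
      · rw [Pi.single_eq_of_ne (Ne.symm h)]
        simp only [smul_eq_mul, map_add, map_mul, map_zero, MvPolynomial.eval_X, if_neg h]
        ring
    simp only [e, Finset.sum_add_distrib, Finset.sum_ite_eq', Finset.mem_univ, if_true,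
      Finset.sum_mul]

lemma lvi_sm_peval {d m : ℕ} {p : E d} {Z : Fin m → CF d} (smZ : ∀ i, Sm p (Z i)) (P : Pol m) :
    Sm p (fun x => peval P (fun i => Z i x)) := by
  have h := lvi_sm_eval (p := p)
    (Sum.elim Z (fun i x => (starRingEnd ℂ) (Z i x)) : Fin m ⊕ Fin m → CF d)
    (fun s => by
      rcases s with i | i
      · exact smZ i
      · exact (smZ i).conj) P
  refine h.congr ?_
  filter_upwards with x
  simp only [peval]
  congr 2
  funext s
  rcases s with i | i <;> rfl

lemma lvi_chain {d m : ℕ} {p : E d} {Z : Fin m → CF d} (smZ : ∀ i, Sm p (Z i)) (X : CVF d)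
    (P : Pol m) : ∀ᶠ x in 𝓝 p, act X (fun x => peval P (fun i => Z i x)) x =
      ∑ j, peval (dz j P) (fun i => Z i x) * act X (Z j) x +
      ∑ j, peval (dzb j P) (fun i => Z i x) * (starRingEnd ℂ) (act (cjVF X) (Z j) x) := by
  have h := lvi_chain0 (p := p)
    (Sum.elim Z (fun i x => (starRingEnd ℂ) (Z i x)) : Fin m ⊕ Fin m → CF d)
    (fun s => by
      rcases s with i | i
      · exact smZ i
      · exact (smZ i).conj) X P
  have hd : ∀ᶠ x in 𝓝 p, ∀ i, DifferentiableAt ℝ (Z i) x :=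
    Filter.eventually_all.2 fun i => (smZ i).differentiableAt
  have e : ∀ x, (fun s => (Sum.elim Z (fun i x => (starRingEnd ℂ) (Z i x)) : Fin m ⊕ Fin m → CF d) s x)
      = Sum.elim (fun i => Z i x) (fun i => (starRingEnd ℂ) (Z i x)) := by
    intro x
    funext s
    rcases s with i | i <;> rfl
  filter_upwards [h, hd] with x h hd
  simp only [e] at h
  simp only [peval, dz, dzb]
  rw [h, Fintype.sum_sum_type]
  congr 1
  refine Finset.sum_congr rfl fun i _ => ?_
  rw [Sum.elim_inr, act_conj (hd i)]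

lemma lvi_det_sm {d : ℕ} {p : E d} {ι : Type*} [Fintype ι] [DecidableEq ι]
    {M : E d → Matrix ι ι ℂ} (hM : ∀ a b, Sm p (fun x => M x a b)) :
    Sm p (fun x => (M x).det) := by
  simp only [Matrix.det_apply']
  exact Sm.sum fun σ _ => (Sm.const (p := p) ((((Equiv.Perm.sign σ : ℤˣ) : ℤ) : ℂ))).mul
    (Sm.prod fun i _ => hM (σ i) i)

lemma lvi_inv_sm {d : ℕ} {p : E d} {ι : Type*} [Fintype ι] [DecidableEq ι]
    {M : E d → Matrix ι ι ℂ} (hM : ∀ a b, Sm p (fun x => M x a b)) (h0 : (M p).det ≠ 0) (a b : ι) :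
    Sm p (fun x => (M x)⁻¹ a b) := by
  have h1 : Sm p (fun x => ((M x).det)⁻¹) := (lvi_det_sm hM).inv h0
  have h2 : Sm p (fun x => (M x).adjugate a b) := by
    have : ∀ x, (M x).adjugate a b = ((M x).updateRow b (Pi.single a 1)).det := fun x =>
      Matrix.adjugate_apply _ _ _
    simp only [this]
    apply lvi_det_sm
    intro i j
    by_cases h : i = b
    · subst h
      simp only [Matrix.updateRow_self]
      exact Sm.const _
    · simp only [Matrix.updateRow_ne h]
      exact hM i j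
  refine (h1.mul h2).congr ?_
  filter_upwards with x
  rw [Matrix.inv_def, Matrix.smul_apply, smul_eq_mul, Ring.inverse_eq_inv']

lemma lvi_frame {n : ℕ} {p : E (2 * n + 1)} (C : LCR n p) : ∃ T : CVF (2 * n + 1), Sm p T ∧
    pair C.η T p ≠ 0 ∧ ∀ X : CVF (2 * n + 1), Sm p X →
      ∃ (a b : Fin n → CF (2 * n + 1)) (t : CF (2 * n + 1)), (∀ i, Sm p (a i)) ∧ (∀ i, Sm p (b i)) ∧
        Sm p t ∧
        (∀ᶠ x in 𝓝 p, ∀ i, X x i = ∑ l, a l x * C.K l x i + ∑ l, b l x * cjVF (C.K l) x i
          + t x * T x i) ∧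
        (∀ᶠ x in 𝓝 p, X x ∈ Submodule.span ℂ (Set.range fun l => C.K l x) →
          (∀ l, b l x = 0) ∧ t x = 0) := by
  obtain ⟨i₀, hi₀⟩ : ∃ i, C.η p i ≠ 0 := by
    by_contra h
    push Not at h
    exact C.ne (funext h)
  let T : CVF (2 * n + 1) := fun _ => Pi.single i₀ 1
  have hT : Sm p T := Sm.const _
  have hTη : pair C.η T p ≠ 0 := by
    simp only [pair, T]
    rw [Finset.sum_eq_single i₀]
    · simpa using hi₀
    · intro j _ hj
      rw [Pi.single_eq_of_ne hj, mul_zero]
    · intro h; exact absurd (Finset.mem_univ _) h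
  refine ⟨T, hT, hTη, ?_⟩
  -- the frame
  let F : (Fin n ⊕ Fin n) ⊕ Unit → CVF (2 * n + 1) :=
    Sum.elim (Sum.elim C.K (fun j => cjVF (C.K j))) (fun _ => T)
  have hF : ∀ s, Sm p (F s) := by
    intro s
    rcases s with (j | j) | u
    · exact C.smK j
    · exact (C.smK j).cjVF
    · exact hT
  have hcard : Fintype.card ((Fin n ⊕ Fin n) ⊕ Unit) = 2 * n + 1 := by
    simp; ring
  let e : (Fin n ⊕ Fin n) ⊕ Unit ≃ Fin (2 * n + 1) := Fintype.equivFinOfCardEq hcard
  let M : E (2 * n + 1) → Matrix (Fin (2 * n + 1)) (Fin (2 * n + 1)) ℂ :=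
    fun x => Matrix.of fun a b => F (e.symm a) x b
  have hM : ∀ a b, Sm p (fun x => M x a b) := fun a b => (hF (e.symm a)).comp_apply b
  have hann : ∀ᶠ x in 𝓝 p, ∀ j, pair C.η (C.K j) x = 0 := Filter.eventually_all.2 C.ann
  have hli : LinearIndependent ℂ (fun s => F s p) := by
    rw [Fintype.linearIndependent_iff]
    intro g hg
    let φ : (Fin (2 * n + 1) → ℂ) →ₗ[ℂ] ℂ := ∑ i, (C.η p i : ℂ) • LinearMap.proj i
    have hφ : ∀ X : CVF (2 * n + 1), φ (X p) = pair C.η X p := by
      intro X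
      simp [φ, pair]
    have h1 := congrArg φ hg
    rw [map_sum, map_zero, Fintype.sum_sum_type, Fintype.sum_sum_type] at h1
    have h2 : ∀ j, φ (C.K j p) = 0 := fun j => by rw [hφ]; exact hann.self_of_nhds j
    have h3 : ∀ j, φ (cjVF (C.K j) p) = 0 := fun j => by
      rw [hφ]
      have : pair C.η (cjVF (C.K j)) p = (starRingEnd ℂ) (pair C.η (C.K j) p) := by
        simp [pair, cjVF, map_sum]
      rw [this, hann.self_of_nhds j, map_zero]
    have h4 : φ (T p) ≠ 0 := by rw [hφ]; exact hTη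
    simp only [F, Sum.elim_inl, Sum.elim_inr, map_smul, h2, h3, mul_zero, Finset.sum_const_zero,
      zero_add, Finset.univ_unique, Finset.sum_singleton, smul_eq_mul] at h1
    have h5 : g (Sum.inr default) = 0 := by
      rcases mul_eq_zero.1 h1 with h | h
      · exact h
      · exact absurd h h4
    rw [Fintype.sum_sum_type] at hg
    simp only [Finset.univ_unique, Finset.sum_singleton, h5, zero_smul, add_zero] at hg
    have h6 := Fintype.linearIndependent_iff.1 C.indep (fun s => g (Sum.inl s)) (by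
      rw [← hg]
      refine Finset.sum_congr rfl fun s _ => ?_
      rcases s with j | j <;> rfl)
    intro s
    rcases s with s | u
    · exact h6 s
    · exact h5
  have hdet : (M p).det ≠ 0 := by
    have h1 : LinearIndependent ℂ (M p).row := by
      have : (M p).row = (fun s => F s p) ∘ e.symm := by
        funext a; rfl
      rw [this]
      exact hli.comp _ e.symm.injective
    have h2 := Matrix.linearIndependent_rows_iff_isUnit.1 h1
    rw [Matrix.isUnit_iff_isUnit_det] at h2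
    exact h2.ne_zero
  have hdet' : ∀ᶠ x in 𝓝 p, (M x).det ≠ 0 :=
    (lvi_det_sm hM).continuousAt.eventually_ne hdet
  intro X hX
  let c : (Fin n ⊕ Fin n) ⊕ Unit → CF (2 * n + 1) := fun s x => ∑ a, X x a * (M x)⁻¹ a (e s)
  have hc : ∀ s, Sm p (c s) := fun s => Sm.sum fun a _ => (hX.comp_apply a).mul (lvi_inv_sm hM hdet _ _)
  have hcv : ∀ s x, c s x = Matrix.vecMul (X x) ((M x)⁻¹) (e s) := by
    intro s x
    simp only [c, Matrix.vecMul, dotProduct]
  refine ⟨fun l => c (Sum.inl (Sum.inl l)), fun l => c (Sum.inl (Sum.inr l)), c (Sum.inr ()),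
    fun l => hc _, fun l => hc _, hc _, ?_, ?_⟩
  · filter_upwards [hdet'] with x hx i
    have h1 : Matrix.vecMul (Matrix.vecMul (X x) ((M x)⁻¹)) (M x) = X x := by
      rw [Matrix.vecMul_vecMul, Matrix.nonsing_inv_mul _ (isUnit_iff_ne_zero.2 hx), Matrix.vecMul_one]
    have h2 := congrFun h1 i
    rw [← h2]
    have h3 : Matrix.vecMul (Matrix.vecMul (X x) ((M x)⁻¹)) (M x) i
        = ∑ a, Matrix.vecMul (X x) ((M x)⁻¹) a * M x a i := rfl
    rw [h3, ← Equiv.sum_comp e, Fintype.sum_sum_type, Fintype.sum_sum_type]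
    simp only [← hcv, M, Matrix.of_apply, Equiv.symm_apply_apply, F, Sum.elim_inl, Sum.elim_inr,
      Finset.univ_unique, Finset.sum_singleton]
  · filter_upwards [hdet'] with x hx hspan
    rw [Submodule.mem_span_range_iff_exists_fun] at hspan
    obtain ⟨κ, hκ⟩ := hspan
    let w : (Fin n ⊕ Fin n) ⊕ Unit → ℂ := Sum.elim (Sum.elim κ (fun _ => 0)) (fun _ => 0)
    have h1 : Matrix.vecMul (w ∘ e.symm) (M x) = X x := by
      funext i
      simp only [Matrix.vecMul, dotProduct]
      rw [← Equiv.sum_comp e, Fintype.sum_sum_type, Fintype.sum_sum_type]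
      simp only [Function.comp, Equiv.symm_apply_apply, w, Sum.elim_inl, Sum.elim_inr, zero_mul,
        Finset.sum_const_zero, add_zero, M, Matrix.of_apply, F]
      rw [← hκ]
      simp
    have h2 : ∀ s, c s x = w s := by
      intro s
      rw [hcv, ← h1, Matrix.vecMul_vecMul, Matrix.mul_nonsing_inv _ (isUnit_iff_ne_zero.2 hx),
        Matrix.vecMul_one]
      simp
    exact ⟨fun l => h2 _, h2 _⟩

lemma lvi_act_lin {d : ℕ} {n : ℕ} {K Kb : Fin n → CVF d} {T X : CVF d} {a b : Fin n → CF d}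
    {t : CF d} {x : E d}
    (h : ∀ i, X x i = ∑ l, a l x * K l x i + ∑ l, b l x * Kb l x i + t x * T x i) (f : CF d) :
    act X f x = ∑ l, a l x * act (K l) f x + ∑ l, b l x * act (Kb l) f x + t x * act T f x := by
  simp only [act, h, add_mul, Finset.sum_add_distrib, Finset.sum_mul, Finset.mul_sum, mul_assoc]
  congr 2
  · exact Finset.sum_comm
  · exact Finset.sum_comm

lemma lvi_pair_lin {d : ℕ} {n : ℕ} {K Kb : Fin n → CVF d} {T X : CVF d} {a b : Fin n → CF d}
    {t : CF d} {x : E d} {η : E d → Fin d → ℝ}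
    (h : ∀ i, X x i = ∑ l, a l x * K l x i + ∑ l, b l x * Kb l x i + t x * T x i) :
    pair η X x = ∑ l, a l x * pair η (K l) x + ∑ l, b l x * pair η (Kb l) x + t x * pair η T x := by
  simp only [pair, h, mul_add, Finset.sum_add_distrib, Finset.mul_sum]
  congr 1
  · congr 1
    · rw [Finset.sum_comm]
      refine Finset.sum_congr rfl fun l _ => Finset.sum_congr rfl fun i _ => by ring
    · rw [Finset.sum_comm]
      refine Finset.sum_congr rfl fun l _ => Finset.sum_congr rfl fun i _ => by ring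
  · refine Finset.sum_congr rfl fun i _ => by ring

lemma lvi_theta_lin {d : ℕ} {n m : ℕ} {K Kb : Fin n → CVF d} {T X : CVF d} {a b : Fin n → CF d}
    {t : CF d} {x : E d} {Z : Fin m → CF d} {ρ : Pol m}
    (h : ∀ i, X x i = ∑ l, a l x * K l x i + ∑ l, b l x * Kb l x i + t x * T x i) :
    theta Z ρ X x = ∑ l, a l x * theta Z ρ (K l) x + ∑ l, b l x * theta Z ρ (Kb l) x
      + t x * theta Z ρ T x := by
  simp only [theta, lvi_act_lin h, mul_add, Finset.sum_add_distrib, Finset.mul_sum]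
  congr 1
  · congr 1
    · rw [Finset.sum_comm]
      refine Finset.sum_congr rfl fun l _ => Finset.sum_congr rfl fun i _ => by ring
    · rw [Finset.sum_comm]
      refine Finset.sum_congr rfl fun l _ => Finset.sum_congr rfl fun i _ => by ring
  · refine Finset.sum_congr rfl fun i _ => by ring

lemma lvi_sm_theta {d m : ℕ} {p : E d} {Z : Fin m → CF d} (smZ : ∀ i, Sm p (Z i)) (ρ : Pol m)
    {X : CVF d} (hX : Sm p X) : Sm p (theta Z ρ X) :=
  Sm.sum fun j _ => (lvi_sm_peval smZ _).mul (hX.act (smZ j))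

/-- JB3 -/
theorem levi_identity {n : ℕ} {p : E (2 * n + 1)} (C : LCR n p) (N : ℕ) (hN : 2 ≤ N)
    (Z : Fin (n + 1) → CF (2 * n + 1)) (ρ : Pol (n + 1))
    (smZ : ∀ i, Sm p (Z i)) (cr : ∀ i j, Van p N (act (cjVF (C.K j)) (Z i)))
    (herm : IsHerm ρ) (van : Van p N (fun x => peval ρ (fun i => Z i x))) :
    ∃ g : CF (2 * n + 1), Sm p g ∧
      (∀ X : CVF (2 * n + 1), Sm p X →
        Van p (N - 1) (fun x => theta Z ρ X x - g x * pair C.η X x)) ∧
      (∀ X Y : CVF (2 * n + 1), Sm p X → Sm p Y →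
        (∀ᶠ x in 𝓝 p, X x ∈ Submodule.span ℂ (Set.range fun l => C.K l x)) →
        (∀ᶠ x in 𝓝 p, Y x ∈ Submodule.span ℂ (Set.range fun l => C.K l x)) →
        Van p (N - 2) (fun x => (∑ j, ∑ k, peval (dzb k (dz j ρ)) (fun i => Z i x) *
          act X (Z j) x * (starRingEnd ℂ) (act Y (Z k) x))
            - g x * pair C.η (lieBr X (cjVF Y)) x)) := by
  obtain ⟨T, hT, hTη, hfr⟩ := lvi_frame C
  have hann : ∀ᶠ x in 𝓝 p, ∀ j, pair C.η (C.K j) x = 0 := Filter.eventually_all.2 C.ann
  have hannb : ∀ᶠ x in 𝓝 p, ∀ j, pair C.η (cjVF (C.K j)) x = 0 := by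
    filter_upwards [hann] with x hx j
    have : pair C.η (cjVF (C.K j)) x = (starRingEnd ℂ) (pair C.η (C.K j) x) := by
      simp [pair, cjVF, map_sum]
    rw [this, hx j, map_zero]
  -- theta on the frame
  have hthb : ∀ j, Van p N (theta Z ρ (cjVF (C.K j))) := fun j =>
    Van.sum fun i _ => Van.sm_mul (lvi_sm_peval smZ _) (cr i j)
  have hth : ∀ j, Van p (N - 1) (theta Z ρ (C.K j)) := by
    intro j
    have h1 : Van p (N - 1) (act (C.K j) (fun x => peval ρ (fun i => Z i x))) := by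
      apply Van.act (C.smK j)
      have : N - 1 + 1 = N := by omega
      rw [this]
      exact van
    have h2 : Van p (N - 1) (fun x => ∑ k, peval (dzb k ρ) (fun i => Z i x) *
        (starRingEnd ℂ) (act (cjVF (C.K j)) (Z k) x)) :=
      Van.sum fun k _ => Van.sm_mul (lvi_sm_peval smZ _) (((cr k j).conj).mono (by omega))
    refine (h1.sub h2).congr ?_
    filter_upwards [lvi_chain smZ (C.K j) ρ] with x hx
    rw [hx]
    simp only [theta]
    ring
  have hpT : Sm p (pair C.η T) := C.smη.pair hT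
  let g : CF (2 * n + 1) := fun x => theta Z ρ T x * (pair C.η T x)⁻¹
  have hg : Sm p g := (lvi_sm_theta smZ ρ hT).mul (hpT.inv hTη)
  have hTne : ∀ᶠ x in 𝓝 p, pair C.η T x ≠ 0 := hpT.continuousAt.eventually_ne hTη
  have h1 : ∀ X : CVF (2 * n + 1), Sm p X →
      Van p (N - 1) (fun x => theta Z ρ X x - g x * pair C.η X x) := by
    intro X hX
    obtain ⟨a, b, t, ha, hb, ht, hexp, -⟩ := hfr X hX
    have h2 : Van p (N - 1) (fun x => ∑ l, a l x * theta Z ρ (C.K l) x
        + ∑ l, b l x * theta Z ρ (cjVF (C.K l)) x) :=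
      (Van.sum fun l _ => Van.sm_mul (ha l) (hth l)).add
        (Van.sum fun l _ => Van.sm_mul (hb l) ((hthb l).mono (by omega)))
    refine h2.congr ?_
    filter_upwards [hexp, hann, hannb, hTne] with x h3 h4 h5 h6
    rw [lvi_theta_lin h3, lvi_pair_lin (η := C.η) h3]
    simp only [h4, h5, mul_zero, Finset.sum_const_zero, zero_add, g]
    field_simp
    ring
  refine ⟨g, hg, h1, ?_⟩
  intro X Y hX hY hXs hYs
  have hYb : Sm p (cjVF Y) := hY.cjVF
  -- conj Y kills Z up to order N
  have hYZ : ∀ k, Van p N (act (cjVF Y) (Z k)) := by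
    intro k
    obtain ⟨a, b, t, ha, hb, ht, hexp, hsp⟩ := hfr Y hY
    have h2 : Van p N (fun x => ∑ l, (starRingEnd ℂ) (a l x) * act (cjVF (C.K l)) (Z k) x) :=
      Van.sum fun l _ => Van.sm_mul (ha l).conj (cr k l)
    refine h2.congr ?_
    filter_upwards [hexp, hsp, hYs] with x h3 h4 h5
    obtain ⟨h6, h7⟩ := h4 h5
    have h8 : ∀ i, cjVF Y x i = ∑ l, (starRingEnd ℂ) (a l x) * cjVF (C.K l) x i := by
      intro i
      simp only [cjVF, h3, h6, h7, zero_mul, Finset.sum_const_zero, add_zero, map_sum, map_mul]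
    simp only [act, h8, Finset.sum_mul, Finset.mul_sum, mul_assoc]
    exact Finset.sum_comm
  have hX0 : ∀ᶠ x in 𝓝 p, pair C.η X x = 0 := by
    obtain ⟨a, b, t, ha, hb, ht, hexp, hsp⟩ := hfr X hX
    filter_upwards [hexp, hsp, hXs, hann] with x h3 h4 h5 h8
    obtain ⟨h6, h7⟩ := h4 h5
    rw [lvi_pair_lin (η := C.η) h3]
    simp [h6, h7, h8]
  have hthX : Van p (N - 1) (theta Z ρ X) := by
    refine (h1 X hX).congr ?_
    filter_upwards [hX0] with x hx
    rw [hx]; ring
  have hA : Van p (N - 2) (act (cjVF Y) (theta Z ρ X)) := by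
    apply Van.act hYb
    have : N - 2 + 1 = N - 1 := by omega
    rw [this]
    exact hthX
  have hB : Van p (N - 2) (fun x => ∑ j, (∑ k, peval (dz k (dz j ρ)) (fun i => Z i x) *
      act (cjVF Y) (Z k) x) * act X (Z j) x) :=
    Van.sum fun j _ => Van.mul_sm (Van.sum fun k _ => Van.sm_mul (lvi_sm_peval smZ _)
      ((hYZ k).mono (by omega))) (hX.act (smZ j))
  have hC : Van p (N - 2) (fun x => ∑ j, peval (dz j ρ) (fun i => Z i x) *
      act X (act (cjVF Y) (Z j)) x) :=
    Van.sum fun j _ => Van.sm_mul (lvi_sm_peval smZ _) (Van.act hX ((hYZ j).mono (by omega)))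
  have hD : Van p (N - 2) (fun x => theta Z ρ (lieBr X (cjVF Y)) x
      - g x * pair C.η (lieBr X (cjVF Y)) x) := (h1 _ (hX.lieBr hYb)).mono (by omega)
  refine (((hA.sub hB).add hD).sub hC).congr ?_
  -- pointwise identities near p
  have hch : ∀ᶠ x in 𝓝 p, ∀ j, act (cjVF Y) (fun x => peval (dz j ρ) (fun i => Z i x)) x =
      ∑ k, peval (dz k (dz j ρ)) (fun i => Z i x) * act (cjVF Y) (Z k) x +
      ∑ k, peval (dzb k (dz j ρ)) (fun i => Z i x) * (starRingEnd ℂ) (act (cjVF (cjVF Y)) (Z k) x) :=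
    Filter.eventually_all.2 fun j => lvi_chain smZ (cjVF Y) (dz j ρ)
  have hcc : cjVF (cjVF Y) = Y := by
    funext x i
    simp [cjVF]
  rw [hcc] at hch
  have hdX : ∀ᶠ x in 𝓝 p, ∀ i, DifferentiableAt ℝ (fun y => X y i) x :=
    Filter.eventually_all.2 fun i => (hX.comp_apply i).differentiableAt
  have hdY : ∀ᶠ x in 𝓝 p, ∀ i, DifferentiableAt ℝ (fun y => cjVF Y y i) x :=
    Filter.eventually_all.2 fun i => (hYb.comp_apply i).differentiableAt
  have hZs : ∀ᶠ x in 𝓝 p, ∀ i, ContDiffAt ℝ ∞ (Z i) x := Filter.eventually_all.2 smZ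
  have hd1 : ∀ᶠ x in 𝓝 p, ∀ j, DifferentiableAt ℝ (fun x => peval (dz j ρ) (fun i => Z i x)) x :=
    Filter.eventually_all.2 fun j => (lvi_sm_peval smZ _).differentiableAt
  have hd2 : ∀ᶠ x in 𝓝 p, ∀ j, DifferentiableAt ℝ (act X (Z j)) x :=
    Filter.eventually_all.2 fun j => (hX.act (smZ j)).differentiableAt
  filter_upwards [hch, hdX, hdY, hZs, hd1, hd2] with x q1 q2 q3 q4 q5 q6
  have r1 : act (cjVF Y) (theta Z ρ X) x = ∑ j, (peval (dz j ρ) (fun i => Z i x) *
      act (cjVF Y) (act X (Z j)) x + act (cjVF Y) (fun x => peval (dz j ρ) (fun i => Z i x)) x *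
      act X (Z j) x) := by
    have : act (cjVF Y) (theta Z ρ X) x
        = ∑ j, act (cjVF Y) (fun x => peval (dz j ρ) (fun i => Z i x) * act X (Z j) x) x :=
      act_sum (f := fun j x => peval (dz j ρ) (fun i => Z i x) * act X (Z j) x)
        fun j _ => (q5 j).mul (q6 j)
    rw [this]
    exact Finset.sum_congr rfl fun j _ => act_mul (q5 j) (q6 j)
  have r2 : theta Z ρ (lieBr X (cjVF Y)) x = ∑ j, peval (dz j ρ) (fun i => Z i x) *
      (act X (act (cjVF Y) (Z j)) x - act (cjVF Y) (act X (Z j)) x) := by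
    simp only [theta]
    refine Finset.sum_congr rfl fun j _ => ?_
    rw [act_lieBr q2 q3 (q4 j)]
  rw [r1, r2]
  simp only [q1]
  rw [sub_eq_iff_eq_add]
  have e1 : ∑ j, ∑ k, peval (dzb k (dz j ρ)) (fun i => Z i x) * act X (Z j) x *
      (starRingEnd ℂ) (act Y (Z k) x) = ∑ j, (∑ k, peval (dzb k (dz j ρ)) (fun i => Z i x) *
      (starRingEnd ℂ) (act Y (Z k) x)) * act X (Z j) x := by
    refine Finset.sum_congr rfl fun j _ => ?_
    rw [Finset.sum_mul]
    exact Finset.sum_congr rfl fun k _ => by ring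
  rw [e1]
  simp only [mul_sub, add_mul, Finset.sum_sub_distrib, Finset.sum_add_distrib]
  ring


end DAng
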