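import Pool.Agent.DAng.EmbDefs

open scoped ContDiff Topology BigOperators
open Finset Asymptotics

namespace DAng


section telescopeJB1

variable {d : ℕ} {p : E d}

/-- iterated derivative along one field -/
noncomputable def tlI (Y : CVF d) (a : ℕ) (f : CF d) : CF d := (act Y)^[a] f

lemma tlI_zero (Y : CVF d) (f : CF d) : tlI Y 0 f = f := rfl

lemma tlI_succ (Y : CVF d) (a : ℕ) (f : CF d) : tlI Y (a + 1) f = act Y (tlI Y a f) :=
  Function.iterate_succ_apply' _ _ _

lemma Sm.tlI {Y : CVF d} (hY : Sm p Y) {f : CF d} (hf : Sm p f) : ∀ a, Sm p (tlI Y a f)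
  | 0 => hf
  | a + 1 => by rw [tlI_succ]; exact hY.act (Sm.tlI hY hf a)

lemma Van.tlI {Y : CVF d} (hY : Sm p Y) : ∀ (a : ℕ) {m : ℕ} {f : CF d}, Van p (m + a) f →
    Van p m (tlI Y a f)
  | 0, _, _, h => h
  | a + 1, m, f, h => by
    rw [tlI_succ]
    refine Van.act hY (Van.tlI hY a (m := m + 1) ?_)
    have e : m + 1 + a = m + (a + 1) := by ring
    rw [e]; exact h

lemma tl_comm {Y X : CVF d} (hY : Sm p Y) (hX : Sm p X)
    (hc : ∀ᶠ x in 𝓝 p, lieBr X Y x = 0) {f : CF d} (hf : Sm p f) :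
    act X (act Y f) =ᶠ[𝓝 p] act Y (act X f) := by
  have h1 : ∀ᶠ x in 𝓝 p, ∀ i, DifferentiableAt ℝ (fun y => X y i) x :=
    Filter.eventually_all.2 fun i => (hX.comp_apply i).differentiableAt
  have h2 : ∀ᶠ x in 𝓝 p, ∀ i, DifferentiableAt ℝ (fun y => Y y i) x :=
    Filter.eventually_all.2 fun i => (hY.comp_apply i).differentiableAt
  filter_upwards [h1, h2, hf, hc] with x h1 h2 h3 h4
  have h5 := act_lieBr h1 h2 h3
  have h6 : act (lieBr X Y) f x = 0 := by simp [act, h4]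
  rw [h6] at h5
  exact (sub_eq_zero.1 h5.symm)

lemma tlI_comm {Y X : CVF d} (hY : Sm p Y) (hX : Sm p X)
    (hc : ∀ᶠ x in 𝓝 p, lieBr X Y x = 0) {f : CF d} (hf : Sm p f) : ∀ a : ℕ,
    act X (tlI Y a f) =ᶠ[𝓝 p] tlI Y a (act X f)
  | 0 => Filter.EventuallyEq.refl _ _
  | a + 1 => by
    rw [tlI_succ, tlI_succ]
    exact (tl_comm hY hX hc (hY.tlI hf a)).trans
      (act_congr (Filter.EventuallyEq.refl _ _) (tlI_comm hY hX hc hf a))

/-- the telescoping operator -/
noncomputable def tlP (Y : CVF d) (y : CF d) (N : ℕ) (f : CF d) : CF d :=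
  fun x => ∑ a ∈ range (N + 1), ((a.factorial : ℂ)⁻¹ * (- y x) ^ a) * tlI Y a f x

lemma Van.pow_neg {y : CF d} (hy : Van p 1 y) : ∀ a : ℕ, Van p a (fun x => (- y x) ^ a)
  | 0 => by
    show Sm p _
    simpa using Sm.const (p := p) (1 : ℂ)
  | a + 1 => by
    refine ((Van.pow_neg hy a).mul hy.neg).congr ?_
    filter_upwards with x
    rw [pow_succ]

lemma tl_term_sm {Y : CVF d} {y : CF d} (hY : Sm p Y) (hy : Sm p y) {f : CF d} (hf : Sm p f)
    (a : ℕ) : Sm p (fun x => ((a.factorial : ℂ)⁻¹ * (- y x) ^ a) * tlI Y a f x) :=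
  ((Sm.const _).mul (hy.neg.pow a)).mul (hY.tlI hf a)

lemma Sm.tlP {Y : CVF d} {y : CF d} (hY : Sm p Y) (hy : Sm p y) {f : CF d} (hf : Sm p f)
    (N : ℕ) : Sm p (tlP Y y N f) :=
  Sm.sum fun a _ => tl_term_sm hY hy hf a

lemma Van.tlP {Y : CVF d} {y : CF d} (hY : Sm p Y) (hy : Van p 1 y) {N : ℕ} {f : CF d}
    (hf : Van p N f) : Van p N (tlP Y y N f) := by
  refine Van.sum fun a ha => ?_
  have ha' : a ≤ N := by simpa [Nat.lt_succ_iff] using ha
  have h1 : Van p (N - a) (DAng.tlI Y a f) := Van.tlI hY a (by rwa [Nat.sub_add_cancel ha'])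
  have h2 : Van p a (fun x => (a.factorial : ℂ)⁻¹ * (- y x) ^ a) :=
    Van.sm_mul (Sm.const _) (hy.pow_neg a)
  have h3 := h2.mul h1
  rwa [Nat.add_sub_cancel' ha'] at h3

lemma act_tl_pow {Y : CVF d} {y : CF d} {x : E d} (hy : DifferentiableAt ℝ y x)
    (h1 : act Y y x = 1) : ∀ a : ℕ,
    act Y (fun x => (- y x) ^ (a + 1)) x = - ((a : ℂ) + 1) * (- y x) ^ a := by
  intro a
  have dn : DifferentiableAt ℝ (fun x => - y x) x := hy.neg
  have dp : ∀ a : ℕ, DifferentiableAt ℝ (fun x => (- y x) ^ a) x := fun a => dn.pow a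
  induction a with
  | zero =>
    simp only [zero_add, pow_one, Nat.cast_zero, pow_zero, mul_one]
    rw [act_neg, h1]
  | succ a ih =>
    have e : (fun x => (- y x) ^ (a + 1 + 1)) = fun x => (- y x) ^ (a + 1) * (- y x) := by
      funext z; rw [pow_succ]
    rw [e, act_mul (dp (a + 1)) dn, ih, act_neg, h1]
    push_cast
    ring

lemma act_tl_term {Y : CVF d} {y : CF d} {f : CF d} {x : E d} (hy : DifferentiableAt ℝ y x)
    (h1 : act Y y x = 1) (a : ℕ) (hf : DifferentiableAt ℝ (tlI Y (a + 1) f) x) :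
    act Y (fun x => (((a + 1).factorial : ℂ)⁻¹ * (- y x) ^ (a + 1)) * tlI Y (a + 1) f x) x
      = (((a + 1).factorial : ℂ)⁻¹ * (- y x) ^ (a + 1)) * tlI Y (a + 2) f x
        - ((a.factorial : ℂ)⁻¹ * (- y x) ^ a) * tlI Y (a + 1) f x := by
  have d1 : DifferentiableAt ℝ (fun x => (- y x) ^ (a + 1)) x := hy.neg.pow _
  have d2 : DifferentiableAt ℝ (fun x => ((a + 1).factorial : ℂ)⁻¹ * (- y x) ^ (a + 1)) x :=
    (differentiableAt_const _).mul d1
  rw [act_mul d2 hf, act_mul (differentiableAt_const _) d1, act_const, act_tl_pow hy h1,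
    tlI_succ Y (a + 1)]
  have h2 : ((a + 1).factorial : ℂ) = ((a : ℂ) + 1) * (a.factorial : ℂ) := by
    rw [Nat.factorial_succ]; push_cast; ring
  have h3 : (a.factorial : ℂ) ≠ 0 := by exact_mod_cast a.factorial_ne_zero
  have h4 : (a : ℂ) + 1 ≠ 0 := by exact_mod_cast a.succ_ne_zero
  rw [h2]
  field_simp
  ring

lemma act_tlP {Y : CVF d} {y : CF d} (hY : Sm p Y) (hy : Sm p y)
    (h1 : ∀ᶠ x in 𝓝 p, act Y y x = 1) {f : CF d} (hf : Sm p f) : ∀ N : ℕ,
    act Y (tlP Y y N f) =ᶠ[𝓝 p]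
      fun x => ((N.factorial : ℂ)⁻¹ * (- y x) ^ N) * tlI Y (N + 1) f x
  | 0 => by
    have e : tlP Y y 0 f = f := by funext x; simp [tlP, tlI]
    rw [e]
    filter_upwards with x
    simp [tlI]
  | N + 1 => by
    have ih := act_tlP hY hy h1 hf N
    have e : tlP Y y (N + 1) f = fun x => tlP Y y N f x +
        (((N + 1).factorial : ℂ)⁻¹ * (- y x) ^ (N + 1)) * tlI Y (N + 1) f x := by
      funext x
      simp only [tlP]
      rw [Finset.sum_range_succ _ (N + 1)]
    rw [e]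
    filter_upwards [ih, h1, hy.differentiableAt, (hY.tlI hf (N + 1)).differentiableAt,
      (hY.tlP hy hf N).differentiableAt, (tl_term_sm hY hy hf (N + 1)).differentiableAt]
      with x i1 i2 i3 i4 i5 i6
    rw [act_add i5 i6, i1, act_tl_term i3 i2 N i4]
    ring

lemma act_tlP_other {Y X : CVF d} {y : CF d} (hY : Sm p Y) (hX : Sm p X) (hy : Sm p y)
    (h0 : ∀ᶠ x in 𝓝 p, act X y x = 0) (hc : ∀ᶠ x in 𝓝 p, lieBr X Y x = 0)
    {f : CF d} (hf : Sm p f) (N : ℕ) :
    act X (tlP Y y N f) =ᶠ[𝓝 p] tlP Y y N (act X f) := by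
  have h1 : ∀ᶠ x in 𝓝 p, ∀ a ∈ range (N + 1), DifferentiableAt ℝ (tlI Y a f) x :=
    (Filter.eventually_all_finset _).2 fun a _ => (hY.tlI hf a).differentiableAt
  have h2 : ∀ᶠ x in 𝓝 p, ∀ a ∈ range (N + 1), act X (tlI Y a f) x = tlI Y a (act X f) x :=
    (Filter.eventually_all_finset _).2 fun a _ => tlI_comm hY hX hc hf a
  filter_upwards [h1, h2, h0, hy.differentiableAt] with x h1 h2 h0 hy
  have dn : DifferentiableAt ℝ (fun x => - y x) x := hy.neg
  have d1 : ∀ a : ℕ, DifferentiableAt ℝ (fun x => (- y x) ^ a) x := fun a => dn.pow a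
  have d2 : ∀ a : ℕ, DifferentiableAt ℝ (fun x => (a.factorial : ℂ)⁻¹ * (- y x) ^ a) x :=
    fun a => (differentiableAt_const _).mul (d1 a)
  have hp : ∀ a : ℕ, act X (fun x => (- y x) ^ a) x = 0 := by
    intro a
    induction a with
    | zero => simpa using act_const X 1 x
    | succ a ih =>
      have e : (fun x => (- y x) ^ (a + 1)) = fun x => (- y x) ^ a * (- y x) := by
        funext z; rw [pow_succ]
      rw [e, act_mul (d1 a) dn, ih, act_neg, h0]
      simp
  show act X (fun x => ∑ a ∈ range (N + 1), ((a.factorial : ℂ)⁻¹ * (- y x) ^ a) * tlI Y a f x) x = _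
  have d3 : ∀ a ∈ range (N + 1), DifferentiableAt ℝ
      (fun x => ((a.factorial : ℂ)⁻¹ * (- y x) ^ a) * tlI Y a f x) x :=
    fun a ha => (d2 a).mul (h1 a ha)
  rw [act_sum (f := fun a x => ((a.factorial : ℂ)⁻¹ * (- y x) ^ a) * tlI Y a f x) d3]
  show _ = ∑ a ∈ range (N + 1), ((a.factorial : ℂ)⁻¹ * (- y x) ^ a) * tlI Y a (act X f) x
  refine Finset.sum_congr rfl fun a ha => ?_
  rw [act_mul (d2 a) (h1 a ha), act_mul (differentiableAt_const _) (d1 a), act_const, hp,
    h2 a ha]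
  simp

lemma tlP_eq {Y : CVF d} {y : CF d} {f : CF d} (N : ℕ) (x : E d) :
    tlP Y y N f x = f x + y x * (∑ a ∈ range N,
      (- (((a + 1).factorial : ℂ)⁻¹ * (- y x) ^ a)) * tlI Y (a + 1) f x) := by
  simp only [tlP]
  rw [Finset.sum_range_succ', Finset.mul_sum, add_comm]
  congr 1
  · simp [tlI]
  · refine Finset.sum_congr rfl fun a _ => ?_
    rw [pow_succ]; ring

end telescopeJB1

/-- JB1 -/
theorem telescope {d r : ℕ} {p : E d} (Y : Fin r → CVF d) (y : Fin r → CF d)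
    (hY : ∀ i, Sm p (Y i)) (hy : ∀ i, Sm p (y i)) (hy0 : ∀ i, y i p = 0)
    (hdual : ∀ i j, ∀ᶠ x in 𝓝 p, act (Y i) (y j) x = if i = j then 1 else 0)
    (hcomm : ∀ i j, ∀ᶠ x in 𝓝 p, lieBr (Y i) (Y j) x = 0)
    (N : ℕ) (f : CF d) (hf : Sm p f) :
    ∃ (F : CF d) (G : Fin r → CF d), Sm p F ∧ (∀ i, Sm p (G i)) ∧
      (∀ᶠ x in 𝓝 p, F x = f x + ∑ j, y j x * G j x) ∧
      (∀ j, Van p N (act (Y j) F)) := by
  classical
  have key : ∀ s : Finset (Fin r), ∃ (F : CF d) (G : Fin r → CF d), Sm p F ∧ (∀ i, Sm p (G i)) ∧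
      (∀ᶠ x in 𝓝 p, F x = f x + ∑ j ∈ s, y j x * G j x) ∧
      (∀ j ∈ s, Van p N (act (Y j) F)) := by
    intro s
    induction s using Finset.induction_on with
    | empty => exact ⟨f, fun _ _ => 0, hf, fun _ => Sm.const 0, by simp, by simp⟩
    | insert i s his ih =>
      obtain ⟨F, G, hF, hG, hFG, hV⟩ := ih
      have hyi : Van p 1 (y i) := ⟨hy i, hy0 i, fun k => (hy i).pd k⟩
      refine ⟨tlP (Y i) (y i) N F, Function.update G i (fun x => ∑ a ∈ range N,
        (- (((a + 1).factorial : ℂ)⁻¹ * (- y i x) ^ a)) * tlI (Y i) (a + 1) F x),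
        (hY i).tlP (hy i) hF N, ?_, ?_, ?_⟩
      · intro k
        by_cases hk : k = i
        · subst hk
          rw [Function.update_self]
          exact Sm.sum fun a _ =>
            (((Sm.const _).mul ((hy k).neg.pow a)).neg).mul ((hY k).tlI hF (a + 1))
        · rw [Function.update_of_ne hk]; exact hG k
      · filter_upwards [hFG] with x hx
        rw [tlP_eq, hx, Finset.sum_insert his, Function.update_self]
        have : ∑ j ∈ s, y j x * Function.update G i (fun x => ∑ a ∈ range N,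
            (- (((a + 1).factorial : ℂ)⁻¹ * (- y i x) ^ a)) * tlI (Y i) (a + 1) F x) j x
            = ∑ j ∈ s, y j x * G j x := by
          refine Finset.sum_congr rfl fun j hj => ?_
          have hne : j ≠ i := by
            intro h
            rw [h] at hj
            exact his hj
          rw [Function.update_of_ne hne]
        rw [this]; ring
      · intro j hj
        by_cases hji : j = i
        · subst hji
          have h1 : ∀ᶠ x in 𝓝 p, act (Y j) (y j) x = 1 := by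
            filter_upwards [hdual j j] with x hx
            simpa using hx
          refine Van.congr ?_ (act_tlP (hY j) (hy j) h1 hF N)
          exact (Van.sm_mul (Sm.const _) (hyi.pow_neg N)).mul_sm ((hY j).tlI hF (N + 1))
        · have hjs : j ∈ s := by
            rcases Finset.mem_insert.1 hj with h | h
            · exact absurd h hji
            · exact h
          have h0 : ∀ᶠ x in 𝓝 p, act (Y j) (y i) x = 0 := by
            filter_upwards [hdual j i] with x hx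
            simpa [hji] using hx
          refine Van.congr ?_ (act_tlP_other (hY i) (hY j) (hy i) h0 (hcomm j i) hF N)
          exact Van.tlP (hY i) hyi (hV j hjs)
  obtain ⟨F, G, h1, h2, h3, h4⟩ := key Finset.univ
  exact ⟨F, G, h1, h2, h3, fun j => h4 j (Finset.mem_univ j)⟩


end DAng
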