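import Pool.Agent.DAng.EmbDefs
import Pool.Agent.DAng.Tele

open scoped ContDiff Topology BigOperators
open Finset Asymptotics

namespace DAng


lemma jb2_sm_det {d n : ℕ} {p : E d} {A : E d → Matrix (Fin n) (Fin n) ℂ}
    (h : ∀ i j, Sm p (fun x => A x i j)) : Sm p (fun x => (A x).det) := by
  have e : (fun x => (A x).det) = fun x => ∑ σ : Equiv.Perm (Fin n),
      ((Equiv.Perm.sign σ : ℤ) : ℂ) * ∏ i, A x (σ i) i := by
    funext x
    rw [Matrix.det_apply']
  rw [e]
  exact Sm.sum fun σ _ => (Sm.const _).mul (Sm.prod fun i _ => h _ _)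

lemma jb2_sm_adj {d n : ℕ} {p : E d} {A : E d → Matrix (Fin n) (Fin n) ℂ}
    (h : ∀ i j, Sm p (fun x => A x i j)) (i j : Fin n) :
    Sm p (fun x => (A x).adjugate i j) := by
  have e : (fun x => (A x).adjugate i j) =
      fun x => ((A x).updateRow j (Pi.single i 1)).det := by
    funext x
    rw [Matrix.adjugate_apply]
  rw [e]
  refine jb2_sm_det fun a b => ?_
  by_cases hab : a = j
  · subst hab
    simp only [Matrix.updateRow_self]
    exact Sm.const _
  · simp only [Matrix.updateRow_ne hab]
    exact h a b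

/-- JB2 -/
theorem poly_approx {d : ℕ} {p : E d} (y : Fin d → CF d) (hy : ∀ i, Sm p (y i))
    (hy0 : ∀ i, y i p = 0)
    (hind : LinearIndependent ℂ (fun i : Fin d => fun j : Fin d => pd j (y i) p))
    (N : ℕ) (f : CF d) (hf : Sm p f) :
    ∃ Q : MvPolynomial (Fin d) ℂ, Van p N (fun x => f x - MvPolynomial.eval (fun i => y i x) Q) := by
  classical
  let M : E d → Matrix (Fin d) (Fin d) ℂ := fun x => Matrix.of fun i j => pd j (y i) x
  have hMs : ∀ i j, Sm p (fun x => M x i j) := fun i j => (hy i).pd j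
  have hdet : Sm p (fun x => (M x).det) := jb2_sm_det hMs
  have hdet0 : (M p).det ≠ 0 := by
    have h1 : LinearIndependent ℂ (M p).row := hind
    have h2 := Matrix.linearIndependent_rows_iff_isUnit.1 h1
    exact ((Matrix.isUnit_iff_isUnit_det _).1 h2).ne_zero
  have hdetne : ∀ᶠ x in 𝓝 p, (M x).det ≠ 0 := hdet.continuousAt.eventually_ne hdet0
  let Mi : E d → Matrix (Fin d) (Fin d) ℂ := fun x =>
    Matrix.of fun i j => (M x).det⁻¹ * (M x).adjugate i j
  have hMi : ∀ x, (M x).det ≠ 0 → M x * Mi x = 1 ∧ Mi x * M x = 1 := by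
    intro x hx
    have e : Mi x = (M x).det⁻¹ • (M x).adjugate := by
      ext i j; simp [Mi, Matrix.smul_apply]
    rw [e, Matrix.mul_smul, Matrix.smul_mul, Matrix.mul_adjugate, Matrix.adjugate_mul, smul_smul,
      inv_mul_cancel₀ hx, one_smul]
    exact ⟨rfl, rfl⟩
  let Y : Fin d → CVF d := fun i x j => Mi x j i
  have hY : ∀ i, Sm p (Y i) := fun i => Sm.of_apply fun j =>
    (hdet.inv hdet0).mul (jb2_sm_adj hMs j i)
  have hdual0 : ∀ i j x, (M x).det ≠ 0 → act (Y i) (y j) x = if i = j then 1 else 0 := by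
    intro i j x hx
    have h1 := congrFun (congrFun (hMi x hx).1 j) i
    rw [Matrix.mul_apply, Matrix.one_apply] at h1
    simp only [act]
    have h2 : ∑ l, Y i x l * pd l (y j) x = ∑ l, M x j l * Mi x l i :=
      Finset.sum_congr rfl fun l _ => mul_comm _ _
    rw [h2, h1]
    by_cases h : i = j
    · subst h; simp
    · rw [if_neg h, if_neg (Ne.symm h)]
  have hdual : ∀ i j, ∀ᶠ x in 𝓝 p, act (Y i) (y j) x = if i = j then 1 else 0 := by
    intro i j
    filter_upwards [hdetne] with x hx using hdual0 i j x hx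
  have hcomm : ∀ i j, ∀ᶠ x in 𝓝 p, lieBr (Y i) (Y j) x = 0 := by
    intro i j
    have h1 : ∀ k, ∀ᶠ x in 𝓝 p, act (lieBr (Y i) (Y j)) (y k) x = 0 := by
      intro k
      have ha : act (Y i) (act (Y j) (y k)) =ᶠ[𝓝 p] act (Y i) (fun _ => if j = k then 1 else 0) :=
        act_congr (Filter.EventuallyEq.refl _ _) (hdual j k)
      have hb : act (Y j) (act (Y i) (y k)) =ᶠ[𝓝 p] act (Y j) (fun _ => if i = k then 1 else 0) :=
        act_congr (Filter.EventuallyEq.refl _ _) (hdual i k)
      have hc : ∀ᶠ x in 𝓝 p, ∀ l, DifferentiableAt ℝ (fun z => Y i z l) x :=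
        Filter.eventually_all.2 fun l => ((hY i).comp_apply l).differentiableAt
      have hd : ∀ᶠ x in 𝓝 p, ∀ l, DifferentiableAt ℝ (fun z => Y j z l) x :=
        Filter.eventually_all.2 fun l => ((hY j).comp_apply l).differentiableAt
      filter_upwards [ha, hb, hc, hd, hy k] with x ha hb hc hd hk
      rw [act_lieBr hc hd hk, ha, hb, act_const, act_const, sub_zero]
    have h2 : ∀ᶠ x in 𝓝 p, ∀ k, act (lieBr (Y i) (Y j)) (y k) x = 0 := Filter.eventually_all.2 h1
    filter_upwards [h2, hdetne] with x hx hdx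
    have h3 : (M x).mulVec (lieBr (Y i) (Y j) x) = 0 := by
      funext k
      have := hx k
      simp only [act] at this
      simp only [Matrix.mulVec, dotProduct, Pi.zero_apply]
      rw [← this]
      exact Finset.sum_congr rfl fun l _ => mul_comm _ _
    have h4 : (Mi x).mulVec ((M x).mulVec (lieBr (Y i) (Y j) x)) = lieBr (Y i) (Y j) x := by
      rw [Matrix.mulVec_mulVec, (hMi x hdx).2, Matrix.one_mulVec]
    rw [← h4, h3, Matrix.mulVec_zero]
  -- partial derivatives in terms of the frame
  have hpd : ∀ (F : CF d) (l : Fin d), ∀ᶠ x in 𝓝 p,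
      pd l F x = ∑ i, pd l (y i) x * act (Y i) F x := by
    intro F l
    filter_upwards [hdetne] with x hx
    have h1 : ∀ j, ∑ i, Mi x j i * M x i l = if j = l then 1 else 0 := by
      intro j
      have h1 := congrFun (congrFun (hMi x hx).2 j) l
      rw [Matrix.mul_apply, Matrix.one_apply] at h1
      exact h1
    have h2 : ∑ i, pd l (y i) x * act (Y i) F x = ∑ j, (∑ i, Mi x j i * M x i l) * pd j F x := by
      simp only [act, Finset.mul_sum, Finset.sum_mul]
      rw [Finset.sum_comm]
      refine Finset.sum_congr rfl fun j _ => Finset.sum_congr rfl fun i _ => ?_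
      show pd l (y i) x * (Mi x j i * pd j F x) = Mi x j i * pd l (y i) x * pd j F x
      ring
    rw [h2]
    simp only [h1, ite_mul, one_mul, zero_mul]
    rw [Finset.sum_ite_eq' Finset.univ l]
    simp
  have hy1 : ∀ i, Van p 1 (y i) := fun i => ⟨hy i, hy0 i, fun j => (hy i).pd j⟩
  induction N generalizing f with
  | zero =>
    refine ⟨0, ?_⟩
    show Sm p _
    refine hf.congr ?_
    filter_upwards with x
    simp
  | succ N ih =>
    obtain ⟨F, G, hF, hG, hFG, hYF⟩ := telescope Y y hY hy hy0 hdual hcomm N f hf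
    choose Q hQ using fun j => ih (G j) (hG j)
    have hpF : ∀ l, Van p N (pd l F) := fun l =>
      (Van.sum fun i _ => Van.sm_mul ((hy i).pd l) (hYF i)).congr (hpd F l)
    have hF1 : Van p (N + 1) (fun x => F x - F p) := by
      refine ⟨hF.sub (Sm.const _), sub_self _, fun l => ?_⟩
      refine (hpF l).congr ?_
      filter_upwards [hF.differentiableAt] with x hx
      rw [pd_sub hx (differentiableAt_const _), pd_const, sub_zero]
    have hprod : ∀ j, Van p (N + 1) (fun x => y j x * (G j x - MvPolynomial.eval (fun i => y i x) (Q j))) := by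
      intro j
      have := (hy1 j).mul (hQ j)
      rwa [add_comm 1 N] at this
    refine ⟨MvPolynomial.C (F p) - ∑ j, MvPolynomial.X j * Q j, ?_⟩
    refine (hF1.sub (Van.sum fun j (_ : j ∈ Finset.univ) => hprod j)).congr ?_
    filter_upwards [hFG] with x hx
    simp only [map_sub, map_sum, map_mul, MvPolynomial.eval_C, MvPolynomial.eval_X, mul_sub,
      Finset.sum_sub_distrib]
    rw [hx]
    ring


end DAng
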