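import Pool.Agent.DAng.EmbDefs
import Pool.Agent.DAng.Tele
import Pool.Agent.DAng.PolyA
import Pool.Agent.DAng.LeviId

open scoped ContDiff Topology BigOperators
open Finset Asymptotics

namespace DAng


namespace EmbAux

/-! #### polynomials -/

/-- chain rule for polynomials in smooth functions -/
lemma ea_pd_eval {σ : Type*} [Fintype σ] [DecidableEq σ] {d : ℕ} (y : σ → CF d) (x : E d)
    (hy : ∀ k, DifferentiableAt ℝ (y k) x) (P : MvPolynomial σ ℂ) (l : Fin d) :
    DifferentiableAt ℝ (fun x => MvPolynomial.eval (fun k => y k x) P) x ∧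
      pd l (fun x => MvPolynomial.eval (fun k => y k x) P) x =
        ∑ k, MvPolynomial.eval (fun k => y k x) (MvPolynomial.pderiv k P) * pd l (y k) x := by
  induction P using MvPolynomial.induction_on with
  | C a =>
    simp only [MvPolynomial.eval_C, MvPolynomial.pderiv_C, map_zero, zero_mul,
      Finset.sum_const_zero]
    exact ⟨differentiableAt_const a, pd_const a x l⟩
  | add P Q hP hQ =>
    simp only [map_add]
    refine ⟨hP.1.add hQ.1, ?_⟩
    rw [pd_add hP.1 hQ.1, hP.2, hQ.2, ← Finset.sum_add_distrib]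
    exact Finset.sum_congr rfl fun k _ => by ring
  | mul_X P i hP =>
    simp only [map_mul, MvPolynomial.eval_X]
    refine ⟨hP.1.mul (hy i), ?_⟩
    rw [pd_mul hP.1 (hy i), hP.2]
    simp only [Derivation.leibniz, smul_eq_mul, map_add, map_mul, MvPolynomial.eval_X,
      MvPolynomial.pderiv_X]
    simp only [add_mul, Finset.sum_add_distrib]
    congr 1
    · rw [Finset.sum_eq_single i]
      · simp
      · intro b _ hb
        simp [hb.symm]
      · simp
    · rw [Finset.sum_mul]
      exact Finset.sum_congr rfl fun k _ => by ring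

/-- algebraic chain rule -/
lemma ea_pderiv_aeval {σ ι : Type*} [Fintype ι] [DecidableEq ι] [DecidableEq σ]
    (g : ι → MvPolynomial σ ℂ)
    (P : MvPolynomial ι ℂ) (s : σ) :
    MvPolynomial.pderiv s (MvPolynomial.aeval g P) =
      ∑ k, MvPolynomial.aeval g (MvPolynomial.pderiv k P) * MvPolynomial.pderiv s (g k) := by
  induction P using MvPolynomial.induction_on with
  | C a =>
    have : MvPolynomial.aeval g (MvPolynomial.C a) = (MvPolynomial.C a : MvPolynomial σ ℂ) := by
      simp [MvPolynomial.algebraMap_eq]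
    rw [this]
    simp
  | add P Q hP hQ =>
    simp only [map_add, hP, hQ, add_mul, Finset.sum_add_distrib]
  | mul_X P i hP =>
    simp only [map_mul, MvPolynomial.aeval_X, Derivation.leibniz, smul_eq_mul, map_add,
      MvPolynomial.pderiv_X, hP]
    simp only [add_mul, Finset.sum_add_distrib]
    congr 1
    · rw [Finset.sum_eq_single i]
      · simp
      · intro b _ hb
        simp [hb.symm]
      · simp
    · rw [Finset.mul_sum]
      exact Finset.sum_congr rfl fun k _ => by ring

lemma ea_eval_aeval {σ ι : Type*} (g : ι → MvPolynomial σ ℂ) (P : MvPolynomial ι ℂ)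
    (z : σ → ℂ) :
    MvPolynomial.eval z (MvPolynomial.aeval g P) =
      MvPolynomial.eval (fun k => MvPolynomial.eval z (g k)) P := by
  induction P using MvPolynomial.induction_on with
  | C a =>
    have : MvPolynomial.aeval g (MvPolynomial.C a) = (MvPolynomial.C a : MvPolynomial σ ℂ) := by
      simp [MvPolynomial.algebraMap_eq]
    rw [this]; simp
  | add P Q hP hQ => simp only [map_add, hP, hQ]
  | mul_X P i hP => simp only [map_mul, MvPolynomial.aeval_X, MvPolynomial.eval_X, hP]

/-- conjugate polynomial -/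
noncomputable def ea_star {m : ℕ} (P : Pol m) : Pol m :=
  MvPolynomial.rename Sum.swap (MvPolynomial.map (starRingEnd ℂ) P)

lemma ea_star_add {m : ℕ} (P Q : Pol m) : ea_star (P + Q) = ea_star P + ea_star Q := by
  simp [ea_star]

lemma ea_star_mul {m : ℕ} (P Q : Pol m) : ea_star (P * Q) = ea_star P * ea_star Q := by
  simp [ea_star]

lemma ea_star_C {m : ℕ} (a : ℂ) : ea_star (MvPolynomial.C a : Pol m) =
    MvPolynomial.C ((starRingEnd ℂ) a) := by
  simp [ea_star]

lemma ea_star_star {m : ℕ} (P : Pol m) : ea_star (ea_star P) = P := by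
  unfold ea_star
  rw [MvPolynomial.map_rename, MvPolynomial.rename_rename, MvPolynomial.map_map]
  have h1 : (Sum.swap ∘ Sum.swap : Fin m ⊕ Fin m → Fin m ⊕ Fin m) = id := by
    funext x; simp
  have h2 : (starRingEnd ℂ).comp (starRingEnd ℂ) = RingHom.id ℂ := by
    ext x; simp
  rw [h1, h2, MvPolynomial.map_id, MvPolynomial.rename_id_apply]

lemma ea_peval_star {m : ℕ} (P : Pol m) (z : Fin m → ℂ) :
    peval (ea_star P) z = (starRingEnd ℂ) (peval P z) := by
  induction P using MvPolynomial.induction_on with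
  | C a => rw [ea_star_C]; simp [peval]
  | add P Q hP hQ =>
    rw [ea_star_add]
    simp only [peval, map_add] at *
    rw [hP, hQ]
  | mul_X P i hP =>
    rw [ea_star_mul]
    simp only [peval, map_mul] at *
    rw [hP]
    congr 1
    rcases i with i | i <;> simp [ea_star]

lemma ea_star_pderiv_inl {m : ℕ} (P : Pol m) (j : Fin m) :
    MvPolynomial.pderiv (Sum.inl j) (ea_star P) = ea_star (MvPolynomial.pderiv (Sum.inr j) P) := by
  unfold ea_star
  have h : (Sum.inl j : Fin m ⊕ Fin m) = Sum.swap (Sum.inr j) := rfl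
  rw [h, MvPolynomial.pderiv_rename (Sum.swap_leftInverse.injective), MvPolynomial.pderiv_map]

/-! #### linear algebra -/

section lin
variable {n : ℕ} {p : E (2 * n + 1)}

lemma ea_conj_sum {d : ℕ} (c w : Fin d → ℂ) :
    ∑ l, (starRingEnd ℂ) (c l) * w l = (starRingEnd ℂ) (∑ l, c l * (starRingEnd ℂ) (w l)) := by
  rw [map_sum]
  exact Finset.sum_congr rfl fun l _ => by simp

/-- dual basis -/
lemma ea_dual (C : LCR n p) : ∃ (s : Fin n → Fin (2 * n + 1) → ℂ) (T : Fin (2 * n + 1) → ℝ),
    (∑ l, C.η p l * T l = 1) ∧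
    (∀ j k, ∑ l, s j l * C.K k p l = if j = k then 1 else 0) ∧
    (∀ j k, ∑ l, s j l * (starRingEnd ℂ) (C.K k p l) = 0) ∧
    (∀ j, ∑ l, s j l * (T l : ℂ) = 0) ∧
    (∀ w : Fin (2 * n + 1) → ℂ, (∀ j, ∑ l, s j l * w l = 0) →
      (∀ j, ∑ l, (starRingEnd ℂ) (s j l) * w l = 0) → (∑ l, (C.η p l : ℂ) * w l = 0) → w = 0) := by
  classical
  have hηK : ∀ j, ∑ l, (C.η p l : ℂ) * C.K j p l = 0 := fun j => (C.ann j).self_of_nhds
  have hηKb : ∀ j, ∑ l, (C.η p l : ℂ) * (starRingEnd ℂ) (C.K j p l) = 0 := by
    intro j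
    have := congrArg (starRingEnd ℂ) (hηK j)
    rw [map_sum, map_zero] at this
    rw [← this]
    exact Finset.sum_congr rfl fun l _ => by simp
  -- the vector T
  obtain ⟨T, hT⟩ : ∃ T : Fin (2 * n + 1) → ℝ, ∑ l, C.η p l * T l = 1 := by
    obtain ⟨i, hi⟩ := Function.ne_iff.1 C.ne
    refine ⟨Pi.single i (C.η p i)⁻¹, ?_⟩
    rw [Finset.sum_eq_single i]
    · rw [Pi.single_eq_same]
      exact mul_inv_cancel₀ hi
    · intro b _ hb
      rw [Pi.single_eq_of_ne hb, mul_zero]
    · simp
  have hTC : ∑ l, (C.η p l : ℂ) * (T l : ℂ) = 1 := by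
    rw [← Complex.ofReal_one, ← hT]
    push_cast
    rfl
  let v : (Fin n ⊕ Fin n) ⊕ Unit → Fin (2 * n + 1) → ℂ :=
    Sum.elim (Sum.elim (fun j => C.K j p) (fun j => cjVF (C.K j) p)) (fun _ l => (T l : ℂ))
  let ηf : (Fin (2 * n + 1) → ℂ) →ₗ[ℂ] ℂ :=
    ∑ l, (C.η p l : ℂ) • (LinearMap.proj l : (Fin (2 * n + 1) → ℂ) →ₗ[ℂ] ℂ)
  have hηf : ∀ w, ηf w = ∑ l, (C.η p l : ℂ) * w l := by
    intro w
    simp [ηf]
  have hv : LinearIndependent ℂ v := by
    rw [Fintype.linearIndependent_iff]
    intro g hg
    rw [Fintype.sum_sum_type] at hg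
    have h1 : g (Sum.inr ()) = 0 := by
      have h2 := congrArg ηf hg
      rw [map_add, map_sum, map_sum, map_zero] at h2
      have h3 : ∀ a : Fin n ⊕ Fin n, ηf (g (Sum.inl a) • v (Sum.inl a)) = 0 := by
        intro a
        rw [map_smul, hηf]
        rcases a with a | a
        · have := hηK a
          simp only [v, Sum.elim_inl]
          rw [this, smul_zero]
        · have := hηKb a
          simp only [v, Sum.elim_inl, Sum.elim_inr, cjVF]
          rw [this, smul_zero]
      simp only [h3, Finset.sum_const_zero, zero_add] at h2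
      rw [Fintype.sum_unique] at h2
      rw [map_smul, hηf] at h2
      simp only [v, Sum.elim_inr] at h2
      rw [hTC, smul_eq_mul, mul_one] at h2
      exact h2
    have h4 : ∑ a, g (Sum.inl a) • v (Sum.inl a) = 0 := by
      have hu : ∑ a₂ : Unit, g (Sum.inr a₂) • v (Sum.inr a₂) =
          g (Sum.inr ()) • v (Sum.inr ()) := by simp
      rw [hu, h1, zero_smul, add_zero] at hg
      exact hg
    have h5 := Fintype.linearIndependent_iff.1 C.indep (fun a => g (Sum.inl a)) h4
    rintro (a | a)
    · exact h5 a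
    · exact h1
  have hcard : Fintype.card ((Fin n ⊕ Fin n) ⊕ Unit) = Module.finrank ℂ (Fin (2 * n + 1) → ℂ) := by
    simp; ring
  let b := basisOfLinearIndependentOfCardEqFinrank hv hcard
  have hb : ∀ a, b a = v a := fun a => by simp [b]
  -- coefficients
  have hlin : ∀ (φ : (Fin (2 * n + 1) → ℂ) →ₗ[ℂ] ℂ) (w : Fin (2 * n + 1) → ℂ),
      φ w = ∑ l, φ (Pi.single l 1) * w l := by
    intro φ w
    conv_lhs => rw [← Finset.univ_sum_single w]
    rw [map_sum]
    refine Finset.sum_congr rfl fun i _ => ?_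
    have : (Pi.single i (w i) : Fin (2 * n + 1) → ℂ) = (w i) • Pi.single i (1 : ℂ) := by
      ext j; by_cases hj : j = i
      · subst hj; simp
      · simp [hj]
    rw [this, map_smul, smul_eq_mul, mul_comm]
  let s : Fin n → Fin (2 * n + 1) → ℂ := fun j l => b.coord (Sum.inl (Sum.inl j)) (Pi.single l 1)
  have hs : ∀ j w, ∑ l, s j l * w l = b.coord (Sum.inl (Sum.inl j)) w := fun j w =>
    (hlin _ w).symm
  have hsb : ∀ j a, ∑ l, s j l * v a l = if a = Sum.inl (Sum.inl j) then 1 else 0 := by
    intro j a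
    rw [hs, ← hb, Module.Basis.coord_apply, Module.Basis.repr_self, Finsupp.single_apply]
  refine ⟨s, T, hT, ?_, ?_, ?_, ?_⟩
  · intro j k
    have := hsb j (Sum.inl (Sum.inl k))
    simp only [v, Sum.elim_inl] at this
    rw [this]
    simp only [Sum.inl.injEq]
    by_cases h : j = k
    · rw [if_pos h, if_pos h.symm]
    · rw [if_neg h, if_neg (Ne.symm h)]
  · intro j k
    have := hsb j (Sum.inl (Sum.inr k))
    simpa [v, cjVF] using this
  · intro j
    have := hsb j (Sum.inr ())
    simpa [v] using this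
  · intro w h1 h2 h3
    have hw := b.sum_repr w
    have c1 : ∀ j, b.repr w (Sum.inl (Sum.inl j)) = 0 := by
      intro j
      rw [← Module.Basis.coord_apply, ← hs]
      exact h1 j
    have c2 : ∀ j, b.repr w (Sum.inl (Sum.inr j)) = 0 := by
      intro j
      have h4 := h2 j
      rw [← hw] at h4
      have h5 : ∀ a, ∑ l, (starRingEnd ℂ) (s j l) * v a l =
          if a = Sum.inl (Sum.inr j) then 1 else 0 := by
        intro a
        rw [ea_conj_sum]
        rcases a with (a | a) | a
        · have : ∑ l, s j l * (starRingEnd ℂ) (v (Sum.inl (Sum.inl a)) l) =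
              ∑ l, s j l * v (Sum.inl (Sum.inr a)) l := rfl
          rw [this, hsb]
          simp
        · have : ∑ l, s j l * (starRingEnd ℂ) (v (Sum.inl (Sum.inr a)) l) =
              ∑ l, s j l * v (Sum.inl (Sum.inl a)) l :=
            Finset.sum_congr rfl fun l _ => by simp [v, cjVF]
          rw [this, hsb]
          simp
        · have : ∑ l, s j l * (starRingEnd ℂ) (v (Sum.inr a) l) =
              ∑ l, s j l * v (Sum.inr a) l :=
            Finset.sum_congr rfl fun l _ => by simp [v]
          rw [this, hsb]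
          simp
      have h6 : ∑ l, (starRingEnd ℂ) (s j l) * (∑ a, b.repr w a • b a) l =
          ∑ a, b.repr w a * ∑ l, (starRingEnd ℂ) (s j l) * v a l := by
        simp only [Finset.sum_apply, Pi.smul_apply, smul_eq_mul, Finset.mul_sum, hb]
        rw [Finset.sum_comm]
        refine Finset.sum_congr rfl fun a _ => Finset.sum_congr rfl fun l _ => by ring
      rw [h6] at h4
      simp only [h5] at h4
      simpa using h4
    have c3 : b.repr w (Sum.inr ()) = 0 := by
      have h4 := h3
      rw [← hw, ← hηf, map_sum] at h4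
      rw [Fintype.sum_sum_type, Fintype.sum_sum_type] at h4
      simp only [c1, c2, zero_smul, map_zero, Finset.sum_const_zero, zero_add] at h4
      rw [Fintype.sum_unique, map_smul, hb, hηf] at h4
      simp only [v, Sum.elim_inr] at h4
      rw [hTC, smul_eq_mul, mul_one] at h4
      exact h4
    rw [← hw]
    apply Finset.sum_eq_zero
    rintro ((a | a) | a) _
    · rw [c1, zero_smul]
    · rw [c2, zero_smul]
    · rw [c3, zero_smul]

end lin

end EmbAux


namespace EmbAux

section frame

/-- affine function -/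
noncomputable def ea_aff {d : ℕ} (p : E d) (c : Fin d → ℂ) : CF d :=
  fun x => ∑ l, c l * ((x l - p l : ℝ) : ℂ)

lemma ea_aff_hasFDerivAt {d : ℕ} (p : E d) (c : Fin d → ℂ) (x : E d) :
    HasFDerivAt (ea_aff p c) (∑ l, c l • Complex.ofRealCLM.comp
      (ContinuousLinearMap.proj (R := ℝ) (φ := fun _ : Fin d => ℝ) l)) x := by
  unfold ea_aff
  refine HasFDerivAt.fun_sum fun l _ => ?_
  have h1 : HasFDerivAt (fun x : E d => x l - p l)
      (ContinuousLinearMap.proj (R := ℝ) (φ := fun _ : Fin d => ℝ) l) x :=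
    (ContinuousLinearMap.proj (R := ℝ) (φ := fun _ : Fin d => ℝ) l).hasFDerivAt.sub_const _
  have h2 := (Complex.ofRealCLM.hasFDerivAt (x := x l - p l)).comp x h1
  exact h2.const_mul (c l)

lemma ea_aff_contDiff {d : ℕ} (p : E d) (c : Fin d → ℂ) : ContDiff ℝ ∞ (ea_aff p c) := by
  unfold ea_aff
  refine ContDiff.sum fun l _ => ?_
  refine contDiff_const.mul ?_
  exact Complex.ofRealCLM.contDiff.comp ((contDiff_apply ℝ ℝ l).sub contDiff_const)

lemma ea_aff_sm {d : ℕ} (p : E d) (c : Fin d → ℂ) : Sm p (ea_aff p c) :=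
  Filter.Eventually.of_forall fun x => (ea_aff_contDiff p c).contDiffAt

lemma ea_aff_self {d : ℕ} (p : E d) (c : Fin d → ℂ) : ea_aff p c p = 0 := by
  simp [ea_aff]

lemma ea_aff_pd {d : ℕ} (p : E d) (c : Fin d → ℂ) (x : E d) (l : Fin d) :
    pd l (ea_aff p c) x = c l := by
  unfold pd
  rw [(ea_aff_hasFDerivAt p c x).fderiv]
  simp only [ContinuousLinearMap.sum_apply, ContinuousLinearMap.smul_apply,
    ContinuousLinearMap.comp_apply, ContinuousLinearMap.proj_apply, smul_eq_mul,
    Complex.ofRealCLM_apply]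
  rw [Finset.sum_eq_single l]
  · simp
  · intro b _ hb
    simp [hb]
  · simp

lemma ea_aff_act {d : ℕ} (p : E d) (c : Fin d → ℂ) (X : CVF d) (x : E d) :
    act X (ea_aff p c) x = ∑ l, X x l * c l := by
  simp [act, ea_aff_pd]

lemma ea_sm_det {d k : ℕ} {p : E d} (M : E d → Matrix (Fin k) (Fin k) ℂ)
    (h : ∀ i j, Sm p (fun x => M x i j)) : Sm p (fun x => (M x).det) := by
  simp only [Matrix.det_apply']
  exact Sm.sum fun σ _ => (Sm.const _).mul (Sm.prod fun i _ => h _ _)

lemma ea_sm_inv {d k : ℕ} {p : E d} (M : E d → Matrix (Fin k) (Fin k) ℂ)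
    (h : ∀ i j, Sm p (fun x => M x i j)) (hd : (M p).det ≠ 0) (i j : Fin k) :
    Sm p (fun x => (M x)⁻¹ i j) := by
  have h1 : (fun x => (M x)⁻¹ i j) = fun x => ((M x).det)⁻¹ * (M x).adjugate i j := by
    funext x
    rw [Matrix.inv_def, Ring.inverse_eq_inv']
    rfl
  rw [h1]
  refine ((ea_sm_det M h).inv hd).mul ?_
  simp only [Matrix.adjugate_apply]
  refine ea_sm_det _ ?_
  intro a b
  by_cases hab : a = j
  · subst hab
    simp only [Matrix.updateRow_self]
    exact Sm.const _
  · simp only [Matrix.updateRow_ne hab]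
    exact h a b

lemma ea_act_comb {d n : ℕ} (V : Fin n → CVF d) (α : Fin n → CF d) (g : CF d) (x : E d) :
    act (fun y l => ∑ a, α a y * V a y l) g x = ∑ a, α a x * act (V a) g x := by
  simp only [act, Finset.sum_mul, Finset.mul_sum]
  rw [Finset.sum_comm]
  exact Finset.sum_congr rfl fun a _ => Finset.sum_congr rfl fun l _ => by ring

lemma ea_lie_comb {d n : ℕ} (V : Fin n → CVF d) (α β : Fin n → CF d) (x : E d)
    (hV : ∀ a l, DifferentiableAt ℝ (fun y => V a y l) x)
    (hα : ∀ a, DifferentiableAt ℝ (α a) x) (hβ : ∀ a, DifferentiableAt ℝ (β a) x) :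
    lieBr (fun y l => ∑ a, α a y * V a y l) (fun y l => ∑ a, β a y * V a y l) x =
      (∑ a, ∑ b, (α a x * β b x) • lieBr (V a) (V b) x) +
      ∑ b, (act (fun y l => ∑ a, α a y * V a y l) (β b) x) • V b x -
      ∑ a, (act (fun y l => ∑ a, β a y * V a y l) (α a) x) • V a x := by
  funext l
  have h1 : ∀ (X : CVF d) (γ : Fin n → CF d), (∀ a, DifferentiableAt ℝ (γ a) x) →
      act X (fun y => ∑ b, γ b y * V b y l) x =
        ∑ b, (γ b x * act X (fun y => V b y l) x + act X (γ b) x * V b x l) := by
    intro X γ hγ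
    have := act_sum (X := X) (s := Finset.univ) (f := fun b y => γ b y * V b y l) (x := x)
      (fun b _ => (hγ b).mul (hV b l))
    rw [this]
    exact Finset.sum_congr rfl fun b _ => act_mul (hγ b) (hV b l)
  simp only [lieBr, Pi.add_apply, Pi.sub_apply, Finset.sum_apply, Pi.smul_apply, smul_eq_mul]
  rw [h1 _ β hβ, h1 _ α hα]
  simp only [Finset.sum_add_distrib]
  have h2 : ∑ b, β b x * act (fun y l => ∑ a, α a y * V a y l) (fun y => V b y l) x -
      ∑ b, α b x * act (fun y l => ∑ a, β a y * V a y l) (fun y => V b y l) x =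
      ∑ a, ∑ b, α a x * β b x * (act (V a) (fun y => V b y l) x -
        act (V b) (fun y => V a y l) x) := by
    simp only [ea_act_comb, mul_sub, Finset.sum_sub_distrib, Finset.mul_sum]
    congr 1
    · rw [Finset.sum_comm]
      exact Finset.sum_congr rfl fun a _ => Finset.sum_congr rfl fun b _ => by ring
    · exact Finset.sum_congr rfl fun a _ => Finset.sum_congr rfl fun b _ => by ring
  rw [← h2]
  ring

lemma ea_cj_cj {d : ℕ} (X : CVF d) : cjVF (cjVF X) = X := by
  funext x l
  simp [cjVF]

lemma ea_lie_cj {d : ℕ} (X Y : CVF d) (x : E d) (hX : ∀ l, DifferentiableAt ℝ (fun y => X y l) x)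
    (hY : ∀ l, DifferentiableAt ℝ (fun y => Y y l) x) (l : Fin d) :
    lieBr (cjVF X) (cjVF Y) x l = (starRingEnd ℂ) (lieBr X Y x l) := by
  simp only [lieBr, map_sub]
  have h1 := act_conj (X := cjVF X) (hY l)
  have h2 := act_conj (X := cjVF Y) (hX l)
  rw [ea_cj_cj] at h1 h2
  rw [← h1, ← h2]
  rfl

variable {n : ℕ} {p : E (2 * n + 1)}

lemma ea_frame (C : LCR n p) (s : Fin n → Fin (2 * n + 1) → ℂ)
    (hs : ∀ j k, ∑ l, s j l * C.K k p l = if j = k then 1 else 0) :
    ∃ Y : Fin n → CVF (2 * n + 1), (∀ i, Sm p (Y i)) ∧ (∀ i, Y i p = cjVF (C.K i) p) ∧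
      (∀ i j, ∀ᶠ x in 𝓝 p, act (Y i) (ea_aff p (fun l => (starRingEnd ℂ) (s j l))) x =
        if i = j then 1 else 0) ∧
      (∀ i j, ∀ᶠ x in 𝓝 p, lieBr (Y i) (Y j) x = 0) ∧
      ∃ m : Fin n → Fin n → CF (2 * n + 1), (∀ i j, Sm p (m i j)) ∧
        (∀ i, ∀ᶠ x in 𝓝 p, ∀ g : CF (2 * n + 1),
          act (cjVF (C.K i)) g x = ∑ j, m i j x * act (Y j) g x) := by
  classical
  let V : Fin n → CVF (2 * n + 1) := fun i => cjVF (C.K i)
  have hVsm : ∀ i, Sm p (V i) := fun i => (C.smK i).cjVF
  let m : E (2 * n + 1) → Matrix (Fin n) (Fin n) ℂ :=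
    fun x i j => ∑ l, V i x l * (starRingEnd ℂ) (s j l)
  have hm : ∀ i j, Sm p (fun x => m x i j) := fun i j =>
    Sm.sum fun l _ => ((hVsm i).comp_apply l).mul (Sm.const _)
  have hmp : m p = 1 := by
    ext i j
    have h1 : m p i j = (starRingEnd ℂ) (∑ l, s j l * C.K i p l) := by
      simp only [m, V, cjVF, map_sum, map_mul]
      exact Finset.sum_congr rfl fun l _ => by ring
    rw [h1, hs, Matrix.one_apply]
    by_cases h : i = j
    · subst h; simp
    · rw [if_neg h, if_neg (Ne.symm h), map_zero]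
  have hdet : (m p).det ≠ 0 := by rw [hmp]; simp
  have hdetn : ∀ᶠ x in 𝓝 p, (m x).det ≠ 0 :=
    (ea_sm_det m hm).continuousAt.eventually_ne hdet
  let A : Fin n → Fin n → CF (2 * n + 1) := fun i a x => (m x)⁻¹ i a
  have hA : ∀ i a, Sm p (A i a) := fun i a => ea_sm_inv m hm hdet i a
  let Y : Fin n → CVF (2 * n + 1) := fun i y l => ∑ a, A i a y * V a y l
  have hYsm : ∀ i, Sm p (Y i) := fun i =>
    Sm.of_apply fun l => Sm.sum fun a _ => (hA i a).mul ((hVsm a).comp_apply l)
  have hYp : ∀ i, Y i p = V i p := by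
    intro i
    funext l
    simp only [Y, A, hmp, inv_one]
    simp [Matrix.one_apply]
  have hdual : ∀ i j, ∀ᶠ x in 𝓝 p, act (Y i) (ea_aff p (fun l => (starRingEnd ℂ) (s j l))) x =
        if i = j then 1 else 0 := by
    intro i j
    filter_upwards [hdetn] with x hx
    have h1 : act (Y i) (ea_aff p (fun l => (starRingEnd ℂ) (s j l))) x =
        ∑ a, (m x)⁻¹ i a * m x a j := by
      rw [ea_act_comb V (A i)]
      refine Finset.sum_congr rfl fun a _ => ?_
      rw [ea_aff_act]
    rw [h1, ← Matrix.mul_apply, Matrix.nonsing_inv_mul _ (isUnit_iff_ne_zero.2 hx),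
      Matrix.one_apply]
  refine ⟨Y, hYsm, hYp, hdual, ?_, fun i j x => m x i j, hm, ?_⟩
  · intro i j
    have hd1 : ∀ᶠ x in 𝓝 p, ∀ a l, DifferentiableAt ℝ (fun y => V a y l) x :=
      Filter.eventually_all.2 fun a => Filter.eventually_all.2 fun l =>
        ((hVsm a).comp_apply l).differentiableAt
    have hd1' : ∀ᶠ x in 𝓝 p, ∀ a l, DifferentiableAt ℝ (fun y => C.K a y l) x :=
      Filter.eventually_all.2 fun a => Filter.eventually_all.2 fun l =>
        ((C.smK a).comp_apply l).differentiableAt
    have hd2 : ∀ᶠ x in 𝓝 p, ∀ i a, DifferentiableAt ℝ (A i a) x :=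
      Filter.eventually_all.2 fun i => Filter.eventually_all.2 fun a =>
        (hA i a).differentiableAt
    have hd3 : ∀ᶠ x in 𝓝 p, ∀ a l, DifferentiableAt ℝ (fun y => Y a y l) x :=
      Filter.eventually_all.2 fun a => Filter.eventually_all.2 fun l =>
        ((hYsm a).comp_apply l).differentiableAt
    have hint : ∀ᶠ x in 𝓝 p, ∀ a b,
        lieBr (C.K a) (C.K b) x ∈ Submodule.span ℂ (Set.range fun l => C.K l x) :=
      Filter.eventually_all.2 fun a => Filter.eventually_all.2 fun b => C.integ a b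
    have hdn : ∀ᶠ x in 𝓝 p, ∀ i j, act (Y i) (ea_aff p (fun l => (starRingEnd ℂ) (s j l))) =ᶠ[𝓝 x]
        fun _ => if i = j then 1 else 0 :=
      Filter.eventually_all.2 fun a => Filter.eventually_all.2 fun b =>
        (hdual a b).eventually_nhds
    filter_upwards [hd1, hd1', hd2, hd3, hint, hdn, hdetn] with x h1 h1' h2 h3 h4 h5 h6
    -- the bracket lies in the span
    have hspanV : ∀ a b, lieBr (V a) (V b) x ∈ Submodule.span ℂ (Set.range fun l => V l x) := by
      intro a b
      obtain ⟨c, hc⟩ := (Submodule.mem_span_range_iff_exists_fun ℂ).1 (h4 a b)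
      refine (Submodule.mem_span_range_iff_exists_fun ℂ).2 ⟨fun k => (starRingEnd ℂ) (c k), ?_⟩
      funext l
      rw [ea_lie_cj (C.K a) (C.K b) x (h1' a) (h1' b), ← hc]
      simp only [Finset.sum_apply, Pi.smul_apply, smul_eq_mul, map_sum, map_mul]
      rfl
    have hmem : lieBr (Y i) (Y j) x ∈ Submodule.span ℂ (Set.range fun l => V l x) := by
      have := ea_lie_comb V (A i) (A j) x h1 (h2 i) (h2 j)
      change lieBr (Y i) (Y j) x = _ at this
      rw [this]
      refine Submodule.sub_mem _ (Submodule.add_mem _ ?_ ?_) ?_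
      · exact Submodule.sum_mem _ fun a _ => Submodule.sum_mem _ fun b _ =>
          Submodule.smul_mem _ _ (hspanV a b)
      · exact Submodule.sum_mem _ fun b _ => Submodule.smul_mem _ _
          (Submodule.subset_span ⟨b, rfl⟩)
      · exact Submodule.sum_mem _ fun b _ => Submodule.smul_mem _ _
          (Submodule.subset_span ⟨b, rfl⟩)
    obtain ⟨c, hc⟩ := (Submodule.mem_span_range_iff_exists_fun ℂ).1 hmem
    have hkill : ∀ k, ∑ l, lieBr (Y i) (Y j) x l * (starRingEnd ℂ) (s k l) = 0 := by
      intro k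
      rw [← ea_aff_act p, act_lieBr (h3 i) (h3 j) (ea_aff_contDiff p _).contDiffAt]
      have e1 := (act_congr (X := Y i) (Filter.EventuallyEq.refl _ _) (h5 j k)).self_of_nhds
      have e2 := (act_congr (X := Y j) (Filter.EventuallyEq.refl _ _) (h5 i k)).self_of_nhds
      rw [e1, e2, act_const, act_const, sub_zero]
    have hcm : Matrix.vecMul c (m x) = 0 := by
      funext k
      have := hkill k
      rw [← hc] at this
      simp only [Matrix.vecMul, dotProduct, Pi.zero_apply]
      rw [← this]
      simp only [m, Finset.sum_apply, Pi.smul_apply, smul_eq_mul, Finset.mul_sum, Finset.sum_mul]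
      rw [Finset.sum_comm]
      exact Finset.sum_congr rfl fun a _ => Finset.sum_congr rfl fun l _ => by ring
    have hc0 := Matrix.eq_zero_of_vecMul_eq_zero h6 hcm
    rw [← hc, hc0]
    simp
  · intro i
    filter_upwards [hdetn] with x hx
    intro g
    have h1 : ∑ j, m x i j * act (Y j) g x = ∑ j, ∑ a, m x i j * ((m x)⁻¹ j a * act (V a) g x) := by
      refine Finset.sum_congr rfl fun j _ => ?_
      rw [ea_act_comb V (A j), Finset.mul_sum]
    show act (V i) g x = _
    rw [h1, Finset.sum_comm]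
    have h2 : ∀ a, ∑ j, m x i j * ((m x)⁻¹ j a * act (V a) g x) =
        (if i = a then 1 else 0) * act (V a) g x := by
      intro a
      rw [← Matrix.one_apply, ← Matrix.mul_nonsing_inv (m x) (isUnit_iff_ne_zero.2 hx),
        Matrix.mul_apply, Finset.sum_mul]
      exact Finset.sum_congr rfl fun j _ => by ring
    simp only [h2]
    simp

end frame

end EmbAux


namespace EmbAux

section assembly
variable {n : ℕ} {p : E (2 * n + 1)}

/-- approximate CR functions with given differential -/
lemma ea_exists_cr (C : LCR n p) (s : Fin n → Fin (2 * n + 1) → ℂ)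
    (hs : ∀ j k, ∑ l, s j l * C.K k p l = if j = k then 1 else 0) (N : ℕ) (hN : 1 ≤ N)
    (c : Fin (2 * n + 1) → ℂ) (hc : ∀ k, ∑ l, c l * (starRingEnd ℂ) (C.K k p l) = 0) :
    ∃ F : CF (2 * n + 1), Sm p F ∧ F p = 0 ∧ (∀ l, pd l F p = c l) ∧
      ∀ j, Van p N (act (cjVF (C.K j)) F) := by
  classical
  obtain ⟨Y, hY, hYp, hdual, hcomm, m, hm, hKm⟩ := ea_frame C s hs
  obtain ⟨F, G, hF, hG, hFG, hvan⟩ := telescope Y
    (fun j => ea_aff p (fun l => (starRingEnd ℂ) (s j l))) hY (fun j => ea_aff_sm p _)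
    (fun j => ea_aff_self p _) hdual hcomm N (ea_aff p c) (ea_aff_sm p c)
  have hFp : F p = 0 := by
    rw [hFG.self_of_nhds]
    simp [ea_aff_self]
  have hpd : ∀ l, pd l F p = c l + ∑ j, (starRingEnd ℂ) (s j l) * G j p := by
    intro l
    rw [(pd_congr hFG l).self_of_nhds]
    have hGd : ∀ j, DifferentiableAt ℝ (G j) p := fun j => (hG j).differentiableAt.self_of_nhds
    have had : ∀ c' : Fin (2 * n + 1) → ℂ, DifferentiableAt ℝ (ea_aff p c') p := fun c' =>
      (ea_aff_sm p c').differentiableAt.self_of_nhds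
    rw [pd_add (had c) (DifferentiableAt.fun_sum fun j _ => (had _).fun_mul (hGd j)), ea_aff_pd]
    congr 1
    have h1 : pd l (fun x => ∑ j, ea_aff p (fun l => (starRingEnd ℂ) (s j l)) x * G j x) p =
        ∑ j, pd l (fun x => ea_aff p (fun l => (starRingEnd ℂ) (s j l)) x * G j x) p := by
      simp only [pd]
      rw [fderiv_fun_sum fun j _ => (had _).fun_mul (hGd j)]
      simp
    rw [h1]
    refine Finset.sum_congr rfl fun j _ => ?_
    rw [pd_mul (had _) (hGd j), ea_aff_self, ea_aff_pd, zero_mul, zero_add]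
  have hG0 : ∀ i, G i p = 0 := by
    intro i
    have h1 := (hvan i).apply_eq_zero hN
    rw [act] at h1
    simp only [hpd, hYp, mul_add, Finset.sum_add_distrib, cjVF] at h1
    have h2 : ∑ l, (starRingEnd ℂ) (C.K i p l) * c l = 0 := by
      rw [← hc i]
      exact Finset.sum_congr rfl fun l _ => by ring
    rw [h2, zero_add] at h1
    have h3 : ∑ l, (starRingEnd ℂ) (C.K i p l) * ∑ j, (starRingEnd ℂ) (s j l) * G j p =
        ∑ j, (if i = j then 1 else 0) * G j p := by
      simp only [Finset.mul_sum]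
      rw [Finset.sum_comm]
      refine Finset.sum_congr rfl fun j _ => ?_
      have h4 : (∑ l, (starRingEnd ℂ) (C.K i p l) * (starRingEnd ℂ) (s j l)) =
          if i = j then 1 else 0 := by
        have := congrArg (starRingEnd ℂ) (hs j i)
        rw [map_sum] at this
        rw [show (if i = j then (1 : ℂ) else 0) = (starRingEnd ℂ) (if j = i then 1 else 0) by
          by_cases h : i = j
          · rw [if_pos h, if_pos h.symm, map_one]
          · rw [if_neg h, if_neg (Ne.symm h), map_zero], ← this]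
        exact Finset.sum_congr rfl fun l _ => by rw [map_mul]; ring
      rw [← h4, Finset.sum_mul]
      exact Finset.sum_congr rfl fun l _ => by ring
    rw [h3] at h1
    simpa using h1
  refine ⟨F, hF, hFp, ?_, ?_⟩
  · intro l
    rw [hpd]
    simp [hG0]
  · intro j
    have h1 : Van p N (fun x => ∑ k, m j k x * act (Y k) F x) :=
      Van.sum fun k _ => Van.sm_mul (hm j k) (hvan k)
    refine h1.congr ?_
    filter_upwards [hKm j] with x hx using hx F

/-- lowering the order -/
noncomputable def ea_lower {C : LCR n p} {N N' : ℕ} (e : Emb C N') (h : N ≤ N') : Emb C N where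
  Z := e.Z
  ρ := e.ρ
  g := e.g
  smZ := e.smZ
  Z0 := e.Z0
  cr i j := (e.cr i j).mono h
  coord := e.coord
  indepZ := e.indepZ
  herm := e.herm
  van := e.van.mono h
  ρlast := e.ρlast
  smg := e.smg
  g0 := e.g0
  theta_eq X hX := (e.theta_eq X hX).mono (by omega)
  levi X Y hX hY h1 h2 := (e.levi X Y hX hY h1 h2).mono (by omega)

/-- the polynomial relation -/
lemma ea_poly (p : E (2 * n + 1)) (s : Fin n → Fin (2 * n + 1) → ℂ) (η : Fin (2 * n + 1) → ℝ)
    (hind : ∀ (a b : Fin n → ℂ) (c : ℂ),
      (∀ l, ∑ j, a j * s j l + ∑ j, b j * (starRingEnd ℂ) (s j l) + c * η l = 0) →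
      (∀ j, a j = 0) ∧ (∀ j, b j = 0) ∧ c = 0)
    (N : ℕ) (hN : 2 ≤ N) (Z : Fin (n + 1) → CF (2 * n + 1)) (hZ : ∀ i, Sm p (Z i))
    (hZ0 : ∀ i, Z i p = 0) (hZs : ∀ (i : Fin n) l, pd l (Z i.castSucc) p = s i l)
    (hZη : ∀ l, pd l (Z (Fin.last n)) p = (η l : ℂ)) :
    ∃ P : Pol (n + 1), Van p N (fun x => peval P (fun i => Z i x)) ∧
      peval (dz (Fin.last n) P) 0 = Complex.I / 2 ∧
      peval (dzb (Fin.last n) P) 0 = - Complex.I / 2 := by
  classical
  let ι := (Fin n ⊕ Fin n) ⊕ Unit
  have hcard : Fintype.card (Fin (2 * n + 1)) = Fintype.card ι := by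
    simp [ι]; ring
  let e : Fin (2 * n + 1) ≃ ι := Fintype.equivOfCardEq hcard
  let y' : ι → CF (2 * n + 1) := Sum.elim (Sum.elim (fun i => Z i.castSucc)
    (fun i x => (starRingEnd ℂ) (Z i.castSucc x)))
    (fun _ x => (1 / 2 : ℂ) * (Z (Fin.last n) x + (starRingEnd ℂ) (Z (Fin.last n) x)))
  let f : CF (2 * n + 1) := fun x =>
    (Complex.I / 2) * (Z (Fin.last n) x - (starRingEnd ℂ) (Z (Fin.last n) x))
  have hZd : ∀ i, DifferentiableAt ℝ (Z i) p := fun i => (hZ i).differentiableAt.self_of_nhds
  have hZcd : ∀ i, DifferentiableAt ℝ (fun x => (starRingEnd ℂ) (Z i x)) p := fun i =>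
    (hZ i).conj.differentiableAt.self_of_nhds
  have hf : Sm p f := (Sm.const _).mul ((hZ _).sub (hZ _).conj)
  have hy'sm : ∀ k, Sm p (y' k) := by
    rintro ((k | k) | k)
    · exact hZ _
    · exact (hZ _).conj
    · exact (Sm.const _).mul ((hZ _).add (hZ _).conj)
  have hy'0 : ∀ k, y' k p = 0 := by
    rintro ((k | k) | k) <;> simp [y', hZ0]
  let D : ι → Fin (2 * n + 1) → ℂ := Sum.elim (Sum.elim (fun i => s i)
    (fun i l => (starRingEnd ℂ) (s i l))) (fun _ l => (η l : ℂ))
  have hD : ∀ k l, pd l (y' k) p = D k l := by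
    rintro ((k | k) | k) l
    · exact hZs k l
    · have := pd_conj (hZd k.castSucc) l
      simp only [y', D, Sum.elim_inl, Sum.elim_inr]
      rw [this, hZs]
    · simp only [y', D, Sum.elim_inr]
      rw [pd_mul (differentiableAt_const _) ((hZd _).fun_add (hZcd _)), pd_const, zero_mul, add_zero,
        pd_add (hZd _) (hZcd _), pd_conj (hZd _), hZη]
      simp
      ring
  have hDind : LinearIndependent ℂ D := by
    rw [Fintype.linearIndependent_iff]
    intro g hg
    have h1 : ∀ l, ∑ j, g (Sum.inl (Sum.inl j)) * s j l +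
        ∑ j, g (Sum.inl (Sum.inr j)) * (starRingEnd ℂ) (s j l) + g (Sum.inr ()) * η l = 0 := by
      intro l
      have := congrFun hg l
      rw [Fintype.sum_sum_type, Fintype.sum_sum_type] at this
      simpa [D] using this
    obtain ⟨h2, h3, h4⟩ := hind _ _ _ h1
    rintro ((k | k) | k)
    · exact h2 k
    · exact h3 k
    · exact h4
  have hind' : LinearIndependent ℂ (fun i : Fin (2 * n + 1) => fun j : Fin (2 * n + 1) =>
      pd j (y' (e i)) p) := by
    have : (fun i : Fin (2 * n + 1) => fun j : Fin (2 * n + 1) => pd j (y' (e i)) p) = D ∘ e := by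
      funext i j
      exact hD (e i) j
    rw [this]
    exact hDind.comp e e.injective
  obtain ⟨Q, hQ⟩ := poly_approx (fun i => y' (e i)) (fun i => hy'sm _) (fun i => hy'0 _) hind' N f hf
  -- the linear part of Q vanishes
  have hQ0 : ∀ k, MvPolynomial.eval 0 (MvPolynomial.pderiv k Q) = 0 := by
    have hQ1 : Van p 2 (fun x => f x - MvPolynomial.eval (fun i => y' (e i) x) Q) := hQ.mono hN
    have hy'd : ∀ k, DifferentiableAt ℝ (y' (e k)) p := fun k =>
      (hy'sm _).differentiableAt.self_of_nhds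
    have h1 : ∀ l, ∑ k, MvPolynomial.eval 0 (MvPolynomial.pderiv k Q) * D (e k) l = 0 := by
      intro l
      have h2 := (hQ1.2.2 l).apply_eq_zero one_pos
      obtain ⟨h3, h4⟩ := ea_pd_eval (fun i => y' (e i)) p hy'd Q l
      rw [pd_sub hf.differentiableAt.self_of_nhds h3, h4] at h2
      have h5 : pd l f p = 0 := by
        simp only [f]
        rw [pd_mul (differentiableAt_const _) ((hZd _).fun_sub (hZcd _)), pd_const, zero_mul, add_zero,
          pd_sub (hZd _) (hZcd _), pd_conj (hZd _), hZη]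
        simp
      have h6 : (fun k => y' (e k) p) = 0 := by
        funext k
        exact hy'0 _
      rw [h5, h6, zero_sub, neg_eq_zero] at h2
      rw [← h2]
      exact Finset.sum_congr rfl fun k _ => by rw [hD]
    have h7 := Fintype.linearIndependent_iff.1 (hDind.comp e e.injective)
      (fun k => MvPolynomial.eval 0 (MvPolynomial.pderiv k Q)) (by
        funext l
        have := h1 l
        simpa using this)
    exact h7
  let g : ι → Pol (n + 1) := Sum.elim (Sum.elim (fun i => MvPolynomial.X (Sum.inl i.castSucc))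
    (fun i => MvPolynomial.X (Sum.inr i.castSucc)))
    (fun _ => MvPolynomial.C (1 / 2 : ℂ) * (MvPolynomial.X (Sum.inl (Fin.last n)) +
      MvPolynomial.X (Sum.inr (Fin.last n))))
  have hgz : ∀ k z, peval (g k) z = (Sum.elim (Sum.elim (fun i : Fin n => z i.castSucc)
      (fun i => (starRingEnd ℂ) (z i.castSucc)))
      (fun _ => (1 / 2 : ℂ) * (z (Fin.last n) + (starRingEnd ℂ) (z (Fin.last n))))) k := by
    rintro ((k | k) | k) z <;> simp [g, peval]
  refine ⟨MvPolynomial.C (Complex.I / 2) * (MvPolynomial.X (Sum.inl (Fin.last n)) -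
      MvPolynomial.X (Sum.inr (Fin.last n))) - MvPolynomial.aeval (fun k => g (e k)) Q, ?_, ?_, ?_⟩
  · refine hQ.congr ?_
    refine Filter.Eventually.of_forall fun x => ?_
    simp only [peval, map_sub, map_mul, MvPolynomial.eval_C, MvPolynomial.eval_X, Sum.elim_inl,
      Sum.elim_inr]
    rw [ea_eval_aeval]
    have hfun : (fun k => MvPolynomial.eval (Sum.elim (fun i => Z i x)
        (fun i => (starRingEnd ℂ) (Z i x))) (g (e k))) = fun i => y' (e i) x := by
      funext k
      have := hgz (e k) (fun i => Z i x)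
      simp only [peval] at this
      rw [this]
      generalize e k = k'
      rcases k' with ((k' | k') | k') <;> simp [y']
    rw [hfun]
  · have h1 : peval (dz (Fin.last n) (MvPolynomial.aeval (fun k => g (e k)) Q)) 0 = 0 := by
      simp only [peval, dz]
      rw [ea_pderiv_aeval, map_sum]
      refine Finset.sum_eq_zero fun k _ => ?_
      rw [map_mul, ea_eval_aeval]
      have h2 : (fun k => MvPolynomial.eval (Sum.elim (0 : Fin (n + 1) → ℂ)
          (fun i => (starRingEnd ℂ) ((0 : Fin (n + 1) → ℂ) i))) (g (e k))) = 0 := by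
        funext k
        have := hgz (e k) 0
        simp only [peval] at this
        rw [this]
        generalize e k = k'
        rcases k' with ((k' | k') | k') <;> simp
      rw [h2, hQ0, zero_mul]
    simp only [peval, dz] at h1 ⊢
    rw [map_sub, map_sub, h1]
    simp [Derivation.leibniz, MvPolynomial.pderiv_X]
  · have h1 : peval (dzb (Fin.last n) (MvPolynomial.aeval (fun k => g (e k)) Q)) 0 = 0 := by
      simp only [peval, dzb]
      rw [ea_pderiv_aeval, map_sum]
      refine Finset.sum_eq_zero fun k _ => ?_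
      rw [map_mul, ea_eval_aeval]
      have h2 : (fun k => MvPolynomial.eval (Sum.elim (0 : Fin (n + 1) → ℂ)
          (fun i => (starRingEnd ℂ) ((0 : Fin (n + 1) → ℂ) i))) (g (e k))) = 0 := by
        funext k
        have := hgz (e k) 0
        simp only [peval] at this
        rw [this]
        generalize e k = k'
        rcases k' with ((k' | k') | k') <;> simp
      rw [h2, hQ0, zero_mul]
    simp only [peval, dzb] at h1 ⊢
    rw [map_sub, map_sub, h1]
    simp [Derivation.leibniz, MvPolynomial.pderiv_X]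
    ring

end assembly

end EmbAux


open EmbAux in
/-- JBm -/
theorem exists_emb {n : ℕ} {p : E (2 * n + 1)} (C : LCR n p) (N : ℕ) : Nonempty (Emb C N) := by
  classical
  obtain ⟨s, T, hT, hs1, hs2, hs3, hcompl⟩ := ea_dual C
  have hηK : ∀ j, ∑ l, (C.η p l : ℂ) * C.K j p l = 0 := fun j => (C.ann j).self_of_nhds
  have hηKb : ∀ j, ∑ l, (C.η p l : ℂ) * (starRingEnd ℂ) (C.K j p l) = 0 := by
    intro j
    have := congrArg (starRingEnd ℂ) (hηK j)
    rw [map_sum, map_zero] at this
    rw [← this]
    exact Finset.sum_congr rfl fun l _ => by simp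
  have hTC : ∑ l, (C.η p l : ℂ) * (T l : ℂ) = 1 := by
    rw [← Complex.ofReal_one, ← hT]
    push_cast
    rfl
  have hs1' : ∀ j k, ∑ l, (starRingEnd ℂ) (s j l) * (starRingEnd ℂ) (C.K k p l) =
      if j = k then 1 else 0 := by
    intro j k
    rw [ea_conj_sum]
    simp only [Complex.conj_conj, hs1]
    split_ifs <;> simp
  have hs2' : ∀ j k, ∑ l, (starRingEnd ℂ) (s j l) * C.K k p l = 0 := by
    intro j k
    rw [ea_conj_sum, hs2, map_zero]
  have hs3' : ∀ j, ∑ l, (starRingEnd ℂ) (s j l) * (T l : ℂ) = 0 := by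
    intro j
    rw [ea_conj_sum]
    simp only [Complex.conj_ofReal, hs3, map_zero]
  -- covectors
  let c : Fin (n + 1) → Fin (2 * n + 1) → ℂ :=
    Fin.snoc (α := fun _ => Fin (2 * n + 1) → ℂ) s (fun l => (C.η p l : ℂ))
  have hc1 : ∀ i : Fin n, c i.castSucc = s i := fun i => Fin.snoc_castSucc _ _ _
  have hc2 : c (Fin.last n) = fun l => (C.η p l : ℂ) := Fin.snoc_last _ _
  have hc : ∀ i k, ∑ l, c i l * (starRingEnd ℂ) (C.K k p l) = 0 := by
    intro i k
    induction i using Fin.lastCases with
    | last => rw [hc2]; exact hηKb k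
    | cast i => rw [hc1]; exact hs2 i k
  have hex := fun i => ea_exists_cr C s hs1 (N + 3) (by omega) (c i) (hc i)
  choose Z hZsm hZ0 hZpd hZcr using hex
  have hZs : ∀ (i : Fin n) l, pd l (Z i.castSucc) p = s i l := by
    intro i l
    rw [hZpd, hc1]
  have hZη : ∀ l, pd l (Z (Fin.last n)) p = (C.η p l : ℂ) := by
    intro l
    rw [hZpd, hc2]
  have hind : ∀ (a b : Fin n → ℂ) (c : ℂ),
      (∀ l, ∑ j, a j * s j l + ∑ j, b j * (starRingEnd ℂ) (s j l) + c * C.η p l = 0) →
      (∀ j, a j = 0) ∧ (∀ j, b j = 0) ∧ c = 0 := by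
    intro a b c h
    have h1 : ∀ w : Fin (2 * n + 1) → ℂ, ∑ j, a j * ∑ l, s j l * w l +
        ∑ j, b j * ∑ l, (starRingEnd ℂ) (s j l) * w l + c * ∑ l, (C.η p l : ℂ) * w l = 0 := by
      intro w
      have h2 : ∑ l, (∑ j, a j * s j l + ∑ j, b j * (starRingEnd ℂ) (s j l) +
          c * C.η p l) * w l = 0 := by
        simp only [h, zero_mul, Finset.sum_const_zero]
      rw [← h2]
      simp only [add_mul, Finset.sum_add_distrib, Finset.sum_mul, Finset.mul_sum]
      congr 1
      · congr 1
        · rw [Finset.sum_comm]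
          exact Finset.sum_congr rfl fun l _ => Finset.sum_congr rfl fun j _ => by ring
        · rw [Finset.sum_comm]
          exact Finset.sum_congr rfl fun l _ => Finset.sum_congr rfl fun j _ => by ring
      · exact Finset.sum_congr rfl fun l _ => by ring
    refine ⟨fun k => ?_, fun k => ?_, ?_⟩
    · have := h1 (C.K k p)
      simpa [hs1, hs2', hηK] using this
    · have := h1 (fun l => (starRingEnd ℂ) (C.K k p l))
      simpa [hs1', hs2, hηKb] using this
    · have := h1 (fun l => (T l : ℂ))
      simpa [hs3, hs3', hTC] using this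
  obtain ⟨P, hP, hPl, hPr⟩ := ea_poly p s (C.η p) hind (N + 3) (by omega) Z hZsm hZ0 hZs hZη
  obtain ⟨ρ, hρ⟩ : ∃ ρ : Pol (n + 1), ρ = MvPolynomial.C (1 / 2 : ℂ) * (P + ea_star P) := ⟨_, rfl⟩
  have hherm : IsHerm ρ := by
    show ea_star ρ = ρ
    rw [hρ, ea_star_mul, ea_star_C, ea_star_add, ea_star_star, add_comm P]
    have h2 : (starRingEnd ℂ) (1 / 2) = 1 / 2 := by
      rw [map_div₀, map_one, map_ofNat]
    rw [h2]
  have hvan : Van p (N + 3) (fun x => peval ρ (fun i => Z i x)) := by
    refine (Van.sm_mul (Sm.const (1 / 2 : ℂ)) (hP.add hP.conj)).congr ?_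
    refine Filter.Eventually.of_forall fun x => ?_
    simp only
    rw [← ea_peval_star, hρ]
    simp [peval]
  have hρl : peval (dz (Fin.last n) ρ) 0 = Complex.I / 2 := by
    have h1 : dz (Fin.last n) ρ = MvPolynomial.C (1 / 2 : ℂ) *
        (dz (Fin.last n) P + ea_star (dzb (Fin.last n) P)) := by
      rw [hρ]
      simp only [dz, dzb, Derivation.leibniz, smul_eq_mul, MvPolynomial.pderiv_C, mul_zero,
        add_zero, map_add]
      rw [ea_star_pderiv_inl]
    have h2 : peval (dz (Fin.last n) ρ) 0 = (1 / 2 : ℂ) * (peval (dz (Fin.last n) P) 0 +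
        peval (ea_star (dzb (Fin.last n) P)) 0) := by
      rw [h1]
      simp [peval]
    rw [h2, ea_peval_star, hPl, hPr, map_div₀, map_neg, Complex.conj_I, map_ofNat]
    ring
  obtain ⟨g, hg, htheta, hlevi⟩ := levi_identity C (N + 3) (by omega) Z ρ hZsm
    (fun i j => hZcr i j) hherm hvan
  have hgp : g p = Complex.I / 2 := by
    have h1 := (htheta (fun _ l => (T l : ℂ)) (Sm.const _)).apply_eq_zero (by omega)
    have h2 : pair C.η (fun _ l => (T l : ℂ)) p = 1 := hTC
    have h3 : theta Z ρ (fun _ l => (T l : ℂ)) p = Complex.I / 2 := by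
      rw [← hρl, theta, Fin.sum_univ_castSucc]
      have h4 : (fun i => Z i p) = 0 := by
        funext i
        exact hZ0 i
      have h5 : ∀ j : Fin n, act (fun _ l => (T l : ℂ)) (Z j.castSucc) p = 0 := by
        intro j
        rw [← hs3 j, act]
        exact Finset.sum_congr rfl fun l _ => by rw [hZs]; ring
      have h6 : act (fun _ l => (T l : ℂ)) (Z (Fin.last n)) p = 1 := by
        rw [← hTC, act]
        exact Finset.sum_congr rfl fun l _ => by rw [hZη]; ring
      simp only [h4, h5, h6, mul_zero, Finset.sum_const_zero, zero_add, mul_one]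
    rw [h2, h3, mul_one] at h1
    exact (sub_eq_zero.1 h1).symm
  refine ⟨ea_lower (N' := N + 3) ?_ (by omega)⟩
  exact
    { Z := Z
      ρ := ρ
      g := g
      smZ := hZsm
      Z0 := hZ0
      cr := fun i j => hZcr i j
      coord := by
        intro v h1 h2
        have hw := hcompl (fun l => (v l : ℂ)) (by
          intro j
          rw [← h1 j]
          exact Finset.sum_congr rfl fun l _ => by rw [hZs]; ring) (by
          intro j
          rw [ea_conj_sum]
          have : ∑ l, s j l * (starRingEnd ℂ) (v l : ℂ) = 0 := by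
            rw [← h1 j]
            exact Finset.sum_congr rfl fun l _ => by rw [hZs, Complex.conj_ofReal]; ring
          rw [this, map_zero]) (by
          have h3 : ∑ j, (v j : ℂ) * pd j (Z (Fin.last n)) p = ((∑ j, v j * C.η p j : ℝ) : ℂ) := by
            push_cast
            exact Finset.sum_congr rfl fun l _ => by rw [hZη]
          rw [h3, Complex.ofReal_re] at h2
          have h4 : ∑ l, (C.η p l : ℂ) * (v l : ℂ) = ((∑ j, v j * C.η p j : ℝ) : ℂ) := by
            push_cast
            exact Finset.sum_congr rfl fun l _ => by ring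
          rw [h4, h2, Complex.ofReal_zero])
        funext l
        have := congrFun hw l
        simpa using this
      indepZ := by
        rw [Fintype.linearIndependent_iff]
        intro a ha k
        have h1 := congrFun ha k
        simp only [Finset.sum_apply, Pi.smul_apply, smul_eq_mul, Pi.zero_apply] at h1
        have h2 : ∀ j, act (C.K j) (Z k.castSucc) p = if k = j then 1 else 0 := by
          intro j
          rw [← hs1 k j, act]
          exact Finset.sum_congr rfl fun l _ => by rw [hZs]; ring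
        simpa [h2] using h1
      herm := hherm
      van := hvan
      ρlast := by
        rw [hρl]
        simp
      smg := hg
      g0 := by
        rw [hgp]
        have : Complex.I / 2 / Complex.I = ((1 / 2 : ℝ) : ℂ) := by
          have := Complex.I_ne_zero
          field_simp
          push_cast
          ring
        rw [this, Complex.ofReal_re]
        norm_num
      theta_eq := htheta
      levi := hlevi }


end DAng
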