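import Pool.Agent.DAng.EmbDefs

open scoped ContDiff Topology BigOperators
open Finset Asymptotics

namespace DAng


namespace XQ

/-! #### sums over words -/

lemma sumW_congr : ∀ (n : ℕ) {F G : Wd → ℂ}, (∀ w : Wd, w.length = n → F w = G w) →
    sumW n F = sumW n G
  | 0, _, _, h => h [] rfl
  | n + 1, F, G, h => by
    show sumW n (D true F) + sumW n (D false F) = sumW n (D true G) + sumW n (D false G)
    rw [sumW_congr n (F := D true F) (G := D true G) (fun w hw => h (true :: w) (by simp [hw])),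
      sumW_congr n (F := D false F) (G := D false G) (fun w hw => h (false :: w) (by simp [hw]))]

lemma sumW_add : ∀ (n : ℕ) (F G : Wd → ℂ),
    sumW n (fun w => F w + G w) = sumW n F + sumW n G
  | 0, _, _ => rfl
  | n + 1, F, G => by
    show sumW n (fun w => D true F w + D true G w) + sumW n (fun w => D false F w + D false G w) =
      (sumW n (D true F) + sumW n (D false F)) + (sumW n (D true G) + sumW n (D false G))
    rw [sumW_add n, sumW_add n]
    ring

lemma sumW_zero : ∀ (n : ℕ), sumW n (fun _ : Wd => (0 : ℂ)) = 0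
  | 0 => rfl
  | n + 1 => by
    show sumW n (fun _ => (0 : ℂ)) + sumW n (fun _ => (0 : ℂ)) = 0
    rw [sumW_zero n, add_zero]

lemma sumW_mul_left : ∀ (n : ℕ) (c : ℂ) (F : Wd → ℂ), sumW n (fun w => c * F w) = c * sumW n F
  | 0, _, _ => rfl
  | n + 1, c, F => by
    show sumW n (fun w => c * D true F w) + sumW n (fun w => c * D false F w) =
      c * (sumW n (D true F) + sumW n (D false F))
    rw [sumW_mul_left n, sumW_mul_left n, mul_add]

lemma sumW_mul_right (n : ℕ) (c : ℂ) (F : Wd → ℂ) :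
    sumW n (fun w => F w * c) = sumW n F * c := by
  rw [mul_comm, ← sumW_mul_left]
  exact sumW_congr n fun w _ => mul_comm _ _

lemma sumW_conj : ∀ (n : ℕ) (F : Wd → ℂ),
    sumW n (fun w => (starRingEnd ℂ) (F w)) = (starRingEnd ℂ) (sumW n F)
  | 0, _ => rfl
  | n + 1, F => by
    show sumW n (fun w => (starRingEnd ℂ) (D true F w)) +
      sumW n (fun w => (starRingEnd ℂ) (D false F w)) =
      (starRingEnd ℂ) (sumW n (D true F) + sumW n (D false F))
    rw [sumW_conj n, sumW_conj n, map_add]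

lemma sumW_cj : ∀ (n : ℕ) (F : Wd → ℂ), sumW n (fun w => F (cj w)) = sumW n F
  | 0, _ => rfl
  | n + 1, F => by
    show sumW n (fun w => D false F (cj w)) + sumW n (fun w => D true F (cj w)) =
      sumW n (D true F) + sumW n (D false F)
    rw [sumW_cj n, sumW_cj n, add_comm]

lemma sumP_congr (k : ℕ) {F G : Wd → Wd → ℂ}
    (h : ∀ u v : Wd, u.length + v.length = k → F u v = G u v) : sumP k F = sumP k G := by
  unfold sumP
  refine Finset.sum_congr rfl fun i hi => ?_
  rw [Finset.mem_range] at hi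
  exact sumW_congr i fun u hu => sumW_congr (k - i) fun v hv => h u v (by omega)

lemma sumP_add (k : ℕ) (F G : Wd → Wd → ℂ) :
    sumP k (fun u v => F u v + G u v) = sumP k F + sumP k G := by
  unfold sumP
  rw [← Finset.sum_add_distrib]
  refine Finset.sum_congr rfl fun i _ => ?_
  rw [← sumW_add]
  exact sumW_congr i fun u _ => sumW_add _ _ _

lemma sumP_zero (k : ℕ) : sumP k (fun _ _ : Wd => (0 : ℂ)) = 0 := by
  unfold sumP
  refine Finset.sum_eq_zero fun i _ => ?_
  rw [sumW_congr i (fun u _ => sumW_zero (k - i)), sumW_zero]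

lemma sumP_mul_left (k : ℕ) (c : ℂ) (F : Wd → Wd → ℂ) :
    sumP k (fun u v => c * F u v) = c * sumP k F := by
  unfold sumP
  rw [Finset.mul_sum]
  refine Finset.sum_congr rfl fun i _ => ?_
  rw [← sumW_mul_left]
  exact sumW_congr i fun u _ => sumW_mul_left _ _ _

lemma sumP_sum {ι : Type*} (s : Finset ι) (k : ℕ) (F : ι → Wd → Wd → ℂ) :
    sumP k (fun u v => ∑ e ∈ s, F e u v) = ∑ e ∈ s, sumP k (F e) := by
  classical
  induction s using Finset.induction_on with
  | empty => simpa using sumP_zero k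
  | insert a s ha ih =>
    rw [Finset.sum_insert ha, ← ih, ← sumP_add]
    exact sumP_congr k fun u v _ => Finset.sum_insert ha

/-- first letter of the first word -/
def L1 (K : Bool → Wd → Wd → ℂ) : Wd → Wd → ℂ
  | [], _ => 0
  | a :: u, v => K a u v

/-- first letter of the second word -/
def L2 (K : Bool → Wd → Wd → ℂ) (u : Wd) : Wd → ℂ
  | [] => 0
  | b :: v => K b u v

lemma sumP_L1 (m : ℕ) (K : Bool → Wd → Wd → ℂ) :
    sumP (m + 1) (L1 K) = sumP m (K true) + sumP m (K false) := by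
  unfold sumP
  rw [Finset.sum_range_succ', ← Finset.sum_add_distrib]
  have h0 : sumW 0 (fun u => sumW (m + 1 - 0) (fun v => L1 K u v)) = 0 := sumW_zero _
  rw [h0, add_zero]
  refine Finset.sum_congr rfl fun i _ => ?_
  rw [Nat.add_sub_add_right]
  rfl

lemma sumP_L2 (m : ℕ) (K : Bool → Wd → Wd → ℂ) :
    sumP (m + 1) (L2 K) = sumP m (K true) + sumP m (K false) := by
  unfold sumP
  rw [Finset.sum_range_succ, ← Finset.sum_add_distrib]
  have h0 : sumW (m + 1) (fun u => sumW (m + 1 - (m + 1)) (fun v => L2 K u v)) = 0 := by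
    rw [Nat.sub_self]
    exact sumW_zero _
  rw [h0, add_zero]
  refine Finset.sum_congr rfl fun i hi => ?_
  rw [Finset.mem_range] at hi
  have : m + 1 - i = (m - i) + 1 := by omega
  rw [this, ← sumW_add]
  rfl

lemma shf_nil (f : Wd → ℂ) : ∀ u : Wd, shf f u [] = f u
  | [] => by simp [shf]
  | a :: u => by simp [shf]

/-- duality between `unsh` and `shf` -/
lemma dual : ∀ (m : ℕ) (G : Wd → Wd → ℂ) (f : Wd → ℂ),
    sumW m (fun w => unsh G w * f w) = sumP m (fun u v => G u v * shf f u v)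
  | 0, G, f => by simp [sumP, sumW, unsh, shf]
  | m + 1, G, f => by
    have e1 : sumP (m + 1) (fun u v => G u v * shf f u v) =
        sumP (m + 1) (fun u v => L1 (fun a u v => G (a :: u) v * shf (D a f) u v) u v +
          L2 (fun b u v => G u (b :: v) * shf (D b f) u v) u v) := by
      refine sumP_congr _ ?_
      intro u v h
      match u, v with
      | [], [] => simp at h
      | [], b :: v => simp [L1, L2, shf, D]
      | a :: u, [] => simp [L1, L2, shf_nil, D]
      | a :: u, b :: v =>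
        simp only [L1, L2, shf]
        ring
    rw [e1, sumP_add, sumP_L1, sumP_L2]
    have e2 : ∀ a, sumW m (D a (fun w => unsh G w * f w)) =
        sumP m (fun u v => G (a :: u) v * shf (D a f) u v) +
          sumP m (fun u v => G u (a :: v) * shf (D a f) u v) := by
      intro a
      show _ = sumP m (fun u v => DU a G u v * shf (D a f) u v) +
          sumP m (fun u v => DV a G u v * shf (D a f) u v)
      rw [← dual m (DU a G) (D a f), ← dual m (DV a G) (D a f), ← sumW_add]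
      refine sumW_congr m fun w _ => ?_
      simp only [D, unsh]
      ring
    show sumW m (D true (fun w => unsh G w * f w)) + sumW m (D false (fun w => unsh G w * f w)) = _
    rw [e2, e2]
    ring

/-! #### conjugate characters -/

lemma shf_cj : ∀ (f : Wd → ℂ) (u v : Wd),
    shf (fun w => (starRingEnd ℂ) (f (cj w))) u v = (starRingEnd ℂ) (shf f (cj u) (cj v))
  | f, [], v => by simp [shf, cj]
  | f, a :: u, [] => by simp [shf, cj]
  | f, a :: u, b :: v => by
    have h1 : D a (fun w => (starRingEnd ℂ) (f (cj w))) =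
        fun w => (starRingEnd ℂ) (D (!a) f (cj w)) := rfl
    have h2 : D b (fun w => (starRingEnd ℂ) (f (cj w))) =
        fun w => (starRingEnd ℂ) (D (!b) f (cj w)) := rfl
    have h3 : cj (a :: u) = (!a) :: cj u := rfl
    have h4 : cj (b :: v) = (!b) :: cj v := rfl
    rw [shf, h1, h2, shf_cj (D (!a) f) u (b :: v), shf_cj (D (!b) f) (a :: u) v, h3, h4, shf,
      map_add]
termination_by _ u v => u.length + v.length

lemma length_cj (w : Wd) : (cj w).length = w.length := by simp [cj]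

lemma cj_cj (w : Wd) : cj (cj w) = w := by
  simp [cj, Function.comp_def]

lemma IsChar.cj {k : ℕ} {φ : Wd → ℂ} (h : IsChar k φ) :
    IsChar k (fun w => (starRingEnd ℂ) (φ (cj w))) := by
  refine ⟨by simp [DAng.cj, h.1], fun u v huv => ?_⟩
  rw [shf_cj, h.2 _ _ (by rwa [length_cj, length_cj]), map_mul]

lemma IsDer.cj {k : ℕ} {φ ψ : Wd → ℂ} (h : IsDer k φ ψ) :
    IsDer k (fun w => (starRingEnd ℂ) (φ (cj w))) (fun w => (starRingEnd ℂ) (ψ (cj w))) := by
  intro u v huv
  rw [shf_cj, h _ _ (by rwa [length_cj, length_cj]), map_add, map_mul, map_mul]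

lemma IsDer.nil {k : ℕ} {φ ψ : Wd → ℂ} (hφ : IsChar k φ) (h : IsDer k φ ψ) : ψ [] = 0 := by
  have := h [] [] (by simp)
  rw [hφ.1] at this
  simp only [shf, mul_one, one_mul] at this
  linear_combination -this

/-! #### power series of a germ along a function on words -/

/-- generating series of the derivatives of `f` at `p` against `φ` -/
noncomputable def J {d : ℕ} (p : E d) (L : CVF d) (φ : Wd → ℂ) (f : CF d) : PowerSeries ℂ :=
  PowerSeries.mk fun n => sumW n (fun w => op L w f p * φ w)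

lemma coeff_mk_mul (a b : Wd → ℂ) (m : ℕ) :
    PowerSeries.coeff m ((PowerSeries.mk fun n => sumW n a) * (PowerSeries.mk fun n => sumW n b)) =
      sumP m (fun u v => a u * b v) := by
  rw [PowerSeries.coeff_mul]
  simp only [PowerSeries.coeff_mk]
  rw [Finset.Nat.sum_antidiagonal_eq_sum_range_succ (fun i j => sumW i a * sumW j b) m]
  unfold sumP
  refine Finset.sum_congr rfl fun i _ => ?_
  rw [← sumW_mul_right]
  refine sumW_congr i fun u _ => ?_
  rw [sumW_mul_left]

section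

variable {d : ℕ} {p : E d} {L : CVF d}

lemma op_zero : ∀ (w : Wd), op L w (fun _ => (0 : ℂ)) = fun _ => 0
  | [] => rfl
  | a :: w => by
    show op L w (act (LX L a) (fun _ => (0 : ℂ))) = _
    have : act (LX L a) (fun _ => (0 : ℂ)) = fun _ => 0 := by
      funext x; exact act_const _ _ _
    rw [this]
    exact op_zero w

lemma J_one (φ : Wd → ℂ) : J p L φ (fun _ => 1) = PowerSeries.C (φ []) := by
  ext m
  rw [J, PowerSeries.coeff_mk, PowerSeries.coeff_C]
  cases m with
  | zero => simp [sumW, op]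
  | succ m =>
    rw [if_neg (Nat.succ_ne_zero m), ← sumW_zero (m + 1)]
    refine sumW_congr (m + 1) fun w hw => ?_
    match w with
    | [] => simp at hw
    | a :: w =>
      show op L w (act (LX L a) (fun _ => (1 : ℂ))) p * _ = 0
      have : act (LX L a) (fun _ => (1 : ℂ)) = fun _ => 0 := by
        funext x; exact act_const _ _ _
      rw [this, op_zero, zero_mul]

lemma coeff_J_mul_aux (hL : Sm p L) {f g : CF d} (hf : Sm p f) (hg : Sm p g) (θ : Wd → ℂ)
    (m : ℕ) : PowerSeries.coeff m (J p L θ (fun x => f x * g x)) =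
      sumP m (fun u v => (op L u f p * op L v g p) * shf θ u v) := by
  rw [J, PowerSeries.coeff_mk, ← dual]
  refine sumW_congr m fun w _ => ?_
  rw [(op_mul hL w hf hg).self_of_nhds]

lemma J_mul_char (hL : Sm p L) {f g : CF d} (hf : Sm p f) (hg : Sm p g) {k : ℕ} {φ : Wd → ℂ}
    (hφ : IsChar k φ) {m : ℕ} (hm : m ≤ k) :
    PowerSeries.coeff m (J p L φ (fun x => f x * g x)) =
      PowerSeries.coeff m (J p L φ f * J p L φ g) := by
  rw [coeff_J_mul_aux hL hf hg, J, J, coeff_mk_mul]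
  refine sumP_congr m fun u v huv => ?_
  rw [hφ.2 u v (by omega)]
  ring

lemma J_mul_der (hL : Sm p L) {f g : CF d} (hf : Sm p f) (hg : Sm p g) {k : ℕ} {φ ψ : Wd → ℂ}
    (hψ : IsDer k φ ψ) {m : ℕ} (hm : m ≤ k) :
    PowerSeries.coeff m (J p L ψ (fun x => f x * g x)) =
      PowerSeries.coeff m (J p L ψ f * J p L φ g + J p L φ f * J p L ψ g) := by
  rw [coeff_J_mul_aux hL hf hg, map_add, J, J, J, J, coeff_mk_mul, coeff_mk_mul, ← sumP_add]
  refine sumP_congr m fun u v huv => ?_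
  rw [hψ u v (by omega)]
  ring

lemma cjVF_cjVF (X : CVF d) : cjVF (cjVF X) = X := by
  funext x i; simp [cjVF]

lemma cjVF_LX (a : Bool) : cjVF (LX L (!a)) = LX L a := by
  cases a
  · rfl
  · exact cjVF_cjVF L

lemma op_conj (hL : Sm p L) : ∀ (w : Wd) {f : CF d}, Sm p f →
    op L (cj w) (fun x => (starRingEnd ℂ) (f x)) =ᶠ[𝓝 p] fun x => (starRingEnd ℂ) (op L w f x)
  | [], _, _ => Filter.EventuallyEq.refl _ _
  | a :: w, f, hf => by
    have h1 : act (LX L (!a)) (fun x => (starRingEnd ℂ) (f x)) =ᶠ[𝓝 p]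
        fun x => (starRingEnd ℂ) (act (LX L a) f x) := by
      filter_upwards [hf.differentiableAt] with x h1
      rw [act_conj h1, cjVF_LX]
    exact (op_congr (cj w) h1).trans (op_conj hL w ((hL.LX a).act hf))

lemma coeff_J_conj (hL : Sm p L) {f : CF d} (hf : Sm p f) (φ : Wd → ℂ) (m : ℕ) :
    PowerSeries.coeff m (J p L (fun w => (starRingEnd ℂ) (φ (cj w)))
      (fun x => (starRingEnd ℂ) (f x))) =
      (starRingEnd ℂ) (PowerSeries.coeff m (J p L φ f)) := by
  rw [J, J, PowerSeries.coeff_mk, PowerSeries.coeff_mk, ← sumW_conj, ← sumW_cj]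
  refine sumW_congr m fun w _ => ?_
  rw [(op_conj hL w hf).self_of_nhds, cj_cj, map_mul]

end

/-! #### expansions up to order `k` -/

/-- `f s = A(s) + O(s^{k+1})` -/
def Ap (k : ℕ) (f : ℝ → ℂ) (A : PowerSeries ℂ) : Prop :=
  (fun s : ℝ => f s - ∑ j ∈ range (k + 1), (s : ℂ) ^ j * PowerSeries.coeff j A) =O[𝓝[>] 0]
    fun s : ℝ => s ^ (k + 1)

section

variable {k : ℕ} {f g : ℝ → ℂ} {A B : PowerSeries ℂ}

lemma Ap.congr (h : Ap k f A) (hAB : ∀ j ≤ k, PowerSeries.coeff j B = PowerSeries.coeff j A) :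
    Ap k f B := by
  unfold Ap at h ⊢
  have : ∀ s : ℝ, ∑ j ∈ range (k + 1), (s : ℂ) ^ j * PowerSeries.coeff j B =
      ∑ j ∈ range (k + 1), (s : ℂ) ^ j * PowerSeries.coeff j A := by
    intro s
    refine Finset.sum_congr rfl fun j hj => ?_
    rw [hAB j (by rw [Finset.mem_range] at hj; omega)]
  simp only [this]
  exact h

lemma Ap.congr_left (h : Ap k f A) (hfg : ∀ s, g s = f s) : Ap k g A := by
  have : g = f := funext hfg
  rwa [this]

lemma Ap.add (hf : Ap k f A) (hg : Ap k g B) : Ap k (fun s => f s + g s) (A + B) := by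
  unfold Ap at *
  refine (hf.add hg).congr_left ?_
  intro s
  simp only [map_add, mul_add, Finset.sum_add_distrib]
  ring

lemma Ap.zero : Ap k (fun _ => 0) 0 := by
  unfold Ap
  simp only [map_zero, mul_zero, Finset.sum_const_zero, sub_zero]
  exact Asymptotics.isBigO_zero _ _

lemma Ap.sum {ι : Type*} (s : Finset ι) {f : ι → ℝ → ℂ} {A : ι → PowerSeries ℂ}
    (h : ∀ i ∈ s, Ap k (f i) (A i)) : Ap k (fun t => ∑ i ∈ s, f i t) (∑ i ∈ s, A i) := by
  classical
  induction s using Finset.induction_on with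
  | empty => simpa using Ap.zero
  | insert a s ha ih =>
    rw [Finset.sum_insert ha]
    refine ((h a (by simp)).add (ih fun i hi => h i (by simp [hi]))).congr_left ?_
    intro t
    rw [Finset.sum_insert ha]

lemma Ap.const (c : ℂ) : Ap k (fun _ => c) (PowerSeries.C c) := by
  unfold Ap
  have : ∀ s : ℝ, c - ∑ j ∈ range (k + 1), (s : ℂ) ^ j * PowerSeries.coeff j (PowerSeries.C c) = 0 := by
    intro s
    rw [Finset.sum_range_succ']
    simp
  simp only [this]
  exact Asymptotics.isBigO_zero _ _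

lemma bdd_of_cont {h : ℝ → ℂ} (hc : Continuous h) : h =O[𝓝[>] 0] fun _ : ℝ => (1 : ℝ) :=
  Filter.Tendsto.isBigO_one ℝ ((hc.tendsto 0).mono_left nhdsWithin_le_nhds)

lemma Ap.bdd (h : Ap k f A) : f =O[𝓝[>] 0] fun _ : ℝ => (1 : ℝ) := by
  have h1 : (fun s : ℝ => s ^ (k + 1)) =O[𝓝[>] 0] fun _ : ℝ => (1 : ℝ) :=
    Filter.Tendsto.isBigO_one ℝ (((continuous_pow (k + 1)).tendsto (0 : ℝ)).mono_left
      nhdsWithin_le_nhds)
  have h2 : (fun s : ℝ => ∑ j ∈ range (k + 1), (s : ℂ) ^ j * PowerSeries.coeff j A) =O[𝓝[>] 0]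
      fun _ : ℝ => (1 : ℝ) := by
    refine bdd_of_cont ?_
    fun_prop
  refine ((h.trans h1).add h2).congr_left ?_
  intro s
  ring

lemma Ap.mul (hf : Ap k f A) (hg : Ap k g B) : Ap k (fun s => f s * g s) (A * B) := by
  have hA : (fun s : ℝ => ∑ j ∈ range (k + 1), (s : ℂ) ^ j * PowerSeries.coeff j A) =O[𝓝[>] 0]
      fun _ : ℝ => (1 : ℝ) := by
    refine bdd_of_cont ?_
    fun_prop
  have h1 := Asymptotics.IsBigO.mul hf hg.bdd
  have h2 := Asymptotics.IsBigO.mul hA hg
  -- the polynomial remainder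
  let Q : Polynomial ℂ := PowerSeries.trunc (k + 1) A * PowerSeries.trunc (k + 1) B -
    PowerSeries.trunc (k + 1) (A * B)
  have hQ : ∀ j < k + 1, Q.coeff j = 0 := by
    intro j hj
    rw [Polynomial.coeff_sub, PowerSeries.coeff_trunc, if_pos hj,
      PowerSeries.coeff_mul_eq_coeff_trunc_mul_trunc A B hj, ← Polynomial.coe_mul,
      Polynomial.coeff_coe, sub_self]
  obtain ⟨R, hR⟩ := Polynomial.X_pow_dvd_iff.2 hQ
  have ev : ∀ (C : PowerSeries ℂ) (s : ℝ), (PowerSeries.trunc (k + 1) C).eval (s : ℂ) =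
      ∑ j ∈ range (k + 1), (s : ℂ) ^ j * PowerSeries.coeff j C := by
    intro C s
    rw [Polynomial.eval, PowerSeries.eval₂_trunc_eq_sum_range]
    refine Finset.sum_congr rfl fun j _ => ?_
    rw [RingHom.id_apply, mul_comm]
  have h3 : (fun s : ℝ => Q.eval (s : ℂ)) =O[𝓝[>] 0] fun s : ℝ => s ^ (k + 1) := by
    have hRb : (fun s : ℝ => R.eval (s : ℂ)) =O[𝓝[>] 0] fun _ : ℝ => (1 : ℝ) := by
      refine bdd_of_cont ?_
      exact R.continuous.comp Complex.continuous_ofReal
    have hs : (fun s : ℝ => (s : ℂ) ^ (k + 1)) =O[𝓝[>] 0] fun s : ℝ => s ^ (k + 1) := by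
      refine Asymptotics.IsBigO.of_bound 1 (Filter.Eventually.of_forall fun s => ?_)
      rw [one_mul, norm_pow, norm_pow, Complex.norm_real]
    refine (hs.mul hRb).congr ?_ ?_
    · intro s
      rw [hR, Polynomial.eval_mul, Polynomial.eval_pow, Polynomial.eval_X]
    · intro s
      simp
  unfold Ap
  refine ((h1.congr_right ?_).add ((h2.congr_right ?_).add h3)).congr_left ?_
  · intro s; simp
  · intro s; simp
  · intro s
    simp only [Q, Polynomial.eval_sub, Polynomial.eval_mul, ev]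
    ring

end

/-! #### monomials -/

section

variable {d m : ℕ} {p : E d} {L : CVF d} {k : ℕ} {φ ψ : Wd → ℂ} {ι : Fin m → Fin m ⊕ Fin m}
  {z : ℝ → Fin m ⊕ Fin m → ℂ} {w : ℝ → Fin m → ℂ}

/-- the germ `f` represents the polynomial `P` -/
def Gd (p : E d) (L : CVF d) (k : ℕ) (φ ψ : Wd → ℂ) (ι : Fin m → Fin m ⊕ Fin m)
    (z : ℝ → Fin m ⊕ Fin m → ℂ) (w : ℝ → Fin m → ℂ) (P : Pol m) (f : CF d) : Prop :=
  Sm p f ∧ Ap k (fun s => MvPolynomial.eval (z s) P) (J p L φ f) ∧
  Ap k (fun s => ∑ i, MvPolynomial.eval (z s) (MvPolynomial.pderiv (ι i) P) * w s i) (J p L ψ f)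

lemma Gd.one (hφ : IsChar k φ) (hψ : IsDer k φ ψ) :
    Gd p L k φ ψ ι z w 1 (fun _ => 1) := by
  refine ⟨Sm.const 1, ?_, ?_⟩
  · rw [J_one, hφ.1]
    simpa using Ap.const (k := k) 1
  · rw [J_one, IsDer.nil hφ hψ]
    simpa using Ap.const (k := k) 0

lemma Gd.mul (hL : Sm p L) (hφ : IsChar k φ) (hψ : IsDer k φ ψ) {P Q : Pol m} {f g : CF d}
    (hP : Gd p L k φ ψ ι z w P f) (hQ : Gd p L k φ ψ ι z w Q g) :
    Gd p L k φ ψ ι z w (P * Q) (fun x => f x * g x) := by
  refine ⟨hP.1.mul hQ.1, ?_, ?_⟩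
  · refine ((hP.2.1.mul hQ.2.1).congr fun j hj => J_mul_char hL hP.1 hQ.1 hφ hj).congr_left ?_
    intro s
    rw [map_mul]
  · refine (((hP.2.2.mul hQ.2.1).add (hP.2.1.mul hQ.2.2)).congr
      fun j hj => J_mul_der hL hP.1 hQ.1 hψ hj).congr_left ?_
    intro s
    simp only [MvPolynomial.pderiv_mul, map_add, map_mul, Finset.sum_mul, Finset.mul_sum,
      ← Finset.sum_add_distrib]
    refine Finset.sum_congr rfl fun i _ => ?_
    ring

lemma Gd.pow (hL : Sm p L) (hφ : IsChar k φ) (hψ : IsDer k φ ψ) {P : Pol m} {f : CF d}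
    (hP : Gd p L k φ ψ ι z w P f) : ∀ n : ℕ, Gd p L k φ ψ ι z w (P ^ n) (fun x => f x ^ n)
  | 0 => by simpa using Gd.one hφ hψ
  | n + 1 => by
    have := Gd.mul hL hφ hψ (Gd.pow hL hφ hψ hP n) hP
    simpa only [← pow_succ] using this

lemma Gd.prod (hL : Sm p L) (hφ : IsChar k φ) (hψ : IsDer k φ ψ) {κ : Type*} (S : Finset κ)
    {P : κ → Pol m} {f : κ → CF d} (hP : ∀ i ∈ S, Gd p L k φ ψ ι z w (P i) (f i)) :
    Gd p L k φ ψ ι z w (∏ i ∈ S, P i) (fun x => ∏ i ∈ S, f i x) := by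
  classical
  induction S using Finset.induction_on with
  | empty => simpa using Gd.one hφ hψ
  | insert a s ha ih =>
    have := Gd.mul hL hφ hψ (hP a (by simp)) (ih fun i hi => hP i (by simp [hi]))
    simpa only [Finset.prod_insert ha] using this

lemma Gd.X (hι : Function.Injective ι) {F : Fin m → CF d} (hF : ∀ i, Sm p (F i))
    (hz : ∀ i, Ap k (fun s => z s (ι i)) (J p L φ (F i)))
    (hw : ∀ i, Ap k (fun s => w s i) (J p L ψ (F i))) (i : Fin m) :
    Gd p L k φ ψ ι z w (MvPolynomial.X (ι i)) (F i) := by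
  refine ⟨hF i, ?_, ?_⟩
  · simpa using hz i
  · refine (hw i).congr_left ?_
    intro s
    rw [Finset.sum_eq_single i]
    · rw [MvPolynomial.pderiv_X_self, map_one, one_mul]
    · intro b _ hb
      rw [MvPolynomial.pderiv_X_of_ne (fun h => hb (hι h).symm), map_zero, zero_mul]
    · intro h; exact absurd (Finset.mem_univ i) h

end

lemma pderiv_prod_zero {m : ℕ} {a : Fin m ⊕ Fin m} (ι : Fin m → Fin m ⊕ Fin m)
    (h : ∀ i, ι i ≠ a) (e : Fin m → ℕ) :
    MvPolynomial.pderiv a (∏ i, (MvPolynomial.X (ι i) : Pol m) ^ e i) = 0 := by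
  classical
  refine Finset.prod_induction _ (fun P => MvPolynomial.pderiv a P = 0) ?_ ?_ ?_
  · intro P Q hP hQ
    rw [MvPolynomial.pderiv_mul, hP, hQ]; simp
  · exact MvPolynomial.pderiv_one
  · intro i _
    rw [MvPolynomial.pderiv_pow, MvPolynomial.pderiv_X_of_ne (h i)]; simp

lemma pderiv_comm {m : ℕ} (a b : Fin m ⊕ Fin m) (P : Pol m) :
    MvPolynomial.pderiv a (MvPolynomial.pderiv b P) =
      MvPolynomial.pderiv b (MvPolynomial.pderiv a P) := by
  have h : ⁅(MvPolynomial.pderiv a : Derivation ℂ (Pol m) (Pol m)),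
      (MvPolynomial.pderiv b : Derivation ℂ (Pol m) (Pol m))⁆ = 0 := by
    refine MvPolynomial.derivation_ext fun i => ?_
    rw [Derivation.commutator_apply, MvPolynomial.pderiv_X, MvPolynomial.pderiv_X]
    have : ∀ c d' : Fin m ⊕ Fin m, ∀ q : Fin m ⊕ Fin m, MvPolynomial.pderiv d'
        ((Pi.single c 1 : Fin m ⊕ Fin m → Pol m) q) = 0 := by
      intro c d' q
      by_cases hq : q = c
      · subst hq; simp
      · simp [hq]
    rw [this, this]; simp
  have h2 := congrArg (fun D => D P) h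
  simp only [Derivation.commutator_apply, Derivation.zero_apply] at h2
  exact sub_eq_zero.1 h2

end XQ

namespace XQ

section

variable {d m : ℕ} {p : E d} {L : CVF d} {k : ℕ}

lemma jet_ap (Z : Fin m → CF d) (θ : Wd → ℂ) (i : Fin m) :
    Ap k (fun s => jet p L Z k θ s i) (J p L θ (Z i)) := by
  unfold Ap
  have : ∀ s : ℝ, jet p L Z k θ s i -
      ∑ j ∈ range (k + 1), (s : ℂ) ^ j * PowerSeries.coeff j (J p L θ (Z i)) = 0 := by
    intro s
    simp only [jet, J, PowerSeries.coeff_mk, sub_self]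
  simp only [this]
  exact Asymptotics.isBigO_zero _ _

lemma jet_ap_conj (hL : Sm p L) {Z : Fin m → CF d} (hZ : ∀ i, Sm p (Z i)) (θ : Wd → ℂ)
    (i : Fin m) :
    Ap k (fun s => (starRingEnd ℂ) (jet p L Z k θ s i))
      (J p L (fun w => (starRingEnd ℂ) (θ (cj w))) (fun x => (starRingEnd ℂ) (Z i x))) := by
  unfold Ap
  have : ∀ s : ℝ, (starRingEnd ℂ) (jet p L Z k θ s i) -
      ∑ j ∈ range (k + 1), (s : ℂ) ^ j * PowerSeries.coeff j
        (J p L (fun w => (starRingEnd ℂ) (θ (cj w))) (fun x => (starRingEnd ℂ) (Z i x))) = 0 := by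
    intro s
    rw [sub_eq_zero, jet, map_sum]
    refine Finset.sum_congr rfl fun j _ => ?_
    rw [coeff_J_conj hL (hZ i), map_mul, map_pow, Complex.conj_ofReal, J, PowerSeries.coeff_mk]
  simp only [this]
  exact Asymptotics.isBigO_zero _ _

/-- holomorphic part of a monomial -/
noncomputable def mA (e : Fin m ⊕ Fin m →₀ ℕ) : Pol m :=
  ∏ i, (MvPolynomial.X (Sum.inl i) : Pol m) ^ e (Sum.inl i)

/-- antiholomorphic part of a monomial -/
noncomputable def mB (e : Fin m ⊕ Fin m →₀ ℕ) : Pol m :=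
  ∏ i, (MvPolynomial.X (Sum.inr i) : Pol m) ^ e (Sum.inr i)

lemma mono_eq (e : Fin m ⊕ Fin m →₀ ℕ) (c : ℂ) :
    MvPolynomial.monomial e c = MvPolynomial.C c * (mA e * mB e) := by
  rw [MvPolynomial.monomial_eq, Finsupp.prod_fintype _ _ (fun i => pow_zero _),
    Fintype.prod_sum_type]
  rfl

lemma dz_mB (e : Fin m ⊕ Fin m →₀ ℕ) (i : Fin m) : dz i (mB e) = 0 :=
  pderiv_prod_zero Sum.inr (by simp) _

lemma dzb_mA (e : Fin m ⊕ Fin m →₀ ℕ) (l : Fin m) : dzb l (mA e) = 0 :=
  pderiv_prod_zero Sum.inl (by simp) _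

lemma pol_eq (P : Pol m) :
    P = ∑ e ∈ P.support, MvPolynomial.C (P.coeff e) * (mA e * mB e) := by
  conv_lhs => rw [← MvPolynomial.support_sum_monomial_coeff P]
  exact Finset.sum_congr rfl fun e _ => mono_eq e _

lemma dz_eq (P : Pol m) (i : Fin m) :
    dz i P = ∑ e ∈ P.support, MvPolynomial.C (P.coeff e) * (dz i (mA e) * mB e) := by
  conv_lhs => rw [pol_eq P]
  rw [dz, map_sum]
  refine Finset.sum_congr rfl fun e _ => ?_
  rw [MvPolynomial.pderiv_C_mul, MvPolynomial.pderiv_mul]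
  have := dz_mB e i
  rw [dz] at this
  rw [this, mul_zero, add_zero]
  rfl

lemma dzb_dz_eq (P : Pol m) (i l : Fin m) :
    dzb l (dz i P) = ∑ e ∈ P.support, MvPolynomial.C (P.coeff e) *
      (dz i (mA e) * dzb l (mB e)) := by
  rw [dz_eq P i, dzb, map_sum]
  refine Finset.sum_congr rfl fun e _ => ?_
  rw [MvPolynomial.pderiv_C_mul, MvPolynomial.pderiv_mul]
  have : MvPolynomial.pderiv (Sum.inr l) (dz i (mA e)) = 0 := by
    have h := dzb_mA e l
    rw [dzb] at h
    rw [dz, pderiv_comm, h, map_zero]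
  rw [this, zero_mul, zero_add]
  rfl

lemma coeff_main (Z : Fin m → CF d) (P : Pol m) (α β : Wd → ℂ) (j : ℕ) :
    PowerSeries.coeff j (∑ e ∈ P.support, PowerSeries.C (P.coeff e) *
      (J p L α (fun x => ∏ i, Z i x ^ e (Sum.inl i)) *
        J p L β (fun x => ∏ i, (starRingEnd ℂ) (Z i x) ^ e (Sum.inr i)))) =
      sumP j (fun u v => Rd p L Z P u v * α u * β v) := by
  rw [map_sum]
  have : ∀ u v : Wd, Rd p L Z P u v * α u * β v = ∑ e ∈ P.support, P.coeff e *
      ((op L u (fun x => ∏ i, Z i x ^ e (Sum.inl i)) p * α u) *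
        (op L v (fun x => ∏ i, (starRingEnd ℂ) (Z i x) ^ e (Sum.inr i)) p * β v)) := by
    intro u v
    rw [Rd, Finset.sum_mul, Finset.sum_mul]
    refine Finset.sum_congr rfl fun e _ => ?_
    ring
  simp only [this]
  rw [sumP_sum]
  refine Finset.sum_congr rfl fun e _ => ?_
  rw [PowerSeries.coeff_C_mul, sumP_mul_left, J, J, coeff_mk_mul]

end

end XQ

/-- JC1 -/
theorem expansion {d m : ℕ} {p : E d} (L : CVF d) (hL : Sm p L) (Z : Fin m → CF d)
    (hZ : ∀ i, Sm p (Z i)) (P : Pol m) (k : ℕ)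
    (φ ψ : Wd → ℂ) (hφ : IsChar k φ) (hψ : IsDer k φ ψ) :
    ((fun s : ℝ => peval P (jet p L Z k φ s) -
        ∑ j ∈ range (k + 1), (s : ℂ) ^ j * sumP j (fun u v => Rd p L Z P u v * φ u *
          (starRingEnd ℂ) (φ (cj v)))) =O[𝓝[>] 0] fun s : ℝ => s ^ (k + 1)) ∧
    ((fun s : ℝ => (∑ i, peval (dz i P) (jet p L Z k φ s) * jet p L Z k ψ s i) -
        ∑ j ∈ range (k + 1), (s : ℂ) ^ j * sumP j (fun u v => Rd p L Z P u v * ψ u *
          (starRingEnd ℂ) (φ (cj v)))) =O[𝓝[>] 0] fun s : ℝ => s ^ (k + 1)) ∧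
    ((fun s : ℝ => (∑ i, ∑ l, peval (dzb l (dz i P)) (jet p L Z k φ s) * jet p L Z k ψ s i *
          (starRingEnd ℂ) (jet p L Z k ψ s l)) -
        ∑ j ∈ range (k + 1), (s : ℂ) ^ j * sumP j (fun u v => Rd p L Z P u v * ψ u *
          (starRingEnd ℂ) (ψ (cj v)))) =O[𝓝[>] 0] fun s : ℝ => s ^ (k + 1)) := by
  set z : ℝ → Fin m ⊕ Fin m → ℂ := fun s => Sum.elim (jet p L Z k φ s)
    (fun i => (starRingEnd ℂ) (jet p L Z k φ s i)) with hz
  have hpe : ∀ (Q : Pol m) (s : ℝ), peval Q (jet p L Z k φ s) = MvPolynomial.eval (z s) Q :=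
    fun _ _ => rfl
  have hφ' := XQ.IsChar.cj hφ
  have hψ' := XQ.IsDer.cj hψ
  set φ' : Wd → ℂ := fun w => (starRingEnd ℂ) (φ (cj w)) with hφ'def
  set ψ' : Wd → ℂ := fun w => (starRingEnd ℂ) (ψ (cj w)) with hψ'def
  have GA : ∀ e : Fin m ⊕ Fin m →₀ ℕ, XQ.Gd p L k φ ψ Sum.inl z (fun s => jet p L Z k ψ s)
      (XQ.mA e) (fun x => ∏ i, Z i x ^ e (Sum.inl i)) := by
    intro e
    refine XQ.Gd.prod hL hφ hψ Finset.univ fun i _ => XQ.Gd.pow hL hφ hψ ?_ _
    exact XQ.Gd.X Sum.inl_injective hZ (fun i => XQ.jet_ap Z φ i) (fun i => XQ.jet_ap Z ψ i) i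
  have GB : ∀ e : Fin m ⊕ Fin m →₀ ℕ, XQ.Gd p L k φ' ψ' Sum.inr z
      (fun s i => (starRingEnd ℂ) (jet p L Z k ψ s i))
      (XQ.mB e) (fun x => ∏ i, (starRingEnd ℂ) (Z i x) ^ e (Sum.inr i)) := by
    intro e
    refine XQ.Gd.prod hL hφ' hψ' Finset.univ fun i _ => XQ.Gd.pow hL hφ' hψ' ?_ _
    exact XQ.Gd.X (F := fun i x => (starRingEnd ℂ) (Z i x)) Sum.inr_injective
      (fun i => (hZ i).conj) (fun i => XQ.jet_ap_conj hL hZ φ i)
      (fun i => XQ.jet_ap_conj hL hZ ψ i) i
  refine ⟨?_, ?_, ?_⟩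
  · have h : XQ.Ap k (fun s => peval P (jet p L Z k φ s)) (∑ e ∈ P.support,
        PowerSeries.C (P.coeff e) * (XQ.J p L φ (fun x => ∏ i, Z i x ^ e (Sum.inl i)) *
        XQ.J p L φ' (fun x => ∏ i, (starRingEnd ℂ) (Z i x) ^ e (Sum.inr i)))) := by
      refine (XQ.Ap.sum P.support fun e _ => (XQ.Ap.const (P.coeff e)).mul
        ((GA e).2.1.mul (GB e).2.1)).congr_left ?_
      intro s
      rw [hpe]
      conv_lhs => rw [XQ.pol_eq P]
      simp only [map_sum, map_mul, MvPolynomial.eval_C]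
    unfold XQ.Ap at h
    simp only [XQ.coeff_main] at h
    exact h
  · have h : XQ.Ap k (fun s => ∑ i, peval (dz i P) (jet p L Z k φ s) * jet p L Z k ψ s i)
        (∑ e ∈ P.support, PowerSeries.C (P.coeff e) *
        (XQ.J p L ψ (fun x => ∏ i, Z i x ^ e (Sum.inl i)) *
        XQ.J p L φ' (fun x => ∏ i, (starRingEnd ℂ) (Z i x) ^ e (Sum.inr i)))) := by
      refine (XQ.Ap.sum P.support fun e _ => (XQ.Ap.const (P.coeff e)).mul
        ((GA e).2.2.mul (GB e).2.1)).congr_left ?_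
      intro s
      simp only [hpe]
      have : ∀ i, MvPolynomial.eval (z s) (dz i P) * jet p L Z k ψ s i =
          ∑ e ∈ P.support, P.coeff e * (MvPolynomial.eval (z s) (dz i (XQ.mA e)) *
            jet p L Z k ψ s i * MvPolynomial.eval (z s) (XQ.mB e)) := by
        intro i
        rw [XQ.dz_eq P i]
        simp only [map_sum, map_mul, MvPolynomial.eval_C, Finset.sum_mul]
        refine Finset.sum_congr rfl fun e _ => ?_
        ring
      simp only [this]
      rw [Finset.sum_comm]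
      refine Finset.sum_congr rfl fun e _ => ?_
      rw [← Finset.mul_sum, ← Finset.sum_mul]
      rfl
    unfold XQ.Ap at h
    simp only [XQ.coeff_main] at h
    exact h
  · have h : XQ.Ap k (fun s => ∑ i, ∑ l, peval (dzb l (dz i P)) (jet p L Z k φ s) *
          jet p L Z k ψ s i * (starRingEnd ℂ) (jet p L Z k ψ s l))
        (∑ e ∈ P.support, PowerSeries.C (P.coeff e) *
        (XQ.J p L ψ (fun x => ∏ i, Z i x ^ e (Sum.inl i)) *
        XQ.J p L ψ' (fun x => ∏ i, (starRingEnd ℂ) (Z i x) ^ e (Sum.inr i)))) := by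
      refine (XQ.Ap.sum P.support fun e _ => (XQ.Ap.const (P.coeff e)).mul
        ((GA e).2.2.mul (GB e).2.2)).congr_left ?_
      intro s
      simp only [hpe]
      have : ∀ i l, MvPolynomial.eval (z s) (dzb l (dz i P)) * jet p L Z k ψ s i *
          (starRingEnd ℂ) (jet p L Z k ψ s l) =
          ∑ e ∈ P.support, P.coeff e * ((MvPolynomial.eval (z s) (dz i (XQ.mA e)) *
            jet p L Z k ψ s i) * (MvPolynomial.eval (z s) (dzb l (XQ.mB e)) *
            (starRingEnd ℂ) (jet p L Z k ψ s l))) := by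
        intro i l
        rw [XQ.dzb_dz_eq P i l]
        simp only [map_sum, map_mul, MvPolynomial.eval_C, Finset.sum_mul]
        refine Finset.sum_congr rfl fun e _ => ?_
        ring
      simp only [this]
      have h2 : ∀ i, (∑ l, ∑ e ∈ P.support, P.coeff e *
          ((MvPolynomial.eval (z s) (dz i (XQ.mA e)) *
            jet p L Z k ψ s i) * (MvPolynomial.eval (z s) (dzb l (XQ.mB e)) *
            (starRingEnd ℂ) (jet p L Z k ψ s l)))) =
          ∑ e ∈ P.support, P.coeff e * ((MvPolynomial.eval (z s) (dz i (XQ.mA e)) *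
            jet p L Z k ψ s i) * ∑ l, (MvPolynomial.eval (z s) (dzb l (XQ.mB e)) *
            (starRingEnd ℂ) (jet p L Z k ψ s l))) := by
        intro i
        rw [Finset.sum_comm]
        refine Finset.sum_congr rfl fun e _ => ?_
        rw [← Finset.mul_sum, ← Finset.mul_sum]
      simp only [h2]
      rw [Finset.sum_comm]
      refine Finset.sum_congr rfl fun e _ => ?_
      rw [← Finset.mul_sum, ← Finset.sum_mul]
      rfl
    unfold XQ.Ap at h
    simp only [XQ.coeff_main] at h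
    exact h


end DAng
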