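import Pool.Agent.DAng.Main1

open scoped ContDiff Topology BigOperators
open Finset Asymptotics

namespace DAng

/-! ### CR structures of hypersurface type on open subsets of `ℝ^{2n+1}` -/

/-- smooth sections of `T10` over `V` -/
def IsSection {d : ℕ} (T10 : E d → Submodule ℂ (Fin d → ℂ)) (V : Set (E d)) (X : CVF d) : Prop :=
  ContDiffOn ℝ ∞ X V ∧ ∀ x ∈ V, X x ∈ T10 x

/-- `T10` is a CR structure of hypersurface type on the open set `U ⊆ ℝ^{2n+1}`: a smooth
subbundle of complex rank `n` of the complexified tangent bundle, meeting its conjugate trivially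
and closed under Lie brackets -/
structure IsCR (n : ℕ) (U : Set (E (2 * n + 1)))
    (T10 : E (2 * n + 1) → Submodule ℂ (Fin (2 * n + 1) → ℂ)) : Prop where
  isOpen : IsOpen U
  rank : ∀ x ∈ U, Module.finrank ℂ (T10 x) = n
  disj : ∀ x ∈ U, ∀ v ∈ T10 x, (fun i => (starRingEnd ℂ) (v i)) ∈ T10 x → v = 0
  smooth : ∀ x ∈ U, ∃ V, IsOpen V ∧ x ∈ V ∧ V ⊆ U ∧ ∃ K : Fin n → CVF (2 * n + 1),
    (∀ j, ContDiffOn ℝ ∞ (K j) V) ∧
      ∀ y ∈ V, T10 y = Submodule.span ℂ (Set.range fun j => K j y)
  integrable : ∀ V, IsOpen V → V ⊆ U → ∀ X Y, IsSection T10 V X → IsSection T10 V Y →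
    ∀ x ∈ V, lieBr X Y x ∈ T10 x

/-- nonvanishing real one forms annihilating `T10` (hence also its conjugate) -/
structure IsContact {d : ℕ} (U : Set (E d)) (T10 : E d → Submodule ℂ (Fin d → ℂ))
    (η : E d → Fin d → ℝ) : Prop where
  smooth : ContDiffOn ℝ ∞ η U
  ne : ∀ x ∈ U, η x ≠ 0
  ann : ∀ x ∈ U, ∀ v ∈ T10 x, ∑ i, (η x i : ℂ) * v i = 0

/-- pseudoconvexity: `i η([X, X̄]) ≥ 0` for all (1,0) fields, for some choice of `η` -/
def IsPseudoconvex {d : ℕ} (U : Set (E d)) (T10 : E d → Submodule ℂ (Fin d → ℂ)) : Prop :=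
  ∃ η : E d → Fin d → ℝ, IsContact U T10 η ∧ ∀ V, IsOpen V → V ⊆ U → ∀ X, IsSection T10 V X →
    ∀ x ∈ V, 0 ≤ (Complex.I * pair η (lieBr X (cjVF X)) x).re

/-- commutator type `t(L,p)`: the head of the word is the last (outermost) field -/
noncomputable def tType {d : ℕ} (η : E d → Fin d → ℝ) (L : CVF d) (p : E d) : ℕ∞ :=
  sInf {k : ℕ∞ | ∃ w : List Bool, 2 ≤ w.length ∧ ((w.length : ℕ) : ℕ∞) = k ∧
    pair η (brVF L w) p ≠ 0}

/-- Levi form type `c(L,p)` -/
noncomputable def cType {d : ℕ} (η : E d → Fin d → ℝ) (L : CVF d) (p : E d) : ℕ∞ :=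
  sInf {k : ℕ∞ | ∃ w : List Bool, ((w.length + 2 : ℕ) : ℕ∞) = k ∧
    op L w (pair η (lieBr L (cjVF L))) p ≠ 0}

/-! ### from the global data to germs -/

lemma Sm.of_contDiffOn {d : ℕ} {F : Type*} [NormedAddCommGroup F] [NormedSpace ℝ F] {p : E d}
    {V : Set (E d)} {f : E d → F} (hV : IsOpen V) (hp : p ∈ V) (h : ContDiffOn ℝ ∞ f V) : Sm p f := by
  filter_upwards [hV.mem_nhds hp] with x hx
  exact (h x hx).contDiffAt (hV.mem_nhds hx)

lemma act_smul_field {d : ℕ} (c : ℂ) (X : CVF d) (f : CF d) (x : E d) :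
    act (fun y i => c * X y i) f x = c * act X f x := by
  simp only [act, Finset.mul_sum]
  exact Finset.sum_congr rfl fun i _ => by ring

lemma act_sum_field {d : ℕ} {ι : Type*} (s : Finset ι) (c : ι → ℂ) (X : ι → CVF d) (f : CF d)
    (x : E d) :
    act (fun y i => ∑ a ∈ s, c a * X a y i) f x = ∑ a ∈ s, c a * act (X a) f x := by
  simp only [act, Finset.sum_mul, Finset.mul_sum]
  rw [Finset.sum_comm]
  exact Finset.sum_congr rfl fun a _ => Finset.sum_congr rfl fun i _ => by ring

lemma act_const_mul {d : ℕ} (c : ℂ) (X : CVF d) {f : CF d} {x : E d}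
    (hf : DifferentiableAt ℝ f x) :
    act X (fun y => c * f y) x = c * act X f x := by
  rw [act_mul (differentiableAt_const c) hf, act_const]; ring

/-- bilinearity of the bracket for constant coefficients -/
lemma pair_lieBr_sum {d n : ℕ} (η : E d → Fin d → ℝ) (K : Fin n → CVF d) (κ : Fin n → ℂ) {x : E d}
    (hK : ∀ a i, DifferentiableAt ℝ (fun y => K a y i) x) :
    pair η (lieBr (fun y i => ∑ a, κ a * K a y i) (cjVF (fun y i => ∑ a, κ a * K a y i))) x =
      ∑ a, ∑ b, κ a * (starRingEnd ℂ) (κ b) * pair η (lieBr (K a) (cjVF (K b))) x := by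
  have hcj : cjVF (fun y i => ∑ a, κ a * K a y i) =
      fun y i => ∑ a, (starRingEnd ℂ) (κ a) * cjVF (K a) y i := by
    funext y i; simp [cjVF]
  have hKc : ∀ a i, DifferentiableAt ℝ (fun y => cjVF (K a) y i) x := by
    intro a i
    exact (Complex.conjCLE.differentiableAt).comp x (hK a i)
  rw [hcj]
  have hlb : ∀ i, lieBr (fun y i => ∑ a, κ a * K a y i)
      (fun y i => ∑ a, (starRingEnd ℂ) (κ a) * cjVF (K a) y i) x i =
      ∑ a, ∑ b, κ a * (starRingEnd ℂ) (κ b) * lieBr (K a) (cjVF (K b)) x i := by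
    intro i
    simp only [lieBr]
    rw [act_sum_field, act_sum_field]
    have e1 : ∀ a, act (K a) (fun y => ∑ b, (starRingEnd ℂ) (κ b) * cjVF (K b) y i) x =
        ∑ b, (starRingEnd ℂ) (κ b) * act (K a) (fun y => cjVF (K b) y i) x := by
      intro a
      rw [act_sum fun b _ => (hKc b i).const_mul _]
      exact Finset.sum_congr rfl fun b _ => act_const_mul _ _ (hKc b i)
    have e2 : ∀ a, act (cjVF (K a)) (fun y => ∑ b, κ b * K b y i) x =
        ∑ b, κ b * act (cjVF (K a)) (fun y => K b y i) x := by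
      intro a
      rw [act_sum fun b _ => (hK b i).const_mul _]
      exact Finset.sum_congr rfl fun b _ => act_const_mul _ _ (hK b i)
    simp only [e1, e2]
    rw [show ∑ a, (starRingEnd ℂ) (κ a) * ∑ b, κ b * act (cjVF (K a)) (fun y => K b y i) x =
      ∑ b, ∑ a, κ b * (starRingEnd ℂ) (κ a) * act (cjVF (K a)) (fun y => K b y i) x by
        rw [Finset.sum_comm]
        refine Finset.sum_congr rfl fun a _ => ?_
        rw [Finset.mul_sum]
        exact Finset.sum_congr rfl fun b _ => by ring]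
    rw [← Finset.sum_sub_distrib]
    refine Finset.sum_congr rfl fun a _ => ?_
    rw [Finset.mul_sum, ← Finset.sum_sub_distrib]
    exact Finset.sum_congr rfl fun b _ => by ring
  simp only [pair, hlb, Finset.mul_sum]
  rw [Finset.sum_comm]
  refine Finset.sum_congr rfl fun a _ => ?_
  rw [Finset.sum_comm]
  exact Finset.sum_congr rfl fun b _ => Finset.sum_congr rfl fun i _ => by ring

lemma indep_of_disj {d n : ℕ} {T : Submodule ℂ (Fin d → ℂ)} (hr : Module.finrank ℂ T = n)
    (hd : ∀ v ∈ T, (fun i => (starRingEnd ℂ) (v i)) ∈ T → v = 0) (K : Fin n → Fin d → ℂ)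
    (hK : T = Submodule.span ℂ (Set.range K)) :
    LinearIndependent ℂ (Sum.elim K (fun j => fun i => (starRingEnd ℂ) (K j i))) := by
  have hKi : LinearIndependent ℂ K := by
    rw [linearIndependent_iff_card_eq_finrank_span]
    rw [Set.finrank, ← hK, hr]; simp
  rw [Fintype.linearIndependent_iff]
  intro g hg
  rw [Fintype.sum_sum_type] at hg
  simp only [Sum.elim_inl, Sum.elim_inr] at hg
  -- v = ∑ g_inl K, w = ∑ conj(g_inr) K, v + conj w = 0
  set v : Fin d → ℂ := ∑ j, g (Sum.inl j) • K j with hv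
  set w : Fin d → ℂ := ∑ j, (starRingEnd ℂ) (g (Sum.inr j)) • K j with hw
  have hvT : v ∈ T := by
    rw [hK, hv]
    exact Submodule.sum_mem _ fun j _ => Submodule.smul_mem _ _ (Submodule.subset_span ⟨j, rfl⟩)
  have hwT : w ∈ T := by
    rw [hK, hw]
    exact Submodule.sum_mem _ fun j _ => Submodule.smul_mem _ _ (Submodule.subset_span ⟨j, rfl⟩)
  have hcw : (∑ j, g (Sum.inr j) • (fun i => (starRingEnd ℂ) (K j i)) : Fin d → ℂ) =
      fun i => (starRingEnd ℂ) (w i) := by
    funext i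
    simp [hw, Finset.sum_apply]
  rw [hcw] at hg
  have hcv : (fun i => (starRingEnd ℂ) (v i)) = -w := by
    funext i
    have := congrFun hg i
    simp only [Pi.add_apply, Pi.zero_apply] at this
    have h2 : v i = - (starRingEnd ℂ) (w i) := by linear_combination this
    rw [h2]; simp
  have hv0 : v = 0 := hd v hvT (by rw [hcv]; exact Submodule.neg_mem _ hwT)
  have hw0 : w = 0 := by
    have : -w = fun i => (starRingEnd ℂ) (v i) := hcv.symm
    rw [hv0] at this
    have h3 : -w = 0 := by rw [this]; funext i; simp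
    simpa using h3
  have g1 := Fintype.linearIndependent_iff.1 hKi (fun j => g (Sum.inl j)) hv0
  have g2 := Fintype.linearIndependent_iff.1 hKi (fun j => (starRingEnd ℂ) (g (Sum.inr j))) hw0
  rintro (j | j)
  · exact g1 j
  · have := g2 j
    simpa using this

/-- the germ of a pseudoconvex CR structure -/
theorem exists_LCR {n : ℕ} {U : Set (E (2 * n + 1))}
    {T10 : E (2 * n + 1) → Submodule ℂ (Fin (2 * n + 1) → ℂ)} (h : IsCR n U T10)
    {η : E (2 * n + 1) → Fin (2 * n + 1) → ℝ} (hη : IsContact U T10 η)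
    (hps : ∀ V, IsOpen V → V ⊆ U → ∀ X, IsSection T10 V X →
      ∀ x ∈ V, 0 ≤ (Complex.I * pair η (lieBr X (cjVF X)) x).re)
    {p : E (2 * n + 1)} (hp : p ∈ U) :
    ∃ C : LCR n p, C.η = η ∧ ∀ᶠ x in 𝓝 p, T10 x = Submodule.span ℂ (Set.range fun l => C.K l x) := by
  obtain ⟨V, hVo, hpV, hVU, K, hKs, hKspan⟩ := h.smooth p hp
  have hV : ∀ᶠ x in 𝓝 p, x ∈ V := hVo.mem_nhds hpV
  have hmem : ∀ j, ∀ y ∈ V, K j y ∈ T10 y := fun j y hy => by
    rw [hKspan y hy]; exact Submodule.subset_span ⟨j, rfl⟩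
  refine ⟨{ K := K, η := η, smK := fun j => Sm.of_contDiffOn hVo hpV (hKs j),
            smη := Sm.of_contDiffOn h.isOpen hp hη.smooth,
            indep := indep_of_disj (h.rank p hp) (h.disj p hp) (fun j => K j p) (hKspan p hpV),
            ann := ?_, ne := hη.ne p hp, integ := ?_, psc := ?_ }, rfl, ?_⟩
  · intro j
    filter_upwards [hV] with x hx
    exact hη.ann x (hVU hx) _ (hmem j x hx)
  · intro i j
    filter_upwards [hV] with x hx
    rw [← hKspan x hx]
    exact h.integrable V hVo hVU (K i) (K j) ⟨hKs i, hmem i⟩ ⟨hKs j, hmem j⟩ x hx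
  · filter_upwards [hV] with x hx κ
    have hsec : IsSection T10 V (fun y i => ∑ a, κ a * K a y i) := by
      refine ⟨?_, fun y hy => ?_⟩
      · refine contDiffOn_pi.2 fun i => ?_
        refine ContDiffOn.sum fun a _ => contDiffOn_const.mul ?_
        exact (contDiffOn_pi.1 (hKs a)) i
      · have e : (fun i => ∑ a, κ a * K a y i) = ∑ a, κ a • K a y := by
          funext i; simp [Finset.sum_apply]
        show (fun i => ∑ a, κ a * K a y i) ∈ T10 y
        rw [e]
        exact Submodule.sum_mem _ fun a _ => Submodule.smul_mem _ _ (hmem a y hy)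
    have := hps V hVo hVU _ hsec x hx
    rw [pair_lieBr_sum] at this
    · exact this
    · intro a i
      exact ((contDiffOn_pi.1 (hKs a) i x hx).contDiffAt (hVo.mem_nhds hx)).differentiableAt (by simp)
  · filter_upwards [hV] with x hx using hKspan x hx


/-! ### independence of the contact form -/

/-- two contact forms are proportional -/
lemma contact_prop {n : ℕ} {U : Set (E (2 * n + 1))}
    {T10 : E (2 * n + 1) → Submodule ℂ (Fin (2 * n + 1) → ℂ)} (h : IsCR n U T10)
    {η η0 : E (2 * n + 1) → Fin (2 * n + 1) → ℝ} (hη : IsContact U T10 η)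
    (hη0 : IsContact U T10 η0) {x : E (2 * n + 1)} (hx : x ∈ U) :
    ∃ c : ℝ, c ≠ 0 ∧ ∀ i, η x i = c * η0 x i := by
  obtain ⟨V, hVo, hpV, hVU, K, hKs, hKspan⟩ := h.smooth x hx
  have hind := indep_of_disj (h.rank x hx) (h.disj x hx) (fun j => K j x) (hKspan x hpV)
  -- annihilators
  let B : Fin n ⊕ Fin n → (Fin (2 * n + 1) → ℂ) :=
    Sum.elim (fun j => K j x) (fun j => fun i => (starRingEnd ℂ) (K j x i))
  have hKx : ∀ j, K j x ∈ T10 x := fun j => by
    rw [hKspan x hpV]; exact Submodule.subset_span ⟨j, rfl⟩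
  have hann : ∀ (θ : E (2 * n + 1) → Fin (2 * n + 1) → ℝ), IsContact U T10 θ →
      ∀ s, ∑ i, (θ x i : ℂ) * B s i = 0 := by
    intro θ hθ s
    rcases s with j | j
    · exact hθ.ann x hx _ (hKx j)
    · have h1 := congrArg (starRingEnd ℂ) (hθ.ann x hx _ (hKx j))
      rw [map_sum, map_zero] at h1
      rw [← h1]
      exact Finset.sum_congr rfl fun i _ => by simp [B]
  -- the linear map to ℂ^2 would have too small kernel
  by_contra hcon
  push Not at hcon
  -- η x and η0 x are linearly independent over ℝ, hence over ℂ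
  let M : (Fin (2 * n + 1) → ℂ) →ₗ[ℂ] (Fin 2 → ℂ) :=
    { toFun := fun v => ![∑ i, (η x i : ℂ) * v i, ∑ i, (η0 x i : ℂ) * v i]
      map_add' := by
        intro v w; funext s; fin_cases s <;> simp [mul_add, Finset.sum_add_distrib]
      map_smul' := by
        intro c v; funext s
        fin_cases s <;> simp [Finset.mul_sum] <;>
          exact Finset.sum_congr rfl fun i _ => by ring }
  have hker : Submodule.span ℂ (Set.range B) ≤ LinearMap.ker M := by
    rw [Submodule.span_le]
    rintro _ ⟨s, rfl⟩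
    rw [SetLike.mem_coe, LinearMap.mem_ker]
    funext r
    fin_cases r
    · exact hann η hη s
    · exact hann η0 hη0 s
  have hdimB : Module.finrank ℂ (Submodule.span ℂ (Set.range B)) = 2 * n := by
    rw [finrank_span_eq_card hind]; simp; ring
  have hsurj : Function.Surjective M := by
    -- choose i with η0 x i ≠ 0, and j with the 2x2 minor nonzero
    obtain ⟨i0, hi0⟩ : ∃ i, η0 x i ≠ 0 := by
      by_contra hall
      push Not at hall
      exact hη0.ne x hx (funext hall)
    obtain ⟨j0, hj0⟩ : ∃ j, η x j * η0 x i0 - η x i0 * η0 x j ≠ 0 := by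
      by_contra hall
      push Not at hall
      by_cases hc : η x i0 / η0 x i0 = 0
      · have hi : η x i0 = 0 := by
          rcases div_eq_zero_iff.1 hc with h | h
          · exact h
          · exact absurd h hi0
        apply hη.ne x hx
        funext j
        have := hall j
        rw [hi] at this
        simp only [zero_mul, sub_zero, mul_eq_zero] at this
        exact this.resolve_right hi0
      · obtain ⟨i, hi⟩ := hcon (η x i0 / η0 x i0) hc
        apply hi
        have := hall i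
        field_simp
        linarith
    intro y
    have hΔ : ((η x j0 : ℂ) * η0 x i0 - η x i0 * η0 x j0) ≠ 0 := by exact_mod_cast hj0
    set Δ : ℂ := ((η x j0 : ℂ) * η0 x i0 - η x i0 * η0 x j0) with hΔd
    refine ⟨fun i => (if i = j0 then (y 0 * η0 x i0 - y 1 * η x i0) / Δ else 0) +
      (if i = i0 then (y 1 * η x j0 - y 0 * η0 x j0) / Δ else 0), ?_⟩
    funext s
    have hs : ∀ (θ : Fin (2 * n + 1) → ℝ), ∑ i, (θ i : ℂ) *
        ((if i = j0 then (y 0 * η0 x i0 - y 1 * η x i0) / Δ else 0) +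
        (if i = i0 then (y 1 * η x j0 - y 0 * η0 x j0) / Δ else 0)) =
        (θ j0 : ℂ) * ((y 0 * η0 x i0 - y 1 * η x i0) / Δ) +
        (θ i0 : ℂ) * ((y 1 * η x j0 - y 0 * η0 x j0) / Δ) := by
      intro θ
      simp [mul_add, Finset.sum_add_distrib]
    fin_cases s
    · show ∑ i, (η x i : ℂ) * _ = y 0
      rw [hs]
      field_simp
      rw [hΔd]; ring
    · show ∑ i, (η0 x i : ℂ) * _ = y 1
      rw [hs]
      field_simp
      rw [hΔd]; ring
  have hr := LinearMap.finrank_range_add_finrank_ker M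
  rw [LinearMap.range_eq_top.2 hsurj, finrank_top] at hr
  have h2 := Submodule.finrank_mono hker
  simp at hr
  omega

lemma pair_scale {d : ℕ} {η η0 : E d → Fin d → ℝ} {c : ℝ} {x : E d}
    (h : ∀ i, η x i = c * η0 x i) (X : CVF d) : pair η X x = (c : ℂ) * pair η0 X x := by
  simp only [pair, Finset.mul_sum]
  exact Finset.sum_congr rfl fun i _ => by rw [h i]; push_cast; ring

theorem types_eq {n : ℕ} {U : Set (E (2 * n + 1))}
    {T10 : E (2 * n + 1) → Submodule ℂ (Fin (2 * n + 1) → ℂ)} (h : IsCR n U T10)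
    (hps : IsPseudoconvex U T10)
    {η : E (2 * n + 1) → Fin (2 * n + 1) → ℝ} (hη : IsContact U T10 η)
    {p : E (2 * n + 1)} (hp : p ∈ U) {V : Set (E (2 * n + 1))} (hV : IsOpen V) (hpV : p ∈ V)
    (hVU : V ⊆ U) {L : CVF (2 * n + 1)} (hL : IsSection T10 V L) :
    tType η L p = cType η L p := by
  obtain ⟨η0, hη0, hps0⟩ := hps
  obtain ⟨C, hCη, hCspan⟩ := exists_LCR h hη0 hps0 hp
  have hLs : Sm p L := Sm.of_contDiffOn hV hpV hL.1
  have hspan : ∀ᶠ x in 𝓝 p, L x ∈ Submodule.span ℂ (Set.range fun l => C.K l x) := by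
    filter_upwards [hCspan, hV.mem_nhds hpV] with x hx hxV
    rw [← hx]; exact hL.2 x hxV
  -- proportionality
  have hprop : ∀ x ∈ U, ∃ c : ℝ, c ≠ 0 ∧ ∀ i, η x i = c * η0 x i :=
    fun x hx => contact_prop h hη hη0 hx
  -- smooth ratio
  let N0 : E (2 * n + 1) → ℝ := fun x => ∑ i, η0 x i * η0 x i
  have hN0 : ∀ x ∈ U, N0 x ≠ 0 := by
    intro x hx h0
    apply hη0.ne x hx
    funext i
    have := (Finset.sum_eq_zero_iff_of_nonneg (fun i _ => mul_self_nonneg (η0 x i))).1 h0 i
      (Finset.mem_univ i)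
    simpa using this
  let r : E (2 * n + 1) → ℝ := fun x => (∑ i, η x i * η0 x i) / N0 x
  have hr : ∀ x ∈ U, ∀ i, η x i = r x * η0 x i := by
    intro x hx i
    obtain ⟨c, hc, hci⟩ := hprop x hx
    have : r x = c := by
      have e : ∑ i, η x i * η0 x i = c * N0 x := by
        simp only [N0, Finset.mul_sum]
        exact Finset.sum_congr rfl fun i _ => by rw [hci i]; ring
      simp only [r, e]
      field_simp [hN0 x hx]
    rw [this]; exact hci i
  have hr0 : r p ≠ 0 := by
    intro h0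
    apply hη.ne p hp
    funext i
    rw [hr p hp i, h0]; simp
  have hηs : Sm p η := Sm.of_contDiffOn h.isOpen hp hη.smooth
  have hη0s : Sm p η0 := Sm.of_contDiffOn h.isOpen hp hη0.smooth
  have hrs : Sm p (fun x => (r x : ℂ)) := by
    have h1 : Sm p (fun x => ∑ i, (η x i : ℂ) * (η0 x i : ℂ)) :=
      Sm.sum fun i _ => ((hηs.comp_apply_real i).ofReal).mul ((hη0s.comp_apply_real i).ofReal)
    have h2 : Sm p (fun x => ∑ i, (η0 x i : ℂ) * (η0 x i : ℂ)) :=
      Sm.sum fun i _ => ((hη0s.comp_apply_real i).ofReal).mul ((hη0s.comp_apply_real i).ofReal)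
    have h3 : (∑ i, (η0 p i : ℂ) * (η0 p i : ℂ)) ≠ 0 := by
      have := hN0 p hp
      intro h; apply this
      simp only [N0]
      exact_mod_cast h
    refine (h1.mul (h2.inv h3)).congr ?_
    filter_upwards with x
    simp only [r, N0]
    push_cast
    rw [div_eq_mul_inv]
  have hsml : Sm p (pair η0 (lieBr L (cjVF L))) := hη0s.pair (hLs.lieBr hLs.cjVF)
  have hsmlη : Sm p (pair η (lieBr L (cjVF L))) := hηs.pair (hLs.lieBr hLs.cjVF)
  have hU : ∀ᶠ x in 𝓝 p, x ∈ U := h.isOpen.mem_nhds hp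
  have heq : pair η (lieBr L (cjVF L)) =ᶠ[𝓝 p] fun x => (r x : ℂ) * pair η0 (lieBr L (cjVF L)) x := by
    filter_upwards [hU] with x hx
    exact pair_scale (hr x hx) _
  have hr0' : (r p : ℂ) ≠ 0 := by exact_mod_cast hr0
  have heq2 : pair η0 (lieBr L (cjVF L)) =ᶠ[𝓝 p]
      fun x => ((r x : ℂ))⁻¹ * pair η (lieBr L (cjVF L)) x := by
    filter_upwards [heq, hrs.continuousAt.eventually_ne hr0'] with x hx hx2
    rw [hx]; field_simp
  have hbr : ∀ w : Wd, pair η (brVF L w) p ≠ 0 ↔ pair C.η (brVF L w) p ≠ 0 := by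
    intro w
    rw [hCη, pair_scale (hr p hp) (brVF L w)]
    simp [hr0']
  -- transfer of vanishing of words
  have tr1 : ∀ s : ℕ, (∀ w : Wd, w.length ≤ s → op L w (pair C.η (lieBr L (cjVF L))) p = 0) →
      ∀ w : Wd, w.length ≤ s → op L w (pair η (lieBr L (cjVF L))) p = 0 := by
    intro s hs w hw
    rw [hCη] at hs
    rw [(op_congr w heq).self_of_nhds]
    exact op_mul_zero hLs hrs hsml hs w hw
  have tr2 : ∀ s : ℕ, (∀ w : Wd, w.length ≤ s → op L w (pair η (lieBr L (cjVF L))) p = 0) →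
      ∀ w : Wd, w.length ≤ s → op L w (pair C.η (lieBr L (cjVF L))) p = 0 := by
    intro s hs w hw
    rw [hCη, (op_congr w heq2).self_of_nhds]
    exact op_mul_zero hLs (hrs.inv hr0') hsmlη hs w hw
  by_cases hex : ∃ m, (∃ w : Wd, w.length = m ∧ pair C.η (brVF L w) p ≠ 0) ∨
      (∃ w : Wd, w.length + 2 = m ∧ op L w (pair C.η (lieBr L (cjVF L))) p ≠ 0)
  · obtain ⟨m, hm⟩ := hex
    obtain ⟨k, hkm, hk2, ⟨w1, hw1, hw1'⟩, ⟨w2, hw2, hw2'⟩, hlt, hlc⟩ := key C L hLs hspan m hm
    have ht : tType η L p = (k : ℕ∞) := by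
      refine le_antisymm (sInf_le ?_) (le_sInf ?_)
      · exact ⟨w1, by omega, by rw [hw1], (hbr w1).2 hw1'⟩
      rintro j ⟨w, _, rfl, hw⟩
      by_contra hcon
      push Not at hcon
      have : w.length < k := by exact_mod_cast hcon
      exact (hbr w).1 hw (hlt w this)
    have hc : cType η L p = (k : ℕ∞) := by
      refine le_antisymm ?_ ?_
      · -- some word of length k - 2 or less does not kill
        have : ∃ w : Wd, w.length ≤ k - 2 ∧ op L w (pair η (lieBr L (cjVF L))) p ≠ 0 := by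
          by_contra hcon
          push Not at hcon
          exact hw2' (tr2 (k - 2) hcon w2 (by omega))
        obtain ⟨w, hw, hw'⟩ := this
        have h1 : cType η L p ≤ ((w.length + 2 : ℕ) : ℕ∞) := sInf_le ⟨w, rfl, hw'⟩
        refine h1.trans ?_
        exact_mod_cast (by omega : w.length + 2 ≤ k)
      · refine le_sInf ?_
        rintro j ⟨w, rfl, hw⟩
        by_contra hcon
        push Not at hcon
        have hlt' : w.length + 2 < k := by exact_mod_cast hcon
        exact hw (tr1 (k - 3) (fun w' hw' => hlc w' (by omega)) w (by omega))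
    rw [ht, hc]
  · push Not at hex
    have ht : tType η L p = ⊤ := by
      refine sInf_eq_top.2 ?_
      rintro j ⟨w, _, rfl, hw⟩
      exact absurd ((hex w.length).1 w rfl) ((hbr w).1 hw)
    have hc : cType η L p = ⊤ := by
      refine sInf_eq_top.2 ?_
      rintro j ⟨w, rfl, hw⟩
      exact absurd (tr1 w.length (fun w' _ => (hex (w'.length + 2)).2 w' rfl) w le_rfl) hw
    rw [ht, hc]

end DAng
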