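import Pool.Agent.DAng.Bishop

open scoped BigOperators Polynomial LaurentPolynomial
open Finset

namespace DAng

section
variable {𝕜 : Type*} [CommRing 𝕜]

/-- conjugation `T ↦ T⁻¹`, `c` on coefficients -/
noncomputable def lbar (c : 𝕜 →+* 𝕜) : 𝕜[T;T⁻¹] →+* 𝕜[T;T⁻¹] :=
  (LaurentPolynomial.invert (R := 𝕜) : 𝕜[T;T⁻¹] →+* 𝕜[T;T⁻¹]).comp (AddMonoidAlgebra.mapRingHom ℤ c)

@[simp] lemma lbar_coeff (c : 𝕜 →+* 𝕜) (f : 𝕜[T;T⁻¹]) (n : ℤ) :
    (lbar c f).coeff n = c (f.coeff (-n)) := by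
  simp [lbar]

lemma lbar_lbar (c : 𝕜 →+* 𝕜) (hc : ∀ a, c (c a) = a) (f : 𝕜[T;T⁻¹]) : lbar c (lbar c f) = f := by
  ext n; simp [hc]

lemma coeff_CT (a : 𝕜) (m n : ℤ) :
    (LaurentPolynomial.C a * LaurentPolynomial.T m : 𝕜[T;T⁻¹]).coeff n = if m = n then a else 0 := by
  rw [← LaurentPolynomial.single_eq_C_mul_T, AddMonoidAlgebra.coeff_single, Finsupp.single_apply]

lemma coeff_CT' (a : 𝕜) (m : ℤ) :
    (LaurentPolynomial.C a * LaurentPolynomial.T m : 𝕜[T;T⁻¹]).coeff = Finsupp.single m a := by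
  rw [← LaurentPolynomial.single_eq_C_mul_T, AddMonoidAlgebra.coeff_single]

/-- evaluation at a unit -/
noncomputable def lev (x : 𝕜ˣ) : 𝕜[T;T⁻¹] →+* 𝕜 := LaurentPolynomial.eval₂ (RingHom.id 𝕜) x

lemma lev_eq (x : 𝕜ˣ) (f : 𝕜[T;T⁻¹]) : lev x f = f.coeff.sum fun n r => r * ((x ^ n : 𝕜ˣ) : 𝕜) := by
  induction f using LaurentPolynomial.induction_on' with
  | add p q hp hq =>
    rw [map_add, hp, hq]
    rw [AddMonoidAlgebra.coeff_add, Finsupp.sum_add_index']
    · intro; simp
    · intro n b1 b2; ring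
  | C_mul_T n a =>
    rw [coeff_CT', Finsupp.sum_single_index (by simp)]
    simp [lev]

lemma toLaurent_coeff_nat (p : 𝕜[X]) (n : ℕ) : (Polynomial.toLaurent p).coeff (n : ℤ) = p.coeff n := by
  rw [LaurentPolynomial.coeff_toLaurent]
  exact Finsupp.mapDomain_apply Nat.cast_injective _ _

lemma toLaurent_coeff_neg (p : 𝕜[X]) {n : ℤ} (hn : n < 0) : (Polynomial.toLaurent p).coeff n = 0 := by
  by_contra h
  have h1 : n ∈ (Polynomial.toLaurent p).coeff.support := Finsupp.mem_support_iff.2 h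
  rw [LaurentPolynomial.support_coeff_toLaurent] at h1
  obtain ⟨m, _, hm⟩ := Finset.mem_map.1 h1
  simp at hm
  omega

lemma trunc_coeff (f : 𝕜[T;T⁻¹]) (n : ℕ) : (LaurentPolynomial.trunc f).coeff n = f.coeff n := by
  induction f using LaurentPolynomial.induction_on' with
  | add p q hp hq => rw [map_add, Polynomial.coeff_add, hp, hq]; simp
  | C_mul_T m a =>
    rw [LaurentPolynomial.trunc_C_mul_T, coeff_CT]
    split_ifs with h h2 h2
    · rw [Polynomial.coeff_monomial, if_pos (by omega)]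
    · rw [Polynomial.coeff_monomial, if_neg (by omega)]
    · omega
    · simp

lemma lev_toLaurent (x : 𝕜ˣ) (p : 𝕜[X]) : lev x (Polynomial.toLaurent p) = p.eval (x : 𝕜) := by
  rw [lev, LaurentPolynomial.eval₂_toLaurent]; rfl

lemma lbar_CT (c : 𝕜 →+* 𝕜) (a : 𝕜) (m : ℤ) :
    lbar c (LaurentPolynomial.C a * LaurentPolynomial.T m) =
      LaurentPolynomial.C (c a) * LaurentPolynomial.T (-m) := by
  ext n
  rw [lbar_coeff, coeff_CT, coeff_CT]
  by_cases h : m = -n
  · rw [if_pos h, if_pos (by omega)]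
  · rw [if_neg h, if_neg (by omega), map_zero]

lemma pi_aux (c : 𝕜 →+* 𝕜) (hc : ∀ a, c (c a) = a) (f : 𝕜[T;T⁻¹]) :
    (LaurentPolynomial.trunc f).eval 1 + c ((LaurentPolynomial.trunc (lbar c f)).eval 1) =
      lev 1 f + f.coeff 0 := by
  induction f using LaurentPolynomial.induction_on' with
  | add p q hp hq =>
    simp only [map_add, Polynomial.eval_add, AddMonoidAlgebra.coeff_add, Finsupp.add_apply]
    linear_combination hp + hq
  | C_mul_T m a =>
    rw [lbar_CT, LaurentPolynomial.trunc_C_mul_T, LaurentPolynomial.trunc_C_mul_T, coeff_CT]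
    have h1 : lev (1 : 𝕜ˣ) (LaurentPolynomial.C a * LaurentPolynomial.T m) = a := by simp [lev]
    rw [h1]
    rcases lt_trichotomy m 0 with h | h | h
    · rw [if_neg (by omega), if_pos (by omega), if_neg (by omega)]
      simp [hc]
    · subst h
      simp [hc]
    · rw [if_pos (by omega), if_neg (by omega), if_neg (by omega)]
      simp

lemma ev_cc (c : 𝕜 →+* 𝕜) (f : 𝕜[T;T⁻¹]) : lev 1 (lbar c f) = c (lev 1 f) := by
  induction f using LaurentPolynomial.induction_on' with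
  | add p q hp hq => simp only [map_add, hp, hq]
  | C_mul_T m a =>
    rw [lbar_CT]
    simp [lev]

/-- the Riemann-Hilbert data of Laurent polynomials -/
noncomputable def LRH (c : 𝕜 →+* 𝕜) (hc : ∀ a, c (c a) = a) : RH 𝕜[X] 𝕜[T;T⁻¹] 𝕜 where
  bar := lbar c
  ι := Polynomial.toLaurent
  ev := lev 1
  cc := c
  Pi f := LaurentPolynomial.trunc f - Polynomial.C ((LaurentPolynomial.trunc f).eval 1)
  bar_bar := lbar_lbar c hc
  ev_bar := ev_cc c
  ev_Pi f := by
    rw [lev_toLaurent]; simp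
  Pi_add f hf := by
    have h := pi_aux c hc f
    rw [hf, zero_add] at h
    ext n
    rw [AddMonoidAlgebra.coeff_add, Finsupp.add_apply, lbar_coeff]
    rcases lt_trichotomy n 0 with hn | hn | hn
    · rw [toLaurent_coeff_neg _ hn]
      obtain ⟨m, hm⟩ : ∃ m : ℕ, -n = m := ⟨(-n).toNat, by omega⟩
      rw [hm, toLaurent_coeff_nat, Polynomial.coeff_sub, trunc_coeff, Polynomial.coeff_C,
        if_neg (by omega), lbar_coeff, sub_zero, hc, ← hm]
      simp
    · subst hn
      have e1 : ((0 : ℤ)) = ((0 : ℕ) : ℤ) := rfl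
      rw [neg_zero, e1, toLaurent_coeff_nat, toLaurent_coeff_nat, Polynomial.coeff_sub,
        Polynomial.coeff_sub, trunc_coeff, trunc_coeff, Polynomial.coeff_C_zero,
        Polynomial.coeff_C_zero, lbar_coeff, map_sub, hc]
      simp only [Nat.cast_zero, neg_zero]
      linear_combination -h
    · rw [toLaurent_coeff_neg _ (show -n < 0 by omega), map_zero, add_zero]
      obtain ⟨m, hm⟩ : ∃ m : ℕ, n = m := ⟨n.toNat, by omega⟩
      rw [hm, toLaurent_coeff_nat, Polynomial.coeff_sub, trunc_coeff, Polynomial.coeff_C,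
        if_neg (by omega), sub_zero]
  Pi_neg f := by simp only [map_neg, Polynomial.eval_neg]; ring
  uniq a b h hev := by
    have h1 : ∀ n : ℕ, n ≠ 0 → a.coeff n = 0 := by
      intro n hn
      rw [← toLaurent_coeff_nat, h, lbar_coeff, toLaurent_coeff_neg _ (by omega), map_zero]
    have h2 : a = Polynomial.C (a.coeff 0) := by
      ext n
      by_cases hn : n = 0
      · subst hn; simp
      · rw [h1 n hn, Polynomial.coeff_C, if_neg hn]
    rw [lev_toLaurent, h2] at hev
    simp at hev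
    rw [h2, hev, map_zero]

end

end DAng
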