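import Pool.Agent.DAng.EmbDefs

open scoped ContDiff Topology BigOperators
open Finset Asymptotics

namespace DAng


namespace H436

open Filter

section poly

variable {m : ℕ}

lemma peval_C (c : ℂ) (z : Fin m → ℂ) : peval (MvPolynomial.C c : Pol m) z = c := by
  simp [peval]

lemma peval_add (P Q : Pol m) (z : Fin m → ℂ) : peval (P + Q) z = peval P z + peval Q z := by
  simp [peval]

lemma peval_mul (P Q : Pol m) (z : Fin m → ℂ) : peval (P * Q) z = peval P z * peval Q z := by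
  simp [peval]

lemma peval_X (i : Fin m ⊕ Fin m) (z : Fin m → ℂ) : peval (MvPolynomial.X i : Pol m) z =
    Sum.elim z (fun i => (starRingEnd ℂ) (z i)) i := by
  simp [peval]

lemma contDiff_var (i : Fin m ⊕ Fin m) :
    ContDiff ℝ ∞ (fun z : Fin m → ℂ => Sum.elim z (fun i => (starRingEnd ℂ) (z i)) i) := by
  rcases i with i | i
  · simp only [Sum.elim_inl]
    fun_prop
  · simp only [Sum.elim_inr]
    exact Complex.conjCLE.contDiff.comp (contDiff_apply ℝ ℂ i)

lemma contDiff_peval (P : Pol m) : ContDiff ℝ ∞ (peval P) := by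
  induction P using MvPolynomial.induction_on with
  | C c =>
    have : (peval (MvPolynomial.C c : Pol m)) = fun _ => c := by funext z; exact peval_C c z
    rw [this]; exact contDiff_const
  | add P Q hP hQ =>
    have : (peval (P + Q)) = fun z => peval P z + peval Q z := by funext z; exact peval_add P Q z
    rw [this]; exact hP.add hQ
  | mul_X P i hP =>
    have : (peval (P * MvPolynomial.X i)) = fun z => peval P z *
        Sum.elim z (fun i => (starRingEnd ℂ) (z i)) i := by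
      funext z; rw [peval_mul, peval_X]
    rw [this]; exact hP.mul (contDiff_var i)

/-- derivative of the evaluation of a polynomial in a direction -/
lemma fderiv_peval (P : Pol m) (z h : Fin m → ℂ) :
    fderiv ℝ (peval P) z h =
      ∑ j, (peval (dz j P) z * h j + peval (dzb j P) z * (starRingEnd ℂ) (h j)) := by
  induction P using MvPolynomial.induction_on with
  | C c =>
    have : (peval (MvPolynomial.C c : Pol m)) = fun _ => c := by funext z; exact peval_C c z
    rw [this]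
    simp [dz, dzb, MvPolynomial.pderiv_C, peval]
  | add P Q hP hQ =>
    have : (peval (P + Q)) = fun z => peval P z + peval Q z := by funext z; exact peval_add P Q z
    rw [this, fderiv_fun_add ((contDiff_peval P).differentiable (by simp) z)
      ((contDiff_peval Q).differentiable (by simp) z)]
    rw [add_apply, hP, hQ, ← Finset.sum_add_distrib]
    refine Finset.sum_congr rfl fun j _ => ?_
    simp only [dz, dzb, map_add, peval_add]
    ring
  | mul_X P i hP =>
    have e1 : (peval (P * MvPolynomial.X i)) = fun z => peval P z *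
        Sum.elim z (fun i => (starRingEnd ℂ) (z i)) i := by
      funext z; rw [peval_mul, peval_X]
    rw [e1, fderiv_fun_mul ((contDiff_peval P).differentiable (by simp) z)
      ((contDiff_var i).differentiable (by simp) z)]
    rw [add_apply, smul_apply, smul_apply, hP]
    have e2 : fderiv ℝ (fun z : Fin m → ℂ => Sum.elim z (fun i => (starRingEnd ℂ) (z i)) i) z h
        = Sum.elim h (fun i => (starRingEnd ℂ) (h i)) i := by
      rcases i with i | i
      · simp only [Sum.elim_inl]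
        have : HasFDerivAt (fun z : Fin m → ℂ => z i)
            (ContinuousLinearMap.proj (R := ℝ) (φ := fun _ => ℂ) i) z :=
          (ContinuousLinearMap.proj (R := ℝ) (φ := fun _ => ℂ) i).hasFDerivAt
        rw [this.fderiv]; rfl
      · simp only [Sum.elim_inr]
        have : HasFDerivAt (fun z : Fin m → ℂ => (starRingEnd ℂ) (z i))
            ((Complex.conjCLE.toContinuousLinearMap).comp
              (ContinuousLinearMap.proj (R := ℝ) (φ := fun _ => ℂ) i)) z :=
          (Complex.conjCLE.toContinuousLinearMap.hasFDerivAt).comp z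
            (ContinuousLinearMap.proj (R := ℝ) (φ := fun _ => ℂ) i).hasFDerivAt
        rw [this.fderiv]; rfl
    rw [e2]
    simp only [dz, dzb, MvPolynomial.pderiv_mul, peval_add, peval_mul, peval_X]
    have e3 : ∀ k : Fin m ⊕ Fin m, peval (MvPolynomial.pderiv k (MvPolynomial.X i) : Pol m) z
        = if k = i then 1 else 0 := by
      intro k
      by_cases hk : k = i
      · subst hk; simp [MvPolynomial.pderiv_X_self, peval]
      · rw [if_neg hk, MvPolynomial.pderiv_X_of_ne (Ne.symm hk)]; simp [peval]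
    simp only [e3]
    rcases i with i | i
    · simp only [Sum.elim_inl, Sum.inl.injEq, reduceCtorEq, if_false, mul_zero, add_zero,
        smul_eq_mul]
      rw [Finset.mul_sum]
      have : ∀ j : Fin m, (peval ((MvPolynomial.pderiv (Sum.inl j)) P) z * z i
            + peval P z * if j = i then 1 else 0) * h j
          + peval ((MvPolynomial.pderiv (Sum.inr j)) P) z * z i * (starRingEnd ℂ) (h j)
          = (if j = i then peval P z * h j else 0)
            + z i * (peval ((MvPolynomial.pderiv (Sum.inl j)) P) z * h j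
              + peval ((MvPolynomial.pderiv (Sum.inr j)) P) z * (starRingEnd ℂ) (h j)) := by
        intro j; split_ifs <;> ring
      simp only [this, Finset.sum_add_distrib, Finset.sum_ite_eq', Finset.mem_univ, if_true]
    · simp only [Sum.elim_inr, Sum.inr.injEq, reduceCtorEq, if_false, mul_zero, add_zero,
        smul_eq_mul]
      rw [Finset.mul_sum]
      have : ∀ j : Fin m, peval ((MvPolynomial.pderiv (Sum.inl j)) P) z * (starRingEnd ℂ) (z i) * h j
          + (peval ((MvPolynomial.pderiv (Sum.inr j)) P) z * (starRingEnd ℂ) (z i)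
            + peval P z * if j = i then 1 else 0) * (starRingEnd ℂ) (h j)
          = (if j = i then peval P z * (starRingEnd ℂ) (h j) else 0)
            + (starRingEnd ℂ) (z i) * (peval ((MvPolynomial.pderiv (Sum.inl j)) P) z * h j
              + peval ((MvPolynomial.pderiv (Sum.inr j)) P) z * (starRingEnd ℂ) (h j)) := by
        intro j; split_ifs <;> ring
      simp only [this, Finset.sum_add_distrib, Finset.sum_ite_eq', Finset.mem_univ, if_true]

lemma peval_swap_conj (Q : Pol m) (z : Fin m → ℂ) :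
    peval (MvPolynomial.rename Sum.swap (MvPolynomial.map (starRingEnd ℂ) Q)) z
      = (starRingEnd ℂ) (peval Q z) := by
  induction Q using MvPolynomial.induction_on with
  | C c => simp [peval]
  | add P Q hP hQ => simp only [map_add, peval_add, hP, hQ]
  | mul_X P i hP =>
    simp only [map_mul, peval_mul, hP, MvPolynomial.map_X, MvPolynomial.rename_X, peval_X]
    rcases i with i | i <;> simp

lemma peval_dzb {ρ : Pol m} (h : IsHerm ρ) (j : Fin m) (z : Fin m → ℂ) :
    peval (dzb j ρ) z = (starRingEnd ℂ) (peval (dz j ρ) z) := by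
  rw [← peval_swap_conj, dzb, dz, ← MvPolynomial.pderiv_map,
    ← MvPolynomial.pderiv_rename (Function.LeftInverse.injective Sum.swap_leftInverse)]
  simp only [Sum.swap_inl]
  rw [show MvPolynomial.rename Sum.swap (MvPolynomial.map (starRingEnd ℂ) ρ) = ρ from h]

end poly

end H436

namespace H436

open Filter

section curves

lemma fderiv_eq_sum {d : ℕ} (f : CF d) (x : E d) (v : E d) :
    fderiv ℝ f x v = ∑ i, (v i : ℂ) * pd i f x := by
  conv_lhs => rw [← Finset.univ_sum_single v]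
  rw [map_sum]
  refine Finset.sum_congr rfl fun i _ => ?_
  have : (Pi.single i (v i) : Fin d → ℝ) = (v i) • Pi.single i (1 : ℝ) := by
    ext j; by_cases hj : j = i
    · subst hj; simp
    · simp [hj]
  rw [this, map_smul, Complex.real_smul]; rfl

lemma vanO {d : ℕ} {p : E d} {m : ℕ} {f : CF d} (h : Van p m f) {x : ℝ → E d}
    (hx : (fun s => x s - p) =O[𝓝[>] 0] fun s : ℝ => s) :
    (fun s => f (x s)) =O[𝓝[>] 0] fun s : ℝ => s ^ m := by
  obtain ⟨C, hC, hb⟩ := h.bound
  have hxp : Tendsto x (𝓝[>] 0) (𝓝 p) := by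
    have h0 : Tendsto (fun s => x s - p) (𝓝[>] (0 : ℝ)) (𝓝 0) :=
      hx.trans_tendsto (tendsto_id.mono_left nhdsWithin_le_nhds)
    simpa using h0.add_const p
  have h1 : (fun s => f (x s)) =O[𝓝[>] 0] fun s : ℝ => ‖x s - p‖ ^ m := by
    refine IsBigO.of_bound C ?_
    filter_upwards [hxp.eventually hb] with s hs
    simpa using hs
  refine h1.trans ?_
  exact (hx.norm_left).pow m

lemma exists_lift {n : ℕ} {p : E (2 * n + 1)} {C : LCR n p} {N : ℕ} (e : Emb C N)
    (u : ℝ → Fin (n + 1) → ℂ) (hu : u =O[𝓝[>] 0] fun s : ℝ => s) :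
    ∃ x : ℝ → E (2 * n + 1), (fun s => x s - p) =O[𝓝[>] 0] (fun s : ℝ => s) ∧
      ∀ᶠ s in 𝓝[>] (0 : ℝ), (∀ j : Fin n, e.Z j.castSucc (x s) = u s j.castSucc) ∧
        (e.Z (Fin.last n) (x s)).re = (u s (Fin.last n)).re := by
  classical
  let F : E (2 * n + 1) → (Fin n → ℂ) × ℝ := fun x =>
    (fun j => e.Z j.castSucc x, (e.Z (Fin.last n) x).re)
  let F' : E (2 * n + 1) →L[ℝ] (Fin n → ℂ) × ℝ :=
    (ContinuousLinearMap.pi fun j : Fin n => fderiv ℝ (e.Z j.castSucc) p).prod
      (Complex.reCLM.comp (fderiv ℝ (e.Z (Fin.last n)) p))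
  have hZ : ∀ i, HasStrictFDerivAt (e.Z i) (fderiv ℝ (e.Z i) p) p := fun i =>
    (e.smZ i).self.hasStrictFDerivAt (by simp)
  have hF : HasStrictFDerivAt F F' p := by
    refine HasStrictFDerivAt.prodMk ?_ ?_
    · exact hasStrictFDerivAt_pi.2 fun j => hZ _
    · exact Complex.reCLM.hasStrictFDerivAt.comp p (hZ _)
  have hinj : Function.Injective F' := by
    refine (injective_iff_map_eq_zero F').2 fun v hv => ?_
    have h1 : (fun j : Fin n => fderiv ℝ (e.Z j.castSucc) p v) = 0 := congrArg Prod.fst hv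
    have h2 : (fderiv ℝ (e.Z (Fin.last n)) p v).re = 0 := congrArg Prod.snd hv
    refine e.coord v (fun i => ?_) ?_
    · rw [← fderiv_eq_sum]; exact congrFun h1 i
    · rw [← fderiv_eq_sum]; exact h2
  have hdim : Module.finrank ℝ (E (2 * n + 1)) = Module.finrank ℝ ((Fin n → ℂ) × ℝ) := by
    simp [Module.finrank_prod, Module.finrank_pi_fintype, Complex.finrank_real_complex, mul_comm]
  let A : E (2 * n + 1) ≃L[ℝ] (Fin n → ℂ) × ℝ :=
    (LinearEquiv.ofInjectiveOfFinrankEq (F' : E (2 * n + 1) →ₗ[ℝ] (Fin n → ℂ) × ℝ) hinj hdim).toContinuousLinearEquiv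
  have hA : (A : E (2 * n + 1) →L[ℝ] (Fin n → ℂ) × ℝ) = F' := by
    ext v <;> rfl
  have hF2 : HasStrictFDerivAt F (A : E (2 * n + 1) →L[ℝ] (Fin n → ℂ) × ℝ) p := by
    rw [hA]; exact hF
  have hFp : F p = 0 := by
    refine Prod.ext ?_ ?_
    · funext j
      exact e.Z0 _
    · show (e.Z (Fin.last n) p).re = 0
      rw [e.Z0]; rfl
  let G : ℝ → (Fin n → ℂ) × ℝ := fun s => (fun j => u s j.castSucc, (u s (Fin.last n)).re)
  have hG : G =O[𝓝[>] 0] fun s : ℝ => s := by
    refine IsBigO.trans ?_ hu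
    refine IsBigO.of_bound 1 (Eventually.of_forall fun s => ?_)
    rw [one_mul]
    refine max_le ?_ ?_
    · refine (pi_norm_le_iff_of_nonneg (norm_nonneg _)).2 fun j => norm_le_pi_norm (u s) j.castSucc
    · refine (Complex.abs_re_le_norm _).trans (norm_le_pi_norm (u s) _)
  have hG0 : Tendsto G (𝓝[>] (0 : ℝ)) (𝓝 0) :=
    hG.trans_tendsto (tendsto_id.mono_left nhdsWithin_le_nhds)
  refine ⟨fun s => hF2.localInverse F A p (G s), ?_, ?_⟩
  · have h1 := hF2.to_localInverse
    rw [hFp] at h1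
    have h2 : (fun y => hF2.localInverse F A p y - hF2.localInverse F A p 0) =O[𝓝 0] fun y => y - 0 :=
      h1.hasFDerivAt.isBigO_sub
    have h3 : hF2.localInverse F A p 0 = p := by
      rw [← hFp]; exact hF2.localInverse_apply_image
    rw [h3] at h2
    simp only [sub_zero] at h2
    exact (h2.comp_tendsto hG0).trans hG
  · have h1 := hF2.eventually_right_inverse
    rw [hFp] at h1
    filter_upwards [hG0.eventually h1] with s hs
    exact ⟨fun j => congrFun (congrArg Prod.fst hs) j, congrArg Prod.snd hs⟩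

end curves

end H436

namespace H436

open Filter

section curves2


lemma pevalLip {m : ℕ} (P : Pol m) {l : Filter ℝ} {a b : ℝ → Fin m → ℂ} (ha : Tendsto a l (𝓝 0))
    (hb : Tendsto b l (𝓝 0)) :
    (fun s => peval P (a s) - peval P (b s)) =O[l] fun s => a s - b s := by
  have h1 : HasStrictFDerivAt (peval P) (fderiv ℝ (peval P) 0) 0 :=
    (contDiff_peval P).contDiffAt.hasStrictFDerivAt (by simp)
  have h2 : (fun q : (Fin m → ℂ) × (Fin m → ℂ) => peval P q.1 - peval P q.2) =O[𝓝 (0, 0)]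
    fun q => q.1 - q.2 := h1.isBigO_sub
  have h3 : Tendsto (fun s => (a s, b s)) l (𝓝 (0, 0)) := ha.prodMk_nhds hb
  have h4 := h2.comp_tendsto h3
  exact h4

lemma peval_bdd {m : ℕ} (P : Pol m) {l : Filter ℝ} {a : ℝ → Fin m → ℂ} (ha : Tendsto a l (𝓝 0)) :
    (fun s => peval P (a s)) =O[l] fun _ => (1 : ℝ) :=
  (((contDiff_peval P).continuous.tendsto 0).comp ha).isBigO_one ℝ

lemma pow_le_O {a b : ℕ} (h : b ≤ a) :
    (fun s : ℝ => s ^ a) =O[𝓝[>] 0] fun s : ℝ => s ^ b := by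
  rcases h.eq_or_lt with rfl | h
  · exact isBigO_refl _ _
  · exact (isLittleO_pow_pow h).isBigO.mono nhdsWithin_le_nhds

end curves2

end H436

namespace H436

open Filter

section curves3


lemma tendsto_of_O {F : Type*} [NormedAddCommGroup F] {u : ℝ → F}
    (hu : u =O[𝓝[>] 0] fun s : ℝ => s) : Tendsto u (𝓝[>] 0) (𝓝 0) :=
  hu.trans_tendsto (tendsto_id.mono_left nhdsWithin_le_nhds)

lemma tendsto_p {d : ℕ} {p : E d} {x : ℝ → E d}
    (hx : (fun s => x s - p) =O[𝓝[>] 0] fun s : ℝ => s) : Tendsto x (𝓝[>] 0) (𝓝 p) := by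
  have h0 := tendsto_of_O hx
  simpa using h0.add_const p

lemma tendsto_Z {n : ℕ} {p : E (2 * n + 1)} {C : LCR n p} {N : ℕ} (e : Emb C N)
    {x : ℝ → E (2 * n + 1)} (hx : (fun s => x s - p) =O[𝓝[>] 0] fun s : ℝ => s) :
    Tendsto (fun s => (fun i => e.Z i (x s))) (𝓝[>] 0) (𝓝 0) := by
  refine tendsto_pi_nhds.2 fun i => ?_
  have := (e.smZ i).continuousAt.tendsto.comp (tendsto_p hx)
  rw [e.Z0] at this
  exact this

lemma lift_close {n : ℕ} {p : E (2 * n + 1)} {C : LCR n p} {N : ℕ} (e : Emb C N) (k : ℕ)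
    (hk : k ≤ N) (u : ℝ → Fin (n + 1) → ℂ) (hu0 : Tendsto u (𝓝[>] 0) (𝓝 0))
    (h1 : (fun s => peval e.ρ (u s)) =O[𝓝[>] 0] fun s : ℝ => s ^ k)
    (x : ℝ → E (2 * n + 1)) (hx : (fun s => x s - p) =O[𝓝[>] 0] fun s : ℝ => s)
    (hxu : ∀ᶠ s in 𝓝[>] (0 : ℝ), (∀ j : Fin n, e.Z j.castSucc (x s) = u s j.castSucc) ∧
        (e.Z (Fin.last n) (x s)).re = (u s (Fin.last n)).re) :
    (fun s => (fun i => e.Z i (x s)) - u s) =O[𝓝[>] 0] fun s : ℝ => s ^ k := by
  have ha := tendsto_Z e hx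
  have hst : HasStrictFDerivAt (peval e.ρ) (fderiv ℝ (peval e.ρ) 0) 0 :=
    (contDiff_peval e.ρ).contDiffAt.hasStrictFDerivAt (by simp)
  have h2 : (fun q : (Fin (n + 1) → ℂ) × (Fin (n + 1) → ℂ) => peval e.ρ q.1 - peval e.ρ q.2
    - fderiv ℝ (peval e.ρ) 0 (q.1 - q.2)) =o[𝓝 (0, 0)] fun q => q.1 - q.2 := hst.isLittleO
  have h3 : Tendsto (fun s => ((fun i => e.Z i (x s)), u s)) (𝓝[>] 0)
      (𝓝 ((0 : Fin (n + 1) → ℂ), (0 : Fin (n + 1) → ℂ))) := ha.prodMk_nhds hu0
  have h4 := h2.comp_tendsto h3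
  have h5 : (fun s => peval e.ρ (fun i => e.Z i (x s)) - peval e.ρ (u s)) =O[𝓝[>] 0]
      fun s : ℝ => s ^ k :=
    ((vanO e.van hx).trans (pow_le_O hk)).sub h1
  refine IsBigO.trans ?_ h5
  have hpos : 0 < |(peval (dz (Fin.last n) e.ρ) 0).im| := abs_pos.2 e.ρlast
  refine IsBigO.of_bound (|(peval (dz (Fin.last n) e.ρ) 0).im|)⁻¹ ?_
  filter_upwards [h4.bound hpos, hxu] with s hs1 hs2
  set a : Fin (n + 1) → ℂ := fun i => e.Z i (x s) with hadef
  set t : ℝ := (a (Fin.last n)).im - (u s (Fin.last n)).im with ht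
  have hd1 : ∀ j : Fin n, (a - u s) j.castSucc = 0 := fun j => by
    simp only [Pi.sub_apply]
    exact sub_eq_zero.2 (hs2.1 j)
  have hd2 : (a - u s) (Fin.last n) = Complex.I * t := by
    apply Complex.ext
    · simp only [Pi.sub_apply, Complex.sub_re, Complex.mul_re, Complex.I_re, Complex.I_im,
        Complex.ofReal_re, Complex.ofReal_im]
      have : (a (Fin.last n)).re = (u s (Fin.last n)).re := hs2.2
      rw [this]; ring
    · simp only [Pi.sub_apply, Complex.sub_im, Complex.mul_im, Complex.I_re, Complex.I_im,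
        Complex.ofReal_re, Complex.ofReal_im, ht]
      ring
  have hn : ‖a - u s‖ = |t| := by
    refine le_antisymm ?_ ?_
    · refine (pi_norm_le_iff_of_nonneg (abs_nonneg _)).2 fun j => ?_
      refine Fin.lastCases ?_ (fun j => ?_) j
      · rw [hd2]; simp
      · rw [hd1]; simp
    · refine le_trans ?_ (norm_le_pi_norm (a - u s) (Fin.last n))
      rw [hd2]; simp
  have hD : fderiv ℝ (peval e.ρ) 0 (a - u s)
      = ((-2 * t * (peval (dz (Fin.last n) e.ρ) 0).im : ℝ) : ℂ) := by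
    rw [fderiv_peval, Fin.sum_univ_castSucc]
    simp only [hd1, hd2, map_zero, mul_zero, add_zero, Finset.sum_const_zero, zero_add,
      peval_dzb e.herm]
    apply Complex.ext <;> simp <;> ring
  have hDn : ‖fderiv ℝ (peval e.ρ) 0 (a - u s)‖
      = 2 * |(peval (dz (Fin.last n) e.ρ) 0).im| * |t| := by
    rw [hD, Complex.norm_real, Real.norm_eq_abs, abs_mul, abs_mul]
    simp
    ring
  have hs1' : ‖peval e.ρ a - peval e.ρ (u s) - fderiv ℝ (peval e.ρ) 0 (a - u s)‖
      ≤ |(peval (dz (Fin.last n) e.ρ) 0).im| * ‖a - u s‖ := hs1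
  have h6 : ‖fderiv ℝ (peval e.ρ) 0 (a - u s)‖ ≤ ‖peval e.ρ a - peval e.ρ (u s)‖
      + ‖peval e.ρ a - peval e.ρ (u s) - fderiv ℝ (peval e.ρ) 0 (a - u s)‖ := by
    have := norm_sub_le (peval e.ρ a - peval e.ρ (u s))
      (peval e.ρ a - peval e.ρ (u s) - fderiv ℝ (peval e.ρ) 0 (a - u s))
    simpa using this
  rw [hDn, hn] at *
  rw [inv_mul_eq_div, le_div_iff₀ hpos]
  linarith

end curves3

end H436

namespace H436

open Filter

section curves4


lemma exists_kappa {n : ℕ} {p : E (2 * n + 1)} {C : LCR n p} {N : ℕ} (e : Emb C N)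
    {x : ℝ → E (2 * n + 1)} (hx : (fun s => x s - p) =O[𝓝[>] 0] fun s : ℝ => s)
    (v : ℝ → Fin (n + 1) → ℂ) (hv : v =O[𝓝[>] 0] fun s : ℝ => s) :
    ∃ κ : ℝ → Fin n → ℂ, κ =O[𝓝[>] 0] (fun s : ℝ => s) ∧
      ∀ᶠ s in 𝓝[>] (0 : ℝ), ∀ j : Fin n,
        ∑ a, κ s a * act (C.K a) (e.Z j.castSucc) (x s) = v s j.castSucc := by
  classical
  let M : E (2 * n + 1) → Matrix (Fin n) (Fin n) ℂ :=
    fun y a j => act (C.K a) (e.Z j.castSucc) y
  have hM : ContinuousAt M p := by
    refine continuousAt_pi.2 fun a => continuousAt_pi.2 fun j => ?_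
    exact ((C.smK a).act (e.smZ j.castSucc)).continuousAt
  have hunit : IsUnit (M p) := Matrix.linearIndependent_rows_iff_isUnit.1 e.indepZ
  have hdet : (M p).det ≠ 0 := ((Matrix.isUnit_iff_isUnit_det _).1 hunit).ne_zero
  have hdetc : ContinuousAt (fun y => (M y).det) p :=
    (Continuous.matrix_det continuous_id).continuousAt.comp hM
  have hadj : ContinuousAt (fun y => (M y).adjugate) p :=
    (Continuous.matrix_adjugate continuous_id).continuousAt.comp hM
  have hN : ContinuousAt (fun y => ((M y).det)⁻¹ • (M y).adjugate) p :=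
    (hdetc.inv₀ hdet).smul hadj
  have hne : ∀ᶠ y in 𝓝 p, (M y).det ≠ 0 := hdetc.eventually_ne hdet
  have hxp := tendsto_p hx
  let κ : ℝ → Fin n → ℂ :=
    fun s a => ∑ j : Fin n, v s j.castSucc * (((M (x s)).det)⁻¹ • (M (x s)).adjugate) j a
  refine ⟨κ, ?_, ?_⟩
  · rw [isBigO_pi]
    intro a
    refine IsBigO.fun_sum fun j _ => ?_
    have h1 : (fun s => v s j.castSucc) =O[𝓝[>] 0] fun s : ℝ => s := isBigO_pi.1 hv _
    have h2 : (fun s => (((M (x s)).det)⁻¹ • (M (x s)).adjugate) j a) =O[𝓝[>] 0]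
        fun _ : ℝ => (1 : ℝ) := by
      have h3 := hN.tendsto.comp hxp
      have h4 := (tendsto_pi_nhds.1 (tendsto_pi_nhds.1 h3 j) a)
      exact h4.isBigO_one ℝ
    simpa using h1.mul h2
  · filter_upwards [hxp.eventually hne] with s hs j
    have h1 : (((M (x s)).det)⁻¹ • (M (x s)).adjugate) * M (x s) = 1 := by
      rw [Matrix.smul_mul, Matrix.adjugate_mul, smul_smul, inv_mul_cancel₀ hs, one_smul]
    have h2 : Matrix.vecMul (Matrix.vecMul (fun j : Fin n => v s j.castSucc)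
        (((M (x s)).det)⁻¹ • (M (x s)).adjugate)) (M (x s)) = fun j : Fin n => v s j.castSucc := by
      rw [Matrix.vecMul_vecMul, h1, Matrix.vecMul_one]
    exact congrFun h2 j

end curves4

end H436

namespace H436

open Filter

section curves5


lemma lieBr_cj {d : ℕ} {p : E d} {X Y : CVF d} (hX : Sm p X) (hY : Sm p Y) :
    ∀ᶠ x in 𝓝 p, ∀ i, lieBr Y (cjVF X) x i = - (starRingEnd ℂ) (lieBr X (cjVF Y) x i) := by
  have h1 : ∀ᶠ x in 𝓝 p, ∀ i, DifferentiableAt ℝ (fun y => X y i) x :=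
    Filter.eventually_all.2 fun i => (hX.comp_apply i).differentiableAt
  have h2 : ∀ᶠ x in 𝓝 p, ∀ i, DifferentiableAt ℝ (fun y => Y y i) x :=
    Filter.eventually_all.2 fun i => (hY.comp_apply i).differentiableAt
  filter_upwards [h1, h2] with x h1 h2 i
  have e1 : act Y (fun y => cjVF X y i) x = (starRingEnd ℂ) (act (cjVF Y) (fun y => X y i) x) :=
    act_conj (h1 i)
  have e2 : act X (fun y => cjVF Y y i) x = (starRingEnd ℂ) (act (cjVF X) (fun y => Y y i) x) :=
    act_conj (h2 i)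
  simp only [lieBr, e1, e2, map_sub, Complex.conj_conj]
  ring

lemma pair_lieBr_cj {n : ℕ} {p : E (2 * n + 1)} (C : LCR n p) : ∀ᶠ x in 𝓝 p, ∀ a b,
    pair C.η (lieBr (C.K b) (cjVF (C.K a))) x
      = - (starRingEnd ℂ) (pair C.η (lieBr (C.K a) (cjVF (C.K b))) x) := by
  have h : ∀ᶠ x in 𝓝 p, ∀ a b i, lieBr (C.K b) (cjVF (C.K a)) x i
      = - (starRingEnd ℂ) (lieBr (C.K a) (cjVF (C.K b)) x i) :=
    Filter.eventually_all.2 fun a => Filter.eventually_all.2 fun b =>
      lieBr_cj (C.smK a) (C.smK b)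
  filter_upwards [h] with x hx a b
  simp only [pair, hx a b, map_sum, map_mul, Complex.conj_ofReal, mul_neg, Finset.sum_neg_distrib]

lemma gB_nonneg {n : ℕ} {p : E (2 * n + 1)} {C : LCR n p} {N : ℕ} (e : Emb C N) :
    ∀ᶠ x in 𝓝 p, ∀ κ : Fin n → ℂ, 0 ≤ (e.g x * ∑ a, ∑ b, κ a * (starRingEnd ℂ) (κ b) *
      pair C.η (lieBr (C.K a) (cjVF (C.K b))) x).re := by
  have hg : ∀ᶠ x in 𝓝 p, 0 < (e.g x / Complex.I).re := by
    have hc : ContinuousAt (fun x => (e.g x / Complex.I).re) p :=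
      Complex.continuous_re.continuousAt.comp (e.smg.continuousAt.div_const _)
    exact hc.eventually (lt_mem_nhds e.g0)
  filter_upwards [hg, C.psc, pair_lieBr_cj C] with x h1 h2 h3 κ
  have h4 := h2 κ
  set B := ∑ a, ∑ b, κ a * (starRingEnd ℂ) (κ b) *
      pair C.η (lieBr (C.K a) (cjVF (C.K b))) x with hB
  have h5 : (starRingEnd ℂ) B = - B := by
    rw [hB]
    simp only [map_sum, map_mul, Complex.conj_conj]
    rw [Finset.sum_comm, ← Finset.sum_neg_distrib]
    refine Finset.sum_congr rfl fun b _ => ?_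
    rw [← Finset.sum_neg_distrib]
    refine Finset.sum_congr rfl fun a _ => ?_
    have := h3 a b
    rw [this]
    ring
  have h6 : B.re = 0 := by
    have := congrArg Complex.re h5
    simp at this
    linarith
  have h7 : 0 ≤ - B.im := by
    simpa [Complex.mul_re] using h4
  have h8 : (e.g x / Complex.I).re = (e.g x).im := by
    rw [Complex.div_I]; simp
  rw [h8] at h1
  rw [Complex.mul_re, h6]
  nlinarith

end curves5

end H436

namespace H436

open Filter

section curves6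


lemma w_close {n : ℕ} {p : E (2 * n + 1)} {C : LCR n p} {N : ℕ} (e : Emb C N) (k : ℕ)
    (hk : k + 3 ≤ N) (u v : ℝ → Fin (n + 1) → ℂ)
    (hu0 : Tendsto u (𝓝[>] 0) (𝓝 0)) (hv : v =O[𝓝[>] 0] fun s : ℝ => s)
    (h2 : (fun s => ∑ j, peval (dz j e.ρ) (u s) * v s j) =O[𝓝[>] 0] fun s : ℝ => s ^ k)
    (x : ℝ → E (2 * n + 1)) (hx : (fun s => x s - p) =O[𝓝[>] 0] fun s : ℝ => s)
    (hc : (fun s => (fun i => e.Z i (x s)) - u s) =O[𝓝[>] 0] fun s : ℝ => s ^ k)
    (κ : ℝ → Fin n → ℂ) (hκ : κ =O[𝓝[>] 0] (fun s : ℝ => s))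
    (hκv : ∀ᶠ s in 𝓝[>] (0 : ℝ), ∀ j : Fin n,
        ∑ a, κ s a * act (C.K a) (e.Z j.castSucc) (x s) = v s j.castSucc) :
    (fun s => (fun i => ∑ a, κ s a * act (C.K a) (e.Z i) (x s)) - v s) =O[𝓝[>] 0]
      fun s : ℝ => s ^ k := by
  have ha := tendsto_Z e hx
  have hxp := tendsto_p hx
  have hone : (fun s : ℝ => s) =O[𝓝[>] 0] fun _ : ℝ => (1 : ℝ) := by
    have : Tendsto (fun s : ℝ => s) (𝓝[>] (0 : ℝ)) (𝓝 0) := tendsto_id.mono_left nhdsWithin_le_nhds
    exact this.isBigO_one ℝ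
  -- the form `theta`
  have hth : ∀ a, (fun s => theta e.Z e.ρ (C.K a) (x s)) =O[𝓝[>] 0] fun s : ℝ => s ^ k := by
    intro a
    have h3 := (vanO (e.theta_eq (C.K a) (C.smK a)) hx).trans (pow_le_O (by omega : k ≤ N - 1))
    refine h3.congr' ?_ (EventuallyEq.refl _ _)
    filter_upwards [hxp.eventually (C.ann a)] with s hs
    rw [hs]; ring
  have hsum : (fun s => ∑ i, peval (dz i e.ρ) (fun i => e.Z i (x s)) *
      ∑ a, κ s a * act (C.K a) (e.Z i) (x s)) =O[𝓝[>] 0] fun s : ℝ => s ^ k := by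
    have h3 : (fun s => ∑ a, κ s a * theta e.Z e.ρ (C.K a) (x s)) =O[𝓝[>] 0]
        fun s : ℝ => s ^ k := by
      refine IsBigO.fun_sum fun a _ => ?_
      have h4 : (fun s => κ s a) =O[𝓝[>] 0] fun _ : ℝ => (1 : ℝ) := (isBigO_pi.1 hκ a).trans hone
      simpa using h4.mul (hth a)
    refine h3.congr_left fun s => ?_
    simp only [theta, Finset.mul_sum]
    rw [Finset.sum_comm]
    refine Finset.sum_congr rfl fun i _ => Finset.sum_congr rfl fun a _ => ?_
    ring
  -- difference with h2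
  have hdiff : (fun s => ∑ i, (peval (dz i e.ρ) (fun i => e.Z i (x s)) - peval (dz i e.ρ) (u s))
      * v s i) =O[𝓝[>] 0] fun s : ℝ => s ^ k := by
    refine IsBigO.fun_sum fun i _ => ?_
    have h3 := (pevalLip (dz i e.ρ) ha hu0).trans hc
    have h4 : (fun s => v s i) =O[𝓝[>] 0] fun _ : ℝ => (1 : ℝ) := (isBigO_pi.1 hv i).trans hone
    simpa using h3.mul h4
  have htot : (fun s => peval (dz (Fin.last n) e.ρ) (fun i => e.Z i (x s)) *
      (∑ a, κ s a * act (C.K a) (e.Z (Fin.last n)) (x s) - v s (Fin.last n))) =O[𝓝[>] 0]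
        fun s : ℝ => s ^ k := by
    have h3 := (hsum.sub h2).sub hdiff
    refine h3.congr' ?_ (EventuallyEq.refl _ _)
    filter_upwards [hκv] with s hs
    rw [← Finset.sum_sub_distrib, ← Finset.sum_sub_distrib, Fin.sum_univ_castSucc]
    rw [Finset.sum_eq_zero]
    · ring
    · intro j _
      rw [hs j]; ring
  have hlast : (fun s => (∑ a, κ s a * act (C.K a) (e.Z (Fin.last n)) (x s) - v s (Fin.last n)))
      =O[𝓝[>] 0] fun s : ℝ => s ^ k := by
    have hne : peval (dz (Fin.last n) e.ρ) 0 ≠ 0 := by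
      intro h
      apply e.ρlast
      rw [h]; rfl
    have hcont : Tendsto (fun s => peval (dz (Fin.last n) e.ρ) (fun i => e.Z i (x s))) (𝓝[>] 0)
        (𝓝 (peval (dz (Fin.last n) e.ρ) 0)) :=
      ((contDiff_peval _).continuous.tendsto 0).comp ha
    have hinv : (fun s => (peval (dz (Fin.last n) e.ρ) (fun i => e.Z i (x s)))⁻¹) =O[𝓝[>] 0]
        fun _ : ℝ => (1 : ℝ) := (hcont.inv₀ hne).isBigO_one ℝ
    have h3 := hinv.mul htot
    simp only [one_mul] at h3
    refine h3.congr' ?_ (EventuallyEq.refl _ _)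
    filter_upwards [hcont.eventually_ne hne] with s hs
    rw [← mul_assoc, inv_mul_cancel₀ hs, one_mul]
  rw [isBigO_pi]
  intro i
  refine Fin.lastCases ?_ (fun j => ?_) i
  · exact hlast
  · refine (isBigO_zero (fun s : ℝ => s ^ k) (𝓝[>] (0:ℝ)) (E' := ℂ)).congr' ?_ (EventuallyEq.refl _ _)
    filter_upwards [hκv] with s hs
    simp only [Pi.sub_apply]
    rw [hs j]; ring

end curves6

end H436

namespace H436
lemma sum4 {α β γ δ : Type*} [Fintype α] [Fintype β] [Fintype γ] [Fintype δ]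
    (f : α → β → γ → δ → ℂ) :
    ∑ a, ∑ b, ∑ j, ∑ l, f a b j l = ∑ j, ∑ l, ∑ a, ∑ b, f a b j l := by
  calc ∑ a, ∑ b, ∑ j, ∑ l, f a b j l = ∑ a, ∑ j, ∑ b, ∑ l, f a b j l :=
        Finset.sum_congr rfl fun a _ => Finset.sum_comm
    _ = ∑ j, ∑ a, ∑ b, ∑ l, f a b j l := Finset.sum_comm
    _ = ∑ j, ∑ a, ∑ l, ∑ b, f a b j l :=
        Finset.sum_congr rfl fun j _ => Finset.sum_congr rfl fun a _ => Finset.sum_comm
    _ = ∑ j, ∑ l, ∑ a, ∑ b, f a b j l := Finset.sum_congr rfl fun j _ => Finset.sum_comm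

open Filter in
theorem levi_lower_aux {n : ℕ} {p : E (2 * n + 1)} (C : LCR n p) {N : ℕ} (e : Emb C N) (k : ℕ)
    (hk : k + 3 ≤ N) (u v : ℝ → Fin (n + 1) → ℂ)
    (hu : u =O[𝓝[>] 0] fun s : ℝ => s) (hv : v =O[𝓝[>] 0] fun s : ℝ => s)
    (h1 : (fun s => peval e.ρ (u s)) =O[𝓝[>] 0] fun s : ℝ => s ^ k)
    (h2 : (fun s => ∑ j, peval (dz j e.ρ) (u s) * v s j) =O[𝓝[>] 0] fun s : ℝ => s ^ k) :
    ∃ c : ℝ, ∀ᶠ s : ℝ in 𝓝[>] 0, - c * s ^ (k + 1) ≤
      (∑ j, ∑ l, peval (dzb l (dz j e.ρ)) (u s) * v s j * (starRingEnd ℂ) (v s l)).re := by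
  have hu0 := tendsto_of_O hu
  obtain ⟨x, hx, hxu⟩ := exists_lift e u hu
  have hc := lift_close e k (by omega) u hu0 h1 x hx hxu
  obtain ⟨κ, hκ, hκv⟩ := exists_kappa e hx v hv
  have hw := w_close e k hk u v hu0 hv h2 x hx hc κ hκ hκv
  have ha := tendsto_Z e hx
  have hxp := tendsto_p hx
  have hone : (fun s : ℝ => s) =O[𝓝[>] 0] fun _ : ℝ => (1 : ℝ) := by
    have : Tendsto (fun s : ℝ => s) (𝓝[>] (0 : ℝ)) (𝓝 0) := tendsto_id.mono_left nhdsWithin_le_nhds
    exact this.isBigO_one ℝ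
  set w : ℝ → Fin (n + 1) → ℂ := fun s i => ∑ a, κ s a * act (C.K a) (e.Z i) (x s) with hwdef
  have hwO : w =O[𝓝[>] 0] fun s : ℝ => s := by
    rw [isBigO_pi]
    intro i
    refine IsBigO.fun_sum fun a _ => ?_
    have h3 : (fun s => act (C.K a) (e.Z i) (x s)) =O[𝓝[>] 0] fun _ : ℝ => (1 : ℝ) :=
      (((C.smK a).act (e.smZ i)).continuousAt.tendsto.comp hxp).isBigO_one ℝ
    simpa using (isBigO_pi.1 hκ a).mul h3
  have hcj : ∀ {f : ℝ → ℂ} {g : ℝ → ℝ}, f =O[𝓝[>] 0] g →
      (fun s => (starRingEnd ℂ) (f s)) =O[𝓝[>] 0] g := by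
    intro f g hf
    refine (IsBigO.of_bound 1 (Eventually.of_forall fun s => ?_)).trans hf
    simp
  -- the Levi form along `w`
  have hL : (fun s => (∑ j, ∑ l, peval (dzb l (dz j e.ρ)) (fun i => e.Z i (x s)) * w s j *
      (starRingEnd ℂ) (w s l)) - e.g (x s) * ∑ a, ∑ b, κ s a * (starRingEnd ℂ) (κ s b) *
      pair C.η (lieBr (C.K a) (cjVF (C.K b))) (x s)) =O[𝓝[>] 0] fun s : ℝ => s ^ (k + 1) := by
    have h3 : (fun s => ∑ a, ∑ b, (κ s a * (starRingEnd ℂ) (κ s b)) *
        ((∑ j, ∑ l, peval (dzb l (dz j e.ρ)) (fun i => e.Z i (x s)) * act (C.K a) (e.Z j) (x s) *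
          (starRingEnd ℂ) (act (C.K b) (e.Z l) (x s))) - e.g (x s) *
          pair C.η (lieBr (C.K a) (cjVF (C.K b))) (x s))) =O[𝓝[>] 0]
        fun s : ℝ => s ^ (k + 1) := by
      refine IsBigO.fun_sum fun a _ => IsBigO.fun_sum fun b _ => ?_
      have hspan : ∀ a, ∀ᶠ y in 𝓝 p, C.K a y ∈ Submodule.span ℂ (Set.range fun l => C.K l y) :=
        fun a => Eventually.of_forall fun y => Submodule.subset_span ⟨a, rfl⟩
      have h4 := (vanO (e.levi (C.K a) (C.K b) (C.smK a) (C.smK b) (hspan a) (hspan b)) hx).trans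
        (pow_le_O (by omega : k + 1 ≤ N - 2))
      have h5 : (fun s => κ s a * (starRingEnd ℂ) (κ s b)) =O[𝓝[>] 0] fun _ : ℝ => (1 : ℝ) := by
        simpa using ((isBigO_pi.1 hκ a).trans hone).mul (hcj ((isBigO_pi.1 hκ b).trans hone))
      simpa using h5.mul h4
    refine h3.congr_left fun s => ?_
    simp only [hwdef, map_sum, map_mul, mul_sub, Finset.sum_sub_distrib]
    congr 1
    · simp only [Finset.mul_sum, Finset.sum_mul]
      rw [sum4]
      refine Finset.sum_congr rfl fun j _ => Finset.sum_congr rfl fun l _ => ?_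
      rw [Finset.sum_comm]
      refine Finset.sum_congr rfl fun a _ => Finset.sum_congr rfl fun b _ => ?_
      ring
    · simp only [Finset.mul_sum]
      refine Finset.sum_congr rfl fun a _ => Finset.sum_congr rfl fun b _ => ?_
      ring
  -- replacement
  have hR : (fun s => (∑ j, ∑ l, peval (dzb l (dz j e.ρ)) (fun i => e.Z i (x s)) * w s j *
      (starRingEnd ℂ) (w s l)) - (∑ j, ∑ l, peval (dzb l (dz j e.ρ)) (u s) * v s j *
      (starRingEnd ℂ) (v s l))) =O[𝓝[>] 0] fun s : ℝ => s ^ (k + 1) := by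
    have h3 : (fun s => ∑ j, ∑ l, (
        (peval (dzb l (dz j e.ρ)) (fun i => e.Z i (x s)) - peval (dzb l (dz j e.ρ)) (u s)) *
          (w s j * (starRingEnd ℂ) (w s l)) +
        peval (dzb l (dz j e.ρ)) (u s) * ((w s j - v s j) * (starRingEnd ℂ) (w s l) +
          (starRingEnd ℂ) (w s l - v s l) * v s j))) =O[𝓝[>] 0]
        fun s : ℝ => s ^ (k + 1) := by
      refine IsBigO.fun_sum fun j _ => IsBigO.fun_sum fun l _ => ?_
      have hwj := isBigO_pi.1 hwO j
      have hwl := isBigO_pi.1 hwO l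
      have hvj := isBigO_pi.1 hv j
      have hdj : (fun s => w s j - v s j) =O[𝓝[>] 0] fun s : ℝ => s ^ k := isBigO_pi.1 hw j
      have hdl : (fun s => w s l - v s l) =O[𝓝[>] 0] fun s : ℝ => s ^ k := isBigO_pi.1 hw l
      have hP := (pevalLip (dzb l (dz j e.ρ)) ha hu0).trans hc
      refine IsBigO.add ?_ ?_
      · have h4 := hP.mul (hwj.mul (hcj (hwl.trans hone)))
        refine h4.congr_right fun s => ?_
        ring
      · have h5 := (hdj.mul (hcj hwl)).add ((hcj hdl).mul hvj)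
        have h4 := (peval_bdd (dzb l (dz j e.ρ)) hu0).mul h5
        refine h4.congr_right fun s => ?_
        ring
    refine h3.congr_left fun s => ?_
    rw [← Finset.sum_sub_distrib]
    refine Finset.sum_congr rfl fun j _ => ?_
    rw [← Finset.sum_sub_distrib]
    refine Finset.sum_congr rfl fun l _ => ?_
    rw [map_sub]
    ring
  obtain ⟨c, hcb⟩ := (hL.sub hR).bound
  refine ⟨c, ?_⟩
  filter_upwards [hcb, hxp.eventually (gB_nonneg e), self_mem_nhdsWithin] with s hs1 hs2 hs3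
  have hs3' : (0 : ℝ) < s := hs3
  have h6 := (Complex.abs_re_le_norm _).trans hs1
  rw [Real.norm_of_nonneg (by positivity)] at h6
  have h7 := hs2 (κ s)
  have h8 := (abs_le.1 h6).1
  simp only [Complex.sub_re] at h8
  linarith

end H436

/-- JC2 -/
theorem levi_lower {n : ℕ} {p : E (2 * n + 1)} (C : LCR n p) {N : ℕ} (e : Emb C N) (k : ℕ)
    (hk : k + 3 ≤ N) (u v : ℝ → Fin (n + 1) → ℂ)
    (hu : u =O[𝓝[>] 0] fun s : ℝ => s) (hv : v =O[𝓝[>] 0] fun s : ℝ => s)
    (h1 : (fun s => peval e.ρ (u s)) =O[𝓝[>] 0] fun s : ℝ => s ^ k)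
    (h2 : (fun s => ∑ j, peval (dz j e.ρ) (u s) * v s j) =O[𝓝[>] 0] fun s : ℝ => s ^ k) :
    ∃ c : ℝ, ∀ᶠ s : ℝ in 𝓝[>] 0, - c * s ^ (k + 1) ≤
      (∑ j, ∑ l, peval (dzb l (dz j e.ρ)) (u s) * v s j * (starRingEnd ℂ) (v s l)).re :=
  H436.levi_lower_aux C e k hk u v hu hv h1 h2


end DAng
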