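import Pool.Agent.DAng.EmbDefs
import Pool.Agent.DAng.LeviLow
import Pool.Agent.DAng.Expan

open scoped ContDiff Topology BigOperators
open Finset Asymptotics

namespace DAng



lemma sumW_eq_zero_of {A : Type*} [AddCommMonoid A] : ∀ (n : ℕ) (F : Wd → A),
    (∀ w : Wd, w.length = n → F w = 0) → sumW n F = 0 := by
  intro n
  induction n with
  | zero => intro F h; exact h [] rfl
  | succ n ih =>
    intro F h
    show sumW n (D true F) + sumW n (D false F) = 0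
    have h1 : sumW n (D true F) = 0 := ih _ (fun w hw => h (true :: w) (by simp [hw]))
    have h2 : sumW n (D false F) = 0 := ih _ (fun w hw => h (false :: w) (by simp [hw]))
    rw [h1, h2, add_zero]

lemma sumP_eq_zero_of {A : Type*} [AddCommMonoid A] (k : ℕ) (F : Wd → Wd → A)
    (h : ∀ u v : Wd, u.length + v.length = k → F u v = 0) : sumP k F = 0 := by
  unfold sumP
  apply Finset.sum_eq_zero
  intro i hi
  have hi' : i ≤ k := Nat.lt_succ_iff.mp (Finset.mem_range.mp hi)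
  apply sumW_eq_zero_of
  intro u hu
  apply sumW_eq_zero_of
  intro v hv
  exact h u v (by omega)

lemma pow_isBigO_pow {a b : ℕ} (h : a ≤ b) :
    (fun s : ℝ => s ^ b) =O[𝓝[>] (0 : ℝ)] fun s : ℝ => s ^ a := by
  apply IsBigO.of_bound 1
  have h1 : ∀ᶠ s : ℝ in 𝓝[>] (0 : ℝ), s ∈ Set.Ioo (0 : ℝ) 1 := Ioo_mem_nhdsGT one_pos
  filter_upwards [h1] with s hs
  rw [Real.norm_eq_abs, Real.norm_eq_abs, abs_of_pos (pow_pos hs.1 _), abs_of_pos (pow_pos hs.1 _),
    one_mul]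
  exact pow_le_pow_of_le_one hs.1.le hs.2.le h

lemma lead_isBigO (k : ℕ) (f : ℝ → ℂ) (a : ℕ → ℂ) (ha : ∀ j < k, a j = 0)
    (h : (fun s : ℝ => f s - ∑ j ∈ range (k + 1), (s : ℂ) ^ j * a j) =O[𝓝[>] (0 : ℝ)]
      fun s : ℝ => s ^ (k + 1)) :
    f =O[𝓝[>] (0 : ℝ)] fun s : ℝ => s ^ k := by
  have e : ∀ s : ℝ, ∑ j ∈ range (k + 1), (s : ℂ) ^ j * a j = (s : ℂ) ^ k * a k := by
    intro s
    rw [Finset.sum_range_succ, Finset.sum_eq_zero, zero_add]
    intro j hj
    rw [ha j (Finset.mem_range.mp hj), mul_zero]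
  simp only [e] at h
  have h1 : (fun s : ℝ => (s : ℂ) ^ k * a k) =O[𝓝[>] (0 : ℝ)] fun s : ℝ => s ^ k := by
    apply IsBigO.of_bound ‖a k‖
    filter_upwards with s
    rw [norm_mul, norm_pow, Complex.norm_real, norm_pow, mul_comm]
  have h2 := (h.trans (pow_isBigO_pow (Nat.le_succ k))).add h1
  refine h2.congr_left fun s => ?_
  ring

lemma jet_isBigO {d m : ℕ} {p : E d} (L : CVF d) (Z : Fin m → CF d) (hZ : ∀ i, Z i p = 0) (k : ℕ)
    (φ : Wd → ℂ) : (fun s : ℝ => jet p L Z k φ s) =O[𝓝[>] (0 : ℝ)] fun s : ℝ => s := by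
  rw [isBigO_pi]
  intro i
  have e : ∀ s : ℝ, jet p L Z k φ s i = ∑ j ∈ range k, (s : ℂ) ^ (j + 1) *
      sumW (j + 1) (fun w => op L w (Z i) p * φ w) := by
    intro s
    unfold jet
    rw [Finset.sum_range_succ']
    have h0 : sumW 0 (fun w => op L w (Z i) p * φ w) = 0 := by
      show op L [] (Z i) p * φ [] = 0
      show Z i p * φ [] = 0
      rw [hZ, zero_mul]
    rw [h0, mul_zero, add_zero]
  simp only [e]
  apply IsBigO.fun_sum
  intro j _
  have h1 : (fun s : ℝ => (s : ℂ) ^ (j + 1) * sumW (j + 1) (fun w => op L w (Z i) p * φ w))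
      =O[𝓝[>] (0 : ℝ)] fun s : ℝ => s ^ (j + 1) := by
    apply IsBigO.of_bound ‖sumW (j + 1) (fun w => op L w (Z i) p * φ w)‖
    filter_upwards with s
    rw [norm_mul, norm_pow, Complex.norm_real, norm_pow, mul_comm]
  have h2 := h1.trans (pow_isBigO_pow (show 1 ≤ j + 1 by omega))
  simpa using h2

/-- JC: positivity of the leading part -/
theorem positivity {n : ℕ} {p : E (2 * n + 1)} (C : LCR n p) {N : ℕ} (e : Emb C N)
    (L : CVF (2 * n + 1)) (hL : Sm p L) (k : ℕ) (hk : k + 3 ≤ N) 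
    (h0 : ∀ u v : Wd, u.length + v.length < k → Rd p L e.Z e.ρ u v = 0)
    (φ ψ : Wd → ℂ) (hφ : IsChar k φ) (hψ : IsDer k φ ψ) :
    0 ≤ (sumP k fun u v => Rd p L e.Z e.ρ u v * ψ u * (starRingEnd ℂ) (ψ (cj v))).re := by
  obtain ⟨x1, x2, x3⟩ := expansion L hL e.Z e.smZ e.ρ k φ ψ hφ hψ
  have hu := jet_isBigO L e.Z e.Z0 k φ
  have hv := jet_isBigO L e.Z e.Z0 k ψ
  have y1 := lead_isBigO k _ _ (fun j hj => sumP_eq_zero_of j _ fun u v huv => by
    rw [h0 u v (by omega), zero_mul, zero_mul]) x1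
  have y2 := lead_isBigO k _ _ (fun j hj => sumP_eq_zero_of j _ fun u v huv => by
    rw [h0 u v (by omega), zero_mul, zero_mul]) x2
  obtain ⟨c, hc⟩ := levi_lower C e k hk _ _ hu hv y1 y2
  set S : ℂ := sumP k fun u v => Rd p L e.Z e.ρ u v * ψ u * (starRingEnd ℂ) (ψ (cj v)) with hS
  have e3 : ∀ s : ℝ, ∑ j ∈ range (k + 1), (s : ℂ) ^ j * sumP j (fun u v =>
      Rd p L e.Z e.ρ u v * ψ u * (starRingEnd ℂ) (ψ (cj v))) = (s : ℂ) ^ k * S := by
    intro s
    rw [Finset.sum_range_succ, Finset.sum_eq_zero, zero_add]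
    intro j hj
    have hj' := Finset.mem_range.mp hj
    rw [sumP_eq_zero_of j _ fun u v huv => by rw [h0 u v (by omega), zero_mul, zero_mul], mul_zero]
  simp only [e3] at x3
  obtain ⟨c', hc'⟩ := x3.bound
  have hpos : ∀ᶠ s : ℝ in 𝓝[>] (0 : ℝ), 0 < s := self_mem_nhdsWithin
  have hfin : ∀ᶠ s : ℝ in 𝓝[>] (0 : ℝ), -(c + c') * s ≤ S.re := by
    filter_upwards [hc, hc', hpos] with s h1 h2 h3
    have h4 := (Complex.abs_re_le_norm _).trans h2
    rw [Complex.sub_re] at h4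
    have h5 : ((s : ℂ) ^ k * S).re = s ^ k * S.re := by
      rw [← Complex.ofReal_pow, Complex.re_ofReal_mul]
    rw [h5, Real.norm_eq_abs, abs_of_pos (pow_pos h3 _)] at h4
    have h6 := (abs_le.mp h4).2
    have h7 : -(c + c') * s ^ (k + 1) ≤ s ^ k * S.re := by linarith
    have h8 : s ^ k * (-(c + c') * s) ≤ s ^ k * S.re := by
      calc s ^ k * (-(c + c') * s) = -(c + c') * s ^ (k + 1) := by ring
        _ ≤ _ := h7
    exact le_of_mul_le_mul_left h8 (pow_pos h3 k)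
  have hlim : Filter.Tendsto (fun s : ℝ => -(c + c') * s) (𝓝[>] (0 : ℝ)) (𝓝 0) := by
    have h9 : Filter.Tendsto (fun s : ℝ => -(c + c') * s) (𝓝 (0 : ℝ)) (𝓝 (-(c + c') * 0)) :=
      (continuous_const.mul continuous_id).tendsto 0
    rw [mul_zero] at h9
    exact h9.mono_left nhdsWithin_le_nhds
  exact le_of_tendsto hlim hfin


end DAng
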