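import Pool.Agent.DAng.EmbDefs

open scoped ContDiff Topology BigOperators
open Finset Asymptotics

namespace DAng



section RdAux

variable {d : ℕ} {p : E d}

lemma rdx_cj_cj (w : Wd) : cj (cj w) = w := by
  simp only [cj, List.map_map]
  conv_rhs => rw [← List.map_id w]
  congr 1
  funext b
  simp

lemma rdx_act_smul {X : CVF d} {f : CF d} {x : E d} (c : ℂ) (hf : DifferentiableAt ℝ f x) :
    act X (fun x => c * f x) x = c * act X f x := by
  rw [act_mul (differentiableAt_const c) hf, act_const]
  ring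

lemma rdx_Sm_cmul {f : CF d} (c : ℂ) (hf : Sm p f) : Sm p (fun x => c * f x) :=
  (Sm.const c).mul hf

lemma rdx_op_zero {L : CVF d} : ∀ (w : Wd), op L w (fun _ => (0 : ℂ)) = fun _ => 0
  | [] => rfl
  | a :: w => by
    show op L w (act (LX L a) (fun _ => 0)) = _
    have : act (LX L a) (fun _ => (0 : ℂ)) = fun _ => 0 := by
      funext x; exact act_const _ 0 x
    rw [this]
    exact rdx_op_zero w

lemma rdx_op_cmul {L : CVF d} (hL : Sm p L) (c : ℂ) : ∀ (w : Wd) {f : CF d}, Sm p f →
    op L w (fun x => c * f x) =ᶠ[𝓝 p] fun x => c * op L w f x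
  | [], _, _ => Filter.EventuallyEq.refl _ _
  | a :: w, f, hf => by
    have h1 : act (LX L a) (fun x => c * f x) =ᶠ[𝓝 p] fun x => c * act (LX L a) f x := by
      filter_upwards [hf.differentiableAt] with x h1
      exact rdx_act_smul c h1
    exact (op_congr w h1).trans (rdx_op_cmul hL c w ((hL.LX a).act hf))

lemma rdx_op_sub {L : CVF d} (hL : Sm p L) (w : Wd) {f g : CF d} (hf : Sm p f) (hg : Sm p g) :
    op L w (fun x => f x - g x) =ᶠ[𝓝 p] fun x => op L w f x - op L w g x := by
  have h1 := op_add hL w hf (rdx_Sm_cmul (-1) hg)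
  have h2 := rdx_op_cmul hL (-1) w hg
  have e : (fun x => f x + -1 * g x) = fun x => f x - g x := by
    funext x; ring
  rw [e] at h1
  filter_upwards [h1, h2] with x h1 h2
  rw [h1, h2]; ring

lemma rdx_op_sum {ι : Type*} {s : Finset ι} {L : CVF d} (hL : Sm p L) (w : Wd) {f : ι → CF d}
    (hf : ∀ i ∈ s, Sm p (f i)) :
    op L w (fun x => ∑ i ∈ s, f i x) =ᶠ[𝓝 p] fun x => ∑ i ∈ s, op L w (f i) x := by
  classical
  induction s using Finset.induction_on with
  | empty =>
    have := rdx_op_zero (L := L) w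
    filter_upwards with x
    simp only [Finset.sum_empty]
    rw [this]
  | insert a s ha ih =>
    have h1 := hf a (by simp)
    have h2 : ∀ i ∈ s, Sm p (f i) := fun i hi => hf i (by simp [hi])
    have h3 := op_add hL w h1 (Sm.sum h2)
    have e : (fun x => ∑ i ∈ insert a s, f i x) = fun x => f a x + ∑ i ∈ s, f i x := by
      funext x; rw [Finset.sum_insert ha]
    rw [e]
    filter_upwards [h3, ih h2] with x h3 h4
    rw [h3, h4, Finset.sum_insert ha]

lemma rdx_cjVF_cjVF (X : CVF d) : cjVF (cjVF X) = X := by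
  funext x i; simp [cjVF]

lemma rdx_LX_cj (L : CVF d) (a : Bool) : cjVF (LX L a) = LX L (!a) := by
  cases a
  · exact rdx_cjVF_cjVF L
  · rfl

lemma rdx_op_conj {L : CVF d} (hL : Sm p L) : ∀ (w : Wd) {f : CF d}, Sm p f →
    op L (cj w) (fun x => (starRingEnd ℂ) (f x)) =ᶠ[𝓝 p] fun x => (starRingEnd ℂ) (op L w f x)
  | [], _, _ => Filter.EventuallyEq.refl _ _
  | a :: w, f, hf => by
    have h1 : act (LX L (!a)) (fun x => (starRingEnd ℂ) (f x)) =ᶠ[𝓝 p]
        fun x => (starRingEnd ℂ) (act (LX L a) f x) := by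
      filter_upwards [hf.differentiableAt] with x h1
      rw [act_conj h1, rdx_LX_cj]
      simp
    exact (op_congr (cj w) h1).trans (rdx_op_conj hL w ((hL.LX a).act hf))

lemma rdx_unsh_sum {ι : Type*} (s : Finset ι) : ∀ (w : Wd) (F : ι → Wd → Wd → ℂ),
    unsh (fun u v => ∑ i ∈ s, F i u v) w = ∑ i ∈ s, unsh (F i) w
  | [], F => rfl
  | a :: w, F => by
    show unsh (DU a (fun u v => ∑ i ∈ s, F i u v)) w + unsh (DV a (fun u v => ∑ i ∈ s, F i u v)) w = _
    have h1 := rdx_unsh_sum s w (fun i => DU a (F i))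
    have h2 := rdx_unsh_sum s w (fun i => DV a (F i))
    have e1 : DU a (fun u v => ∑ i ∈ s, F i u v) = fun u v => ∑ i ∈ s, DU a (F i) u v := rfl
    have e2 : DV a (fun u v => ∑ i ∈ s, F i u v) = fun u v => ∑ i ∈ s, DV a (F i) u v := rfl
    rw [e1, e2, h1, h2, ← Finset.sum_add_distrib]
    rfl

lemma rdx_unsh_cmul (c : ℂ) : ∀ (w : Wd) (F : Wd → Wd → ℂ),
    unsh (fun u v => c * F u v) w = c * unsh F w
  | [], F => rfl
  | a :: w, F => by
    show unsh (fun u v => c * DU a F u v) w + unsh (fun u v => c * DV a F u v) w =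
      c * (unsh (DU a F) w + unsh (DV a F) w)
    rw [rdx_unsh_cmul c w (DU a F), rdx_unsh_cmul c w (DV a F)]
    ring

/-- chain rule for polynomials -/
lemma rdx_chain {σ : Type*} [Fintype σ] (P : MvPolynomial σ ℂ) (W : σ → CF d) (X : CVF d) (x : E d)
    (hW : ∀ s, DifferentiableAt ℝ (W s) x) :
    DifferentiableAt ℝ (fun y => MvPolynomial.eval (fun s => W s y) P) x ∧
    act X (fun y => MvPolynomial.eval (fun s => W s y) P) x =
      ∑ s, MvPolynomial.eval (fun s => W s x) (MvPolynomial.pderiv s P) * act X (W s) x := by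
  classical
  induction P using MvPolynomial.induction_on with
  | C a =>
    refine ⟨by simp, ?_⟩
    simp [act_const]
  | add P Q hP hQ =>
    have e : (fun y => MvPolynomial.eval (fun s => W s y) (P + Q)) =
        fun y => MvPolynomial.eval (fun s => W s y) P + MvPolynomial.eval (fun s => W s y) Q := by
      funext y; simp
    rw [e]
    refine ⟨hP.1.add hQ.1, ?_⟩
    rw [act_add hP.1 hQ.1, hP.2, hQ.2, ← Finset.sum_add_distrib]
    refine Finset.sum_congr rfl fun s _ => ?_
    rw [map_add, map_add]; ring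
  | mul_X P i hP =>
    have e : (fun y => MvPolynomial.eval (fun s => W s y) (P * MvPolynomial.X i)) =
        fun y => MvPolynomial.eval (fun s => W s y) P * W i y := by
      funext y; simp
    rw [e]
    refine ⟨hP.1.mul (hW i), ?_⟩
    rw [act_mul hP.1 (hW i), hP.2]
    have e2 : ∀ s, MvPolynomial.eval (fun s => W s x) (MvPolynomial.pderiv s (P * MvPolynomial.X i)) *
        act X (W s) x = (MvPolynomial.eval (fun s => W s x) (MvPolynomial.pderiv s P) *
          act X (W s) x) * W i x + (if s = i then MvPolynomial.eval (fun s => W s x) P * act X (W s) x else 0) := by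
      intro s
      rw [MvPolynomial.pderiv_mul, map_add, map_mul, map_mul, MvPolynomial.eval_X]
      by_cases h : s = i
      · subst h
        simp
        ring
      · rw [MvPolynomial.pderiv_X_of_ne (Ne.symm h)]
        simp [h]
        ring
    rw [Finset.sum_congr rfl (fun s _ => e2 s), Finset.sum_add_distrib, Finset.sum_ite_eq' Finset.univ i]
    simp only [Finset.mem_univ, if_true]
    rw [Finset.sum_mul]
    ring

end RdAux


section RdAux2

variable {d : ℕ} {p : E d}

/-- monomial in `Z` -/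
noncomputable def rdxA {m : ℕ} (Z : Fin m → CF d) (e : (Fin m ⊕ Fin m) →₀ ℕ) : CF d :=
  fun x => ∏ i, Z i x ^ e (Sum.inl i)
/-- monomial in `Z̄` -/
noncomputable def rdxB {m : ℕ} (Z : Fin m → CF d) (e : (Fin m ⊕ Fin m) →₀ ℕ) : CF d :=
  fun x => ∏ i, (starRingEnd ℂ) (Z i x) ^ e (Sum.inr i)

lemma rdx_smA {m : ℕ} {Z : Fin m → CF d} (hZ : ∀ i, Sm p (Z i)) (e : (Fin m ⊕ Fin m) →₀ ℕ) :
    Sm p (rdxA Z e) := Sm.prod fun i _ => (hZ i).pow _

lemma rdx_smB {m : ℕ} {Z : Fin m → CF d} (hZ : ∀ i, Sm p (Z i)) (e : (Fin m ⊕ Fin m) →₀ ℕ) :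
    Sm p (rdxB Z e) := Sm.prod fun i _ => ((hZ i).conj).pow _

lemma rdx_Rd {m : ℕ} (L : CVF d) (Z : Fin m → CF d) (P : Pol m) (u v : Wd) :
    Rd p L Z P u v = ∑ e ∈ P.support, P.coeff e * op L u (rdxA Z e) p * op L v (rdxB Z e) p := rfl

lemma rdx_Rd' {m : ℕ} (L : CVF d) (Z : Fin m → CF d) (P : Pol m) :
    Rd p L Z P = fun u v => ∑ e ∈ P.support, P.coeff e * op L u (rdxA Z e) p * op L v (rdxB Z e) p := rfl

lemma rdx_peval {m : ℕ} (Z : Fin m → CF d) (P : Pol m) (x : E d) :
    peval P (fun i => Z i x) = ∑ e ∈ P.support, P.coeff e * (rdxA Z e x * rdxB Z e x) := by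
  unfold peval
  rw [MvPolynomial.eval_eq']
  refine Finset.sum_congr rfl fun e _ => ?_
  rw [Fintype.prod_sum_type]
  rfl

/-- two-point version -/
lemma rdx_peval2 {m : ℕ} (Z : Fin m → CF d) (P : Pol m) (x y : E d) :
    MvPolynomial.eval (Sum.elim (fun i => Z i x) (fun i => (starRingEnd ℂ) (Z i y))) P
      = ∑ e ∈ P.support, P.coeff e * (rdxA Z e x * rdxB Z e y) := by
  rw [MvPolynomial.eval_eq']
  refine Finset.sum_congr rfl fun e _ => ?_
  rw [Fintype.prod_sum_type]
  rfl

/-- linear algebra: smooth coefficients in a smooth frame -/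
lemma rdx_coef {n : ℕ} {K : Fin n → CVF d} (hK : ∀ j, Sm p (K j))
    (hind : LinearIndependent ℂ (fun j => K j p)) {L : CVF d} (hL : Sm p L)
    (hspan : ∀ᶠ x in 𝓝 p, L x ∈ Submodule.span ℂ (Set.range fun l => K l x)) :
    ∃ c : Fin n → CF d, (∀ l, Sm p (c l)) ∧ ∀ᶠ x in 𝓝 p, ∀ i, L x i = ∑ l, c l x * K l x i := by
  classical
  -- dual functionals
  obtain ⟨Φ, hΦ⟩ : ∃ Φ : Fin n → Fin d → ℂ, ∀ i j, ∑ k, Φ i k * K j p k = if i = j then 1 else 0 := by
    have h1 : ∃ f : (Fin d → ℂ) →ₗ[ℂ] (Fin n → ℂ), ∀ j, f (K j p) = Pi.single j 1 := by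
      obtain ⟨f, hf⟩ := (LinearMap.exists_leftInverse_of_injective
        (Fintype.linearCombination ℂ (fun j => K j p)) (by
          exact (LinearMap.ker_eq_bot.2 hind.fintypeLinearCombination_injective)))
      refine ⟨f, fun j => ?_⟩
      have := LinearMap.congr_fun hf (Pi.single j 1)
      simpa [Fintype.linearCombination_apply_single] using this
    obtain ⟨f, hf⟩ := h1
    refine ⟨fun i k => f (Pi.single k 1) i, fun i j => ?_⟩
    have h2 := congrFun (hf j) i
    have h3 : K j p = ∑ k, (K j p k) • (Pi.single k (1 : ℂ) : Fin d → ℂ) := by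
      funext k
      simp [Finset.sum_apply, Pi.single_apply]
    rw [h3, map_sum, Finset.sum_apply] at h2
    simp only [map_smul, Pi.smul_apply, smul_eq_mul] at h2
    rw [Finset.sum_congr rfl (fun k _ => mul_comm _ _), h2, Pi.single_apply]
  let M : E d → Matrix (Fin n) (Fin n) ℂ := fun x => Matrix.of fun i j => ∑ k, Φ i k * K j x k
  let b : E d → Fin n → ℂ := fun x i => ∑ k, Φ i k * L x k
  have hM : ∀ i j, Sm p (fun x => M x i j) := fun i j => by
    show Sm p (fun x => ∑ k, Φ i k * K j x k)
    exact Sm.sum fun k _ => (Sm.const (Φ i k)).mul ((hK j).comp_apply k)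
  have hb : ∀ i, Sm p (fun x => b x i) := fun i =>
    Sm.sum fun k _ => (Sm.const (Φ i k)).mul (hL.comp_apply k)
  have hdet : ∀ {N : E d → Matrix (Fin n) (Fin n) ℂ}, (∀ i j, Sm p (fun x => N x i j)) →
      Sm p (fun x => (N x).det) := by
    intro N hN
    refine Sm.congr (Sm.sum (s := Finset.univ) (f := fun (σ : Equiv.Perm (Fin n)) x =>
      ((Equiv.Perm.sign σ : ℤ) : ℂ) * ∏ i, N x (σ i) i) fun σ _ =>
        (Sm.const _).mul (Sm.prod fun i _ => hN (σ i) i)) ?_
    filter_upwards with x
    rw [Matrix.det_apply']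
  have hM1 : M p = 1 := by
    ext i j
    rw [Matrix.one_apply]
    exact hΦ i j
  have hdp : (M p).det ≠ 0 := by rw [hM1, Matrix.det_one]; exact one_ne_zero
  refine ⟨fun l x => ((M x).det)⁻¹ * Matrix.cramer (M x) (b x) l, fun l => ?_, ?_⟩
  · refine ((hdet hM).inv hdp).mul ?_
    refine Sm.congr (hdet (N := fun x => (M x).updateCol l (b x)) ?_) ?_
    · intro i j
      by_cases h : j = l
      · subst h
        refine (hb i).congr ?_
        filter_upwards with x
        simp
      · refine (hM i j).congr ?_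
        filter_upwards with x
        simp [h]
    · filter_upwards with x
      rw [Matrix.cramer_apply]
  · have hne : ∀ᶠ x in 𝓝 p, (M x).det ≠ 0 := (hdet hM).continuousAt.eventually_ne hdp
    filter_upwards [hspan, hne] with x hx hne
    obtain ⟨c, hc⟩ := (Submodule.mem_span_range_iff_exists_fun ℂ).1 hx
    have h1 : b x = (M x).mulVec c := by
      funext i
      show ∑ k, Φ i k * L x k = ∑ j, (∑ k, Φ i k * K j x k) * c j
      rw [← hc]
      simp only [Finset.sum_apply, Pi.smul_apply, smul_eq_mul, Finset.mul_sum, Finset.sum_mul]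
      rw [Finset.sum_comm]
      exact Finset.sum_congr rfl fun j _ => Finset.sum_congr rfl fun k _ => by ring
    have h2 : Matrix.cramer (M x) (b x) = (M x).det • c := by
      rw [Matrix.cramer_eq_adjugate_mulVec, h1, Matrix.mulVec_mulVec, Matrix.adjugate_mul]
      rw [Matrix.smul_mulVec, Matrix.one_mulVec]
    intro i
    rw [h2]
    simp only [Pi.smul_apply, smul_eq_mul]
    have h3 : ∀ l, (M x).det⁻¹ * ((M x).det * c l) * K l x i = c l * K l x i := by
      intro l
      rw [inv_mul_cancel_left₀ hne]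
    rw [Finset.sum_congr rfl (fun l _ => h3 l), ← hc]
    simp [Finset.sum_apply]

/-- derivative of a product of powers -/
lemma rdx_van_prod {m : ℕ} {N : ℕ} {X : CVF d} {W : Fin m → CF d} (hW : ∀ i, Sm p (W i))
    (h : ∀ i, Van p N (act X (W i))) (a : Fin m → ℕ) :
    Van p N (act X (fun x => ∏ i, W i x ^ a i)) := by
  classical
  have key : ∀ s : Finset (Fin m), Van p N (act X (fun x => ∏ i ∈ s, W i x ^ a i)) := by
    intro s
    induction s using Finset.induction_on with
    | empty =>
      refine Van.zero.congr ?_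
      filter_upwards with x
      simp only [Finset.prod_empty]
      exact act_const X 1 x
    | insert i s hi ih =>
      have hpw : ∀ k : ℕ, Van p N (act X (fun x => W i x ^ k)) := by
        intro k
        induction k with
        | zero =>
          refine Van.zero.congr ?_
          filter_upwards with x
          simp only [pow_zero]
          exact act_const X 1 x
        | succ k ihk =>
          refine ((ihk.mul_sm (hW i)).add (Van.sm_mul ((hW i).pow k) (h i))).congr ?_
          filter_upwards [(hW i).differentiableAt, ((hW i).pow k).differentiableAt] with x h1 h2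
          simp only [pow_succ]
          rw [act_mul h2 h1]
          ring
      refine (((hpw (a i)).mul_sm (Sm.prod (s := s) fun j _ => (hW j).pow (a j))).add
        (Van.sm_mul ((hW i).pow (a i)) ih)).congr ?_
      filter_upwards [((hW i).pow (a i)).differentiableAt,
        (Sm.prod (p := p) (s := s) fun j _ => (hW j).pow (a j)).differentiableAt] with x h1 h2
      simp only [Finset.prod_insert hi]
      rw [act_mul h1 h2]
      ring
  exact key Finset.univ

/-- `brU` of a product structure -/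
lemma rdx_brU {ι : Type*} {L : CVF d} (hL : Sm p L) (s : Finset ι) (k : ι → Wd → ℂ) :
    ∀ (w : Wd), w ≠ [] → ∀ (f : ι → CF d), (∀ i ∈ s, Sm p (f i)) →
    brU w (fun u v => ∑ i ∈ s, k i v * op L u (f i) p) =
      fun u v => ∑ i ∈ s, k i v * op L u (act (brVF L w) (f i)) p
  | [], h, _, _ => absurd rfl h
  | [a], _, f, _ => rfl
  | b :: a :: w, _, f, hf => by
    funext u v
    have ih := rdx_brU hL s k (a :: w) (by simp)
    have hb := hL.LX b
    have hw := Sm.brVF hL (a :: w)
    have e1 : (DU b (fun u v => ∑ i ∈ s, k i v * op L u (f i) p)) =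
        fun u v => ∑ i ∈ s, k i v * op L u (act (LX L b) (f i)) p := rfl
    show DU b (brU (a :: w) (fun u v => ∑ i ∈ s, k i v * op L u (f i) p)) u v -
      brU (a :: w) (DU b (fun u v => ∑ i ∈ s, k i v * op L u (f i) p)) u v = _
    rw [e1, ih f hf, ih (fun i => act (LX L b) (f i)) (fun i hi => hb.act (hf i hi))]
    show (∑ i ∈ s, k i v * op L (b :: u) (act (brVF L (a :: w)) (f i)) p) -
      (∑ i ∈ s, k i v * op L u (act (brVF L (a :: w)) (act (LX L b) (f i))) p) = _
    rw [← Finset.sum_sub_distrib]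
    refine Finset.sum_congr rfl fun i hi => ?_
    rw [← mul_sub]
    congr 1
    have h1 : act (brVF L (b :: a :: w)) (f i) =ᶠ[𝓝 p]
        fun x => act (LX L b) (act (brVF L (a :: w)) (f i)) x -
          act (brVF L (a :: w)) (act (LX L b) (f i)) x := by
      have hbc : ∀ᶠ x in 𝓝 p, ∀ j, DifferentiableAt ℝ (fun y => LX L b y j) x :=
        Filter.eventually_all.2 fun j => (hb.comp_apply j).differentiableAt
      have hwc : ∀ᶠ x in 𝓝 p, ∀ j, DifferentiableAt ℝ (fun y => brVF L (a :: w) y j) x :=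
        Filter.eventually_all.2 fun j => (hw.comp_apply j).differentiableAt
      filter_upwards [hbc, hwc, hf i hi] with x h1 h2 h3
      exact act_lieBr h1 h2 h3
    have h2 := (op_congr (L := L) u h1).self_of_nhds
    have h3 := (rdx_op_sub hL u (hb.act (hw.act (hf i hi))) (hw.act (hb.act (hf i hi)))).self_of_nhds
    rw [h2, h3]
    rfl

lemma rdx_term {L : CVF d} (hL : Sm p L) (w : Wd) (c : ℂ) {f g : CF d} (hf : Sm p f) (hg : Sm p g) :
    unsh (fun u v => c * (op L u f p * op L v g p)) w = op L w (fun x => c * (f x * g x)) p := by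
  have h1 := (rdx_op_cmul hL c w (hf.mul hg)).self_of_nhds
  have h2 := (op_mul hL w hf hg).self_of_nhds
  rw [rdx_unsh_cmul]
  rw [h1]
  show _ = c * op L w (fun x => f x * g x) p
  rw [h2]

lemma rdx_op_sum_at {ι : Type*} {s : Finset ι} {L : CVF d} (hL : Sm p L) (w : Wd) {f : ι → CF d}
    (hf : ∀ i ∈ s, Sm p (f i)) :
    op L w (fun x => ∑ i ∈ s, f i x) p = ∑ i ∈ s, op L w (f i) p :=
  (rdx_op_sum hL w hf).self_of_nhds

end RdAux2

/-- JD: properties of `Rd` -/
theorem Rd_props {n : ℕ} {p : E (2 * n + 1)} (C : LCR n p) {N : ℕ} (e : Emb C N)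
    (L : CVF (2 * n + 1)) (hL : Sm p L)
    (hspan : ∀ᶠ x in 𝓝 p, L x ∈ Submodule.span ℂ (Set.range fun l => C.K l x)) :
    (∀ u v, Rd p L e.Z e.ρ (cj v) (cj u) = (starRingEnd ℂ) (Rd p L e.Z e.ρ u v)) ∧
    (∀ u v, u.length < N → Rd p L e.Z e.ρ (false :: u) v = 0) ∧
    (∀ u v, v.length < N → Rd p L e.Z e.ρ u (true :: v) = 0) ∧
    (∀ w, w.length < N → unsh (Rd p L e.Z e.ρ) w = 0) ∧
    (∀ w, w ≠ [] → 2 ≤ N → brU w (Rd p L e.Z e.ρ) [] [] = e.g p * pair C.η (brVF L w) p) ∧
    (∀ w, w.length + 2 < N → unsh (DU true (DV false (Rd p L e.Z e.ρ))) w =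
      op L w (fun x => e.g x * pair C.η (lieBr L (cjVF L)) x) p) := by
  classical
  have hA := fun a => rdx_smA (p := p) e.smZ a
  have hB := fun a => rdx_smB (p := p) e.smZ a
  have hLb : Sm p (cjVF L) := hL.cjVF
  -- (1)
  have H1 : ∀ u v, Rd p L e.Z e.ρ (cj v) (cj u) = (starRingEnd ℂ) (Rd p L e.Z e.ρ u v) := by
    intro u v
    let sw : ((Fin (n + 1) ⊕ Fin (n + 1)) →₀ ℕ) → ((Fin (n + 1) ⊕ Fin (n + 1)) →₀ ℕ) :=
      Finsupp.mapDomain Sum.swap
    have hswl : ∀ a i, sw a (Sum.inl i) = a (Sum.inr i) := fun a i => by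
      have := Finsupp.mapDomain_apply (f := (Sum.swap : Fin (n + 1) ⊕ Fin (n + 1) → _))
        (Equiv.sumComm _ _).injective a (Sum.inr i)
      simpa [sw] using this
    have hswr : ∀ a i, sw a (Sum.inr i) = a (Sum.inl i) := fun a i => by
      have := Finsupp.mapDomain_apply (f := (Sum.swap : Fin (n + 1) ⊕ Fin (n + 1) → _))
        (Equiv.sumComm _ _).injective a (Sum.inl i)
      simpa [sw] using this
    have hsw2 : ∀ a, sw (sw a) = a := by
      intro a
      ext i
      cases i with
      | inl i => rw [hswl, hswr]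
      | inr i => rw [hswr, hswl]
    have hcoef : ∀ a, e.ρ.coeff (sw a) = (starRingEnd ℂ) (e.ρ.coeff a) := by
      intro a
      have h := e.herm
      unfold IsHerm at h
      conv_lhs => rw [← h]
      have h3 := MvPolynomial.coeff_rename_mapDomain (Sum.swap : Fin (n + 1) ⊕ Fin (n + 1) → _)
        (Equiv.sumComm _ _).injective (MvPolynomial.map (starRingEnd ℂ) e.ρ) a
      show MvPolynomial.coeff (Finsupp.mapDomain Sum.swap a) _ = _
      rw [h3, MvPolynomial.coeff_map]
    have hAB : ∀ a, rdxB e.Z (sw a) = fun x => (starRingEnd ℂ) (rdxA e.Z a x) := by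
      intro a
      funext x
      simp only [rdxA, rdxB, map_prod, map_pow, hswr]
    have hBA : ∀ a, rdxA e.Z (sw a) = fun x => (starRingEnd ℂ) (rdxB e.Z a x) := by
      intro a
      funext x
      simp only [rdxA, rdxB, map_prod, map_pow, hswl, Complex.conj_conj]
    rw [rdx_Rd, rdx_Rd, map_sum]
    symm
    refine Finset.sum_bij (fun a _ => sw a) ?_ ?_ ?_ ?_
    · intro a ha
      rw [MvPolynomial.mem_support_iff] at ha ⊢
      rw [hcoef]
      simpa using ha
    · intro a _ b _ hab
      rw [← hsw2 a, ← hsw2 b, hab]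
    · intro b hb
      refine ⟨sw b, ?_, hsw2 b⟩
      rw [MvPolynomial.mem_support_iff] at hb ⊢
      rw [hcoef]
      simpa using hb
    · intro a _
      rw [hcoef, hAB, hBA, (rdx_op_conj hL u (hA a)).self_of_nhds,
        (rdx_op_conj hL v (hB a)).self_of_nhds, map_mul, map_mul]
      ring
  -- (2)
  have hcr : ∀ i, Van p N (act (cjVF L) (e.Z i)) := by
    intro i
    obtain ⟨c, hc, hLc⟩ := rdx_coef C.smK (by
      have := C.indep.comp Sum.inl Sum.inl_injective
      simpa [Function.comp_def] using this) hL hspan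
    refine (Van.sum (s := Finset.univ) fun l _ => Van.sm_mul ((hc l).conj) (e.cr i l)).congr ?_
    filter_upwards [hLc] with x hx
    simp only [act, Finset.mul_sum]
    rw [Finset.sum_comm]
    refine Finset.sum_congr rfl fun j _ => ?_
    have : cjVF L x j = ∑ l, (starRingEnd ℂ) (c l x) * cjVF (C.K l) x j := by
      simp only [cjVF, hx j, map_sum, map_mul]
    rw [this, Finset.sum_mul]
    exact Finset.sum_congr rfl fun l _ => by ring
  have H2 : ∀ u v, u.length < N → Rd p L e.Z e.ρ (false :: u) v = 0 := by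
    intro u v hu
    rw [rdx_Rd]
    refine Finset.sum_eq_zero fun a _ => ?_
    have h1 : Van p N (act (cjVF L) (rdxA e.Z a)) := rdx_van_prod e.smZ hcr _
    have h2 : op L (false :: u) (rdxA e.Z a) p = 0 := by
      show op L u (act (cjVF L) (rdxA e.Z a)) p = 0
      exact Van.op_apply hL h1 hu
    rw [h2]; ring
  -- (3)
  have H3 : ∀ u v, v.length < N → Rd p L e.Z e.ρ u (true :: v) = 0 := by
    intro u v hv
    have h1 := H1 (cj (true :: v)) (cj u)
    rw [rdx_cj_cj, rdx_cj_cj] at h1
    rw [h1]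
    have h2 := H2 (cj v) (cj u) (by simpa [cj] using hv)
    have h3 : cj (true :: v) = false :: cj v := rfl
    rw [h3, h2, map_zero]
  -- (4)
  have H4 : ∀ w, w.length < N → unsh (Rd p L e.Z e.ρ) w = 0 := by
    intro w hw
    have e1 : Rd p L e.Z e.ρ = fun u v => ∑ a ∈ e.ρ.support, (fun a u v => e.ρ.coeff a *
        (op L u (rdxA e.Z a) p * op L v (rdxB e.Z a) p)) a u v := by
      funext u v
      rw [rdx_Rd]
      exact Finset.sum_congr rfl fun a _ => by ring
    rw [e1, rdx_unsh_sum]
    have e2 : ∀ a ∈ e.ρ.support, unsh (fun u v => e.ρ.coeff a *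
        (op L u (rdxA e.Z a) p * op L v (rdxB e.Z a) p)) w =
        op L w (fun x => e.ρ.coeff a * (rdxA e.Z a x * rdxB e.Z a x)) p := by
      intro a _
      exact rdx_term hL w _ (hA a) (hB a)
    rw [Finset.sum_congr rfl e2, ← rdx_op_sum_at hL w (fun a _ => rdx_Sm_cmul _ ((hA a).mul (hB a)))]
    have e3 : (fun x => ∑ a ∈ e.ρ.support, e.ρ.coeff a * (rdxA e.Z a x * rdxB e.Z a x)) =
        fun x => peval e.ρ (fun i => e.Z i x) := by
      funext x; rw [rdx_peval]
    rw [e3]
    exact Van.op_apply hL e.van hw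
  -- (5)
  have H5 : ∀ w, w ≠ [] → 2 ≤ N →
      brU w (Rd p L e.Z e.ρ) [] [] = e.g p * pair C.η (brVF L w) p := by
    intro w hw hN
    have e1 : Rd p L e.Z e.ρ = fun u v => ∑ a ∈ e.ρ.support,
        (fun a v => e.ρ.coeff a * op L v (rdxB e.Z a) p) a v * op L u ((fun a => rdxA e.Z a) a) p := by
      funext u v
      rw [rdx_Rd]
      exact Finset.sum_congr rfl fun a _ => by ring
    have hX := Sm.brVF hL w
    rw [e1, rdx_brU hL e.ρ.support _ w hw _ (fun a _ => hA a)]
    show ∑ a ∈ e.ρ.support, e.ρ.coeff a * rdxB e.Z a p * act (brVF L w) (rdxA e.Z a) p = _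
    have h1 := rdx_chain e.ρ (Sum.elim e.Z (fun i _ => (starRingEnd ℂ) (e.Z i p))) (brVF L w) p (by
      rintro (i | i)
      · exact (e.smZ i).differentiableAt.self_of_nhds
      · exact differentiableAt_const _)
    have e2 : (fun y => MvPolynomial.eval (fun s => (Sum.elim e.Z
        (fun i _ => (starRingEnd ℂ) (e.Z i p)) : _ → CF (2 * n + 1)) s y) e.ρ) =
        fun y => ∑ a ∈ e.ρ.support, (e.ρ.coeff a * rdxB e.Z a p) * rdxA e.Z a y := by
      funext y
      have h2 := rdx_peval2 e.Z e.ρ y p
      have h3 : (fun s => (Sum.elim e.Z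
        (fun i _ => (starRingEnd ℂ) (e.Z i p)) : _ → CF (2 * n + 1)) s y) =
        Sum.elim (fun i => e.Z i y) (fun i => (starRingEnd ℂ) (e.Z i p)) := by
        funext s; cases s <;> rfl
      rw [h3, h2]
      exact Finset.sum_congr rfl fun a _ => by ring
    have h2 := h1.2
    rw [e2] at h2
    have e3 : act (brVF L w) (fun y => ∑ a ∈ e.ρ.support, (e.ρ.coeff a * rdxB e.Z a p) * rdxA e.Z a y) p
        = ∑ a ∈ e.ρ.support, e.ρ.coeff a * rdxB e.Z a p * act (brVF L w) (rdxA e.Z a) p := by
      have h4 := act_sum (s := e.ρ.support) (X := brVF L w) (x := p)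
        (f := fun a y => (e.ρ.coeff a * rdxB e.Z a p) * rdxA e.Z a y) (fun a _ =>
          (differentiableAt_const _).mul (hA a).differentiableAt.self_of_nhds)
      rw [h4]
      refine Finset.sum_congr rfl fun a _ => ?_
      exact rdx_act_smul _ (hA a).differentiableAt.self_of_nhds
    rw [← e3, h2, Fintype.sum_sum_type]
    have e4 : ∀ i, act (brVF L w) ((Sum.elim e.Z
        (fun i _ => (starRingEnd ℂ) (e.Z i p)) : _ → CF (2 * n + 1)) (Sum.inr i)) p = 0 :=
      fun i => act_const _ _ _
    simp only [e4, mul_zero, Finset.sum_const_zero, add_zero]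
    have h5 := e.theta_eq (brVF L w) hX
    have h6 := h5.apply_eq_zero (by omega)
    have h7 : theta e.Z e.ρ (brVF L w) p = e.g p * pair C.η (brVF L w) p := by
      simpa [sub_eq_zero] using h6
    rw [← h7]
    unfold theta
    refine Finset.sum_congr rfl fun i _ => ?_
    congr 1
    unfold peval dz
    congr 2
    funext s; cases s <;> rfl
  -- (6)
  have H6 : ∀ w, w.length + 2 < N → unsh (DU true (DV false (Rd p L e.Z e.ρ))) w =
      op L w (fun x => e.g x * pair C.η (lieBr L (cjVF L)) x) p := by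
    intro w hw
    have e1 : DU true (DV false (Rd p L e.Z e.ρ)) = fun u v => ∑ a ∈ e.ρ.support, (fun a u v => e.ρ.coeff a *
        (op L u (act L (rdxA e.Z a)) p * op L v (act (cjVF L) (rdxB e.Z a)) p)) a u v := by
      funext u v
      show Rd p L e.Z e.ρ (true :: u) (false :: v) = _
      rw [rdx_Rd]
      exact Finset.sum_congr rfl fun a _ => by
        show e.ρ.coeff a * op L u (act L (rdxA e.Z a)) p * op L v (act (cjVF L) (rdxB e.Z a)) p = _
        ring
    have hA' := fun a => hL.act (hA a)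
    have hB' := fun a => hLb.act (hB a)
    rw [e1, rdx_unsh_sum]
    have e2 : ∀ a ∈ e.ρ.support, unsh (fun u v => e.ρ.coeff a *
        (op L u (act L (rdxA e.Z a)) p * op L v (act (cjVF L) (rdxB e.Z a)) p)) w =
        op L w (fun x => e.ρ.coeff a * (act L (rdxA e.Z a) x * act (cjVF L) (rdxB e.Z a) x)) p := by
      intro a _
      exact rdx_term hL w _ (hA' a) (hB' a)
    rw [Finset.sum_congr rfl e2, ← rdx_op_sum_at hL w (fun a _ => rdx_Sm_cmul _ ((hA' a).mul (hB' a)))]
    have hlevi := e.levi L L hL hL hspan hspan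
    have e3 : (fun x => ∑ a ∈ e.ρ.support, e.ρ.coeff a * (act L (rdxA e.Z a) x * act (cjVF L) (rdxB e.Z a) x))
        =ᶠ[𝓝 p] fun x => ∑ j, ∑ k, peval (dzb k (dz j e.ρ)) (fun i => e.Z i x) *
      act L (e.Z j) x * (starRingEnd ℂ) (act L (e.Z k) x) := by
      have hZd : ∀ᶠ x in 𝓝 p, ∀ i, DifferentiableAt ℝ (e.Z i) x :=
        Filter.eventually_all.2 fun i => (e.smZ i).differentiableAt
      have hAd : ∀ᶠ x in 𝓝 p, ∀ a ∈ e.ρ.support, DifferentiableAt ℝ (rdxA e.Z a) x :=
        (Finset.eventually_all e.ρ.support).2 fun a _ => (hA a).differentiableAt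
      have hBd : ∀ᶠ x in 𝓝 p, ∀ a ∈ e.ρ.support, DifferentiableAt ℝ (rdxB e.Z a) x :=
        (Finset.eventually_all e.ρ.support).2 fun a _ => (hB a).differentiableAt
      filter_upwards [hZd, hAd, hBd] with x hZd hAd hBd
      -- first derivative
      have f1 : ∀ y, ∑ a ∈ e.ρ.support, (e.ρ.coeff a * act L (rdxA e.Z a) x) * rdxB e.Z a y =
          ∑ j, act L (e.Z j) x * MvPolynomial.eval (Sum.elim (fun i => e.Z i x)
            (fun i => (starRingEnd ℂ) (e.Z i y))) (dz j e.ρ) := by
        intro y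
        have h1 := (rdx_chain e.ρ (Sum.elim e.Z (fun i _ => (starRingEnd ℂ) (e.Z i y))) L x (by
          rintro (i | i)
          · exact hZd i
          · exact differentiableAt_const _)).2
        have e2 : (fun z => MvPolynomial.eval (fun s => (Sum.elim e.Z
            (fun i _ => (starRingEnd ℂ) (e.Z i y)) : _ → CF (2 * n + 1)) s z) e.ρ) =
            fun z => ∑ a ∈ e.ρ.support, (e.ρ.coeff a * rdxB e.Z a y) * rdxA e.Z a z := by
          funext z
          have h2 := rdx_peval2 e.Z e.ρ z y
          have h3 : (fun s => (Sum.elim e.Z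
            (fun i _ => (starRingEnd ℂ) (e.Z i y)) : _ → CF (2 * n + 1)) s z) =
            Sum.elim (fun i => e.Z i z) (fun i => (starRingEnd ℂ) (e.Z i y)) := by
            funext s; cases s <;> rfl
          rw [h3, h2]
          exact Finset.sum_congr rfl fun a _ => by ring
        rw [e2] at h1
        have h4 := act_sum (s := e.ρ.support) (X := L) (x := x)
          (f := fun a z => (e.ρ.coeff a * rdxB e.Z a y) * rdxA e.Z a z) (fun a ha =>
            (differentiableAt_const _).mul (hAd a ha))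
        rw [h4, Fintype.sum_sum_type] at h1
        have e4 : ∀ i, act L ((Sum.elim e.Z
            (fun i _ => (starRingEnd ℂ) (e.Z i y)) : _ → CF (2 * n + 1)) (Sum.inr i)) x = 0 :=
          fun i => act_const _ _ _
        simp only [e4, mul_zero, Finset.sum_const_zero, add_zero] at h1
        calc _ = ∑ a ∈ e.ρ.support, act L (fun z => (e.ρ.coeff a * rdxB e.Z a y) * rdxA e.Z a z) x := by
              refine Finset.sum_congr rfl fun a ha => ?_
              rw [rdx_act_smul _ (hAd a ha)]
              ring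
          _ = _ := by
              rw [h1]
              refine Finset.sum_congr rfl fun i _ => ?_
              rw [mul_comm]
              congr 1
              unfold dz
              congr 2
              funext s; cases s <;> rfl
      -- second derivative
      have f2 : ∀ j, DifferentiableAt ℝ (fun y => MvPolynomial.eval (Sum.elim (fun i => e.Z i x)
            (fun i => (starRingEnd ℂ) (e.Z i y))) (dz j e.ρ)) x ∧
          act (cjVF L) (fun y => MvPolynomial.eval (Sum.elim (fun i => e.Z i x)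
            (fun i => (starRingEnd ℂ) (e.Z i y))) (dz j e.ρ)) x =
          ∑ k, peval (dzb k (dz j e.ρ)) (fun i => e.Z i x) * (starRingEnd ℂ) (act L (e.Z k) x) := by
        intro j
        have hcd : ∀ i, DifferentiableAt ℝ (fun y => (starRingEnd ℂ) (e.Z i y)) x := fun i =>
          (Complex.conjCLE.differentiable.differentiableAt).comp x (hZd i)
        have h1 := (rdx_chain (dz j e.ρ) (Sum.elim (fun i _ => e.Z i x)
          (fun i y => (starRingEnd ℂ) (e.Z i y))) (cjVF L) x (by
          rintro (i | i)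
          · exact differentiableAt_const _
          · exact hcd i))
        have h3 : (fun y => MvPolynomial.eval (fun s => (Sum.elim (fun i _ => e.Z i x)
            (fun i y => (starRingEnd ℂ) (e.Z i y)) : _ → CF (2 * n + 1)) s y) (dz j e.ρ)) =
            fun y => MvPolynomial.eval (Sum.elim (fun i => e.Z i x)
            (fun i => (starRingEnd ℂ) (e.Z i y))) (dz j e.ρ) := by
          funext y
          congr 2
          funext s; cases s <;> rfl
        rw [h3] at h1
        refine ⟨h1.1, ?_⟩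
        rw [h1.2, Fintype.sum_sum_type]
        have e4 : ∀ i, act (cjVF L) ((Sum.elim (fun i _ => e.Z i x)
            (fun i y => (starRingEnd ℂ) (e.Z i y)) : _ → CF (2 * n + 1)) (Sum.inl i)) x = 0 :=
          fun i => act_const _ _ _
        simp only [e4, mul_zero, Finset.sum_const_zero, zero_add]
        refine Finset.sum_congr rfl fun k _ => ?_
        have h5 : act (cjVF L) ((Sum.elim (fun i _ => e.Z i x)
            (fun i y => (starRingEnd ℂ) (e.Z i y)) : _ → CF (2 * n + 1)) (Sum.inr k)) x =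
            (starRingEnd ℂ) (act L (e.Z k) x) := by
          show act (cjVF L) (fun y => (starRingEnd ℂ) (e.Z k y)) x = _
          rw [act_conj (hZd k), rdx_cjVF_cjVF]
        rw [h5]
        congr 1
        unfold peval dzb
        congr 2
        funext s; cases s <;> rfl
      have f3 : act (cjVF L) (fun y => ∑ a ∈ e.ρ.support, (e.ρ.coeff a * act L (rdxA e.Z a) x) * rdxB e.Z a y) x
          = ∑ a ∈ e.ρ.support, e.ρ.coeff a * (act L (rdxA e.Z a) x * act (cjVF L) (rdxB e.Z a) x) := by
        have h4 := act_sum (s := e.ρ.support) (X := cjVF L) (x := x)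
          (f := fun a y => (e.ρ.coeff a * act L (rdxA e.Z a) x) * rdxB e.Z a y) (fun a ha =>
            (differentiableAt_const _).mul (hBd a ha))
        rw [h4]
        refine Finset.sum_congr rfl fun a ha => ?_
        rw [rdx_act_smul _ (hBd a ha)]
        ring
      rw [← f3, funext f1]
      have h5 := act_sum (s := Finset.univ) (X := cjVF L) (x := x)
          (f := fun j y => act L (e.Z j) x * MvPolynomial.eval (Sum.elim (fun i => e.Z i x)
            (fun i => (starRingEnd ℂ) (e.Z i y))) (dz j e.ρ)) (fun j _ =>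
            (differentiableAt_const _).mul (f2 j).1)
      rw [h5]
      refine Finset.sum_congr rfl fun j _ => ?_
      rw [rdx_act_smul _ (f2 j).1, (f2 j).2, Finset.mul_sum]
      exact Finset.sum_congr rfl fun k _ => by ring
    rw [(op_congr w e3).self_of_nhds]
    have hS1 : Sm p (fun x => ∑ j, ∑ k, peval (dzb k (dz j e.ρ)) (fun i => e.Z i x) *
      act L (e.Z j) x * (starRingEnd ℂ) (act L (e.Z k) x)) := by
      refine Sm.congr (Sm.sum (s := e.ρ.support) fun a _ => rdx_Sm_cmul (e.ρ.coeff a) ((hA' a).mul (hB' a))) e3.symm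
    have hS2 : Sm p (fun x => e.g x * pair C.η (lieBr L (cjVF L)) x) :=
      e.smg.mul (C.smη.pair (hL.lieBr hLb))
    have h8 := (rdx_op_sub hL w hS1 hS2).self_of_nhds
    have h9 := Van.op_apply hL hlevi (w := w) (by omega)
    rw [h9] at h8
    exact (sub_eq_zero.1 h8.symm)
  exact ⟨H1, H2, H3, H4, H5, H6⟩


end DAng
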