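import Pool.Agent.DAng.ExEmb
import Pool.Agent.DAng.RdP
import Pool.Agent.DAng.Posit
import Pool.Agent.DAng.Core3
import Pool.Agent.DAng.Core4

open scoped ContDiff Topology BigOperators
open Finset Asymptotics

namespace DAng

/-- homogeneous part -/
def hpart (k : ℕ) (R : Wd → Wd → ℂ) : Wd → Wd → ℂ :=
  fun u v => if u.length + v.length = k then R u v else 0

lemma unsh_level_zero : ∀ (w : Wd) {P : Wd → Wd → ℂ},
    (∀ u v : Wd, u.length + v.length = w.length → P u v = 0) → unsh P w = 0
  | [], P, h => h [] [] rfl
  | a :: w, P, h => by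
    rw [unsh, unsh_level_zero w, unsh_level_zero w, add_zero]
    · intro u v huv
      exact h u (a :: v) (by simp only [List.length_cons]; omega)
    · intro u v huv
      exact h (a :: u) v (by simp only [List.length_cons]; omega)

lemma unsh_level_congr (w : Wd) {P Q : Wd → Wd → ℂ}
    (h : ∀ u v : Wd, u.length + v.length = w.length → P u v = Q u v) : unsh P w = unsh Q w := by
  induction w generalizing P Q with
  | nil => exact h [] [] rfl
  | cons a w ih =>
    rw [unsh, unsh, ih (P := DU a P) (Q := DU a Q), ih (P := DV a P) (Q := DV a Q)]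
    · intro u v huv
      exact h u (a :: v) (by simp only [List.length_cons]; omega)
    · intro u v huv
      exact h (a :: u) v (by simp only [List.length_cons]; omega)

lemma brU_level_congr : ∀ (w : Wd) {P Q : Wd → Wd → ℂ} (u v : Wd),
    (∀ u' : Wd, u'.length = w.length + u.length → P u' v = Q u' v) →
    brU w P u v = brU w Q u v
  | [], _, _, _, _, _ => rfl
  | [a], P, Q, u, v, h => h (a :: u) (by simp; omega)
  | b :: a :: w, P, Q, u, v, h => by
    show brU (a :: w) P (b :: u) v - brU (a :: w) (DU b P) u v =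
      brU (a :: w) Q (b :: u) v - brU (a :: w) (DU b Q) u v
    rw [brU_level_congr (a :: w) (b :: u) v (P := P) (Q := Q)
      (fun u' hu => h u' (by simp only [List.length_cons] at hu ⊢; omega)),
      brU_level_congr (a :: w) u v (P := DU b P) (Q := DU b Q)
      (fun u' hu => h (b :: u') (by simp only [List.length_cons] at hu ⊢; omega))]

lemma brU_zero1 : ∀ (w : Wd) (u v : Wd), brU w (fun _ _ => (0 : ℂ)) u v = 0
  | [], _, _ => rfl
  | [_], _, _ => rfl
  | b :: a :: w, u, v => by
    show brU (a :: w) (fun _ _ => (0 : ℂ)) (b :: u) v - brU (a :: w) (fun _ _ => (0 : ℂ)) u v = 0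
    rw [brU_zero1 (a :: w), brU_zero1 (a :: w), sub_zero]

variable {d : ℕ} {p : E d}

lemma op_mul_zero {L : CVF d} (hL : Sm p L) {h f : CF d} (hh : Sm p h) (hf : Sm p f) {s : ℕ}
    (h0 : ∀ w : Wd, w.length ≤ s → op L w f p = 0) :
    ∀ w : Wd, w.length ≤ s → op L w (fun x => h x * f x) p = 0 := by
  intro w hw
  rw [(op_mul hL w hh hf).self_of_nhds]
  exact unsh_level_zero w fun u v huv => by rw [h0 v (by omega), mul_zero]

/-- the key theorem for germs -/
theorem key {n : ℕ} {p : E (2 * n + 1)} (C : LCR n p) (L : CVF (2 * n + 1)) (hL : Sm p L)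
    (hspan : ∀ᶠ x in 𝓝 p, L x ∈ Submodule.span ℂ (Set.range fun l => C.K l x)) (m : ℕ)
    (hm : (∃ w : Wd, w.length = m ∧ pair C.η (brVF L w) p ≠ 0) ∨
      (∃ w : Wd, w.length + 2 = m ∧ op L w (pair C.η (lieBr L (cjVF L))) p ≠ 0)) :
    ∃ k, k ≤ m ∧ 2 ≤ k ∧
      (∃ w : Wd, w.length = k ∧ pair C.η (brVF L w) p ≠ 0) ∧
      (∃ w : Wd, w.length + 2 = k ∧ op L w (pair C.η (lieBr L (cjVF L))) p ≠ 0) ∧
      (∀ w : Wd, w.length < k → pair C.η (brVF L w) p = 0) ∧
      (∀ w : Wd, w.length + 2 < k → op L w (pair C.η (lieBr L (cjVF L))) p = 0) := by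
  classical
  obtain ⟨e⟩ := exists_emb C (m + 4)
  set R := Rd p L e.Z e.ρ with hR
  obtain ⟨herm, crU, crV, hdiag, hbr, hlev⟩ := Rd_props C e L hL hspan
  rw [← hR] at herm crU crV hdiag hbr hlev
  have hg : e.g p ≠ 0 := by
    intro h
    have := e.g0
    rw [h] at this
    simp at this
  have hsml : Sm p (pair C.η (lieBr L (cjVF L))) := C.smη.pair (hL.lieBr hL.cjVF)
  -- levels
  have hnil : pair C.η (brVF L []) p = 0 := by simp [pair, brVF]
  -- brackets from R
  have hT : ∀ j, (∀ u v : Wd, u.length + v.length = j → R u v = 0) →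
      ∀ w : Wd, w.length = j → pair C.η (brVF L w) p = 0 := by
    intro j hj w hw
    by_cases h0 : w = []
    · subst h0; exact hnil
    · have h1 := hbr w h0 (by omega)
      have h2 : brU w R [] [] = 0 := by
        rw [brU_level_congr w [] [] (Q := fun _ _ => (0 : ℂ)) (fun u' hu => hj u' [] (by
          simp at hu ⊢; omega)), brU_zero1]
      rw [h2] at h1
      exact (mul_eq_zero.1 h1.symm).resolve_left hg
  have hC : ∀ j, j ≤ m → (∀ u v : Wd, u.length + v.length ≤ j → R u v = 0) →
      ∀ w : Wd, w.length + 2 ≤ j → op L w (pair C.η (lieBr L (cjVF L))) p = 0 := by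
    intro j hjm hj w hw
    have h1 : ∀ w : Wd, w.length ≤ j - 2 →
        op L w (fun x => e.g x * pair C.η (lieBr L (cjVF L)) x) p = 0 := by
      intro w hw'
      rw [← hlev w (by omega)]
      exact unsh_level_zero w fun u v huv => hj _ _ (by simp only [List.length_cons]; omega)
    have h2 := op_mul_zero hL (e.smg.inv hg) (e.smg.mul hsml) h1 w (by omega)
    have e1 : (fun x => (e.g x)⁻¹ * (e.g x * pair C.η (lieBr L (cjVF L)) x)) =ᶠ[𝓝 p]
        pair C.η (lieBr L (cjVF L)) := by
      filter_upwards [e.smg.continuousAt.eventually_ne hg] with x hx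
      field_simp
    rw [(op_congr w e1).self_of_nhds] at h2
    exact h2
  -- existence of a nonzero level
  have hex : ∃ k, k ≤ m ∧ ∃ u v : Wd, u.length + v.length = k ∧ R u v ≠ 0 := by
    by_contra hcon
    push Not at hcon
    have hz : ∀ u v : Wd, u.length + v.length ≤ m → R u v = 0 :=
      fun u v huv => hcon _ huv u v rfl
    rcases hm with ⟨w, hw, hne⟩ | ⟨w, hw, hne⟩
    · exact hne (hT m (fun u v huv => hz u v huv.le) w hw)
    · exact hne (hC m le_rfl hz w hw.le)
  have hex' : ∃ k, ∃ u v : Wd, u.length + v.length = k ∧ R u v ≠ 0 := by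
    obtain ⟨k, _, h⟩ := hex; exact ⟨k, h⟩
  set k := Nat.find hex' with hk
  obtain ⟨u0, v0, huv0, hne0⟩ := Nat.find_spec hex'
  have hkm : k ≤ m := by
    obtain ⟨j, hj, h⟩ := hex
    exact (Nat.find_min' hex' h).trans hj
  have hlow : ∀ u v : Wd, u.length + v.length < k → R u v = 0 := by
    intro u v huv
    by_contra h
    exact Nat.find_min hex' huv ⟨u, v, rfl, h⟩
  have hk1 : 1 ≤ k := by
    by_contra h0
    have h0' : k = 0 := by omega
    have h1 := hdiag [] (by simp)
    have hu : u0 = [] := List.length_eq_zero_iff.1 (by omega)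
    have hv : v0 = [] := List.length_eq_zero_iff.1 (by omega)
    subst hu; subst hv
    exact hne0 h1
  -- the homogeneous part
  have hHom : HomR k (hpart k R) := by
    refine ⟨?_, ?_, ?_, ?_, ?_, ?_⟩
    · intro u v h; simp [hpart, h]
    · intro u v
      simp only [hpart, cj_length]
      by_cases h : u.length + v.length = k
      · rw [if_pos (by omega), if_pos h, herm]
      · rw [if_neg (by omega), if_neg h, map_zero]
    · intro u v
      simp only [hpart]
      split_ifs with h
      · exact crU u v (by simp only [List.length_cons] at h; omega)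
      · rfl
    · intro u v
      simp only [hpart]
      split_ifs with h
      · exact crV u v (by simp only [List.length_cons] at h; omega)
      · rfl
    · intro w
      by_cases h : w.length = k
      · rw [unsh_level_congr w (Q := R)]
        · exact hdiag w (by omega)
        · intro u v huv
          simp only [hpart]; rw [if_pos (by omega)]
      · exact unsh_level_zero w fun u v huv => by simp only [hpart]; rw [if_neg (by omega)]
    · intro φ ψ hφ hψ
      have := positivity C e L hL k (by omega) hlow φ ψ hφ hψ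
      refine this.trans_eq ?_
      congr 1
      exact sumP_congr' k fun u v huv => by simp only [hpart]; rw [if_pos huv]
  have hne : ¬ ∀ u v, hpart k R u v = 0 := by
    intro h
    have := h u0 v0
    simp only [hpart] at this
    rw [if_pos huv0] at this
    exact hne0 this
  have hbrk : ∀ w : Wd, w.length = k → brU w (hpart k R) [] [] = brU w R [] [] := by
    intro w hw
    exact brU_level_congr w [] [] fun u' hu => by
      simp only [hpart]; rw [if_pos (by simp at hu ⊢; omega)]
  have hTk : ∃ w : Wd, w.length = k ∧ pair C.η (brVF L w) p ≠ 0 := by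
    by_contra hcon
    push Not at hcon
    refine hne (core3 k hk1 _ hHom fun w hw => ?_)
    rw [hbrk w hw, hbr w (by rintro rfl; simp at hw; omega) (by omega), hcon w hw, mul_zero]
  have hLη : ∀ a : Bool, pair C.η (LX L a) p = 0 := by
    have h1 : pair C.η L p = 0 := by
      have h2 := hspan.self_of_nhds
      have h3 : ∀ l, ∑ i, (C.η p i : ℂ) * C.K l p i = 0 := fun l => (C.ann l).self_of_nhds
      refine Submodule.span_induction (p := fun v _ => ∑ i, (C.η p i : ℂ) * v i = 0) ?_ ?_ ?_ ?_ h2
      · rintro _ ⟨l, rfl⟩; exact h3 l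
      · simp
      · intro x y _ _ hx hy
        simp only [Pi.add_apply, mul_add, Finset.sum_add_distrib, hx, hy, add_zero]
      · intro a x _ hx
        simp only [Pi.smul_apply, smul_eq_mul]
        have : ∀ i, (C.η p i : ℂ) * (a * x i) = a * ((C.η p i : ℂ) * x i) := fun i => by ring
        simp only [this, ← Finset.mul_sum, hx, mul_zero]
    intro a
    cases a
    · show ∑ i, (C.η p i : ℂ) * (starRingEnd ℂ) (L p i) = 0
      have h2 : (starRingEnd ℂ) (∑ i, (C.η p i : ℂ) * L p i) = 0 := by
        have : ∑ i, (C.η p i : ℂ) * L p i = 0 := h1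
        rw [this, map_zero]
      rw [map_sum] at h2
      rw [← h2]
      exact Finset.sum_congr rfl fun i _ => by simp
    · exact h1
  have hk2 : 2 ≤ k := by
    obtain ⟨w, hw, h⟩ := hTk
    by_contra hlt
    have h1 : w.length = 1 := by omega
    obtain ⟨a, rfl⟩ := List.length_eq_one_iff.1 h1
    exact h (hLη a)
  have hCk : ∃ w : Wd, w.length + 2 = k ∧ op L w (pair C.η (lieBr L (cjVF L))) p ≠ 0 := by
    by_contra hcon
    push Not at hcon
    have hlow2 : ∀ w : Wd, w.length ≤ k - 2 → op L w (pair C.η (lieBr L (cjVF L))) p = 0 := by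
      intro w hw
      by_cases h : w.length + 2 = k
      · exact hcon w h
      · exact hC (k - 1) (by omega) (fun u v huv => hlow u v (by omega)) w (by omega)
    have h1 := op_mul_zero hL e.smg hsml hlow2
    refine hne (core3 k hk1 _ hHom fun w hw => ?_)
    refine core4 k hk1 _ hHom ?_ w (by rintro rfl; simp at hw; omega)
    intro w
    by_cases hw : w.length + 2 = k
    · rw [unsh_level_congr w (Q := DU true (DV false R)), hlev w (by omega)]
      · exact h1 w (by omega)
      · intro u v huv
        simp only [DU, DV, hpart]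
        rw [if_pos (by simp only [List.length_cons]; omega)]
    · refine unsh_level_zero w fun u v huv => ?_
      simp only [DU, DV, hpart]
      rw [if_neg (by simp only [List.length_cons]; omega)]
  refine ⟨k, hkm, hk2, hTk, hCk, ?_, ?_⟩
  · intro w hw
    exact hT w.length (fun u v huv => hlow u v (by omega)) w rfl
  · intro w hw
    exact hC (k - 1) (by omega) (fun u v huv => hlow u v (by omega)) w (by omega)

end DAng
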