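import Pool.Agent.DAng.Base

open scoped ContDiff Topology BigOperators
open Finset

namespace DAng
variable {d : ℕ} {p : E d}

/-! ### smooth germs -/

lemma Sm.self {F : Type*} [NormedAddCommGroup F] [NormedSpace ℝ F] {f : E d → F} (h : Sm p f) :
    ContDiffAt ℝ ∞ f p := h.self_of_nhds

lemma Sm.congr {F : Type*} [NormedAddCommGroup F] [NormedSpace ℝ F] {f g : E d → F} (h : Sm p f)
    (e : g =ᶠ[𝓝 p] f) : Sm p g := by
  have h2 : ∀ᶠ x in 𝓝 p, g =ᶠ[𝓝 x] f := Filter.Eventually.eventually_nhds e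
  filter_upwards [h, h2] with x hx hx2
  exact hx.congr_of_eventuallyEq hx2

lemma Sm.add {F : Type*} [NormedAddCommGroup F] [NormedSpace ℝ F] {f g : E d → F} (hf : Sm p f)
    (hg : Sm p g) : Sm p (fun x => f x + g x) := by
  filter_upwards [hf, hg] with x h1 h2 using h1.add h2

lemma Sm.sub {F : Type*} [NormedAddCommGroup F] [NormedSpace ℝ F] {f g : E d → F} (hf : Sm p f)
    (hg : Sm p g) : Sm p (fun x => f x - g x) := by
  filter_upwards [hf, hg] with x h1 h2 using h1.sub h2

lemma Sm.neg {F : Type*} [NormedAddCommGroup F] [NormedSpace ℝ F] {f : E d → F} (hf : Sm p f) :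
    Sm p (fun x => - f x) := by
  filter_upwards [hf] with x h1 using h1.neg

lemma Sm.mul {f g : CF d} (hf : Sm p f) (hg : Sm p g) : Sm p (fun x => f x * g x) := by
  filter_upwards [hf, hg] with x h1 h2 using h1.mul h2

lemma Sm.const {F : Type*} [NormedAddCommGroup F] [NormedSpace ℝ F] (c : F) :
    Sm p (fun _ : E d => c) := Filter.Eventually.of_forall fun _ => contDiffAt_const

lemma Sm.sum {ι : Type*} {s : Finset ι} {f : ι → CF d} (h : ∀ i ∈ s, Sm p (f i)) :
    Sm p (fun x => ∑ i ∈ s, f i x) := by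
  classical
  induction s using Finset.induction_on with
  | empty => simpa using Sm.const (p := p) (0 : ℂ)
  | insert a s ha ih =>
    have h1 := h a (by simp)
    have h2 := ih (fun i hi => h i (by simp [hi]))
    refine (h1.add h2).congr ?_
    filter_upwards with x
    rw [Finset.sum_insert ha]

lemma Sm.prod {ι : Type*} {s : Finset ι} {f : ι → CF d} (h : ∀ i ∈ s, Sm p (f i)) :
    Sm p (fun x => ∏ i ∈ s, f i x) := by
  classical
  induction s using Finset.induction_on with
  | empty => simpa using Sm.const (p := p) (1 : ℂ)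
  | insert a s ha ih =>
    have h1 := h a (by simp)
    have h2 := ih (fun i hi => h i (by simp [hi]))
    refine (h1.mul h2).congr ?_
    filter_upwards with x
    rw [Finset.prod_insert ha]

lemma Sm.pow {f : CF d} (hf : Sm p f) (n : ℕ) : Sm p (fun x => f x ^ n) := by
  filter_upwards [hf] with x h1 using h1.pow n

lemma Sm.conj {f : CF d} (hf : Sm p f) : Sm p (fun x => (starRingEnd ℂ) (f x)) := by
  filter_upwards [hf] with x h1
  exact (Complex.conjCLE.contDiff.contDiffAt).comp x h1

lemma Sm.ofReal {f : E d → ℝ} (hf : Sm p f) : Sm p (fun x => (f x : ℂ)) := by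
  filter_upwards [hf] with x h1
  exact (Complex.ofRealCLM.contDiff.contDiffAt).comp x h1

lemma Sm.re {f : CF d} (hf : Sm p f) : Sm p (fun x => (f x).re) := by
  filter_upwards [hf] with x h1
  exact (Complex.reCLM.contDiff.contDiffAt).comp x h1

lemma Sm.im {f : CF d} (hf : Sm p f) : Sm p (fun x => (f x).im) := by
  filter_upwards [hf] with x h1
  exact (Complex.imCLM.contDiff.contDiffAt).comp x h1

lemma Sm.comp_apply {X : CVF d} (h : Sm p X) (i : Fin d) : Sm p (fun x => X x i) := by
  filter_upwards [h] with x h1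
  exact (contDiffAt_pi.1 h1) i

lemma Sm.of_apply {X : CVF d} (h : ∀ i, Sm p (fun x => X x i)) : Sm p X := by
  have : ∀ᶠ x in 𝓝 p, ∀ i, ContDiffAt ℝ ∞ (fun x => X x i) x := Filter.eventually_all.2 h
  filter_upwards [this] with x h1
  exact contDiffAt_pi.2 h1

lemma Sm.comp_apply_real {η : E d → Fin d → ℝ} (h : Sm p η) (i : Fin d) : Sm p (fun x => η x i) := by
  filter_upwards [h] with x h1
  exact (contDiffAt_pi.1 h1) i

lemma Sm.inv {f : CF d} (hf : Sm p f) (h0 : f p ≠ 0) : Sm p (fun x => (f x)⁻¹) := by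
  have hc : ContinuousAt f p := hf.self.continuousAt
  have : ∀ᶠ x in 𝓝 p, f x ≠ 0 := hc.eventually_ne h0
  filter_upwards [hf, this] with x h1 h2 using h1.inv h2

lemma Sm.differentiableAt {F : Type*} [NormedAddCommGroup F] [NormedSpace ℝ F] {f : E d → F}
    (hf : Sm p f) : ∀ᶠ x in 𝓝 p, DifferentiableAt ℝ f x := by
  filter_upwards [hf] with x h1 using h1.differentiableAt (by simp)

lemma Sm.continuousAt {F : Type*} [NormedAddCommGroup F] [NormedSpace ℝ F] {f : E d → F}
    (hf : Sm p f) : ContinuousAt f p := hf.self.continuousAt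

lemma Sm.pd {f : CF d} (hf : Sm p f) (i : Fin d) : Sm p (pd i f) := by
  filter_upwards [hf] with x h1
  have h2 : ContDiffAt ℝ ∞ (fderiv ℝ f) x := h1.fderiv_right (by simp)
  exact h2.clm_apply contDiffAt_const

lemma pd_congr {f g : CF d} (h : f =ᶠ[𝓝 p] g) (i : Fin d) : pd i f =ᶠ[𝓝 p] pd i g := by
  have h2 : ∀ᶠ x in 𝓝 p, f =ᶠ[𝓝 x] g := Filter.Eventually.eventually_nhds h
  filter_upwards [h2] with x hx
  simp only [DAng.pd, hx.fderiv_eq]

lemma act_congr {X Y : CVF d} {f g : CF d} (hX : X =ᶠ[𝓝 p] Y) (h : f =ᶠ[𝓝 p] g) :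
    act X f =ᶠ[𝓝 p] act Y g := by
  have : ∀ᶠ x in 𝓝 p, ∀ i, DAng.pd i f x = DAng.pd i g x :=
    Filter.eventually_all.2 fun i => pd_congr h i
  filter_upwards [this, hX] with x hx hX
  simp only [act, hx, hX]

lemma Sm.act {X : CVF d} {f : CF d} (hX : Sm p X) (hf : Sm p f) : Sm p (act X f) := by
  exact Sm.sum fun i _ => (hX.comp_apply i).mul (hf.pd i)

lemma Sm.cjVF {X : CVF d} (hX : Sm p X) : Sm p (cjVF X) :=
  Sm.of_apply fun i => (hX.comp_apply i).conj

lemma Sm.LX {L : CVF d} (hL : Sm p L) (a : Bool) : Sm p (LX L a) := by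
  cases a
  · exact hL.cjVF
  · exact hL

lemma Sm.lieBr {X Y : CVF d} (hX : Sm p X) (hY : Sm p Y) : Sm p (lieBr X Y) :=
  Sm.of_apply fun i => (hX.act (hY.comp_apply i)).sub (hY.act (hX.comp_apply i))

lemma Sm.pair {η : E d → Fin d → ℝ} {X : CVF d} (hη : Sm p η) (hX : Sm p X) : Sm p (pair η X) :=
  Sm.sum fun i _ => ((hη.comp_apply_real i).ofReal).mul (hX.comp_apply i)

lemma Sm.op {L : CVF d} (hL : Sm p L) : ∀ (w : Wd) {f : CF d}, Sm p f → Sm p (op L w f)
  | [], _, hf => hf
  | a :: w, _, hf => Sm.op hL w ((hL.LX a).act hf)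

lemma Sm.brVF {L : CVF d} (hL : Sm p L) : ∀ (w : Wd), Sm p (brVF L w)
  | [] => Sm.const (p := p) (0 : Fin d → ℂ)
  | [a] => hL.LX a
  | b :: a :: w => (hL.LX b).lieBr (Sm.brVF hL (a :: w))

/-! ### rules of calculus -/

lemma pd_add {f g : CF d} {x : E d} (hf : DifferentiableAt ℝ f x) (hg : DifferentiableAt ℝ g x)
    (i : Fin d) : pd i (fun x => f x + g x) x = pd i f x + pd i g x := by
  simp only [pd]
  rw [fderiv_fun_add hf hg]; rfl

lemma pd_neg {f : CF d} {x : E d} (i : Fin d) : pd i (fun x => - f x) x = - pd i f x := by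
  simp only [pd]
  rw [fderiv_fun_neg]; rfl

lemma pd_sub {f g : CF d} {x : E d} (hf : DifferentiableAt ℝ f x) (hg : DifferentiableAt ℝ g x)
    (i : Fin d) : pd i (fun x => f x - g x) x = pd i f x - pd i g x := by
  simp only [pd]
  rw [fderiv_fun_sub hf hg]; rfl

lemma pd_const (c : ℂ) (x : E d) (i : Fin d) : pd i (fun _ => c) x = 0 := by
  simp [pd]

lemma pd_mul {f g : CF d} {x : E d} (hf : DifferentiableAt ℝ f x) (hg : DifferentiableAt ℝ g x)
    (i : Fin d) : pd i (fun x => f x * g x) x = f x * pd i g x + pd i f x * g x := by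
  simp only [pd]
  rw [fderiv_fun_mul hf hg]
  simp [mul_comm]

lemma pd_conj {f : CF d} {x : E d} (hf : DifferentiableAt ℝ f x)
    (i : Fin d) : pd i (fun x => (starRingEnd ℂ) (f x)) x = (starRingEnd ℂ) (pd i f x) := by
  simp only [pd]
  have := (Complex.conjCLE.toContinuousLinearMap.hasFDerivAt (x := f x)).comp x hf.hasFDerivAt
  have h2 := this.fderiv
  have h3 : (fun x => (starRingEnd ℂ) (f x)) = (Complex.conjCLE.toContinuousLinearMap ∘ f) := by
    funext y; simp
  rw [h3, h2]; simp

lemma act_add {X : CVF d} {f g : CF d} {x : E d} (hf : DifferentiableAt ℝ f x)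
    (hg : DifferentiableAt ℝ g x) : act X (fun x => f x + g x) x = act X f x + act X g x := by
  simp only [act, pd_add hf hg, mul_add, Finset.sum_add_distrib]

lemma act_sub {X : CVF d} {f g : CF d} {x : E d} (hf : DifferentiableAt ℝ f x)
    (hg : DifferentiableAt ℝ g x) : act X (fun x => f x - g x) x = act X f x - act X g x := by
  simp only [act, pd_sub hf hg, mul_sub, Finset.sum_sub_distrib]

lemma act_neg {X : CVF d} {f : CF d} {x : E d} : act X (fun x => - f x) x = - act X f x := by
  simp only [act, pd_neg, mul_neg, Finset.sum_neg_distrib]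

lemma act_const (X : CVF d) (c : ℂ) (x : E d) : act X (fun _ => c) x = 0 := by
  simp [act, pd_const]

lemma act_mul {X : CVF d} {f g : CF d} {x : E d} (hf : DifferentiableAt ℝ f x)
    (hg : DifferentiableAt ℝ g x) :
    act X (fun x => f x * g x) x = f x * act X g x + act X f x * g x := by
  simp only [act, pd_mul hf hg, mul_add, Finset.sum_add_distrib, Finset.mul_sum, Finset.sum_mul]
  congr 1
  · exact Finset.sum_congr rfl fun i _ => by ring
  · exact Finset.sum_congr rfl fun i _ => by ring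

lemma act_conj {X : CVF d} {f : CF d} {x : E d} (hf : DifferentiableAt ℝ f x) :
    act X (fun x => (starRingEnd ℂ) (f x)) x = (starRingEnd ℂ) (act (cjVF X) f x) := by
  simp only [act, pd_conj hf, map_sum, map_mul, cjVF]
  exact Finset.sum_congr rfl fun i _ => by simp

lemma act_sum {ι : Type*} {s : Finset ι} {X : CVF d} {f : ι → CF d} {x : E d}
    (h : ∀ i ∈ s, DifferentiableAt ℝ (f i) x) :
    act X (fun x => ∑ i ∈ s, f i x) x = ∑ i ∈ s, act X (f i) x := by
  classical
  induction s using Finset.induction_on with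
  | empty => simpa using act_const X 0 x
  | insert a s ha ih =>
    have h1 := h a (by simp)
    have h2 := ih (fun i hi => h i (by simp [hi]))
    rw [Finset.sum_insert ha, ← h2]
    have : (fun x => ∑ i ∈ insert a s, f i x) = fun x => f a x + ∑ i ∈ s, f i x := by
      funext x; rw [Finset.sum_insert ha]
    rw [this]
    exact act_add h1 (DifferentiableAt.fun_sum fun i hi => h i (by simp [hi]))

/-- symmetry of second derivatives -/
lemma pd_pd_comm {f : CF d} {x : E d} (hf : ContDiffAt ℝ ∞ f x) (i j : Fin d) :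
    pd i (pd j f) x = pd j (pd i f) x := by
  have hs : IsSymmSndFDerivAt ℝ f x :=
    ContDiffAt.isSymmSndFDerivAt hf (by
      simp only [minSmoothness_of_isRCLikeNormedField]
      exact ENat.LEInfty.out)
  have h2 : ContDiffAt ℝ ∞ (fderiv ℝ f) x := hf.fderiv_right (by simp)
  have hd : DifferentiableAt ℝ (fderiv ℝ f) x := h2.differentiableAt (by simp)
  have key : ∀ v w : E d, fderiv ℝ (fun y => fderiv ℝ f y v) x w = fderiv ℝ (fderiv ℝ f) x w v := by
    intro v w
    have := fderiv_clm_apply hd (differentiableAt_const v)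
    rw [this]
    simp
  have k1 := key (Pi.single j 1) (Pi.single i 1)
  have k2 := key (Pi.single i 1) (Pi.single j 1)
  have k3 : fderiv ℝ (fderiv ℝ f) x (Pi.single i 1) (Pi.single j 1)
      = fderiv ℝ (fderiv ℝ f) x (Pi.single j 1) (Pi.single i 1) := hs _ _
  exact k1.trans (k3.trans k2.symm)

/-- the bracket is the commutator -/
lemma act_lieBr {X Y : CVF d} {f : CF d} {x : E d} (hX : ∀ i, DifferentiableAt ℝ (fun y => X y i) x)
    (hY : ∀ i, DifferentiableAt ℝ (fun y => Y y i) x) (hf : ContDiffAt ℝ ∞ f x) :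
    act (lieBr X Y) f x = act X (act Y f) x - act Y (act X f) x := by
  have h2 : ContDiffAt ℝ ∞ (fderiv ℝ f) x := hf.fderiv_right (by simp)
  have hpd : ∀ i, DifferentiableAt ℝ (pd i f) x := fun i =>
    (h2.clm_apply contDiffAt_const).differentiableAt (by simp)
  have e : ∀ (Z W : CVF d), (∀ i, DifferentiableAt ℝ (fun y => W y i) x) →
      act Z (act W f) x = ∑ j, ∑ i, Z x i * W x j * pd i (pd j f) x
        + ∑ j, act Z (fun y => W y j) x * pd j f x := by
    intro Z W hW
    have : act Z (act W f) x = ∑ j, act Z (fun y => W y j * pd j f y) x := by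
      exact act_sum (f := fun j y => W y j * pd j f y) fun j _ => (hW j).mul (hpd j)
    rw [this, ← Finset.sum_add_distrib]
    refine Finset.sum_congr rfl fun j _ => ?_
    rw [act_mul (hW j) (hpd j)]
    congr 1
    simp only [act, Finset.mul_sum]
    exact Finset.sum_congr rfl fun i _ => by ring
  rw [e X Y hY, e Y X hX]
  have h3 : ∑ j, ∑ i, X x i * Y x j * pd i (pd j f) x = ∑ j, ∑ i, Y x i * X x j * pd i (pd j f) x := by
    rw [Finset.sum_comm]
    refine Finset.sum_congr rfl fun j _ => Finset.sum_congr rfl fun i _ => ?_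
    rw [pd_pd_comm hf]; ring
  rw [h3]
  simp only [act, lieBr]
  simp only [sub_mul, Finset.sum_sub_distrib]
  ring

/-! ### order of vanishing -/

lemma Van.sm : ∀ {m : ℕ} {f : CF d}, Van p m f → Sm p f
  | 0, _, h => h
  | _ + 1, _, h => h.1

lemma Van.congr : ∀ {m : ℕ} {f g : CF d}, Van p m f → g =ᶠ[𝓝 p] f → Van p m g
  | 0, _, _, h, e => Sm.congr h e
  | _ + 1, _, _, h, e => ⟨Sm.congr h.1 e, by rw [e.self_of_nhds]; exact h.2.1,
      fun i => Van.congr (h.2.2 i) (pd_congr e i)⟩

lemma Van.of_succ : ∀ {m : ℕ} {f : CF d}, Van p (m + 1) f → Van p m f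
  | 0, _, h => h.1
  | _ + 1, _, h => ⟨h.1, h.2.1, fun i => Van.of_succ (h.2.2 i)⟩

lemma Van.mono {m n : ℕ} {f : CF d} (h : Van p n f) (hmn : m ≤ n) : Van p m f := by
  induction hmn with
  | refl => exact h
  | step _ ih => exact ih h.of_succ

lemma Van.apply_eq_zero {m : ℕ} {f : CF d} (h : Van p m f) (hm : 0 < m) : f p = 0 := by
  obtain ⟨m, rfl⟩ := Nat.exists_eq_succ_of_ne_zero hm.ne'
  exact h.2.1

lemma Van.zero : ∀ {m : ℕ}, Van p m (fun _ => (0 : ℂ))
  | 0 => Sm.const 0
  | m + 1 => ⟨Sm.const 0, rfl, fun i => by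
      have : pd i (fun _ : E d => (0 : ℂ)) = fun _ => 0 := by funext x; exact pd_const 0 x i
      rw [this]; exact Van.zero⟩

lemma Van.add : ∀ {m : ℕ} {f g : CF d}, Van p m f → Van p m g → Van p m (fun x => f x + g x)
  | 0, _, _, hf, hg => Sm.add hf hg
  | m + 1, f, g, hf, hg => by
    refine ⟨hf.1.add hg.1, by simp [hf.2.1, hg.2.1], fun i => ?_⟩
    refine ((hf.2.2 i).add (hg.2.2 i)).congr ?_
    filter_upwards [hf.1.differentiableAt, hg.1.differentiableAt] with x h1 h2
    exact pd_add h1 h2 i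

lemma Van.neg : ∀ {m : ℕ} {f : CF d}, Van p m f → Van p m (fun x => - f x)
  | 0, _, hf => Sm.neg hf
  | m + 1, f, hf => by
    refine ⟨hf.1.neg, by simp [hf.2.1], fun i => ?_⟩
    refine ((hf.2.2 i).neg).congr ?_
    filter_upwards with x
    exact pd_neg i

lemma Van.sub {m : ℕ} {f g : CF d} (hf : Van p m f) (hg : Van p m g) :
    Van p m (fun x => f x - g x) := by
  refine (hf.add hg.neg).congr ?_
  filter_upwards with x
  ring

lemma Van.sum {ι : Type*} {s : Finset ι} {m : ℕ} {f : ι → CF d} (h : ∀ i ∈ s, Van p m (f i)) :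
    Van p m (fun x => ∑ i ∈ s, f i x) := by
  classical
  induction s using Finset.induction_on with
  | empty => simpa using Van.zero
  | insert a s ha ih =>
    have h1 := h a (by simp)
    have h2 := ih (fun i hi => h i (by simp [hi]))
    refine (h1.add h2).congr ?_
    filter_upwards with x
    rw [Finset.sum_insert ha]

lemma Van.mul_sm : ∀ {m : ℕ} {f g : CF d}, Van p m f → Sm p g → Van p m (fun x => f x * g x)
  | 0, _, _, hf, hg => Sm.mul hf hg
  | m + 1, f, g, hf, hg => by
    refine ⟨hf.1.mul hg, by simp [hf.2.1], fun i => ?_⟩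
    have h1 : Van p m f := hf.of_succ
    refine ((h1.mul_sm (hg.pd i)).add ((hf.2.2 i).mul_sm hg)).congr ?_
    filter_upwards [hf.1.differentiableAt, hg.differentiableAt] with x h1 h2
    exact pd_mul h1 h2 i

lemma Van.sm_mul {m : ℕ} {f g : CF d} (hf : Sm p f) (hg : Van p m g) :
    Van p m (fun x => f x * g x) := by
  refine (hg.mul_sm hf).congr ?_
  filter_upwards with x
  ring

lemma Van.mul : ∀ {a b : ℕ} {f g : CF d}, Van p a f → Van p b g →
    Van p (a + b) (fun x => f x * g x) := by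
  intro a
  induction a with
  | zero => intro b f g hf hg; rw [zero_add]; exact Van.sm_mul hf hg
  | succ a iha =>
    intro b
    induction b with
    | zero => intro f g hf hg; exact hf.mul_sm hg
    | succ b ihb =>
      intro f g hf hg
      refine ⟨hf.1.mul hg.1, by simp [hf.2.1], fun i => ?_⟩
      have h1 : Van p (a + (b + 1)) (fun x => pd i f x * g x) := iha (hf.2.2 i) hg
      have h2 : Van p (a + 1 + b) (fun x => f x * pd i g x) := ihb hf (hg.2.2 i)
      have e : a + 1 + b = a + (b + 1) := by omega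
      rw [e] at h2
      show Van p (a + 1 + b) _
      rw [e]
      refine (h2.add h1).congr ?_
      filter_upwards [hf.1.differentiableAt, hg.1.differentiableAt] with x h1 h2
      exact pd_mul h1 h2 i

lemma Van.conj : ∀ {m : ℕ} {f : CF d}, Van p m f → Van p m (fun x => (starRingEnd ℂ) (f x))
  | 0, _, hf => Sm.conj hf
  | m + 1, f, hf => by
    refine ⟨hf.1.conj, by simp [hf.2.1], fun i => ?_⟩
    refine ((hf.2.2 i).conj).congr ?_
    filter_upwards [hf.1.differentiableAt] with x h1
    exact pd_conj h1 i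

lemma Van.act {m : ℕ} {X : CVF d} {f : CF d} (hX : Sm p X) (hf : Van p (m + 1) f) :
    Van p m (act X f) :=
  Van.sum fun i _ => Van.sm_mul (hX.comp_apply i) (hf.2.2 i)

lemma op_congr {L : CVF d} : ∀ (w : Wd) {f g : CF d}, f =ᶠ[𝓝 p] g → op L w f =ᶠ[𝓝 p] op L w g
  | [], _, _, h => h
  | _ :: w, _, _, h => op_congr w (act_congr (Filter.EventuallyEq.refl _ _) h)

lemma Van.op {L : CVF d} (hL : Sm p L) : ∀ (w : Wd) {m : ℕ} {f : CF d},
    Van p (m + w.length) f → Van p m (op L w f)
  | [], _, _, h => h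
  | a :: w, m, f, h => by
    have h' : Van p ((m + w.length) + 1) f := by
      have : m + (a :: w).length = (m + w.length) + 1 := by simp; ring
      rwa [this] at h
    exact Van.op hL w (Van.act (hL.LX a) h')

lemma Van.op_apply {L : CVF d} (hL : Sm p L) {w : Wd} {m : ℕ} {f : CF d} (h : Van p m f)
    (hw : w.length < m) : DAng.op L w f p = 0 := by
  have h1 : Van p (1 + w.length) f := h.mono (by omega)
  exact (Van.op hL w h1).apply_eq_zero one_pos

/-- pointwise bound -/
lemma Van.bound : ∀ {m : ℕ} {f : CF d}, Van p m f →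
    ∃ C : ℝ, 0 < C ∧ ∀ᶠ x in 𝓝 p, ‖f x‖ ≤ C * ‖x - p‖ ^ m
  | 0, f, h => by
    have hc : ContinuousAt f p := h.continuousAt
    refine ⟨‖f p‖ + 1, by positivity, ?_⟩
    have : ∀ᶠ x in 𝓝 p, ‖f x‖ < ‖f p‖ + 1 := hc.norm.eventually_lt continuousAt_const (by simp)
    filter_upwards [this] with x hx
    simpa using hx.le
  | m + 1, f, h => by
    have h1 : ∀ i, ∃ C : ℝ, 0 < C ∧ ∀ᶠ x in 𝓝 p, ‖pd i f x‖ ≤ C * ‖x - p‖ ^ m :=
      fun i => (h.2.2 i).bound
    choose C hC hb using h1
    have h2 : ∀ᶠ x in 𝓝 p, ∀ i, ‖pd i f x‖ ≤ C i * ‖x - p‖ ^ m := Filter.eventually_all.2 hb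
    obtain ⟨r, hr, hball⟩ := Metric.eventually_nhds_iff_ball.1 (h2.and h.1.differentiableAt)
    refine ⟨∑ i, C i + 1, by
      have : 0 ≤ ∑ i, C i := Finset.sum_nonneg fun i _ => (hC i).le
      linarith, ?_⟩
    filter_upwards [Metric.ball_mem_nhds p hr] with x hx
    have hseg : ∀ y ∈ segment ℝ p x, ‖fderiv ℝ f y‖ ≤ (∑ i, C i) * ‖x - p‖ ^ m := by
      intro y hy
      have hyb : y ∈ Metric.ball p r :=
        (convex_ball p r).segment_subset (Metric.mem_ball_self hr) hx hy
      have hyn : ‖y - p‖ ≤ ‖x - p‖ := by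
        obtain ⟨t, ht, rfl⟩ := (segment_eq_image' ℝ p x ▸ hy : y ∈ (fun t : ℝ => p + t • (x - p)) '' Set.Icc 0 1)
        simp only [add_sub_cancel_left, norm_smul, Real.norm_eq_abs, abs_of_nonneg ht.1]
        exact mul_le_of_le_one_left (norm_nonneg _) ht.2
      refine ContinuousLinearMap.opNorm_le_bound _ (by
        have : 0 ≤ ∑ i, C i := Finset.sum_nonneg fun i _ => (hC i).le
        positivity) fun v => ?_
      have hv : fderiv ℝ f y v = ∑ i, (v i) • pd i f y := by
        conv_lhs => rw [← Finset.univ_sum_single v]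
        rw [map_sum]
        refine Finset.sum_congr rfl fun i _ => ?_
        have : (Pi.single i (v i) : Fin d → ℝ) = (v i) • Pi.single i (1 : ℝ) := by
          ext j; by_cases hj : j = i
          · subst hj; simp
          · simp [hj]
        rw [this, map_smul]; rfl
      rw [hv]
      calc ‖∑ i, (v i) • pd i f y‖ ≤ ∑ i, ‖(v i) • pd i f y‖ := norm_sum_le _ _
        _ ≤ ∑ i, C i * ‖x - p‖ ^ m * ‖v‖ := by
            refine Finset.sum_le_sum fun i _ => ?_
            rw [norm_smul, mul_comm]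
            refine mul_le_mul ?_ (norm_le_pi_norm v i) (norm_nonneg _) (by have := hC i; positivity)
            refine ((hball y hyb).1 i).trans ?_
            exact mul_le_mul_of_nonneg_left (pow_le_pow_left₀ (norm_nonneg _) hyn _) (hC i).le
        _ = (∑ i, C i) * ‖x - p‖ ^ m * ‖v‖ := by rw [Finset.sum_mul, Finset.sum_mul]
    have hdiff : ∀ y ∈ segment ℝ p x, DifferentiableAt ℝ f y := fun y hy =>
      (hball y ((convex_ball p r).segment_subset (Metric.mem_ball_self hr) hx hy)).2
    have := (convex_segment p x).norm_image_sub_le_of_norm_fderiv_le (𝕜 := ℝ) hdiff hseg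
      (left_mem_segment ℝ p x) (right_mem_segment ℝ p x)
    rw [h.2.1, sub_zero] at this
    calc ‖f x‖ ≤ (∑ i, C i) * ‖x - p‖ ^ m * ‖x - p‖ := this
      _ = (∑ i, C i) * ‖x - p‖ ^ (m + 1) := by ring
      _ ≤ (∑ i, C i + 1) * ‖x - p‖ ^ (m + 1) := by
          refine mul_le_mul_of_nonneg_right (by linarith) (by positivity)

/-! ### words and products -/

lemma unsh_congr {A : Type*} [Add A] : ∀ (w : Wd) {P Q : Wd → Wd → A}, (∀ u v, P u v = Q u v) →
    unsh P w = unsh Q w := by
  intro w P Q h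
  have : P = Q := by funext u v; exact h u v
  rw [this]

lemma op_add {L : CVF d} (hL : Sm p L) : ∀ (w : Wd) {f g : CF d}, Sm p f → Sm p g →
    op L w (fun x => f x + g x) =ᶠ[𝓝 p] fun x => op L w f x + op L w g x
  | [], _, _, _, _ => Filter.EventuallyEq.refl _ _
  | a :: w, f, g, hf, hg => by
    have h1 : act (LX L a) (fun x => f x + g x) =ᶠ[𝓝 p]
        fun x => act (LX L a) f x + act (LX L a) g x := by
      filter_upwards [hf.differentiableAt, hg.differentiableAt] with x h1 h2
      exact act_add h1 h2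
    exact (op_congr w h1).trans (op_add hL w ((hL.LX a).act hf) ((hL.LX a).act hg))

lemma op_mul {L : CVF d} (hL : Sm p L) : ∀ (w : Wd) {f g : CF d}, Sm p f → Sm p g →
    op L w (fun x => f x * g x) =ᶠ[𝓝 p] fun x => unsh (fun u v => op L u f x * op L v g x) w
  | [], _, _, _, _ => Filter.EventuallyEq.refl _ _
  | a :: w, f, g, hf, hg => by
    have hLa := hL.LX a
    have h1 : act (LX L a) (fun x => f x * g x) =ᶠ[𝓝 p]
        fun x => act (LX L a) f x * g x + f x * act (LX L a) g x := by
      filter_upwards [hf.differentiableAt, hg.differentiableAt] with x h1 h2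
      rw [act_mul h1 h2]; ring
    have h2 := (op_congr (L := L) w h1).trans (op_add hL w ((hLa.act hf).mul hg) (hf.mul (hLa.act hg)))
    have h3 := op_mul hL w (hLa.act hf) hg
    have h4 := op_mul hL w hf (hLa.act hg)
    filter_upwards [h2, h3, h4] with x h2 h3 h4
    show op L w (act (LX L a) (fun x => f x * g x)) x = _
    rw [h2, h3, h4]
    rfl

end DAng
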