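import Pool.Agent.DAng.Laurent

open scoped BigOperators Polynomial LaurentPolynomial
open Finset

namespace DAng

/-- conjugation of the coefficients on `ℂ[t]` -/
noncomputable def ct : ℂ[X] →+* ℂ[X] := Polynomial.mapRingHom (starRingEnd ℂ)
lemma ct_ct (a : ℂ[X]) : ct (ct a) = a := by
  ext n; simp [ct, Polynomial.coeff_map]

/-- Riemann-Hilbert data over `ℂ` -/
noncomputable abbrev SC : RH ℂ[X] ℂ[T;T⁻¹] ℂ := LRH (starRingEnd ℂ) (by simp)
/-- Riemann-Hilbert data over `ℂ[t]` -/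
noncomputable abbrev ST : RH ℂ[X][X] (ℂ[X])[T;T⁻¹] ℂ[X] := LRH ct ct_ct

/-- coefficient of `t` -/
noncomputable def C1 (f : (ℂ[X])[T;T⁻¹]) : ℂ[T;T⁻¹] :=
  AddMonoidAlgebra.map (Polynomial.lcoeff ℂ 1).toAddMonoidHom f
/-- value at `t = 0` -/
noncomputable def C0 : (ℂ[X])[T;T⁻¹] →+* ℂ[T;T⁻¹] :=
  AddMonoidAlgebra.mapRingHom ℤ (Polynomial.evalRingHom (0 : ℂ))

/-- the perturbed first coordinate `z₀ + t σ (T^n - 1)` -/
noncomputable def zt (z0 : ℂ[X]) (σ : ℂ) (n : ℕ) : ℂ[X][X] :=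
  z0.map Polynomial.C + Polynomial.C (Polynomial.C σ * Polynomial.X) * (Polynomial.X ^ n - 1)

/-- the first variation of the disc -/
noncomputable def q1 (q : Wd → ℂ[T;T⁻¹]) (σ : ℂ) (n : ℕ) (w : Wd) : ℂ[T;T⁻¹] :=
  LaurentPolynomial.C σ * LaurentPolynomial.T (n : ℤ) * nmul q (lett true) w
    + LaurentPolynomial.C ((starRingEnd ℂ) σ) * LaurentPolynomial.T (-(n : ℤ)) * nmul q (lett false) w
    - (LaurentPolynomial.C σ * nmul (lett true) q w
      + LaurentPolynomial.C ((starRingEnd ℂ) σ) * nmul (lett false) q w)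

/-- `P` is annihilated by all discs -/
def Kill (k m : ℕ) (P : Wd → Wd → ℂ) : Prop :=
  ∀ (z : ℂ[X]) (A : Wd → ℂ[X]), z.eval 1 = 0 → SC.IsDisc k z A →
    ∀ (x y : ℂˣ), (x : ℂ) = 2 → (y : ℂ) = 3 →
    sumP m (fun u v => P u v * lev x (SC.q z A u) * lev y (SC.q z A v)) = 0

end DAng
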