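import Pool.Agent.DAng.Base

open scoped BigOperators
open Finset

namespace DAng

section basics
variable {A : Type*}

@[simp] lemma cj_nil : cj [] = [] := rfl
@[simp] lemma cj_cons (a : Bool) (w : Wd) : cj (a :: w) = (!a) :: cj w := rfl
@[simp] lemma cj_cj (w : Wd) : cj (cj w) = w := by
  induction w with
  | nil => rfl
  | cons a w ih => simp [ih]
@[simp] lemma cj_length (w : Wd) : (cj w).length = w.length := by simp [cj]
lemma cj_eq_nil {w : Wd} : cj w = [] ↔ w = [] := by cases w <;> simp

@[simp] lemma D_apply (a : Bool) (f : Wd → A) (w : Wd) : D a f w = f (a :: w) := rfl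
@[simp] lemma DU_apply (a : Bool) (P : Wd → Wd → A) (u v : Wd) : DU a P u v = P (a :: u) v := rfl
@[simp] lemma DV_apply (a : Bool) (P : Wd → Wd → A) (u v : Wd) : DV a P u v = P u (a :: v) := rfl

@[simp] lemma shf_nil_left [Add A] (f : Wd → A) (v : Wd) : shf f [] v = f v := by
  rw [shf]
@[simp] lemma shf_nil_right [Add A] (f : Wd → A) (u : Wd) : shf f u [] = f u := by
  cases u
  · rw [shf]
  · rw [shf]
lemma shf_cons_cons [Add A] (f : Wd → A) (a b : Bool) (u v : Wd) :
    shf f (a :: u) (b :: v) = shf (D a f) u (b :: v) + shf (D b f) (a :: u) v := by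
  rw [shf]

/-- induction principle for pairs of words -/
lemma pair_induction {motive : Wd → Wd → Prop} (h1 : ∀ v, motive [] v)
    (h2 : ∀ a u, motive (a :: u) []) 
    (h3 : ∀ a u b v, motive u (b :: v) → motive (a :: u) v → motive (a :: u) (b :: v)) :
    ∀ u v, motive u v := by
  suffices H : ∀ n, ∀ u v : Wd, u.length + v.length = n → motive u v from
    fun u v => H _ u v rfl
  intro n
  induction n with
  | zero =>
    intro u v h
    have hu : u = [] := List.length_eq_zero_iff.1 (by omega)
    subst hu; exact h1 v
  | succ n ih =>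
    intro u v h
    match u, v with
    | [], v => exact h1 v
    | a :: u, [] => exact h2 a u
    | a :: u, b :: v =>
      simp only [List.length_cons] at h
      exact h3 a u b v (ih _ _ (by simp only [List.length_cons]; omega))
        (ih _ _ (by simp only [List.length_cons]; omega))

variable [CommRing A]

lemma shf_add (f g : Wd → A) (u v : Wd) :
    shf (fun w => f w + g w) u v = shf f u v + shf g u v := by
  revert f g
  refine pair_induction (motive := fun u v => ∀ f g : Wd → A,
    shf (fun w => f w + g w) u v = shf f u v + shf g u v) ?_ ?_ ?_ u v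
  · intro v f g; simp
  · intro a u f g; simp
  · intro a u b v h1 h2 f g
    have e1 : D a (fun w => f w + g w) = fun w => D a f w + D a g w := rfl
    have e2 : D b (fun w => f w + g w) = fun w => D b f w + D b g w := rfl
    rw [shf_cons_cons, shf_cons_cons, shf_cons_cons, e1, e2, h1, h2]; ring

lemma shf_smul (c : A) (f : Wd → A) (u v : Wd) :
    shf (fun w => c * f w) u v = c * shf f u v := by
  revert f
  refine pair_induction (motive := fun u v => ∀ f : Wd → A,
    shf (fun w => c * f w) u v = c * shf f u v) ?_ ?_ ?_ u v
  · intro v f; simp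
  · intro a u f; simp
  · intro a u b v h1 h2 f
    have e1 : D a (fun w => c * f w) = fun w => c * D a f w := rfl
    have e2 : D b (fun w => c * f w) = fun w => c * D b f w := rfl
    rw [shf_cons_cons, shf_cons_cons, e1, e2, h1, h2]; ring

lemma shf_sub (f g : Wd → A) (u v : Wd) :
    shf (fun w => f w - g w) u v = shf f u v - shf g u v := by
  have h : (fun w => f w - g w) = fun w => f w + (-1) * g w := by funext w; ring
  rw [h, shf_add, shf_smul]; ring

/-- `shf` only uses words of length `|u| + |v|` -/
lemma shf_congr {f g : Wd → A} {u v : Wd}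
    (h : ∀ w : Wd, w.length = u.length + v.length → f w = g w) : shf f u v = shf g u v := by
  revert f g
  refine pair_induction (motive := fun u v => ∀ {f g : Wd → A},
    (∀ w : Wd, w.length = u.length + v.length → f w = g w) → shf f u v = shf g u v) ?_ ?_ ?_ u v
  · intro v f g h; simpa using h v (by simp)
  · intro a u f g h; simpa using h (a :: u) (by simp)
  · intro a u b v h1 h2 f g h
    rw [shf_cons_cons, shf_cons_cons]
    rw [h1 (f := D a f) (g := D a g), h2 (f := D b f) (g := D b g)]
    · intro w hw
      exact h (b :: w) (by simp only [List.length_cons] at hw ⊢; omega)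
    · intro w hw
      exact h (a :: w) (by simp only [List.length_cons] at hw ⊢; omega)

lemma shf_map {B : Type*} [CommRing B] (φ : A →+ B) (f : Wd → A) (u v : Wd) :
    shf (fun w => φ (f w)) u v = φ (shf f u v) := by
  revert f
  refine pair_induction (motive := fun u v => ∀ f : Wd → A,
    shf (fun w => φ (f w)) u v = φ (shf f u v)) ?_ ?_ ?_ u v
  · intro v f; simp
  · intro a u f; simp
  · intro a u b v h1 h2 f
    have e1 : D a (fun w => φ (f w)) = fun w => φ (D a f w) := rfl
    have e2 : D b (fun w => φ (f w)) = fun w => φ (D b f w) := rfl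
    rw [shf_cons_cons, shf_cons_cons, e1, e2, h1, h2, map_add]

lemma shf_cj (f : Wd → A) (u v : Wd) :
    shf (fun w => f (cj w)) u v = shf f (cj u) (cj v) := by
  revert f
  refine pair_induction (motive := fun u v => ∀ f : Wd → A,
    shf (fun w => f (cj w)) u v = shf f (cj u) (cj v)) ?_ ?_ ?_ u v
  · intro v f; simp
  · intro a u f; simp
  · intro a u b v h1 h2 f
    have e1 : D a (fun w => f (cj w)) = fun w => (D (!a) f) (cj w) := rfl
    have e2 : D b (fun w => f (cj w)) = fun w => (D (!b) f) (cj w) := rfl
    rw [cj_cons, cj_cons, shf_cons_cons, shf_cons_cons, e1, e2, h1, h2, cj_cons, cj_cons]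

end basics

/-! ### convolution -/
section conv
variable {A : Type*} [CommRing A]

@[simp] lemma nmul_nil (f g : Wd → A) : nmul f g [] = f [] * g [] := rfl
lemma nmul_cons (f g : Wd → A) (a : Bool) (w : Wd) :
    nmul f g (a :: w) = f (a :: w) * g [] + nmul f (D a g) w := rfl

lemma nmul_congr {f f' g g' : Wd → A} : ∀ {w : Wd},
    (∀ u : Wd, u.length ≤ w.length → f u = f' u) → (∀ u : Wd, u.length ≤ w.length → g u = g' u) →
    nmul f g w = nmul f' g' w := by
  intro w
  induction w generalizing g g' with
  | nil => intro h1 h2; simp [h1 [] (by simp), h2 [] (by simp)]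
  | cons a w ih =>
    intro h1 h2
    rw [nmul_cons, nmul_cons, h1 (a :: w) le_rfl, h2 [] (by simp)]
    congr 1
    refine ih (fun u hu => h1 u (by simp only [List.length_cons]; omega)) (fun u hu => ?_)
    exact h2 (a :: u) (by simp only [List.length_cons]; omega)

lemma nmul_add_right (f g h : Wd → A) (w : Wd) :
    nmul f (fun w => g w + h w) w = nmul f g w + nmul f h w := by
  induction w generalizing g h with
  | nil => simp; ring
  | cons a w ih =>
    have e : D a (fun w => g w + h w) = fun w => D a g w + D a h w := rfl
    rw [nmul_cons, nmul_cons, nmul_cons, e, ih]; ring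

lemma nmul_add_left (f g h : Wd → A) (w : Wd) :
    nmul (fun w => f w + g w) h w = nmul f h w + nmul g h w := by
  induction w generalizing h with
  | nil => simp; ring
  | cons a w ih => rw [nmul_cons, nmul_cons, nmul_cons, ih]; ring

lemma nmul_smul_right (c : A) (f g : Wd → A) (w : Wd) :
    nmul f (fun w => c * g w) w = c * nmul f g w := by
  induction w generalizing g with
  | nil => simp; ring
  | cons a w ih =>
    have e : D a (fun w => c * g w) = fun w => c * D a g w := rfl
    rw [nmul_cons, nmul_cons, e, ih]; ring

lemma nmul_smul_left (c : A) (f g : Wd → A) (w : Wd) :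
    nmul (fun w => c * f w) g w = c * nmul f g w := by
  induction w generalizing g with
  | nil => simp; ring
  | cons a w ih => rw [nmul_cons, nmul_cons, ih]; ring

lemma nmul_zero_left (g : Wd → A) (w : Wd) : nmul (fun _ => 0) g w = 0 := by
  induction w generalizing g with
  | nil => simp
  | cons a w ih => rw [nmul_cons, ih]; ring

lemma nmul_sub_left (f g h : Wd → A) (w : Wd) :
    nmul (fun w => f w - g w) h w = nmul f h w - nmul g h w := by
  have e : (fun w => f w - g w) = fun w => f w + (-1) * g w := by funext w; ring
  rw [e, nmul_add_left, nmul_smul_left]; ring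

lemma nmul_sub_right (f g h : Wd → A) (w : Wd) :
    nmul f (fun w => g w - h w) w = nmul f g w - nmul f h w := by
  have e : (fun w => g w - h w) = fun w => g w + (-1) * h w := by funext w; ring
  rw [e, nmul_add_right, nmul_smul_right]; ring

/-- unit series -/
def one1 : Wd → A
  | [] => 1
  | _ :: _ => 0

/-- single letter -/
def lett (a : Bool) : Wd → A
  | [b] => if a = b then 1 else 0
  | _ => 0

@[simp] lemma one1_nil : (one1 [] : A) = 1 := rfl
@[simp] lemma one1_cons (a : Bool) (w : Wd) : (one1 (a :: w) : A) = 0 := rfl
@[simp] lemma lett_nil (a : Bool) : (lett a [] : A) = 0 := rfl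
lemma D_lett (a b : Bool) : (D b (lett a) : Wd → A) = fun w => (if a = b then 1 else 0) * one1 w := by
  funext w
  cases w with
  | nil => simp [lett]
  | cons c w => simp [lett]

lemma nmul_one (f : Wd → A) (w : Wd) : nmul f one1 w = f w := by
  cases w with
  | nil => simp
  | cons a w =>
    rw [nmul_cons]
    have e : (D a one1 : Wd → A) = fun _ => 0 * one1 ([] : Wd) := by funext v; simp
    have : nmul f (D a one1) w = 0 := by
      have e : (D a one1 : Wd → A) = fun _ => 0 * (fun _ : Wd => (1 : A)) w := by funext v; simp
      rw [e, nmul_smul_right]; ring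
    rw [this]; simp

lemma one_nmul (f : Wd → A) (w : Wd) : nmul one1 f w = f w := by
  induction w generalizing f with
  | nil => simp
  | cons a w ih => rw [nmul_cons, ih]; simp

lemma nmul_lett (f : Wd → A) (a : Bool) : ∀ w : Wd, nmul f (lett a) w =
    match w with
    | [] => 0
    | b :: w => if a = b then f w else 0 := by
  intro w
  cases w with
  | nil => simp
  | cons b w =>
    rw [nmul_cons, D_lett, nmul_smul_right, nmul_one]; simp

lemma nmul_assoc (f g h : Wd → A) (w : Wd) : nmul (nmul f g) h w = nmul f (nmul g h) w := by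
  induction w generalizing f g h with
  | nil => simp; ring
  | cons a w ih =>
    rw [nmul_cons, nmul_cons, nmul_cons, ih]
    have e : D a (nmul g h) = fun w => h [] * D a g w + nmul g (D a h) w := by
      funext w; simp [nmul_cons]; ring
    rw [e, nmul_add_right, nmul_smul_right]; simp; ring

/-- `nmul` when `f` vanishes on shorter words -/
lemma nmul_of_small {f g : Wd → A} : ∀ {w : Wd}, (∀ u : Wd, u.length < w.length → f u = 0) →
    nmul f g w = f w * g [] := by
  intro w h
  cases w with
  | nil => simp
  | cons a w =>
    rw [nmul_cons]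
    have : nmul f (D a g) w = nmul (fun _ => 0) (D a g) w :=
      nmul_congr (fun u hu => h u (by simp only [List.length_cons]; omega)) (fun _ _ => rfl)
    rw [this, nmul_zero_left, add_zero]

/-- convolution on pairs of words -/
def pmul : (Wd → Wd → A) → (Wd → Wd → A) → Wd → Wd → A
  | P, Q, [], v => nmul (P []) (Q []) v
  | P, Q, a :: u, v => nmul (P (a :: u)) (Q []) v + pmul P (DU a Q) u v

lemma pmul_nil (P Q : Wd → Wd → A) (v : Wd) : pmul P Q [] v = nmul (P []) (Q []) v := rfl
lemma pmul_cons (P Q : Wd → Wd → A) (a : Bool) (u v : Wd) :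
    pmul P Q (a :: u) v = nmul (P (a :: u)) (Q []) v + pmul P (DU a Q) u v := rfl

lemma pmul_nil_right (P Q : Wd → Wd → A) (u : Wd) :
    pmul P Q u [] = nmul (fun u => P u []) (fun u => Q u []) u := by
  induction u generalizing Q with
  | nil => rfl
  | cons a u ih => rw [pmul_cons, ih]; rfl

lemma pmul_zero {P Q : Wd → Wd → A} : ∀ {u v : Wd},
    (∀ u' v' : Wd, u'.length ≤ u.length → v'.length ≤ v.length → P u' v' = 0) → pmul P Q u v = 0 := by
  intro u v
  have hn : ∀ (f g : Wd → A), (∀ v' : Wd, v'.length ≤ v.length → f v' = 0) → nmul f g v = 0 := by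
    intro f g h
    have : nmul f g v = nmul (fun _ => 0) g v := nmul_congr h (fun _ _ => rfl)
    rw [this, nmul_zero_left]
  induction u generalizing Q with
  | nil => intro h; exact hn _ _ fun v' hv => h [] v' le_rfl hv
  | cons a u ih =>
    intro h
    rw [pmul_cons, hn _ _ (fun v' hv => h (a :: u) v' le_rfl hv), ih, add_zero]
    intro u' v' h1 h2
    exact h u' v' (by simp only [List.length_cons]; omega) h2

lemma pmul_of_small {P Q : Wd → Wd → A} {u v : Wd}
    (h : ∀ u' v' : Wd, u'.length + v'.length < u.length + v.length → P u' v' = 0) :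
    pmul P Q u v = P u v * Q [] [] := by
  cases u with
  | nil =>
    rw [pmul_nil]
    exact nmul_of_small fun v' hv => h [] v' (by simpa using hv)
  | cons a u =>
    rw [pmul_cons, pmul_zero, add_zero]
    · exact nmul_of_small fun v' hv => h (a :: u) v' (by omega)
    · intro u' v' h1 h2
      exact h u' v' (by simp only [List.length_cons]; omega)

lemma pmul_congr_right {P Q Q' : Wd → Wd → A} (h : ∀ u v, Q u v = Q' u v) (u v : Wd) :
    pmul P Q u v = pmul P Q' u v := by
  have : Q = Q' := by funext u v; exact h u v
  rw [this]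

lemma pmul_sub_left (P P' Q : Wd → Wd → A) (u v : Wd) :
    pmul (fun u v => P u v - P' u v) Q u v = pmul P Q u v - pmul P' Q u v := by
  induction u generalizing Q with
  | nil => rw [pmul_nil, pmul_nil, pmul_nil, nmul_sub_left]
  | cons a u ih => rw [pmul_cons, pmul_cons, pmul_cons, ih, nmul_sub_left]; ring

lemma pmul_tensor (f g f' g' : Wd → A) (u v : Wd) :
    pmul (fun u v => f u * g v) (fun u v => f' u * g' v) u v = nmul f f' u * nmul g g' v := by
  induction u generalizing f' with
  | nil =>
    rw [pmul_nil, nmul_smul_left, nmul_smul_right]; simp; ring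
  | cons a u ih =>
    have e : DU a (fun u v => f' u * g' v) = fun u v => D a f' u * g' v := rfl
    rw [pmul_cons, e, ih, nmul_smul_left, nmul_smul_right, nmul_cons]; ring

lemma pmul_step {P Q1 Q2 Q3 : Wd → Wd → A} (b : Bool)
    (h1 : ∀ u, Q1 u [] = Q2 u []) (h2 : ∀ u v, Q1 u (b :: v) = Q2 u (b :: v) + Q3 u v) (u v : Wd) :
    pmul P Q1 u (b :: v) = pmul P Q2 u (b :: v) + pmul P Q3 u v := by
  have key : ∀ (f : Wd → A) (q1 q2 q3 : Wd → A), q1 [] = q2 [] →
      (∀ v, q1 (b :: v) = q2 (b :: v) + q3 v) → 
      nmul f q1 (b :: v) = nmul f q2 (b :: v) + nmul f q3 v := by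
    intro f q1 q2 q3 k1 k2
    have e : D b q1 = fun v => D b q2 v + q3 v := by funext v; exact k2 v
    rw [nmul_cons, nmul_cons, e, nmul_add_right, k1]; ring
  induction u generalizing Q1 Q2 Q3 with
  | nil => exact key _ _ _ _ (h1 []) (h2 [])
  | cons a u ih =>
    rw [pmul_cons, pmul_cons, pmul_cons, key _ _ _ _ (h1 []) (h2 []),
      ih (Q1 := DU a Q1) (Q2 := DU a Q2) (Q3 := DU a Q3) (fun u => h1 (a :: u))
        (fun u v => h2 (a :: u) v)]
    ring

/-- compatibility of shuffles and deconcatenation -/
theorem shf_nmul (f g : Wd → A) (u v : Wd) :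
    shf (nmul f g) u v = pmul (shf f) (shf g) u v := by
  revert g
  refine pair_induction (motive := fun u v => ∀ g : Wd → A,
    shf (nmul f g) u v = pmul (shf f) (shf g) u v) ?_ ?_ ?_ u v
  · intro v g
    have e1 : shf f [] = f := by funext v; simp
    have e2 : shf g [] = g := by funext v; simp
    rw [pmul_nil, e1, e2]; simp
  · intro a u g
    have e1 : (fun u => shf f u []) = f := by funext v; simp
    have e2 : (fun u => shf g u []) = g := by funext v; simp
    rw [pmul_nil_right, e1, e2]; simp
  · intro a u b v h1 h2 g
    have e : ∀ c : Bool, D c (nmul f g) = fun w => g [] * D c f w + nmul f (D c g) w := by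
      intro c; funext w; simp [nmul_cons]; ring
    rw [shf_cons_cons, e, e, shf_add, shf_add, shf_smul, shf_smul, h1, h2]
    have k1 := pmul_step (P := shf f) (Q1 := DU a (shf g)) (Q2 := shf (D a g))
      (Q3 := DU a (shf (D b g))) b (fun u => by simp) (fun u v => by simp [shf_cons_cons]) u v
    rw [pmul_cons (shf f) (shf (D b g)), pmul_cons (shf f) (shf g), k1]
    have e2 : shf (D b g) [] = D b g := by funext v; simp
    have e3 : shf g [] = g := by funext v; simp
    rw [e2, e3, nmul_cons, shf_cons_cons f]
    ring

/-- product of characters is a character -/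
lemma IsChar.nmul {k : ℕ} {f g : Wd → A} (hf : IsChar k f) (hg : IsChar k g) :
    IsChar k (nmul f g) := by
  refine ⟨by simp [hf.1, hg.1], fun u v h => ?_⟩
  rw [shf_nmul, ← pmul_tensor]
  have hloc : ∀ (P P' Q Q' : Wd → Wd → A) (u v : Wd), u.length + v.length ≤ k →
      (∀ u v : Wd, u.length + v.length ≤ k → P u v = P' u v) →
      (∀ u' v' : Wd, u'.length ≤ u.length → v'.length ≤ v.length → Q u' v' = Q' u' v') →
      pmul P Q u v = pmul P' Q' u v := by
    intro P P' Q Q' u v huv hP hQ
    induction u generalizing Q Q' with
    | nil =>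
      rw [pmul_nil, pmul_nil]
      exact nmul_congr (fun v' hv => hP [] v' (by simp at huv ⊢; omega))
        (fun v' hv => hQ [] v' le_rfl hv)
    | cons a u ih =>
      rw [pmul_cons, pmul_cons, ih (DU a Q) (DU a Q')]
      · congr 1
        exact nmul_congr (fun v' hv => hP _ _ (by simp only [List.length_cons] at huv ⊢; omega))
          (fun v' hv => hQ [] v' (by simp) hv)
      · simp only [List.length_cons] at huv; omega
      · intro u' v' h1 h2
        exact hQ (a :: u') v' (by simp only [List.length_cons]; omega) h2
  refine hloc _ _ _ _ u v h hf.2 ?_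
  intro u' v' h1 h2
  exact hg.2 u' v' (by omega)

end conv

/-! ### exponentials -/
section exp
variable {A : Type*} [CommRing A] [Algebra ℚ A]

/-- `exp (∑ ξ a • a)` -/
noncomputable def Ex (ξ : Bool → A) (w : Wd) : A :=
  algebraMap ℚ A (1 / (w.length.factorial : ℚ)) * (w.map ξ).prod

@[simp] lemma Ex_nil (ξ : Bool → A) : Ex ξ [] = 1 := by simp [Ex]

lemma Ex_shf (ξ : Bool → A) (u v : Wd) : shf (Ex ξ) u v = Ex ξ u * Ex ξ v := by
  have key : ∀ u v : Wd, ∀ c : ℕ → A, shf (fun w => c w.length * (w.map ξ).prod) u v =
      ((u.length + v.length).choose u.length : A) * c (u.length + v.length) *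
        ((u.map ξ).prod * (v.map ξ).prod) := by
    intro u v
    refine pair_induction (motive := fun u v => ∀ c : ℕ → A,
      shf (fun w => c w.length * (w.map ξ).prod) u v =
      ((u.length + v.length).choose u.length : A) * c (u.length + v.length) *
        ((u.map ξ).prod * (v.map ξ).prod)) ?_ ?_ ?_ u v
    · intro v c; simp
    · intro a u c; simp
    · intro a u b v h1 h2 c
      have e : ∀ x : Bool, D x (fun w => c w.length * (w.map ξ).prod) =
          fun w => ξ x * ((fun n => c (n + 1)) w.length * (w.map ξ).prod) := by
        intro x; funext w; simp; ring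
      have k1 := h1 (fun n => c (n + 1))
      have k2 := h2 (fun n => c (n + 1))
      rw [shf_cons_cons, e, e, shf_smul, shf_smul]
      rw [k1, k2]
      simp only [List.length_cons, List.map_cons, List.prod_cons]
      have e1 : u.length + (v.length + 1) + 1 = u.length + 1 + (v.length + 1) := by ring
      have e2 : u.length + 1 + v.length + 1 = u.length + 1 + (v.length + 1) := by ring
      rw [e1, e2]
      have e3 : ((u.length + 1 + (v.length + 1)).choose (u.length + 1) : A) =
          ((u.length + (v.length + 1)).choose u.length : A) +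
          ((u.length + 1 + v.length).choose (u.length + 1) : A) := by
        rw [← Nat.cast_add]
        congr 1
        have : u.length + 1 + (v.length + 1) = (u.length + (v.length + 1)) + 1 := by ring
        rw [this, Nat.choose_succ_succ]
        congr 2; ring
      rw [e3]; ring
  have h := key u v (fun n => algebraMap ℚ A (1 / (n.factorial : ℚ)))
  have e : (fun w : Wd => (fun n : ℕ => algebraMap ℚ A (1 / (n.factorial : ℚ))) w.length *
      (w.map ξ).prod) = Ex ξ := by funext w; rfl
  rw [e] at h
  rw [h, Ex, Ex]
  have e2 : ((u.length + v.length).choose u.length : A) *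
      algebraMap ℚ A (1 / ((u.length + v.length).factorial : ℚ)) =
      algebraMap ℚ A (1 / (u.length.factorial : ℚ)) * algebraMap ℚ A (1 / (v.length.factorial : ℚ)) := by
    have : ((u.length + v.length).choose u.length : A) =
        algebraMap ℚ A ((u.length + v.length).choose u.length : ℚ) := by simp
    rw [this, ← map_mul, ← map_mul]
    congr 1
    have h1 := Nat.add_choose_mul_factorial_mul_factorial u.length v.length
    rw [← Nat.choose_symm_add] at h1
    have h2 : ((u.length + v.length).choose u.length : ℚ) * u.length.factorial * v.length.factorial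
        = (u.length + v.length).factorial := by exact_mod_cast h1
    have f1 : (u.length.factorial : ℚ) ≠ 0 := by positivity
    have f2 : (v.length.factorial : ℚ) ≠ 0 := by positivity
    have f3 : ((u.length + v.length).factorial : ℚ) ≠ 0 := by positivity
    field_simp
    linarith
  calc _ = (((u.length + v.length).choose u.length : A) *
      algebraMap ℚ A (1 / ((u.length + v.length).factorial : ℚ))) *
      ((u.map ξ).prod * (v.map ξ).prod) := by ring
    _ = _ := by rw [e2]; ring

lemma Ex_isChar (k : ℕ) (ξ : Bool → A) : IsChar k (Ex ξ) :=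
  ⟨Ex_nil ξ, fun u v _ => Ex_shf ξ u v⟩

end exp

end DAng
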